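import Pool.Agent.TZ.Defs

/-!
Project TZ (MP_b753aa_pr), module KerA: the projection `P`.
Proof. `P k l = (1/(2n)) ∑_{j<n} conj(ex n (j k)) ex n (j l)`, `U Uᴴ = 1` by geometric sums (`ex n` is periodic mod `2n`,
`∑_{j<2n} ex^j = 0` unless trivial), so `P² = Uᴴ Q U Uᴴ Q U = P`. `n` is `≥ 1` where needed (`n = 0`: `Fin 0`, trivial).
`P k k = 1/2`. `k - l` even, `≠ 0`: `P k l = 0`; `k - l` odd: `P k l = (1/n) / (1 - z)`, `z = exp(-πi (k-l)/n)`.
`|1 - e^{-iφ}| ≥ (2/π)|φ|` for `|φ| ≤ π` gives (dec) for `|k-l| ≤ n`; for `|k - l| > n` use that `z` does not change when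
`k - l` is replaced by `k - l ∓ 2n`. (pinf): with `φ = π m / n`: `|1/(1-e^{-iφ}) - 1/(iφ)| = |e^{-iφ} - 1 + iφ| / (|φ| |1 - e^{-iφ}|)
≤ (φ²/2)/(|φ| (2/π)|φ|) = π/4 ≤ 1`.
-/

noncomputable section

namespace TZ

open MeasureTheory ProbabilityTheory Filter Topology Matrix
open scoped Real

/-- the ratio of the geometric sum -/
def KerA_w (n : ℕ) (k l : ℕ) : ℂ := Complex.exp (Complex.I * ((π * ((l : ℝ) - k) / n : ℝ) : ℂ))

theorem KerA_term {n : ℕ} (hn : 0 < n) (j k l : ℕ) :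
    starRingEnd ℂ (ex n (j * k)) * ex n (j * l) = KerA_w n k l ^ j := by
  have hn' : (n : ℂ) ≠ 0 := Nat.cast_ne_zero.2 hn.ne'
  unfold ex KerA_w
  rw [← Complex.exp_conj, ← Complex.exp_add, ← Complex.exp_nat_mul]
  congr 1
  simp only [map_mul, map_div₀, Complex.conj_I, Complex.conj_ofReal, map_ofNat, map_natCast]
  push_cast
  field_simp
  ring

theorem KerA_sq {n : ℕ} (hn : 0 < n) :
    (((1 / √(2 * n) : ℝ) : ℂ)) * ((1 / √(2 * n) : ℝ) : ℂ) = 1 / (2 * n) := by
  have h0 : (0 : ℝ) < 2 * n := by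
    have : (0 : ℝ) < n := Nat.cast_pos.2 hn
    linarith
  rw [← Complex.ofReal_mul]
  have : (1 / √(2 * n) : ℝ) * (1 / √(2 * n)) = 1 / (2 * n) := by
    rw [div_mul_div_comm, one_mul, Real.mul_self_sqrt h0.le]
  rw [this]
  push_cast
  ring

theorem KerA_entry {n : ℕ} (hn : 0 < n) (k l : Fin (2 * n)) :
    PP n k l = 1 / (2 * n) * ∑ j ∈ Finset.range n, KerA_w n k l ^ j := by
  have h1 : PP n k l = ∑ j : Fin (2 * n), (if (j : ℕ) < n then
      1 / (2 * n) * KerA_w n k l ^ (j : ℕ) else 0) := by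
    unfold PP QQ
    rw [Matrix.mul_apply]
    refine Finset.sum_congr rfl fun j _ => ?_
    rw [Matrix.mul_diagonal, Matrix.conjTranspose_apply]
    by_cases hj : (j : ℕ) < n
    · rw [if_pos hj, if_pos hj, mul_one, ← KerA_term hn, ← KerA_sq hn]
      unfold UU
      rw [Matrix.of_apply, Matrix.of_apply, star_mul']
      have h2 : star (((1 / √(2 * n) : ℝ) : ℂ)) = ((1 / √(2 * n) : ℝ) : ℂ) := Complex.conj_ofReal _
      rw [h2]
      show _ * star (ex n (j * k)) * _ = _ * (star (ex n (j * k)) * _)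
      ring
    · rw [if_neg hj, if_neg hj, mul_zero, zero_mul]
  rw [h1, Fin.sum_univ_eq_sum_range (fun j : ℕ => if j < n then
      1 / (2 * n) * KerA_w n k l ^ j else 0) (2 * n), ← Finset.sum_filter]
  have h2 : (Finset.range (2 * n)).filter (· < n) = Finset.range n := by
    ext j
    simp only [Finset.mem_filter, Finset.mem_range]
    omega
  rw [h2, Finset.mul_sum]

theorem KerA_pow_n {n : ℕ} (hn : 0 < n) (k l : ℕ) :
    KerA_w n k l ^ n = (-1) ^ (k + l) := by
  have hn' : (n : ℂ) ≠ 0 := Nat.cast_ne_zero.2 hn.ne'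
  unfold KerA_w
  rw [← Complex.exp_nat_mul]
  have h1 : (n : ℂ) * (Complex.I * ((π * ((l : ℝ) - k) / n : ℝ) : ℂ)) =
      l * (π * Complex.I) - k * (π * Complex.I) := by
    push_cast
    field_simp
  rw [h1, Complex.exp_sub, Complex.exp_nat_mul, Complex.exp_nat_mul, Complex.exp_pi_mul_I,
    div_eq_iff (pow_ne_zero _ (by norm_num)), ← pow_add]
  have h2 : k + l + k = l + 2 * k := by ring
  rw [h2, pow_add, pow_mul, neg_one_sq, one_pow, mul_one]

theorem KerA_ne_one {n : ℕ} (hn : 0 < n) {k l : ℕ} (hk : k < 2 * n) (hl : l < 2 * n) (h : k ≠ l) :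
    KerA_w n k l ≠ 1 := by
  intro h1
  unfold KerA_w at h1
  rw [Complex.exp_eq_one_iff] at h1
  obtain ⟨m, hm⟩ := h1
  have hn' : (n : ℂ) ≠ 0 := Nat.cast_ne_zero.2 hn.ne'
  have hπ : (π : ℂ) ≠ 0 := Complex.ofReal_ne_zero.2 Real.pi_ne_zero
  have h2 : (((l : ℤ) - k : ℤ) : ℂ) = ((2 * n * m : ℤ) : ℂ) := by
    push_cast at hm ⊢
    field_simp at hm
    linear_combination hm
  have h3 : (l : ℤ) - k = 2 * n * m := by exact_mod_cast h2
  have h4 : m = 0 := by
    by_contra hm0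
    have h5 : 1 ≤ |m| := Int.one_le_abs hm0
    have h6 : |(l : ℤ) - k| = 2 * n * |m| := by
      rw [h3, abs_mul, abs_of_nonneg (by positivity)]
    have h7 : |(l : ℤ) - k| < 2 * n := by
      rw [abs_lt]
      constructor <;> omega
    nlinarith
  rw [h4, mul_zero] at h3
  omega

theorem KerA_even {n : ℕ} (hn : 0 < n) (k l : Fin (2 * n)) (h : k ≠ l)
    (he : Even ((k : ℤ) - (l : ℤ))) : PP n k l = 0 := by
  have hne := KerA_ne_one hn k.2 l.2 (fun h' => h (Fin.ext h'))
  rw [KerA_entry hn, geom_sum_eq hne, KerA_pow_n hn]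
  have h1 : Even ((k : ℕ) + (l : ℕ)) := by
    have h2 : Even (((k : ℕ) + (l : ℕ) : ℕ) : ℤ) := by
      push_cast
      rw [Int.even_sub] at he
      rw [Int.even_add]
      exact he
    exact (Int.even_coe_nat _).1 h2
  rw [h1.neg_one_pow, sub_self, zero_div, mul_zero]

theorem KerA_odd {n : ℕ} (hn : 0 < n) (k l : Fin (2 * n)) (h : k ≠ l)
    (he : ¬ Even ((k : ℤ) - (l : ℤ))) : PP n k l = 1 / n * (1 / (1 - KerA_w n k l)) := by
  have hne := KerA_ne_one hn k.2 l.2 (fun h' => h (Fin.ext h'))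
  rw [KerA_entry hn, geom_sum_eq hne, KerA_pow_n hn]
  have h1 : Odd ((k : ℕ) + (l : ℕ)) := by
    rw [← Nat.not_even_iff_odd]
    intro h2
    apply he
    rw [Int.even_sub]
    have h3 : Even (((k : ℕ) + (l : ℕ) : ℕ) : ℤ) := (Int.even_coe_nat _).2 h2
    push_cast at h3
    rw [Int.even_add] at h3
    exact h3
  have hn' : (n : ℂ) ≠ 0 := Nat.cast_ne_zero.2 hn.ne'
  have h4 : KerA_w n k l - 1 ≠ 0 := sub_ne_zero.2 hne
  have h5 : 1 - KerA_w n k l ≠ 0 := sub_ne_zero.2 hne.symm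
  rw [h1.neg_one_pow]
  have h6 : KerA_w n k l - 1 = -(1 - KerA_w n k l) := by ring
  rw [h6]
  field_simp
  ring

theorem PP_herm (n : ℕ) : (PP n).IsHermitian := by
  unfold Matrix.IsHermitian PP QQ
  rw [Matrix.conjTranspose_mul, Matrix.conjTranspose_mul, Matrix.conjTranspose_conjTranspose,
    Matrix.diagonal_conjTranspose, Matrix.mul_assoc]
  congr 3
  funext j
  show star (if (j : ℕ) < n then (1 : ℂ) else 0) = _
  split_ifs <;> simp

theorem KerA_pow_2n {n : ℕ} (hn : 0 < n) (k l : ℕ) : KerA_w n k l ^ (2 * n) = 1 := by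
  have h1 : KerA_w n k l ^ (2 * n) = (KerA_w n k l ^ n) ^ 2 := by
    rw [← pow_mul]
    congr 1
    ring
  rw [h1, KerA_pow_n hn, ← pow_mul]
  have h2 : (k + l) * 2 = 2 * (k + l) := by ring
  rw [h2, pow_mul, neg_one_sq, one_pow]

theorem KerA_unit {n : ℕ} (hn : 0 < n) : UU n * (UU n)ᴴ = 1 := by
  ext j j'
  rw [Matrix.mul_apply]
  have h1 : ∀ k : Fin (2 * n), UU n j k * (UU n)ᴴ k j' =
      1 / (2 * n) * KerA_w n j' j ^ (k : ℕ) := by
    intro k
    rw [Matrix.conjTranspose_apply, ← KerA_term hn, ← KerA_sq hn]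
    unfold UU
    rw [Matrix.of_apply, Matrix.of_apply, star_mul']
    have h2 : star (((1 / √(2 * n) : ℝ) : ℂ)) = ((1 / √(2 * n) : ℝ) : ℂ) := Complex.conj_ofReal _
    rw [h2]
    have h3 : (k : ℕ) * (j' : ℕ) = (j' : ℕ) * k := mul_comm _ _
    have h4 : (k : ℕ) * (j : ℕ) = (j : ℕ) * k := mul_comm _ _
    rw [h3, h4]
    show _ * _ * (_ * star (ex n (j' * k))) = _ * (star (ex n (j' * k)) * _)
    ring
  rw [Finset.sum_congr rfl fun k _ => h1 k, ← Finset.mul_sum,
    Fin.sum_univ_eq_sum_range (fun k : ℕ => KerA_w n j' j ^ k) (2 * n)]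
  have hn' : (n : ℂ) ≠ 0 := Nat.cast_ne_zero.2 hn.ne'
  by_cases hj : j = j'
  · subst hj
    have h2 : KerA_w n j j = 1 := by
      unfold KerA_w
      simp
    rw [h2, Matrix.one_apply_eq]
    simp only [one_pow, Finset.sum_const, Finset.card_range, nsmul_eq_mul, mul_one]
    push_cast
    field_simp
  · have hne := KerA_ne_one hn j'.2 j.2 (fun h' => hj (Fin.ext h'.symm))
    rw [Matrix.one_apply_ne hj, geom_sum_eq hne, KerA_pow_2n hn, sub_self, zero_div, mul_zero]

theorem PP_idem (n : ℕ) : PP n * PP n = PP n := by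
  rcases Nat.eq_zero_or_pos n with rfl | hn
  · ext k
    exact absurd k.2 (by simp)
  have hQ : QQ n * QQ n = QQ n := by
    unfold QQ
    rw [Matrix.diagonal_mul_diagonal]
    congr 1
    funext j
    split_ifs <;> simp
  unfold PP
  calc (UU n)ᴴ * QQ n * UU n * ((UU n)ᴴ * QQ n * UU n)
      = (UU n)ᴴ * (QQ n * (UU n * (UU n)ᴴ) * QQ n) * UU n := by
        simp only [Matrix.mul_assoc]
    _ = (UU n)ᴴ * QQ n * UU n := by rw [KerA_unit hn, Matrix.mul_one, hQ]

theorem PP_diag (n : ℕ) (k : Fin (2 * n)) : PP n k k = 1 / 2 := by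
  have hn : 0 < n := by
    have := k.2
    omega
  rw [KerA_entry hn]
  have h2 : KerA_w n k k = 1 := by
    unfold KerA_w
    simp
  have hn' : (n : ℂ) ≠ 0 := Nat.cast_ne_zero.2 hn.ne'
  rw [h2]
  simp only [one_pow, Finset.sum_const, Finset.card_range, nsmul_eq_mul, mul_one]
  field_simp

theorem KerA_norm {n : ℕ} (k l : ℕ) :
    ‖1 - KerA_w n k l‖ = |2 * Real.sin (π * ((l : ℝ) - k) / n / 2)| := by
  unfold KerA_w
  rw [norm_sub_rev, Complex.norm_exp_I_mul_ofReal_sub_one, Real.norm_eq_abs]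

/-- lower bound for the denominator -/
theorem KerA_low {n : ℕ} (hn : 0 < n) (k l : Fin (2 * n)) :
    2 * (cd k l : ℝ) / n ≤ ‖1 - KerA_w n k l‖ := by
  have hn' : (0 : ℝ) < n := Nat.cast_pos.2 hn
  rw [KerA_norm]
  set m : ℕ := ((k : ℤ) - (l : ℤ)).natAbs with hm
  have hm2 : m < 2 * n := by
    have := k.2
    have := l.2
    omega
  have habs : |((l : ℕ) : ℝ) - ((k : ℕ) : ℝ)| = m := by
    have h1 : ((m : ℤ) : ℝ) = |(((k : ℤ) - (l : ℤ) : ℤ) : ℝ)| := by
      rw [hm, Int.natCast_natAbs, Int.cast_abs]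
    have h2 : ((m : ℤ) : ℝ) = m := by push_cast; rfl
    rw [← h2, h1, abs_sub_comm]
    push_cast
    rfl
  have hpi := Real.pi_pos
  have h3 : |2 * Real.sin (π * (((l : ℕ) : ℝ) - ((k : ℕ) : ℝ)) / n / 2)| =
      2 * Real.sin (π * m / n / 2) := by
    have h4 : |Real.sin (π * (((l : ℕ) : ℝ) - ((k : ℕ) : ℝ)) / n / 2)| =
        |Real.sin (π * m / n / 2)| := by
      rcases abs_choice (((l : ℕ) : ℝ) - ((k : ℕ) : ℝ)) with h5 | h5
      · rw [← habs, h5]
      · rw [← habs, h5]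
        have h6 : π * -(((l : ℕ) : ℝ) - ((k : ℕ) : ℝ)) / n / 2 =
            -(π * (((l : ℕ) : ℝ) - ((k : ℕ) : ℝ)) / n / 2) := by ring
        rw [h6, Real.sin_neg, abs_neg]
    rw [abs_mul, h4, abs_of_pos (two_pos : (0 : ℝ) < 2), abs_of_nonneg]
    refine Real.sin_nonneg_of_nonneg_of_le_pi (by positivity) ?_
    have h7 : (m : ℝ) ≤ 2 * n := by exact_mod_cast hm2.le
    rw [div_div, div_le_iff₀ (by positivity)]
    nlinarith
  rw [h3]
  have hcd : (cd k l : ℕ) = min m (2 * n - m) := rfl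
  rcases le_total m n with h8 | h8
  · have h9 : cd k l = m := by
      rw [hcd]
      omega
    rw [h9]
    have h10 : (m : ℝ) ≤ n := by exact_mod_cast h8
    have h11 := Real.mul_le_sin (x := π * m / n / 2) (by positivity) (by
      rw [div_div, div_le_div_iff₀ (by positivity) (by positivity)]
      nlinarith)
    have h12 : 2 / π * (π * m / n / 2) = m / n := by field_simp
    rw [h12] at h11
    calc 2 * (m : ℝ) / n = 2 * (m / n) := by ring
      _ ≤ _ := by linarith
  · have h9 : cd k l = 2 * n - m := by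
      rw [hcd]
      omega
    rw [h9]
    have h10 : (n : ℝ) ≤ m := by exact_mod_cast h8
    have h7 : (m : ℝ) ≤ 2 * n := by exact_mod_cast hm2.le
    have hcast : ((2 * n - m : ℕ) : ℝ) = 2 * n - m := by
      rw [Nat.cast_sub hm2.le]
      push_cast
      rfl
    rw [hcast]
    have h13 : Real.sin (π * m / n / 2) = Real.sin (π * (2 * n - m) / n / 2) := by
      rw [← Real.sin_pi_sub]
      congr 1
      field_simp
    rw [h13]
    have h11 := Real.mul_le_sin (x := π * (2 * n - m) / n / 2) (by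
        have : (0 : ℝ) ≤ 2 * n - m := by linarith
        positivity) (by
      rw [div_div, div_le_div_iff₀ (by positivity) (by positivity)]
      nlinarith)
    have h12 : 2 / π * (π * (2 * n - m) / n / 2) = (2 * n - m) / n := by field_simp
    rw [h12] at h11
    calc 2 * (2 * n - m : ℝ) / n = 2 * ((2 * n - m) / n) := by ring
      _ ≤ _ := by linarith

theorem KerA_cd_pos {n : ℕ} {k l : Fin (2 * n)} (h : k ≠ l) : 0 < cd k l := by
  have h1 : (k : ℕ) ≠ (l : ℕ) := fun h' => h (Fin.ext h')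
  have := k.2
  have := l.2
  unfold cd
  omega

theorem PP_dec (n : ℕ) (k l : Fin (2 * n)) (h : k ≠ l) : ‖PP n k l‖ ≤ 1 / (2 * (cd k l : ℝ)) := by
  have hn : 0 < n := by
    have := k.2
    omega
  have hn' : (0 : ℝ) < n := Nat.cast_pos.2 hn
  have hcd : (0 : ℝ) < cd k l := Nat.cast_pos.2 (KerA_cd_pos h)
  by_cases he : Even ((k : ℤ) - (l : ℤ))
  · rw [KerA_even hn k l h he, norm_zero]
    positivity
  · rw [KerA_odd hn k l h he, norm_mul, norm_div, norm_div, norm_one, Complex.norm_natCast]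
    have h1 := KerA_low hn k l
    have h2 : 0 < 2 * (cd k l : ℝ) / n := by positivity
    calc 1 / (n : ℝ) * (1 / ‖1 - KerA_w n k l‖) ≤ 1 / (n : ℝ) * (1 / (2 * (cd k l : ℝ) / n)) := by
          gcongr
      _ = 1 / (2 * (cd k l : ℝ)) := by field_simp

/-- second order Taylor estimate -/
theorem KerA_taylor_nonneg {x : ℝ} (hx : 0 ≤ x) :
    ‖Complex.exp (Complex.I * x) - 1 - Complex.I * x‖ ≤ x ^ 2 / 2 := by
  have hd : ∀ t : ℝ, HasDerivAt (fun t : ℝ => Complex.exp (Complex.I * t) - 1 - Complex.I * t)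
      (Complex.exp (Complex.I * t) * Complex.I - Complex.I) t := by
    intro t
    have h1 : HasDerivAt (fun t : ℝ => Complex.I * (t : ℂ)) Complex.I t := by
      have := (Complex.ofRealCLM.hasDerivAt (x := t)).const_mul Complex.I
      simpa using this
    exact ((h1.cexp).sub_const 1).sub h1
  have h := image_norm_le_of_norm_deriv_right_le_deriv_boundary (a := (0 : ℝ)) (b := x)
    (f := fun t : ℝ => Complex.exp (Complex.I * t) - 1 - Complex.I * t)
    (f' := fun t : ℝ => Complex.exp (Complex.I * t) * Complex.I - Complex.I)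
    (B := fun t => t ^ 2 / 2) (B' := fun t => t)
    (fun t _ => (hd t).continuousAt.continuousWithinAt) (fun t _ => (hd t).hasDerivWithinAt)
    (by simp) (fun t => by
      have := (hasDerivAt_pow 2 t).div_const 2
      simpa using this) (fun t ht => by
      have h1 : Complex.exp (Complex.I * t) * Complex.I - Complex.I =
          (Complex.exp (Complex.I * t) - 1) * Complex.I := by ring
      rw [h1, norm_mul, Complex.norm_I, mul_one]
      refine (Real.norm_exp_I_mul_ofReal_sub_one_le).trans ?_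
      rw [Real.norm_eq_abs, abs_of_nonneg ht.1])
  exact h ⟨hx, le_rfl⟩

theorem KerA_taylor (x : ℝ) :
    ‖Complex.exp (Complex.I * x) - 1 - Complex.I * x‖ ≤ x ^ 2 / 2 := by
  rcases le_total 0 x with hx | hx
  · exact KerA_taylor_nonneg hx
  · have h1 := KerA_taylor_nonneg (neg_nonneg.2 hx)
    have h2 : Complex.exp (Complex.I * x) - 1 - Complex.I * x =
        starRingEnd ℂ (Complex.exp (Complex.I * ((-x : ℝ) : ℂ)) - 1 - Complex.I * ((-x : ℝ) : ℂ)) := by
      rw [map_sub, map_sub, ← Complex.exp_conj, map_one, map_mul, Complex.conj_I,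
        Complex.conj_ofReal]
      push_cast
      ring_nf
    rw [h2, Complex.norm_conj]
    calc _ ≤ (-x) ^ 2 / 2 := h1
      _ = x ^ 2 / 2 := by ring

theorem PP_pinf (n : ℕ) (k l : Fin (2 * n)) (h : ((k : ℤ) - (l : ℤ)).natAbs ≤ n) :
    ‖PP n k l - pinf ((k : ℤ) - (l : ℤ))‖ ≤ 1 / n := by
  have hn : 0 < n := by
    have := k.2
    omega
  have hn' : (0 : ℝ) < n := Nat.cast_pos.2 hn
  have hpi := Real.pi_pos
  by_cases hkl : k = l
  · subst hkl
    unfold pinf
    rw [if_pos (sub_self _), PP_diag, sub_self, norm_zero]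
    positivity
  have hkl' : (k : ℤ) - (l : ℤ) ≠ 0 := by
    intro h'
    apply hkl
    apply Fin.ext
    omega
  by_cases he : Even ((k : ℤ) - (l : ℤ))
  · unfold pinf
    rw [if_neg hkl', if_pos he, KerA_even hn k l hkl he, sub_zero, norm_zero]
    positivity
  · unfold pinf
    rw [if_neg hkl', if_neg he, KerA_odd hn k l hkl he]
    set x : ℝ := π * (((l : ℕ) : ℝ) - ((k : ℕ) : ℝ)) / n with hx
    have hw : KerA_w n k l = Complex.exp (Complex.I * (x : ℂ)) := rfl
    have hlow := KerA_low hn k l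
    have hcd : cd k l = ((k : ℤ) - (l : ℤ)).natAbs := by
      unfold cd
      omega
    have hmR : ((((k : ℤ) - (l : ℤ)).natAbs : ℕ) : ℝ) = |((l : ℕ) : ℝ) - ((k : ℕ) : ℝ)| := by
      have h1 : ((((k : ℤ) - (l : ℤ)).natAbs : ℤ) : ℝ) = |(((k : ℤ) - (l : ℤ) : ℤ) : ℝ)| := by
        rw [Int.natCast_natAbs, Int.cast_abs]
      have h2 : ((((k : ℤ) - (l : ℤ)).natAbs : ℤ) : ℝ) = ((((k : ℤ) - (l : ℤ)).natAbs : ℕ) : ℝ) :=
        Int.cast_natCast _
      rw [← h2, h1, abs_sub_comm ((l : ℕ) : ℝ), Int.cast_sub, Int.cast_natCast, Int.cast_natCast]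
    rw [hcd, hmR] at hlow
    have hxabs : |x| = π * |((l : ℕ) : ℝ) - ((k : ℕ) : ℝ)| / n := by
      rw [hx, abs_div, abs_mul, abs_of_pos hpi, abs_of_pos hn']
    have hx0 : 0 < |x| := by
      rw [abs_pos, hx]
      intro h0
      rw [div_eq_zero_iff] at h0
      rcases h0 with h0 | h0
      · rcases mul_eq_zero.1 h0 with h0 | h0
        · exact hpi.ne' h0
        · apply hkl'
          have h1 : (((k : ℤ) - (l : ℤ) : ℤ) : ℝ) = 0 := by
            push_cast
            have : ((k : ℕ) : ℝ) - ((l : ℕ) : ℝ) = 0 := by linarith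
            exact_mod_cast this
          exact_mod_cast h1
      · exact hn'.ne' h0
    have hlow' : 2 / π * |x| ≤ ‖1 - KerA_w n k l‖ := by
      refine le_trans (le_of_eq ?_) hlow
      rw [hxabs]
      field_simp
    have hx0' : (x : ℂ) ≠ 0 := by
      rw [Ne, Complex.ofReal_eq_zero]
      exact abs_pos.1 hx0
    have hden : 0 < ‖1 - KerA_w n k l‖ := lt_of_lt_of_le (by positivity) hlow'
    have hden' : 1 - KerA_w n k l ≠ 0 := norm_pos_iff.1 hden
    have hnC : (n : ℂ) ≠ 0 := Nat.cast_ne_zero.2 hn.ne'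
    have hπC : (π : ℂ) ≠ 0 := Complex.ofReal_ne_zero.2 hpi.ne'
    have h1 : 1 / (n : ℂ) * (1 / (1 - KerA_w n k l)) -
        1 / (Complex.I * π * (((k : ℤ) - (l : ℤ) : ℤ) : ℂ)) =
        1 / (n : ℂ) * ((Complex.exp (Complex.I * (x : ℂ)) - 1 - Complex.I * x) /
          (-(Complex.I * x) * (1 - KerA_w n k l))) := by
      have h2 : Complex.I * π * (((k : ℤ) - (l : ℤ) : ℤ) : ℂ) = -(n * (Complex.I * (x : ℂ))) := by
        rw [hx]
        push_cast
        field_simp
        ring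
      rw [h2, ← hw]
      have hI := Complex.I_ne_zero
      field_simp
      ring
    rw [h1, norm_mul, norm_div, norm_div, norm_mul, norm_neg, norm_mul, Complex.norm_I, one_mul,
      norm_one, Complex.norm_natCast, Complex.norm_real, Real.norm_eq_abs]
    have h3 := KerA_taylor x
    have h4 : ‖Complex.exp (Complex.I * (x : ℂ)) - 1 - Complex.I * x‖ /
        (|x| * ‖1 - KerA_w n k l‖) ≤ 1 := by
      rw [div_le_one (mul_pos hx0 hden)]
      refine h3.trans ?_
      have h5 : |x| * (2 / π * |x|) ≤ |x| * ‖1 - KerA_w n k l‖ :=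
        mul_le_mul_of_nonneg_left hlow' hx0.le
      refine le_trans ?_ h5
      have h6 : |x| * (2 / π * |x|) = 2 / π * x ^ 2 := by
        rw [← sq_abs x]
        ring
      rw [h6, div_mul_eq_mul_div, le_div_iff₀ hpi]
      have h7 := Real.pi_le_four
      nlinarith [sq_nonneg x]
    calc 1 / (n : ℝ) * _ ≤ 1 / (n : ℝ) * 1 := mul_le_mul_of_nonneg_left h4 (by positivity)
      _ = 1 / n := mul_one _

end TZ
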