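import Pool.Agent.TZ.Defs
import Pool.Agent.TZ.KerA

/-!
Project TZ (MP_b753aa_pr), module Best: the constant `K0`.
Proof. (KB_one): for a finite `C` and `u = √y g`: `⟨u, P_n u⟩ ≤ ∑ ‖u‖²` on `Fin (2n)` (`P_n` is a projection; translate `C` into
`[0, n)`), let `n → ∞` with `PP_pinf`; `∑_C y ‖g‖² ≤ (max y) ∑ ‖g‖² ≤ √(∑ y²) ∑ ‖g‖²`. (K0_bd): the condition is closed in `K`.
(K0_half): `C = {0}`, `y = g = 1`. (near): otherwise `K` would be a bound for all `C` (translate: `pinf (k - l)` depends on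
`k - l` only; enlarge `C` to `[0, M)` with `y = 0`, `g = 0` outside of `C`; rescale `y`, `g`, both sides are homogeneous; both sums
are `≠ 0` when the inequality fails (the left side is then `> 0`, note `K` may be assumed `≥ 0` else take `y = g = δ_0`, the form is `1/2`)).
(transfer): `PP n k l = pinf (k - l) + O(1/n)`, `|∑ conj u_k (P - pinf) u_l| ≤ (1/n) (∑_C ‖u‖)² ≤ (q/n) ∑_C ‖u‖²`.
-/

noncomputable section

namespace TZ

open MeasureTheory ProbabilityTheory Filter Topology Matrix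
open scoped Real

theorem frm_PP_le (n : ℕ) (C : Finset (Fin (2 * n))) (u : Fin (2 * n) → ℂ) :
    frm (PP n) C u ≤ ∑ k ∈ C, ‖u k‖ ^ 2 := by
  classical
  set v : Fin (2 * n) → ℂ := fun k => if k ∈ C then u k else 0 with hv
  set P := PP n with hP
  have hH : Pᴴ = P := PP_herm n
  have hI : P * P = P := PP_idem n
  have h1 : star v ⬝ᵥ (P *ᵥ v) = ∑ k ∈ C, ∑ l ∈ C, starRingEnd ℂ (u k) * P k l * u l := by
    simp only [dotProduct, mulVec, Finset.mul_sum, hv, Pi.star_apply]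
    rw [← Finset.sum_subset (Finset.subset_univ C)]
    · refine Finset.sum_congr rfl fun k hk => ?_
      rw [← Finset.sum_subset (Finset.subset_univ C)]
      · refine Finset.sum_congr rfl fun l hl => ?_
        simp only [if_pos hk, if_pos hl]
        rw [mul_assoc]; rfl
      · intro l _ hl
        simp [hl]
    · intro k _ hk
      simp [hk]
  have h2 : star v ⬝ᵥ v = ((∑ k ∈ C, ‖u k‖ ^ 2 : ℝ) : ℂ) := by
    simp only [dotProduct, hv, Pi.star_apply]
    rw [← Finset.sum_subset (Finset.subset_univ C)]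
    · push_cast
      refine Finset.sum_congr rfl fun k hk => ?_
      simp only [if_pos hk]
      have : star (u k) = starRingEnd ℂ (u k) := rfl
      rw [this, Complex.conj_mul']
    · intro k _ hk
      simp [hk]
  have h3 : star (v - P *ᵥ v) ⬝ᵥ (v - P *ᵥ v) = star v ⬝ᵥ v - star v ⬝ᵥ (P *ᵥ v) := by
    have e1 : star (P *ᵥ v) ⬝ᵥ v = star v ⬝ᵥ (P *ᵥ v) := by
      rw [star_mulVec, hH, ← dotProduct_mulVec]
    have e2 : star (P *ᵥ v) ⬝ᵥ (P *ᵥ v) = star v ⬝ᵥ (P *ᵥ v) := by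
      rw [star_mulVec, hH, ← dotProduct_mulVec, mulVec_mulVec, hI]
    rw [star_sub, sub_dotProduct, dotProduct_sub, dotProduct_sub, e1, e2]
    ring
  have h4 : 0 ≤ (star (v - P *ᵥ v) ⬝ᵥ (v - P *ᵥ v)).re := by
    simp only [dotProduct, Pi.star_apply]
    rw [Complex.re_sum]
    refine Finset.sum_nonneg fun k _ => ?_
    have : star ((v - P *ᵥ v) k) * (v - P *ᵥ v) k = ((‖(v - P *ᵥ v) k‖ ^ 2 : ℝ) : ℂ) := by
      have h5 : star ((v - P *ᵥ v) k) = starRingEnd ℂ ((v - P *ᵥ v) k) := rfl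
      rw [h5, Complex.conj_mul']
      push_cast
      rfl
    rw [this, Complex.ofReal_re]
    positivity
  rw [h3, h2, h1, Complex.sub_re, Complex.ofReal_re] at h4
  unfold frm
  linarith

theorem frm_pinf_le (C : Finset ℤ) (u : ℤ → ℂ) :
    frm (fun k l => pinf (k - l)) C u ≤ ∑ k ∈ C, ‖u k‖ ^ 2 := by
  classical
  obtain ⟨m, hm⟩ : ∃ m : ℕ, ∀ k ∈ C, k.natAbs ≤ m := by
    refine ⟨C.sup Int.natAbs, fun k hk => Finset.le_sup (f := Int.natAbs) hk⟩
  have key : ∀ n : ℕ, 2 * m + 1 ≤ n →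
      frm (fun k l => pinf (k - l)) C u ≤ ∑ k ∈ C, ‖u k‖ ^ 2 + (1 / (n : ℝ)) * (∑ k ∈ C, ‖u k‖) ^ 2 := by
    intro n hn
    have hn0 : 0 < 2 * n := by omega
    set e : ℤ → Fin (2 * n) := fun k => ⟨(k + m).toNat % (2 * n), Nat.mod_lt _ hn0⟩ with he
    have hev : ∀ k ∈ C, ((e k : ℕ) : ℤ) = k + m := by
      intro k hk
      have h1 := hm k hk
      have h2 : (k + m).toNat < 2 * n := by omega
      simp only [he]
      rw [Nat.mod_eq_of_lt h2]
      omega
    have hinj : Set.InjOn e C := by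
      intro k hk l hl hkl
      have h1 := hev k hk
      have h2 := hev l hl
      rw [hkl] at h1
      omega
    have hA := frm_PP_le n (C.image e) (fun j => u ((j : ℕ) - m))
    have hs1 : ∑ j ∈ C.image e, ‖u (((j : ℕ) : ℤ) - m)‖ ^ 2 = ∑ k ∈ C, ‖u k‖ ^ 2 := by
      rw [Finset.sum_image hinj]
      refine Finset.sum_congr rfl fun k hk => ?_
      rw [hev k hk, add_sub_cancel_right]
    have hs2 : frm (PP n) (C.image e) (fun j => u (((j : ℕ) : ℤ) - m)) =
        (∑ k ∈ C, ∑ l ∈ C, starRingEnd ℂ (u k) * PP n (e k) (e l) * u l).re := by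
      unfold frm
      rw [Finset.sum_image hinj]
      congr 1
      refine Finset.sum_congr rfl fun k hk => ?_
      rw [Finset.sum_image hinj]
      refine Finset.sum_congr rfl fun l hl => ?_
      have hu : ∀ k ∈ C, u (((e k : ℕ) : ℤ) - m) = u k := fun k hk => by
        rw [hev k hk, add_sub_cancel_right]
      show starRingEnd ℂ (u (((e k : ℕ) : ℤ) - m)) * PP n (e k) (e l) * u (((e l : ℕ) : ℤ) - m) = _
      rw [hu k hk, hu l hl]
    rw [hs1, hs2] at hA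
    have hB : frm (fun k l => pinf (k - l)) C u -
        (∑ k ∈ C, ∑ l ∈ C, starRingEnd ℂ (u k) * PP n (e k) (e l) * u l).re ≤
        (1 / (n : ℝ)) * (∑ k ∈ C, ‖u k‖) ^ 2 := by
      unfold frm
      rw [← Complex.sub_re, ← Finset.sum_sub_distrib]
      refine (Complex.re_le_norm _).trans ?_
      refine (norm_sum_le _ _).trans ?_
      rw [sq, Finset.sum_mul_sum, Finset.mul_sum]
      refine Finset.sum_le_sum fun k hk => ?_
      rw [← Finset.sum_sub_distrib, Finset.mul_sum]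
      refine (norm_sum_le _ _).trans ?_
      refine Finset.sum_le_sum fun l hl => ?_
      have h1 : starRingEnd ℂ (u k) * pinf (k - l) * u l -
          starRingEnd ℂ (u k) * PP n (e k) (e l) * u l =
          starRingEnd ℂ (u k) * (pinf (k - l) - PP n (e k) (e l)) * u l := by ring
      rw [h1, norm_mul, norm_mul, Complex.norm_conj]
      have h2 : ‖pinf (k - l) - PP n (e k) (e l)‖ ≤ 1 / n := by
        have h3 : ((e k : ℕ) : ℤ) - ((e l : ℕ) : ℤ) = k - l := by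
          rw [hev k hk, hev l hl]; ring
        have h4 := PP_pinf n (e k) (e l) (by
          rw [h3]
          have := hm k hk
          have := hm l hl
          omega)
        rw [h3] at h4
        rw [norm_sub_rev]
        exact h4
      calc ‖u k‖ * ‖pinf (k - l) - PP n (e k) (e l)‖ * ‖u l‖ ≤ ‖u k‖ * (1 / n) * ‖u l‖ := by
            gcongr
        _ = 1 / n * (‖u k‖ * ‖u l‖) := by ring
    linarith
  have hlim : Tendsto (fun n : ℕ => ∑ k ∈ C, ‖u k‖ ^ 2 + (1 / (n : ℝ)) * (∑ k ∈ C, ‖u k‖) ^ 2) atTop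
      (𝓝 (∑ k ∈ C, ‖u k‖ ^ 2 + 0 * (∑ k ∈ C, ‖u k‖) ^ 2)) :=
    (tendsto_const_nhds).add ((tendsto_one_div_atTop_nhds_zero_nat).mul_const _)
  rw [zero_mul, add_zero] at hlim
  refine ge_of_tendsto hlim ?_
  filter_upwards [eventually_ge_atTop (2 * m + 1)] with n hn using key n hn

theorem KB_one : KB 1 := by
  intro C y g hy
  refine (frm_pinf_le C _).trans ?_
  rw [one_mul, Finset.mul_sum]
  refine Finset.sum_le_sum fun k hk => ?_
  rw [norm_mul, mul_pow, Complex.norm_real, Real.norm_of_nonneg (Real.sqrt_nonneg _), Real.sq_sqrt (hy k)]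
  gcongr
  refine Real.le_sqrt_of_sq_le ?_
  exact Finset.single_le_sum (f := fun k => y k ^ 2) (fun i _ => sq_nonneg _) hk

theorem KB_half {K : ℝ} (h : KB K) : 1 / 2 ≤ K := by
  have h1 := h {0} (fun _ => 1) (fun _ => 1) (fun _ => zero_le_one)
  simp [frm, pinf] at h1
  norm_num at h1 ⊢
  linarith

theorem KB_bdd : BddBelow {K : ℝ | KB K} := ⟨1 / 2, fun _ h => KB_half h⟩

theorem K0_bd : KB K0 := by
  intro C y g hy
  set A : ℝ := √(∑ k ∈ C, y k ^ 2) * ∑ k ∈ C, ‖g k‖ ^ 2 with hA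
  have hA0 : 0 ≤ A := by positivity
  have h0 : ∀ K, KB K → frm (fun k l => pinf (k - l)) C (fun k => (√(y k) : ℂ) * g k) ≤ K * A := by
    intro K hK
    have := hK C y g hy
    rw [hA, ← mul_assoc]
    exact this
  rw [mul_assoc, ← hA]
  rcases hA0.eq_or_lt with h | h
  · have := h0 1 KB_one
    rw [← h] at this ⊢
    linarith
  · rw [← div_le_iff₀ h]
    refine le_csInf ⟨1, KB_one⟩ ?_
    intro K hK
    rw [div_le_iff₀ h]
    exact h0 K hK

theorem K0_half : 1 / 2 ≤ K0 := le_csInf ⟨1, KB_one⟩ fun _ h => KB_half h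

theorem K0_le : K0 ≤ 1 := csInf_le KB_bdd KB_one

theorem Best2_map {α β : Type*} (f : α ↪ β) (P : β → β → ℂ) (C : Finset α) (u : β → ℂ) :
    frm P (C.map f) u = frm (fun k l => P (f k) (f l)) C (fun k => u (f k)) := by
  unfold frm
  rw [Finset.sum_map]
  simp only [Finset.sum_map]

theorem Best2_congr {α : Type*} {P P' : α → α → ℂ} {C : Finset α} {u u' : α → ℂ}
    (hP : ∀ k ∈ C, ∀ l ∈ C, P k l = P' k l) (hu : ∀ k ∈ C, u k = u' k) :
    frm P C u = frm P' C u' := by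
  unfold frm
  congr 1
  refine Finset.sum_congr rfl fun k hk => Finset.sum_congr rfl fun l hl => ?_
  rw [hP k hk l hl, hu k hk, hu l hl]

theorem Best2_subset {α : Type*} {P : α → α → ℂ} {D E : Finset α} {u : α → ℂ} (h : D ⊆ E)
    (hu : ∀ k ∈ E, k ∉ D → u k = 0) : frm P E u = frm P D u := by
  unfold frm
  congr 1
  rw [← Finset.sum_subset h (f := fun k => ∑ l ∈ E, starRingEnd ℂ (u k) * P k l * u l)]
  · refine Finset.sum_congr rfl fun k hk => ?_
    refine (Finset.sum_subset h ?_).symm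
    intro l hl hl'
    rw [hu l hl hl', mul_zero]
  · intro k hk hk'
    rw [hu k hk hk', map_zero]
    simp

theorem Best2_zero {α : Type*} {P : α → α → ℂ} {C : Finset α} {u : α → ℂ}
    (hu : ∀ k ∈ C, u k = 0) : frm P C u = 0 := by
  rw [Best2_subset (Finset.empty_subset C) (fun k hk _ => hu k hk)]
  simp [frm]

theorem Best2_smul {α : Type*} (P : α → α → ℂ) (C : Finset α) (u : α → ℂ) (c : ℝ) :
    frm P C (fun k => (c : ℂ) * u k) = c ^ 2 * frm P C u := by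
  unfold frm
  have h : ∑ k ∈ C, ∑ l ∈ C, starRingEnd ℂ ((c : ℂ) * u k) * P k l * ((c : ℂ) * u l) =
      ((c ^ 2 : ℝ) : ℂ) * ∑ k ∈ C, ∑ l ∈ C, starRingEnd ℂ (u k) * P k l * u l := by
    rw [Finset.mul_sum]
    refine Finset.sum_congr rfl fun k _ => ?_
    rw [Finset.mul_sum]
    refine Finset.sum_congr rfl fun l _ => ?_
    rw [map_mul, Complex.conj_ofReal]
    push_cast
    ring
  rw [h, Complex.re_ofReal_mul]

theorem Best2_diff {α : Type*} (P P' : α → α → ℂ) (C : Finset α) (u : α → ℂ) {e : ℝ} (he : 0 ≤ e)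
    (h : ∀ k ∈ C, ∀ l ∈ C, ‖P k l - P' k l‖ ≤ e) :
    frm P C u ≤ frm P' C u + e * (C.card * ∑ k ∈ C, ‖u k‖ ^ 2) := by
  have h1 : frm P C u - frm P' C u =
      (∑ k ∈ C, ∑ l ∈ C, starRingEnd ℂ (u k) * (P k l - P' k l) * u l).re := by
    unfold frm
    rw [← Complex.sub_re, ← Finset.sum_sub_distrib]
    congr 1
    refine Finset.sum_congr rfl fun k _ => ?_
    rw [← Finset.sum_sub_distrib]
    refine Finset.sum_congr rfl fun l _ => ?_
    ring
  have h2 : (∑ k ∈ C, ∑ l ∈ C, starRingEnd ℂ (u k) * (P k l - P' k l) * u l).re ≤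
      e * (∑ k ∈ C, ‖u k‖) ^ 2 := by
    refine (Complex.re_le_norm _).trans ?_
    rw [sq, Finset.sum_mul_sum, Finset.mul_sum]
    refine (norm_sum_le _ _).trans (Finset.sum_le_sum fun k hk => ?_)
    rw [Finset.mul_sum]
    refine (norm_sum_le _ _).trans (Finset.sum_le_sum fun l hl => ?_)
    rw [norm_mul, norm_mul, RCLike.norm_conj]
    have := h k hk l hl
    calc ‖u k‖ * ‖P k l - P' k l‖ * ‖u l‖ ≤ ‖u k‖ * e * ‖u l‖ := by gcongr
      _ = e * (‖u k‖ * ‖u l‖) := by ring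
  have h3 : (∑ k ∈ C, ‖u k‖) ^ 2 ≤ C.card * ∑ k ∈ C, ‖u k‖ ^ 2 := sq_sum_le_card_mul_sum_sq
  have h4 : e * (∑ k ∈ C, ‖u k‖) ^ 2 ≤ e * (C.card * ∑ k ∈ C, ‖u k‖ ^ 2) :=
    mul_le_mul_of_nonneg_left h3 he
  linarith

theorem Best2_w {α : Type*} (C : Finset α) (x : α → ℝ) (g : α → ℂ) (hx : ∀ k, 0 ≤ x k) :
    ∑ k ∈ C, ‖(√(x k) : ℂ) * g k‖ ^ 2 ≤ √(∑ k ∈ C, x k ^ 2) * ∑ k ∈ C, ‖g k‖ ^ 2 := by
  rw [Finset.mul_sum]
  refine Finset.sum_le_sum fun k hk => ?_
  rw [norm_mul, mul_pow, Complex.norm_real, Real.norm_eq_abs, sq_abs, Real.sq_sqrt (hx k)]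
  refine mul_le_mul_of_nonneg_right ?_ (by positivity)
  refine Real.le_sqrt_of_sq_le ?_
  exact Finset.single_le_sum (f := fun k => x k ^ 2) (fun i _ => sq_nonneg _) hk

theorem Best2_half {K : ℝ} (hK : KB K) : 1 / 2 ≤ K := by
  have h := hK {0} (fun _ => 1) (fun _ => 1) (fun _ => zero_le_one)
  unfold frm pinf at h
  simp at h
  linarith

theorem Best2_near {K : ℝ} (hK0 : 0 ≤ K) (hK : K < K0) :
    ∃ (M : ℕ) (y : ℤ → ℝ) (g : ℤ → ℂ), 1 ≤ M ∧ (∀ k, 0 ≤ y k) ∧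
    ∑ k ∈ Finset.Ico (0 : ℤ) M, y k ^ 2 = 1 ∧ ∑ k ∈ Finset.Ico (0 : ℤ) M, ‖g k‖ ^ 2 = 1 ∧
    K < frm (fun k l => pinf (k - l)) (Finset.Ico (0 : ℤ) M) (fun k => (√(y k) : ℂ) * g k) := by
  classical
  have hKB : ¬ KB K := by
    intro h
    have : K0 ≤ K := csInf_le ⟨1 / 2, fun K' hK' => Best2_half hK'⟩ h
    linarith
  unfold KB at hKB
  push Not at hKB
  obtain ⟨C, y, g, hy, hlt⟩ := hKB
  have hA2 : √(∑ k ∈ C, y k ^ 2) ^ 2 = ∑ k ∈ C, y k ^ 2 :=
    Real.sq_sqrt (Finset.sum_nonneg fun _ _ => sq_nonneg _)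
  set A := √(∑ k ∈ C, y k ^ 2) with hA
  set G := ∑ k ∈ C, ‖g k‖ ^ 2 with hG
  have hA0 : 0 ≤ A := Real.sqrt_nonneg _
  have hG0 : 0 ≤ G := Finset.sum_nonneg fun _ _ => by positivity
  have hpos : 0 < frm (fun k l => pinf (k - l)) C (fun k => (√(y k) : ℂ) * g k) :=
    lt_of_le_of_lt (by positivity) hlt
  have hA1 : 0 < A := by
    rcases hA0.lt_or_eq with h | h
    · exact h
    · exfalso
      rw [← h, zero_pow two_ne_zero] at hA2
      have h2 := (Finset.sum_eq_zero_iff_of_nonneg (fun _ _ => sq_nonneg _)).1 hA2.symm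
      refine hpos.ne' (Best2_zero fun k hk => ?_)
      have h3 : y k = 0 := pow_eq_zero_iff two_ne_zero |>.1 (h2 k hk)
      show (√(y k) : ℂ) * g k = 0
      rw [h3, Real.sqrt_zero, Complex.ofReal_zero, zero_mul]
  have hG1 : 0 < G := by
    rcases hG0.lt_or_eq with h | h
    · exact h
    · exfalso
      have h2 := (Finset.sum_eq_zero_iff_of_nonneg (fun _ _ => by positivity)).1 h.symm
      refine hpos.ne' (Best2_zero fun k hk => ?_)
      have h3 : g k = 0 := by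
        have h4 : ‖g k‖ ^ 2 = 0 := h2 k hk
        exact norm_eq_zero.1 (pow_eq_zero_iff two_ne_zero |>.1 h4)
      show (√(y k) : ℂ) * g k = 0
      rw [h3, mul_zero]
  obtain ⟨N, hN⟩ : ∃ N : ℕ, ∀ k ∈ C, k.natAbs ≤ N :=
    ⟨C.sup Int.natAbs, fun k hk => Finset.le_sup hk⟩
  let f : ℤ ↪ ℤ := ⟨fun k => k + N, add_left_injective _⟩
  have hfD : ∀ k ∈ C, f k ∈ C.map f := fun k hk => Finset.mem_map_of_mem f hk
  have hsub : ∀ k, f k - N = k := fun k => by
    show k + (N : ℤ) - N = k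
    ring
  let y' : ℤ → ℝ := fun k => if k ∈ C.map f then y (k - N) / A else 0
  let g' : ℤ → ℂ := fun k => if k ∈ C.map f then g (k - N) / ((√G : ℝ) : ℂ) else 0
  have hy' : ∀ k ∈ C, y' (f k) = y k / A := by
    intro k hk
    show (if f k ∈ C.map f then y (f k - N) / A else 0) = _
    rw [if_pos (hfD k hk), hsub]
  have hg' : ∀ k ∈ C, g' (f k) = g k / ((√G : ℝ) : ℂ) := by
    intro k hk
    show (if f k ∈ C.map f then g (f k - N) / ((√G : ℝ) : ℂ) else 0) = _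
    rw [if_pos (hfD k hk), hsub]
  have hy0 : ∀ k, k ∉ C.map f → y' k = 0 := fun k hk => if_neg hk
  have hg0 : ∀ k, k ∉ C.map f → g' k = 0 := fun k hk => if_neg hk
  have hD : C.map f ⊆ Finset.Ico (0 : ℤ) ((2 * N + 1 : ℕ) : ℤ) := by
    intro k hk
    obtain ⟨l, hl, rfl⟩ := Finset.mem_map.1 hk
    rw [Finset.mem_Ico]
    have h1 := hN l hl
    show 0 ≤ l + (N : ℤ) ∧ l + (N : ℤ) < ((2 * N + 1 : ℕ) : ℤ)
    omega
  refine ⟨2 * N + 1, y', g', by omega, ?_, ?_, ?_, ?_⟩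
  · intro k
    show 0 ≤ (if k ∈ C.map f then y (k - N) / A else 0)
    split_ifs
    · exact div_nonneg (hy _) hA0
    · exact le_rfl
  · rw [← Finset.sum_subset hD (fun k _ hk => by rw [hy0 k hk, zero_pow two_ne_zero]),
      Finset.sum_map, Finset.sum_congr rfl fun k hk => by rw [hy' k hk, div_pow],
      ← Finset.sum_div, hA2, div_self]
    rw [← hA2]
    positivity
  · rw [← Finset.sum_subset hD (fun k _ hk => by rw [hg0 k hk, norm_zero, zero_pow two_ne_zero]),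
      Finset.sum_map, Finset.sum_congr rfl fun k hk => by
        rw [hg' k hk, norm_div, div_pow, Complex.norm_real, Real.norm_eq_abs, sq_abs,
          Real.sq_sqrt hG0],
      ← Finset.sum_div, ← hG, div_self hG1.ne']
  · rw [Best2_subset hD (fun k _ hk => by rw [hg0 k hk, mul_zero]), Best2_map]
    have h1 : frm (fun k l => pinf (f k - f l)) C (fun k => (√(y' (f k)) : ℂ) * g' (f k)) =
        frm (fun k l => pinf (k - l)) C
          (fun k => ((1 / (√A * √G) : ℝ) : ℂ) * ((√(y k) : ℂ) * g k)) := by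
      refine Best2_congr ?_ ?_
      · intro k _ l _
        have : f k - f l = k - l := by
          show k + (N : ℤ) - (l + N) = k - l
          ring
        rw [this]
      · intro k hk
        rw [hy' k hk, hg' k hk, Real.sqrt_div (hy k)]
        push_cast
        ring
    rw [h1, Best2_smul, div_pow, mul_pow, Real.sq_sqrt hA0, Real.sq_sqrt hG0, one_pow,
      one_div_mul_eq_div, lt_div_iff₀ (mul_pos hA1 hG1), ← mul_assoc]
    exact hlt

theorem near {K : ℝ} (hK : K < K0) : ∃ (M : ℕ) (y : ℤ → ℝ) (g : ℤ → ℂ), 1 ≤ M ∧ (∀ k, 0 ≤ y k) ∧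
    ∑ k ∈ Finset.Ico (0 : ℤ) M, y k ^ 2 = 1 ∧ ∑ k ∈ Finset.Ico (0 : ℤ) M, ‖g k‖ ^ 2 = 1 ∧
    K < frm (fun k l => pinf (k - l)) (Finset.Ico (0 : ℤ) M) (fun k => (√(y k) : ℂ) * g k) := by
  have h := K0_half
  obtain ⟨M, y, g, h1, h2, h3, h4, h5⟩ := Best2_near (le_max_right K 0)
    (max_lt hK (by linarith))
  exact ⟨M, y, g, h1, h2, h3, h4, lt_of_le_of_lt (le_max_left K 0) h5⟩

theorem transfer {n q L y0 : ℕ} (C : Finset (Fin (2 * n)))
    (hC : ∀ k ∈ C, y0 ≤ (k : ℕ) ∧ (k : ℕ) < y0 + L) (hL : L ≤ n) (hq : C.card ≤ q)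
    (x : Fin (2 * n) → ℝ) (g : Fin (2 * n) → ℂ) (hx : ∀ k, 0 ≤ x k) :
    frm (PP n) C (fun k => (√(x k) : ℂ) * g k) ≤
      (K0 + q / n) * √(∑ k ∈ C, x k ^ 2) * ∑ k ∈ C, ‖g k‖ ^ 2 := by
  classical
  let e : Fin (2 * n) ↪ ℤ := ⟨fun k => ((k : ℕ) : ℤ), fun a b h => Fin.ext (Int.ofNat.inj h)⟩
  let y : ℤ → ℝ := Function.extend e x 0
  let g' : ℤ → ℂ := Function.extend e g 0
  have hy : ∀ k, y (e k) = x k := fun k => e.injective.extend_apply x 0 k
  have hg : ∀ k, g' (e k) = g k := fun k => e.injective.extend_apply g 0 k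
  have hy0 : ∀ k, 0 ≤ y k := by
    intro k
    by_cases h : ∃ a, e a = k
    · obtain ⟨a, rfl⟩ := h
      rw [hy]
      exact hx a
    · show 0 ≤ Function.extend e x 0 k
      rw [Function.extend_apply' _ _ _ h]
      exact le_rfl
  have h1 := K0_bd (C.map e) y g' hy0
  rw [Best2_map, Finset.sum_map, Finset.sum_map] at h1
  simp only [hy, hg] at h1
  have h2 := Best2_diff (PP n) (fun k l => pinf (e k - e l)) C (fun k => (√(x k) : ℂ) * g k)
    (e := 1 / n) (by positivity) (fun k hk l hl => PP_pinf n k l (by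
      have h3 := hC k hk
      have h4 := hC l hl
      omega))
  have h3 := Best2_w C x g hx
  have h5 : (C.card : ℝ) * ∑ k ∈ C, ‖(√(x k) : ℂ) * g k‖ ^ 2 ≤
      q * (√(∑ k ∈ C, x k ^ 2) * ∑ k ∈ C, ‖g k‖ ^ 2) :=
    mul_le_mul (Nat.cast_le.2 hq) h3 (Finset.sum_nonneg fun _ _ => by positivity) (by positivity)
  have h6 : (1 / n : ℝ) * ((C.card : ℝ) * ∑ k ∈ C, ‖(√(x k) : ℂ) * g k‖ ^ 2) ≤
      (1 / n : ℝ) * (q * (√(∑ k ∈ C, x k ^ 2) * ∑ k ∈ C, ‖g k‖ ^ 2)) :=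
    mul_le_mul_of_nonneg_left h5 (by positivity)
  calc frm (PP n) C (fun k => (√(x k) : ℂ) * g k)
      ≤ K0 * √(∑ k ∈ C, x k ^ 2) * ∑ k ∈ C, ‖g k‖ ^ 2 +
        (1 / n : ℝ) * (q * (√(∑ k ∈ C, x k ^ 2) * ∑ k ∈ C, ‖g k‖ ^ 2)) := by linarith
    _ = (K0 + q / n) * √(∑ k ∈ C, x k ^ 2) * ∑ k ∈ C, ‖g k‖ ^ 2 := by ring

end TZ
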