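import Pool.Agent.TZ.Defs

/-!
Project TZ (MP_b753aa_pr), module DetA: blocks.
Proof. (shift): average over `s < r²`: each `k` satisfies `(k + s) % r² < r` for exactly `r` of the `r²` shifts, so for some `s`
the layer has at most the part `1/r ≤ η` of the weight. (sep): if `k, l ∈ Hs` are in different blocks, say `k < l`, then the first
site of the block of `l` is `> k` and `l` is at distance `≥ r` of it, so `l - k ≥ r`; and `2n - |k - l| ≥ 2 r² ≥ r` by `edge`.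
(frm_le): `frm P (HT T) u = ∑_{t ∈ T} frm P (Hb t) u + (pairs in different blocks)`; each pair: `‖u k‖ ‖P k l‖ ‖u l‖ ≤
‖P k l‖ (‖u k‖² + ‖u l‖²)/2`, row sums over `l` at circular distance `≥ r` are `≤ η` (`hsch`; `‖P k l‖ = ‖P l k‖`), so the second part is
`≤ η ∑ ‖u‖²`. Blocks: `hbest` with `x = d` and `g = √d v` (`√d · √d v = d v`; on `Hb` one has `d ≥ ηθ > 0`; for `hbest` replace `d` by
`max d 0`), `∑ ‖√d v‖² = ∑ d ‖v‖²`; `‖d v‖² = d² ‖v‖² ≤ 2θ d ‖v‖²`. `Hb` lies in the window `[y, y + r²)`, `y = t r² - s`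
(block `t = 0`: empty, by `edge`), so `Hb ⊆ Hw y` and `card ≤ q`.
-/

noncomputable section

namespace TZ

open MeasureTheory ProbabilityTheory Filter Topology Matrix
open scoped Real

variable {n : ℕ} {P : Matrix (Fin (2 * n)) (Fin (2 * n)) ℂ} {d : Fin (2 * n) → ℝ} {K η θ : ℝ} {r q M : ℕ}

theorem DetA_cnt {r : ℕ} (hr : 1 ≤ r) (k : ℕ) :
    ((Finset.range (r ^ 2)).filter (fun s => r ≤ (k + s) % r ^ 2)).card = r ^ 2 - r := by
  have hR : 0 < r ^ 2 := by positivity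
  have hp : Function.Periodic (fun x => r ≤ x % r ^ 2) (r ^ 2) := fun x => by
    simp only [Nat.add_mod_right]
  have h1 := Nat.filter_Ico_card_eq_of_periodic k (r ^ 2) (fun x => r ≤ x % r ^ 2) hp
  rw [Nat.count_eq_card_filter_range] at h1
  have h2 : ((Finset.range (r ^ 2)).filter (fun s => r ≤ (k + s) % r ^ 2)).card =
      ((Finset.Ico k (k + r ^ 2)).filter (fun x => r ≤ x % r ^ 2)).card := by
    refine Finset.card_nbij' (fun s => k + s) (fun x => x - k) ?_ ?_ ?_ ?_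
    · intro s hs
      simp only [Finset.coe_filter, Finset.mem_range, Set.mem_ofPred_eq, Finset.mem_Ico] at hs ⊢
      exact ⟨⟨by omega, by omega⟩, hs.2⟩
    · intro x hx
      simp only [Finset.coe_filter, Finset.mem_range, Set.mem_ofPred_eq, Finset.mem_Ico] at hx ⊢
      refine ⟨by omega, ?_⟩
      rw [show k + (x - k) = x by omega]
      exact hx.2
    · intro s hs
      simp
    · intro x hx
      simp only [Finset.coe_filter, Set.mem_ofPred_eq, Finset.mem_Ico] at hx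
      show k + (x - k) = x
      omega
  rw [h2, h1]
  have h3 : (Finset.range (r ^ 2)).filter (fun x => r ≤ x % r ^ 2) = Finset.Ico r (r ^ 2) := by
    ext x
    simp only [Finset.mem_filter, Finset.mem_range, Finset.mem_Ico]
    constructor
    · rintro ⟨a, b⟩
      rw [Nat.mod_eq_of_lt a] at b
      exact ⟨b, a⟩
    · rintro ⟨a, b⟩
      exact ⟨b, by rw [Nat.mod_eq_of_lt b]; exact a⟩
  rw [h3, Nat.card_Ico]

theorem shift (w : Fin (2 * n) → ℝ) (h : ℝ) (hw : ∀ k, h ≤ d k → 0 ≤ w k) (hη : 0 < η) (hr : 1 ≤ η * r) :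
    ∃ s : ℕ, s < r ^ 2 ∧ (1 - η) * ∑ k ∈ Finset.univ.filter (fun k => h ≤ d k), w k ≤ ∑ k ∈ Hs d h r s, w k := by
  have hr0 : 1 ≤ r := by
    rcases Nat.eq_zero_or_pos r with h0 | h0
    · subst h0
      norm_num at hr
    · exact h0
  by_contra hcon
  push Not at hcon
  obtain ⟨W, hW⟩ : ∃ W, W = ∑ k ∈ Finset.univ.filter (fun k => h ≤ d k), w k := ⟨_, rfl⟩
  have hW0 : 0 ≤ W := by
    rw [hW]
    exact Finset.sum_nonneg fun k hk => hw k (Finset.mem_filter.1 hk).2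
  have h1 : ∑ s ∈ Finset.range (r ^ 2), ∑ k ∈ Hs d h r s, w k = ((r ^ 2 - r : ℕ) : ℝ) * W := by
    have e1 : ∀ s, ∑ k ∈ Hs d h r s, w k = ∑ k ∈ Finset.univ.filter (fun k => h ≤ d k),
        if r ≤ ((k : ℕ) + s) % r ^ 2 then w k else 0 := by
      intro s
      unfold Hs
      rw [← Finset.sum_filter, Finset.filter_filter]
    simp only [e1]
    rw [Finset.sum_comm, hW, Finset.mul_sum]
    refine Finset.sum_congr rfl fun k _ => ?_
    rw [← Finset.sum_filter, Finset.sum_const, DetA_cnt hr0, nsmul_eq_mul]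
  have h2 : ∑ s ∈ Finset.range (r ^ 2), ∑ k ∈ Hs d h r s, w k < ∑ s ∈ Finset.range (r ^ 2), (1 - η) * W := by
    refine Finset.sum_lt_sum_of_nonempty ⟨0, Finset.mem_range.2 (by positivity)⟩ fun s hs => ?_
    rw [hW]
    exact hcon s (Finset.mem_range.1 hs)
  rw [h1, Finset.sum_const, Finset.card_range, nsmul_eq_mul, Nat.cast_sub (by nlinarith)] at h2
  push_cast at h2
  have hr1 : (1 : ℝ) ≤ r := by exact_mod_cast hr0
  have h3 : (r : ℝ) ≤ η * r ^ 2 := by nlinarith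
  have h4 := mul_nonneg (sub_nonneg.2 h3) hW0
  nlinarith

theorem Hb_sub (hd : DUp d η θ (r ^ 2) q M) {s : ℕ} (hs : s < r ^ 2) (t : ℕ) :
    Hb d (η * θ) r s t ⊆ Hw d (η * θ) (t * r ^ 2 - s) (r ^ 2) := by
  intro k hk
  unfold Hb Hs at hk
  simp only [Finset.mem_filter, Finset.mem_univ, true_and] at hk
  obtain ⟨⟨h1, h2⟩, h3⟩ := hk
  have hR : 0 < r ^ 2 := by omega
  have e1 := Nat.div_add_mod ((k : ℕ) + s) (r ^ 2)
  have e2 := Nat.mod_lt ((k : ℕ) + s) hR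
  rw [h3] at e1
  unfold Hw
  simp only [Finset.mem_filter, Finset.mem_univ, true_and]
  have e3 : r ^ 2 * t = t * r ^ 2 := Nat.mul_comm _ _
  have e4 : t = 0 ∨ r ^ 2 ≤ t * r ^ 2 := by
    rcases Nat.eq_zero_or_pos t with h0 | h0
    · exact Or.inl h0
    · exact Or.inr (Nat.le_mul_of_pos_left _ h0)
  refine ⟨by omega, ?_, h1⟩
  rcases e4 with h0 | h0
  · subst h0
    omega
  · omega

theorem DetA_sep (hd : DUp d η θ (r ^ 2) q M) (hr : 1 ≤ r) {s : ℕ} {k l : Fin (2 * n)}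
    (hk : k ∈ Hs d (η * θ) r s) (hl : l ∈ Hs d (η * θ) r s)
    (hkl : ((k : ℕ) + s) / r ^ 2 ≠ ((l : ℕ) + s) / r ^ 2) : r ≤ cd k l := by
  obtain ⟨hk1, hk2⟩ := (Finset.mem_filter.1 hk).2
  obtain ⟨hl1, hl2⟩ := (Finset.mem_filter.1 hl).2
  obtain ⟨ek1, ek2⟩ := hd.edge k hk1
  obtain ⟨el1, el2⟩ := hd.edge l hl1
  have hR : r ≤ r ^ 2 := by nlinarith
  have dk := Nat.div_add_mod ((k : ℕ) + s) (r ^ 2)
  have dl := Nat.div_add_mod ((l : ℕ) + s) (r ^ 2)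
  have mk := Nat.mod_lt ((k : ℕ) + s) (show 0 < r ^ 2 by positivity)
  have ml := Nat.mod_lt ((l : ℕ) + s) (show 0 < r ^ 2 by positivity)
  have key : ((k : ℕ) + r ≤ l) ∨ ((l : ℕ) + r ≤ k) := by
    rcases lt_or_gt_of_ne hkl with h | h
    · left
      have h1 := Nat.mul_le_mul_left (r ^ 2) (Nat.succ_le_of_lt h)
      rw [Nat.mul_succ] at h1
      omega
    · right
      have h1 := Nat.mul_le_mul_left (r ^ 2) (Nat.succ_le_of_lt h)
      rw [Nat.mul_succ] at h1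
      omega
  unfold cd
  rw [le_min_iff]
  constructor <;> omega

theorem DetA_block (hd : DUp d η θ (r ^ 2) q M)
    (hbest : ∀ C : Finset (Fin (2 * n)), (∃ y : ℕ, ∀ k ∈ C, y ≤ (k : ℕ) ∧ (k : ℕ) < y + r ^ 2) → C.card ≤ q →
      ∀ (x : Fin (2 * n) → ℝ) (g : Fin (2 * n) → ℂ), (∀ k, 0 ≤ x k) →
      frm P C (fun k => (√(x k) : ℂ) * g k) ≤ (K + η) * √(∑ k ∈ C, x k ^ 2) * ∑ k ∈ C, ‖g k‖ ^ 2)
    (hη : 0 < η) (hθ : 0 < θ) {s : ℕ} (hs : s < r ^ 2) (v : Fin (2 * n) → ℂ) (t : ℕ) :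
    frm P (Hb d (η * θ) r s t) (fun k => (d k : ℂ) * v k) ≤
      (K + η) * √(∑ k ∈ Hb d (η * θ) r s t, d k ^ 2) * ∑ k ∈ Hb d (η * θ) r s t, d k * ‖v k‖ ^ 2 := by
  have hsub := Hb_sub hd hs t
  have hpos : ∀ k ∈ Hb d (η * θ) r s t, max (d k) 0 = d k := by
    intro k hk
    have h1 := (Finset.mem_filter.1 (Finset.mem_filter.1 hk).1).2.1
    have h2 := mul_pos hη hθ
    exact max_eq_left (by linarith)
  have h1 := hbest (Hb d (η * θ) r s t) ⟨t * r ^ 2 - s, fun k hk => by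
    have h3 := (Finset.mem_filter.1 (hsub hk)).2
    exact ⟨h3.1, h3.2.1⟩⟩ ((Finset.card_le_card hsub).trans (hd.cnt _)) (fun k => max (d k) 0)
    (fun k => (√(max (d k) 0) : ℂ) * v k) (fun k => le_max_right _ _)
  have e1 : ∑ k ∈ Hb d (η * θ) r s t, (max (d k) 0) ^ 2 = ∑ k ∈ Hb d (η * θ) r s t, d k ^ 2 :=
    Finset.sum_congr rfl fun k hk => by rw [hpos k hk]
  have e2 : ∑ k ∈ Hb d (η * θ) r s t, ‖(√(max (d k) 0) : ℂ) * v k‖ ^ 2 =
      ∑ k ∈ Hb d (η * θ) r s t, d k * ‖v k‖ ^ 2 := by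
    refine Finset.sum_congr rfl fun k hk => ?_
    rw [norm_mul, Complex.norm_real, mul_pow, Real.norm_eq_abs, sq_abs,
      Real.sq_sqrt (le_max_right _ _), hpos k hk]
  have e3 : ∀ k ∈ Hb d (η * θ) r s t, (√(max (d k) 0) : ℂ) * ((√(max (d k) 0) : ℂ) * v k) = (d k : ℂ) * v k := by
    intro k hk
    rw [← mul_assoc, ← Complex.ofReal_mul, Real.mul_self_sqrt (le_max_right _ _), hpos k hk]
  have e4 : frm P (Hb d (η * θ) r s t) (fun k => (d k : ℂ) * v k) =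
      frm P (Hb d (η * θ) r s t) (fun k => (√(max (d k) 0) : ℂ) * ((√(max (d k) 0) : ℂ) * v k)) := by
    unfold frm
    congr 1
    refine Finset.sum_congr rfl fun k hk => Finset.sum_congr rfl fun l hl => ?_
    simp only [e3 k hk, e3 l hl]
  rw [e4, ← e1, ← e2]
  exact h1

theorem frm_le (hP : P.IsHermitian) (hd : DUp d η θ (r ^ 2) q M)
    (hbest : ∀ C : Finset (Fin (2 * n)), (∃ y : ℕ, ∀ k ∈ C, y ≤ (k : ℕ) ∧ (k : ℕ) < y + r ^ 2) → C.card ≤ q →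
      ∀ (x : Fin (2 * n) → ℝ) (g : Fin (2 * n) → ℂ), (∀ k, 0 ≤ x k) →
      frm P C (fun k => (√(x k) : ℂ) * g k) ≤ (K + η) * √(∑ k ∈ C, x k ^ 2) * ∑ k ∈ C, ‖g k‖ ^ 2)
    (hsch : ∀ k, ∑ l ∈ Finset.univ.filter (fun l => η * θ ≤ d l ∧ r ≤ cd k l), ‖P k l‖ ≤ η)
    (hη : 0 < η) (hθ : 0 < θ) (hr : 1 ≤ r) {s : ℕ} (hs : s < r ^ 2) (v : Fin (2 * n) → ℂ) (T : Finset ℕ) :
    frm P (HT d (η * θ) r s T) (fun k => (d k : ℂ) * v k) ≤
      ∑ t ∈ T, (K + η) * √(∑ k ∈ Hb d (η * θ) r s t, d k ^ 2) * ∑ k ∈ Hb d (η * θ) r s t, d k * ‖v k‖ ^ 2 +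
      2 * θ * η * ∑ k ∈ HT d (η * θ) r s T, d k * ‖v k‖ ^ 2 := by
  classical
  obtain ⟨u, hu⟩ : ∃ u : Fin (2 * n) → ℂ, u = fun k => (d k : ℂ) * v k := ⟨_, rfl⟩
  obtain ⟨H, hH⟩ : ∃ H, H = HT d (η * θ) r s T := ⟨_, rfl⟩
  obtain ⟨bl, hbl⟩ : ∃ bl : Fin (2 * n) → ℕ, bl = fun k : Fin (2 * n) => ((k : ℕ) + s) / r ^ 2 :=
    ⟨_, rfl⟩
  obtain ⟨tm, htm⟩ : ∃ tm : Fin (2 * n) → Fin (2 * n) → ℝ,
      tm = fun k l => (starRingEnd ℂ (u k) * P k l * u l).re := ⟨_, rfl⟩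
  have ef : ∀ C : Finset (Fin (2 * n)), frm P C u = ∑ k ∈ C, ∑ l ∈ C, tm k l := by
    intro C
    unfold frm
    rw [Complex.re_sum, htm]
    exact Finset.sum_congr rfl fun k _ => Complex.re_sum _ _
  have hHs : ∀ k ∈ H, k ∈ Hs d (η * θ) r s := by
    intro k hk
    rw [hH] at hk
    exact (Finset.mem_filter.1 hk).1
  have hHT : ∀ k ∈ H, bl k ∈ T := by
    intro k hk
    rw [hH] at hk
    rw [hbl]
    exact (Finset.mem_filter.1 hk).2
  have hHb : ∀ t ∈ T, H.filter (fun k => bl k = t) = Hb d (η * θ) r s t := by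
    intro t ht
    rw [hH, hbl]
    unfold HT Hb
    rw [Finset.filter_filter]
    refine Finset.filter_congr fun k _ => ?_
    constructor
    · rintro ⟨_, h2⟩
      exact h2
    · intro h2
      exact ⟨by rw [h2]; exact ht, h2⟩
  -- the two parts
  have e1 : frm P H u = ∑ k ∈ H, ∑ l ∈ H.filter (fun l => bl l = bl k), tm k l +
      ∑ k ∈ H, ∑ l ∈ H.filter (fun l => bl l ≠ bl k), tm k l := by
    rw [ef, ← Finset.sum_add_distrib]
    exact Finset.sum_congr rfl fun k _ =>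
      (Finset.sum_filter_add_sum_filter_not H (fun l => bl l = bl k) (fun l => tm k l)).symm
  have e2 : ∑ k ∈ H, ∑ l ∈ H.filter (fun l => bl l = bl k), tm k l =
      ∑ t ∈ T, frm P (Hb d (η * θ) r s t) u := by
    rw [← Finset.sum_fiberwise_of_maps_to (g := bl) (t := T) hHT]
    refine Finset.sum_congr rfl fun t ht => ?_
    rw [ef, hHb t ht]
    refine Finset.sum_congr rfl fun k hk => ?_
    have h1 : bl k = t := by
      rw [hbl]
      exact (Finset.mem_filter.1 hk).2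
    rw [h1, hHb t ht]
  have hPs : ∀ k l, ‖P l k‖ = ‖P k l‖ := by
    intro k l
    rw [← hP.apply k l, norm_star]
  have e3 : ∑ k ∈ H, ∑ l ∈ H.filter (fun l => bl l ≠ bl k), tm k l ≤ η * ∑ k ∈ H, ‖u k‖ ^ 2 := by
    have a1 : ∀ k l, tm k l ≤ ‖P k l‖ * ‖u k‖ ^ 2 / 2 + ‖P k l‖ * ‖u l‖ ^ 2 / 2 := by
      intro k l
      have b1 : tm k l ≤ ‖starRingEnd ℂ (u k) * P k l * u l‖ := by
        rw [htm]
        exact Complex.re_le_norm _
      rw [norm_mul, norm_mul, RCLike.norm_conj] at b1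
      have b2 := mul_nonneg (norm_nonneg (P k l)) (sq_nonneg (‖u k‖ - ‖u l‖))
      nlinarith
    have a2 : ∑ k ∈ H, ∑ l ∈ H.filter (fun l => bl l ≠ bl k), ‖P k l‖ * ‖u l‖ ^ 2 / 2 =
        ∑ k ∈ H, ∑ l ∈ H.filter (fun l => bl l ≠ bl k), ‖P k l‖ * ‖u k‖ ^ 2 / 2 := by
      rw [Finset.sum_comm' (t' := H) (s' := fun l => H.filter (fun k => bl k ≠ bl l))]
      · refine Finset.sum_congr rfl fun k _ => Finset.sum_congr rfl fun l _ => ?_
        rw [hPs k l]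
      · intro x y
        simp only [Finset.mem_filter]
        constructor
        · rintro ⟨h1, h2, h3⟩
          exact ⟨⟨h1, h3.symm⟩, h2⟩
        · rintro ⟨⟨h1, h3⟩, h2⟩
          exact ⟨h1, h2, h3.symm⟩
    have a3 : ∀ k ∈ H, ∑ l ∈ H.filter (fun l => bl l ≠ bl k), ‖P k l‖ ≤ η := by
      intro k hk
      refine le_trans ?_ (hsch k)
      refine Finset.sum_le_sum_of_subset_of_nonneg (fun l hl => ?_) fun _ _ _ => norm_nonneg _
      obtain ⟨h1, h2⟩ := Finset.mem_filter.1 hl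
      have h3 := hHs l h1
      refine Finset.mem_filter.2 ⟨Finset.mem_univ _, (Finset.mem_filter.1 h3).2.1, ?_⟩
      refine DetA_sep hd hr (hHs k hk) h3 ?_
      rw [hbl] at h2
      exact fun h => h2 h.symm
    calc ∑ k ∈ H, ∑ l ∈ H.filter (fun l => bl l ≠ bl k), tm k l
        ≤ ∑ k ∈ H, ∑ l ∈ H.filter (fun l => bl l ≠ bl k),
          (‖P k l‖ * ‖u k‖ ^ 2 / 2 + ‖P k l‖ * ‖u l‖ ^ 2 / 2) :=
          Finset.sum_le_sum fun k _ => Finset.sum_le_sum fun l _ => a1 k l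
      _ = ∑ k ∈ H, ∑ l ∈ H.filter (fun l => bl l ≠ bl k), ‖P k l‖ * ‖u k‖ ^ 2 / 2 +
          ∑ k ∈ H, ∑ l ∈ H.filter (fun l => bl l ≠ bl k), ‖P k l‖ * ‖u l‖ ^ 2 / 2 := by
          rw [← Finset.sum_add_distrib]
          exact Finset.sum_congr rfl fun k _ => Finset.sum_add_distrib
      _ = ∑ k ∈ H, (∑ l ∈ H.filter (fun l => bl l ≠ bl k), ‖P k l‖) * ‖u k‖ ^ 2 := by
          rw [a2, ← Finset.sum_add_distrib]
          refine Finset.sum_congr rfl fun k _ => ?_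
          rw [← Finset.sum_add_distrib, Finset.sum_mul]
          refine Finset.sum_congr rfl fun l _ => ?_
          ring
      _ ≤ ∑ k ∈ H, η * ‖u k‖ ^ 2 :=
          Finset.sum_le_sum fun k hk => mul_le_mul_of_nonneg_right (a3 k hk) (sq_nonneg _)
      _ = η * ∑ k ∈ H, ‖u k‖ ^ 2 := by rw [Finset.mul_sum]
  have e4 : ∑ k ∈ H, ‖u k‖ ^ 2 ≤ 2 * θ * ∑ k ∈ H, d k * ‖v k‖ ^ 2 := by
    rw [Finset.mul_sum]
    refine Finset.sum_le_sum fun k hk => ?_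
    have h1 : η * θ ≤ d k := (Finset.mem_filter.1 (hHs k hk)).2.1
    have h2 : 0 < η * θ := mul_pos hη hθ
    have h3 := (abs_le.1 (hd.bd k)).2
    have h4 : ‖u k‖ ^ 2 = d k ^ 2 * ‖v k‖ ^ 2 := by
      rw [hu]
      show ‖(d k : ℂ) * v k‖ ^ 2 = _
      rw [norm_mul, Complex.norm_real, mul_pow, Real.norm_eq_abs, sq_abs]
    rw [h4]
    have h5 : d k ^ 2 ≤ 2 * θ * d k := by nlinarith
    have h6 := mul_le_mul_of_nonneg_right h5 (sq_nonneg ‖v k‖)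
    linarith
  have e5 : ∑ t ∈ T, frm P (Hb d (η * θ) r s t) u ≤
      ∑ t ∈ T, (K + η) * √(∑ k ∈ Hb d (η * θ) r s t, d k ^ 2) * ∑ k ∈ Hb d (η * θ) r s t, d k * ‖v k‖ ^ 2 := by
    refine Finset.sum_le_sum fun t _ => ?_
    rw [hu]
    exact DetA_block hd hbest hη hθ hs v t
  rw [← hH, ← hu, e1, e2]
  have e6 := mul_le_mul_of_nonneg_left e4 hη.le
  linarith

end TZ
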