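import Pool.Agent.TZ.Defs
import Pool.Agent.TZ.DetA

/-!
Project TZ (MP_b753aa_pr), module DetB: the deterministic localization theorem.
Proof. `h = ηθ`, weights `w k = d k ‖v k‖²`, `s` from `shift`, `A = Hs`, `γ² = ∑_A w`. `∑_{d<h} d‖v‖² ≤ h`, so
`∑_{high} w ≥ (K - 6η)θ` and `γ² ≥ (1-η)(K-6η)θ ≥ (K-7η)θ`. For a set `T` of blocks put `z_T = P (1_{HT T} d v)`; `‖z_T‖² = frm P (HT T) (d v)`
(`P` hermitian, idempotent), `⟨v, z_T⟩ = ∑_{HT T} w` (`P v = v`). Let `κ_t = (K+η) √(∑_{Hb t} d²) ≤ (K+η)(1+η)θ ≤ (K+3η)θ` (`Hb_sub`, `DUp.sq`).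
(1) all blocks: `‖v - z/γ²‖² = 1 - 2 + ‖z‖²/γ⁴ ≤ (K+5η)θ/γ² - 1 ≤ 12η/(K-7η) ≤ 48η`.
(2) `0 ≤ ‖v - z/γ²‖²` gives `γ⁴ ≤ ‖z‖² ≤ ∑ κ_t w_t + 2θη γ²`, so `∑ κ_t w_t ≥ (γ² - 2θη)γ² ≥ (K-9η)θ γ²`; `bad` = blocks with
`κ_t < (K+3η-√η)θ`: `√η θ ∑_{bad} w_t ≤ ∑ w_t((K+3η)θ - κ_t) ≤ 12ηθγ²`, so `∑_{bad} w_t ≤ 12√η γ²`, and
`‖z_bad‖² ≤ (K+5η)θ · 12√η γ² ≤ 24√η θ γ²`, `‖z_bad‖²/γ⁴ ≤ 24√η/(K-7η) ≤ 96√η`.
(3) good blocks: `√(∑_{Hb t} d²) ≥ (K+3η-√η)θ/(K+η) ≥ (1-4√η)θ`, so (`DUp.few`, `Hb_sub`) `t r² - s ∈ F`, and `t ↦ t r² - s` is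
injective on `t ≥ 1`; `t = 0` has no high site (`edge`). So there are at most `M` good blocks, each with at most `q` sites: `W = HT good`, `card W ≤ M q`.
`S = {k | ∃ l ∈ W, cd k l < R}`, `card S ≤ 2R card W`. Outside of `S`: `‖(z_good) k‖² ≤ (∑_{l∈W} ‖P k l‖²)(∑_W d²‖v‖²)`, sum over `k ∉ S`:
`≤ (card W/R) 2θ γ²` (`htail`), `/γ⁴`: `≤ η · 2θ/γ² ≤ 8η`.
(4) `√(mass outside S) ≤ √(48η) + √(96√η) + √(8η)`, square `≤ 200√η` for `η ≤ 1/10000`.
-/

noncomputable section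

namespace TZ

open MeasureTheory ProbabilityTheory Filter Topology Matrix
open scoped Real

variable {n : ℕ} {P : Matrix (Fin (2 * n)) (Fin (2 * n)) ℂ} {d : Fin (2 * n) → ℝ} {K η θ : ℝ} {r q M R : ℕ}

/-- restriction to a finite set -/
private def detB_ind (C : Finset (Fin (2 * n))) (u : Fin (2 * n) → ℂ) : Fin (2 * n) → ℂ :=
  fun k => if k ∈ C then u k else 0

private theorem detB_mul (C : Finset (Fin (2 * n))) (u : Fin (2 * n) → ℂ) (k : Fin (2 * n)) :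
    (P *ᵥ detB_ind C u) k = ∑ l ∈ C, P k l * u l := by
  unfold Matrix.mulVec dotProduct detB_ind
  rw [← Finset.sum_subset (Finset.subset_univ C)]
  · exact Finset.sum_congr rfl fun l hl => by rw [if_pos hl]
  · intro l _ hl
    rw [if_neg hl, mul_zero]

private theorem detB_norm (hP : P.IsHermitian) (hP2 : P * P = P) (C : Finset (Fin (2 * n)))
    (u : Fin (2 * n) → ℂ) : ∑ k, ‖(P *ᵥ detB_ind C u) k‖ ^ 2 = frm P C u := by
  set U := detB_ind C u with hU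
  have hz : star (P *ᵥ U) ⬝ᵥ (P *ᵥ U) = star U ⬝ᵥ (P *ᵥ U) := by
    rw [Matrix.star_mulVec, ← Matrix.dotProduct_mulVec, Matrix.mulVec_mulVec, hP.eq, hP2]
  have h1 : star (P *ᵥ U) ⬝ᵥ (P *ᵥ U) = ((∑ k, ‖(P *ᵥ U) k‖ ^ 2 : ℝ) : ℂ) := by
    unfold dotProduct
    rw [Complex.ofReal_sum]
    refine Finset.sum_congr rfl fun k _ => ?_
    rw [Pi.star_apply, Complex.star_def, Complex.conj_mul']
    push_cast
    rfl
  have h2 : star U ⬝ᵥ (P *ᵥ U) = ∑ k ∈ C, ∑ l ∈ C, starRingEnd ℂ (u k) * P k l * u l := by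
    have h3 : star U ⬝ᵥ (P *ᵥ U) = ∑ k, starRingEnd ℂ (U k) * (P *ᵥ U) k := rfl
    rw [h3, ← Finset.sum_subset (Finset.subset_univ C)]
    · refine Finset.sum_congr rfl fun k hk => ?_
      rw [hU, detB_mul, Finset.mul_sum]
      refine Finset.sum_congr rfl fun l _ => ?_
      have h4 : detB_ind C u k = u k := by
        unfold detB_ind
        rw [if_pos hk]
      rw [h4]
      ring
    · intro k _ hk
      have h4 : U k = 0 := by
        rw [hU]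
        unfold detB_ind
        rw [if_neg hk]
      rw [h4, map_zero, zero_mul]
  unfold frm
  rw [← h2, ← hz, h1, Complex.ofReal_re]

private theorem detB_inner (hP : P.IsHermitian) {v : Fin (2 * n) → ℂ} (hv : P *ᵥ v = v)
    (C : Finset (Fin (2 * n))) (d : Fin (2 * n) → ℝ) :
    ∑ k, starRingEnd ℂ (v k) * (P *ᵥ detB_ind C (fun k => (d k : ℂ) * v k)) k =
      ((∑ k ∈ C, d k * ‖v k‖ ^ 2 : ℝ) : ℂ) := by
  set U := detB_ind C (fun k => (d k : ℂ) * v k) with hU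
  have h3 : ∑ k, starRingEnd ℂ (v k) * (P *ᵥ U) k = star v ⬝ᵥ (P *ᵥ U) := rfl
  have h4 : star v ⬝ᵥ (P *ᵥ U) = star v ⬝ᵥ U := by
    have h5 : star v = star (P *ᵥ v) := by rw [hv]
    have h6 : star (P *ᵥ v) = star v ᵥ* P := by rw [Matrix.star_mulVec, hP.eq]
    rw [Matrix.dotProduct_mulVec, ← h6, hv]
  have h7 : star v ⬝ᵥ U = ∑ k, starRingEnd ℂ (v k) * U k := rfl
  rw [h3, h4, h7, ← Finset.sum_subset (Finset.subset_univ C), Complex.ofReal_sum]
  · refine Finset.sum_congr rfl fun k hk => ?_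
    have h8 : U k = (d k : ℂ) * v k := by
      rw [hU]
      unfold detB_ind
      rw [if_pos hk]
    rw [h8]
    have h9 := Complex.conj_mul' (v k)
    calc starRingEnd ℂ (v k) * ((d k : ℂ) * v k) = (d k : ℂ) * (starRingEnd ℂ (v k) * v k) := by ring
      _ = _ := by
        rw [h9]
        push_cast
        ring
  · intro k _ hk
    have h8 : U k = 0 := by
      rw [hU]
      unfold detB_ind
      rw [if_neg hk]
    rw [h8, mul_zero]

private theorem detB_count (l : Fin (2 * n)) (R : ℕ) :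
    (Finset.univ.filter fun k : Fin (2 * n) => cd k l < R).card ≤ 2 * R := by
  have h : (Finset.univ.filter fun k : Fin (2 * n) => cd k l < R).card ≤ (Finset.range (2 * R)).card := by
    refine Finset.card_le_card_of_injOn (fun k : Fin (2 * n) =>
      if (l : ℕ) ≤ k then (if (k : ℕ) - l < R then (k : ℕ) - l else R + (2 * n - ((k : ℕ) - l)))
      else (if (l : ℕ) - k < R then R + ((l : ℕ) - k) else 2 * n - ((l : ℕ) - k))) ?_ ?_
    · intro k hk
      have hk' := (Finset.mem_filter.1 (Finset.mem_coe.1 hk)).2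
      have h1 := k.2
      have h2 := l.2
      unfold cd at hk'
      rw [Finset.mem_coe, Finset.mem_range]
      show (if (l : ℕ) ≤ k then (if (k : ℕ) - l < R then (k : ℕ) - l else R + (2 * n - ((k : ℕ) - l)))
        else (if (l : ℕ) - k < R then R + ((l : ℕ) - k) else 2 * n - ((l : ℕ) - k))) < 2 * R
      split_ifs <;> omega
    · intro k hk k' hk' he
      have hk1 := (Finset.mem_filter.1 (Finset.mem_coe.1 hk)).2
      have hk2 := (Finset.mem_filter.1 (Finset.mem_coe.1 hk')).2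
      have h1 := k.2
      have h2 := l.2
      have h3 := k'.2
      unfold cd at hk1 hk2
      apply Fin.ext
      simp only at he
      split_ifs at he <;> omega
  rwa [Finset.card_range] at h

private theorem detB_card (W : Finset (Fin (2 * n))) (R : ℕ) :
    (Finset.univ.filter fun k : Fin (2 * n) => ∃ l ∈ W, cd k l < R).card ≤ 2 * R * W.card := by
  classical
  have h1 : (Finset.univ.filter fun k : Fin (2 * n) => ∃ l ∈ W, cd k l < R) =
      W.biUnion fun l => Finset.univ.filter fun k : Fin (2 * n) => cd k l < R := by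
    ext k
    simp
  rw [h1, mul_comm (2 * R)]
  exact Finset.card_biUnion_le_card_mul _ _ _ fun l _ => detB_count l R

/-- sums over blocks -/
private theorem detB_blocks (h : ℝ) (r s : ℕ) (T : Finset ℕ) (f : Fin (2 * n) → ℝ) :
    ∑ t ∈ T, ∑ k ∈ Hb d h r s t, f k = ∑ k ∈ HT d h r s T, f k := by
  have h1 := Finset.sum_fiberwise_of_maps_to (s := HT d h r s T) (t := T)
    (g := fun k : Fin (2 * n) => ((k : ℕ) + s) / r ^ 2) (fun k hk => (Finset.mem_filter.1 hk).2) f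
  rw [← h1]
  refine Finset.sum_congr rfl fun t ht => ?_
  apply Finset.sum_congr _ fun _ _ => rfl
  unfold Hb HT
  ext k
  simp only [Finset.mem_filter]
  constructor
  · rintro ⟨h2, h3⟩
    exact ⟨⟨h2, h3 ▸ ht⟩, h3⟩
  · rintro ⟨⟨h2, _⟩, h3⟩
    exact ⟨h2, h3⟩

/-- mass of `z` outside of the neighbourhood of `W` -/
private theorem detB_out (htail : ∀ W : Finset (Fin (2 * n)),
      ∑ k ∈ Finset.univ.filter (fun k => ∀ l ∈ W, R ≤ cd k l), ∑ l ∈ W, ‖P k l‖ ^ 2 ≤ (W.card : ℝ) / R)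
    (W : Finset (Fin (2 * n))) (u : Fin (2 * n) → ℂ) :
    ∑ k ∈ Finset.univ.filter (fun k : Fin (2 * n) => ¬ ∃ l ∈ W, cd k l < R), ‖(P *ᵥ detB_ind W u) k‖ ^ 2 ≤
      (W.card : ℝ) / R * ∑ l ∈ W, ‖u l‖ ^ 2 := by
  have h1 : Finset.univ.filter (fun k : Fin (2 * n) => ¬ ∃ l ∈ W, cd k l < R) =
      Finset.univ.filter (fun k => ∀ l ∈ W, R ≤ cd k l) := by
    ext k
    simp
  rw [h1]
  calc _ ≤ ∑ k ∈ Finset.univ.filter (fun k => ∀ l ∈ W, R ≤ cd k l),
        (∑ l ∈ W, ‖P k l‖ ^ 2) * ∑ l ∈ W, ‖u l‖ ^ 2 := by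
        refine Finset.sum_le_sum fun k _ => ?_
        rw [detB_mul]
        have h2 : ‖∑ l ∈ W, P k l * u l‖ ≤ ∑ l ∈ W, ‖P k l‖ * ‖u l‖ :=
          norm_sum_le_of_le W fun l _ => (norm_mul _ _).le
        exact (pow_le_pow_left₀ (norm_nonneg _) h2 2).trans (Finset.sum_mul_sq_le_sq_mul_sq W _ _)
    _ = (∑ k ∈ Finset.univ.filter (fun k => ∀ l ∈ W, R ≤ cd k l), ∑ l ∈ W, ‖P k l‖ ^ 2) *
          ∑ l ∈ W, ‖u l‖ ^ 2 := by rw [Finset.sum_mul]
    _ ≤ _ := mul_le_mul_of_nonneg_right (htail W) (Finset.sum_nonneg fun _ _ => by positivity)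

/-- number of good blocks -/
private theorem detB_good (hd : DUp d η θ (r ^ 2) q M) (hη : 0 < η) (hη1 : η ≤ 1 / 10000) (hθ : 0 < θ)
    (hr1 : 1 ≤ r) {s : ℕ} (hs : s < r ^ 2) (good : Finset ℕ)
    (hne : ∀ t ∈ good, (Hb d (η * θ) r s t).Nonempty)
    (hg : ∀ t ∈ good, (1 - 4 * √η) * θ ≤ √(∑ k ∈ Hb d (η * θ) r s t, d k ^ 2)) :
    (HT d (η * θ) r s good).card ≤ M * q := by
  classical
  obtain ⟨F, hF, hfew⟩ := hd.few
  have hsη : √η ≤ 1 / 100 := by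
    rw [Real.sqrt_le_left (by norm_num)]
    linarith
  have h14 : 0 ≤ (1 - 4 * √η) * θ := mul_nonneg (by linarith) hθ.le
  have hr2 : 1 ≤ r ^ 2 := Nat.one_le_pow _ _ hr1
  -- blocks are `≥ 1`
  have ht1 : ∀ t ∈ good, 1 ≤ t := by
    intro t ht
    obtain ⟨k, hk⟩ := hne t ht
    by_contra hcon
    have ht0 : t = 0 := by omega
    have h1 := Finset.mem_filter.1 hk
    have h2 := (Finset.mem_filter.1 h1.1).2
    have h3 := (hd.edge k h2.1).1
    have h4 : ((k : ℕ) + s) / r ^ 2 = 0 := by rw [h1.2, ht0]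
    rw [Nat.div_eq_zero_iff] at h4
    omega
  have hcard : good.card ≤ M := by
    refine le_trans ?_ hF
    refine Finset.card_le_card_of_injOn (fun t => t * r ^ 2 - s) ?_ ?_
    · intro t ht
      have ht' := Finset.mem_coe.1 ht
      rw [Finset.mem_coe]
      apply hfew
      · exact (hne t ht').mono (Hb_sub hd hs t)
      · have h1 : ((1 - 4 * √η) * θ) ^ 2 ≤ ∑ k ∈ Hb d (η * θ) r s t, d k ^ 2 := by
          have h2 := pow_le_pow_left₀ h14 (hg t ht') 2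
          rwa [Real.sq_sqrt (Finset.sum_nonneg fun _ _ => by positivity)] at h2
        refine h1.trans (Finset.sum_le_sum_of_subset_of_nonneg (Hb_sub hd hs t) fun _ _ _ => by positivity)
    · intro t ht t' ht' he
      have h1 := ht1 t (Finset.mem_coe.1 ht)
      have h2 := ht1 t' (Finset.mem_coe.1 ht')
      have h3 : r ^ 2 ≤ t * r ^ 2 := Nat.le_mul_of_pos_left _ h1
      have h4 : r ^ 2 ≤ t' * r ^ 2 := Nat.le_mul_of_pos_left _ h2
      simp only at he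
      have h5 : t * r ^ 2 = t' * r ^ 2 := by omega
      exact Nat.eq_of_mul_eq_mul_right (by omega) h5
  have hsub : HT d (η * θ) r s good ⊆ good.biUnion fun t => Hb d (η * θ) r s t := by
    intro k hk
    have h1 := Finset.mem_filter.1 hk
    rw [Finset.mem_biUnion]
    exact ⟨_, h1.2, Finset.mem_filter.2 ⟨h1.1, rfl⟩⟩
  calc (HT d (η * θ) r s good).card ≤ (good.biUnion fun t => Hb d (η * θ) r s t).card :=
        Finset.card_le_card hsub
    _ ≤ good.card * q := Finset.card_biUnion_le_card_mul _ _ _ fun t _ =>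
        (Finset.card_le_card (Hb_sub hd hs t)).trans (hd.cnt _)
    _ ≤ M * q := Nat.mul_le_mul_right _ hcard

theorem det (hP : P.IsHermitian) (hP2 : P * P = P) (hd : DUp d η θ (r ^ 2) q M)
    (hbest : ∀ C : Finset (Fin (2 * n)), (∃ y : ℕ, ∀ k ∈ C, y ≤ (k : ℕ) ∧ (k : ℕ) < y + r ^ 2) → C.card ≤ q →
      ∀ (x : Fin (2 * n) → ℝ) (g : Fin (2 * n) → ℂ), (∀ k, 0 ≤ x k) →
      frm P C (fun k => (√(x k) : ℂ) * g k) ≤ (K + η) * √(∑ k ∈ C, x k ^ 2) * ∑ k ∈ C, ‖g k‖ ^ 2)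
    (hsch : ∀ k, ∑ l ∈ Finset.univ.filter (fun l => η * θ ≤ d l ∧ r ≤ cd k l), ‖P k l‖ ≤ η)
    (htail : ∀ W : Finset (Fin (2 * n)),
      ∑ k ∈ Finset.univ.filter (fun k => ∀ l ∈ W, R ≤ cd k l), ∑ l ∈ W, ‖P k l‖ ^ 2 ≤ (W.card : ℝ) / R)
    (hη : 0 < η) (hη1 : η ≤ 1 / 10000) (hK : 1 / 2 ≤ K) (hK1 : K ≤ 1) (hθ : 0 < θ) (hr : 1 ≤ η * r)
    (hR1 : 1 ≤ R) (hR : (M * q : ℝ) ≤ η * R) {v : Fin (2 * n) → ℂ} (hv : P *ᵥ v = v)
    (hv1 : ∑ k, ‖v k‖ ^ 2 = 1) (hlam : (K - 5 * η) * θ ≤ ∑ k, d k * ‖v k‖ ^ 2) :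
    ∃ S : Finset (Fin (2 * n)), S.card ≤ 2 * R * (M * q) ∧ 1 - 200 * √η ≤ ∑ k ∈ S, ‖v k‖ ^ 2 := by
  classical
  set h : ℝ := η * θ with hh
  have hh0 : 0 < h := mul_pos hη hθ
  have hsη0 : 0 < √η := Real.sqrt_pos.2 hη
  have hsη2 : √η * √η = η := Real.mul_self_sqrt hη.le
  have hsη : √η ≤ 1 / 100 := by
    rw [Real.sqrt_le_left (by norm_num)]
    linarith
  have hηs : η ≤ √η / 100 := by
    calc η = √η * √η := hsη2.symm
      _ ≤ √η * (1 / 100) := mul_le_mul_of_nonneg_left hsη hsη0.le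
      _ = √η / 100 := by ring
  have hr1 : 1 ≤ r := by
    by_contra hcon
    have h0 : r = 0 := by omega
    rw [h0] at hr
    norm_num at hr
  set w : Fin (2 * n) → ℝ := fun k => d k * ‖v k‖ ^ 2 with hw
  have hwpos : ∀ k, h ≤ d k → 0 ≤ w k := fun k hk => mul_nonneg (by linarith) (by positivity)
  obtain ⟨s, hs, hshift⟩ := shift (d := d) (r := r) w h hwpos hη hr
  set A := Hs d h r s with hA
  set G : ℝ := ∑ k ∈ A, w k with hG
  have hAhigh : ∀ k ∈ A, h ≤ d k := fun k hk => (Finset.mem_filter.1 hk).2.1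
  -- lower bound for `G`
  have hGlow : (K - 7 * η) * θ ≤ G := by
    have h1 : ∑ k, w k = ∑ k ∈ Finset.univ.filter (fun k => h ≤ d k), w k +
        ∑ k ∈ Finset.univ.filter (fun k => ¬ h ≤ d k), w k := (Finset.sum_filter_add_sum_filter_not _ _ _).symm
    have h2 : ∑ k ∈ Finset.univ.filter (fun k => ¬ h ≤ d k), w k ≤ h := by
      calc _ ≤ ∑ k ∈ Finset.univ.filter (fun k => ¬ h ≤ d k), h * ‖v k‖ ^ 2 := by
            refine Finset.sum_le_sum fun k hk => ?_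
            have h3 := (Finset.mem_filter.1 hk).2
            exact mul_le_mul_of_nonneg_right (not_le.1 h3).le (by positivity)
        _ ≤ ∑ k, h * ‖v k‖ ^ 2 := Finset.sum_le_sum_of_subset_of_nonneg (Finset.subset_univ _)
            fun _ _ _ => by positivity
        _ = h := by rw [← Finset.mul_sum, hv1, mul_one]
    have h3 : (K - 6 * η) * θ ≤ ∑ k ∈ Finset.univ.filter (fun k => h ≤ d k), w k := by
      have h4 : (K - 5 * η) * θ ≤ ∑ k, w k := hlam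
      have h5 : (K - 6 * η) * θ = (K - 5 * η) * θ - h := by rw [hh]; ring
      linarith
    have h6 : (1 - η) * ((K - 6 * η) * θ) ≤ (1 - η) * ∑ k ∈ Finset.univ.filter (fun k => h ≤ d k), w k :=
      mul_le_mul_of_nonneg_left h3 (by linarith)
    have h7 : (K - 7 * η) * θ ≤ (1 - η) * ((K - 6 * η) * θ) := by
      have h8 : K - 7 * η ≤ (1 - η) * (K - 6 * η) := by nlinarith
      calc (K - 7 * η) * θ ≤ ((1 - η) * (K - 6 * η)) * θ := mul_le_mul_of_nonneg_right h8 hθ.le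
        _ = _ := by ring
    linarith
  have hKη : 1 / 4 ≤ K - 7 * η := by linarith
  have hGθ : θ / 4 ≤ G := by
    have : 1 / 4 * θ ≤ (K - 7 * η) * θ := mul_le_mul_of_nonneg_right hKη hθ.le
    linarith
  have hG0 : 0 < G := by linarith
  -- blocks
  set T₀ : Finset ℕ := A.image (fun k : Fin (2 * n) => ((k : ℕ) + s) / r ^ 2) with hT₀
  have hHTall : HT d h r s T₀ = A := by
    unfold HT
    rw [← hA, Finset.filter_true_of_mem]
    intro k hk
    exact Finset.mem_image_of_mem _ hk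
  have hHTsub : ∀ T, HT d h r s T ⊆ A := fun T => Finset.filter_subset _ _
  set κ : ℕ → ℝ := fun t => (K + η) * √(∑ k ∈ Hb d h r s t, d k ^ 2) with hκ
  set wt : ℕ → ℝ := fun t => ∑ k ∈ Hb d h r s t, w k with hwt
  have hwt0 : ∀ t, 0 ≤ wt t := fun t => Finset.sum_nonneg fun k hk =>
    hwpos k (hAhigh k (Finset.mem_filter.1 hk).1)
  have hwtT : ∀ T, ∑ t ∈ T, wt t = ∑ k ∈ HT d h r s T, w k := fun T => detB_blocks h r s T w
  have hκle : ∀ t, κ t ≤ (K + 3 * η) * θ := by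
    intro t
    have h1 : ∑ k ∈ Hb d h r s t, d k ^ 2 ≤ ((1 + η) * θ) ^ 2 :=
      (Finset.sum_le_sum_of_subset_of_nonneg (Hb_sub hd hs t) fun _ _ _ => by positivity).trans (hd.sq _)
    have h2 : √(∑ k ∈ Hb d h r s t, d k ^ 2) ≤ (1 + η) * θ := by
      rw [← Real.sqrt_sq (show 0 ≤ (1 + η) * θ by positivity)]
      exact Real.sqrt_le_sqrt h1
    calc κ t ≤ (K + η) * ((1 + η) * θ) := mul_le_mul_of_nonneg_left h2 (by linarith)
      _ = ((K + η) * (1 + η)) * θ := by ring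
      _ ≤ (K + 3 * η) * θ := mul_le_mul_of_nonneg_right (by nlinarith) hθ.le
  -- the vectors `z_T`
  set u : Fin (2 * n) → ℂ := fun k => (d k : ℂ) * v k with hu
  have hform : ∀ T : Finset ℕ, ∑ k, ‖(P *ᵥ detB_ind (HT d h r s T) u) k‖ ^ 2 ≤
      ∑ t ∈ T, κ t * wt t + 2 * θ * η * ∑ k ∈ HT d h r s T, w k := by
    intro T
    rw [detB_norm hP hP2]
    exact frm_le hP hd hbest hsch hη hθ hr1 hs v T
  set z : Fin (2 * n) → ℂ := P *ᵥ detB_ind A u with hz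
  have hzn : ∑ k, ‖z k‖ ^ 2 ≤ ∑ t ∈ T₀, κ t * wt t + 2 * θ * η * G := by
    have h1 := hform T₀
    rw [hHTall] at h1
    exact h1
  have hGsum : ∑ t ∈ T₀, wt t = G := by rw [hwtT, hHTall]
  have hzup : ∑ k, ‖z k‖ ^ 2 ≤ (K + 5 * η) * θ * G := by
    refine hzn.trans ?_
    have h1 : ∑ t ∈ T₀, κ t * wt t ≤ (K + 3 * η) * θ * G := by
      rw [← hGsum, Finset.mul_sum]
      exact Finset.sum_le_sum fun t _ => mul_le_mul_of_nonneg_right (hκle t) (hwt0 t)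
    nlinarith
  -- `‖v - z/G‖²`
  have hdiff : ∑ k, ‖v k - (G : ℂ)⁻¹ * z k‖ ^ 2 = -1 + (∑ k, ‖z k‖ ^ 2) / G ^ 2 := by
    have h1 : ∀ k, ‖v k - (G : ℂ)⁻¹ * z k‖ ^ 2 =
        ‖v k‖ ^ 2 + G⁻¹ ^ 2 * ‖z k‖ ^ 2 - 2 * (G⁻¹ * (starRingEnd ℂ (v k) * z k).re) := by
      intro k
      rw [Complex.sq_norm, Complex.normSq_sub, ← Complex.sq_norm, ← Complex.sq_norm, norm_mul, mul_pow]
      have h2 : ‖(G : ℂ)⁻¹‖ = G⁻¹ := by
        rw [norm_inv, Complex.norm_real, Real.norm_of_nonneg hG0.le]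
      have h3 : (v k * starRingEnd ℂ ((G : ℂ)⁻¹ * z k)).re = G⁻¹ * (starRingEnd ℂ (v k) * z k).re := by
        rw [map_mul, map_inv₀, Complex.conj_ofReal]
        have h4 : v k * ((G : ℂ)⁻¹ * starRingEnd ℂ (z k)) = ((G⁻¹ : ℝ) : ℂ) * (v k * starRingEnd ℂ (z k)) := by
          push_cast
          ring
        rw [h4, Complex.re_ofReal_mul]
        congr 1
        simp only [Complex.mul_re, Complex.conj_re, Complex.conj_im]
        ring
      rw [h2, h3]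
    have h5 : ∑ k, (starRingEnd ℂ (v k) * z k).re = G := by
      rw [← Complex.re_sum, hz, hu, detB_inner hP hv A d, Complex.ofReal_re]
    simp_rw [h1]
    rw [Finset.sum_sub_distrib, Finset.sum_add_distrib, hv1, ← Finset.mul_sum, ← Finset.mul_sum, ← Finset.mul_sum, h5]
    field_simp
    ring
  -- (1)
  have h1 : ∑ k, ‖v k - (G : ℂ)⁻¹ * z k‖ ^ 2 ≤ 48 * η := by
    rw [hdiff]
    have h2 : (∑ k, ‖z k‖ ^ 2) / G ^ 2 ≤ 1 + 48 * η := by
      rw [div_le_iff₀ (by positivity)]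
      refine hzup.trans ?_
      have h3 : (K + 5 * η) * θ ≤ (1 + 48 * η) * G := by
        have h4 : (1 + 48 * η) * ((K - 7 * η) * θ) ≤ (1 + 48 * η) * G :=
          mul_le_mul_of_nonneg_left hGlow (by linarith)
        have h5 : (K + 5 * η) ≤ (1 + 48 * η) * (K - 7 * η) := by nlinarith
        have h6 := mul_le_mul_of_nonneg_right h5 hθ.le
        nlinarith
      calc (K + 5 * η) * θ * G ≤ ((1 + 48 * η) * G) * G := mul_le_mul_of_nonneg_right h3 hG0.le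
        _ = _ := by ring
    linarith
  -- (2)
  have h2a : (K - 9 * η) * θ * G ≤ ∑ t ∈ T₀, κ t * wt t := by
    have h3 : 0 ≤ ∑ k, ‖v k - (G : ℂ)⁻¹ * z k‖ ^ 2 := Finset.sum_nonneg fun _ _ => by positivity
    rw [hdiff] at h3
    have h4 : G ^ 2 ≤ ∑ k, ‖z k‖ ^ 2 := by
      have h5 : 1 ≤ (∑ k, ‖z k‖ ^ 2) / G ^ 2 := by linarith
      rwa [one_le_div (by positivity)] at h5
    have h6 : G ^ 2 ≤ ∑ t ∈ T₀, κ t * wt t + 2 * θ * η * G := h4.trans hzn
    have h7 : (K - 7 * η) * θ * G ≤ G * G := mul_le_mul_of_nonneg_right hGlow hG0.le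
    nlinarith
  set bad : Finset ℕ := T₀.filter (fun t => κ t < (K + 3 * η - √η) * θ) with hbad
  set good : Finset ℕ := T₀.filter (fun t => ¬ κ t < (K + 3 * η - √η) * θ) with hgood
  have h2b : ∑ t ∈ bad, wt t ≤ 12 * √η * G := by
    have h3 : ∑ t ∈ T₀, wt t * ((K + 3 * η) * θ - κ t) ≤ 12 * η * θ * G := by
      have h4 : ∑ t ∈ T₀, wt t * ((K + 3 * η) * θ - κ t) = (K + 3 * η) * θ * G - ∑ t ∈ T₀, κ t * wt t := by
        rw [← hGsum, Finset.mul_sum, ← Finset.sum_sub_distrib]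
        exact Finset.sum_congr rfl fun t _ => by ring
      rw [h4]
      nlinarith
    have h5 : √η * θ * ∑ t ∈ bad, wt t ≤ ∑ t ∈ T₀, wt t * ((K + 3 * η) * θ - κ t) := by
      calc √η * θ * ∑ t ∈ bad, wt t = ∑ t ∈ bad, wt t * (√η * θ) := by
            rw [mul_comm, Finset.sum_mul]
        _ ≤ ∑ t ∈ bad, wt t * ((K + 3 * η) * θ - κ t) := by
            refine Finset.sum_le_sum fun t ht => mul_le_mul_of_nonneg_left ?_ (hwt0 t)
            have h6 := (Finset.mem_filter.1 ht).2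
            nlinarith
        _ ≤ _ := Finset.sum_le_sum_of_subset_of_nonneg (Finset.filter_subset _ _) fun t _ _ =>
            mul_nonneg (hwt0 t) (by have := hκle t; linarith)
    have h7 : √η * θ * ∑ t ∈ bad, wt t ≤ √η * θ * (12 * √η * G) := by
      calc √η * θ * ∑ t ∈ bad, wt t ≤ 12 * η * θ * G := h5.trans h3
        _ = 12 * (√η * √η) * θ * G := by rw [hsη2]
        _ = √η * θ * (12 * √η * G) := by ring
    exact le_of_mul_le_mul_left h7 (by positivity)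
  have h2c : ∑ k, ‖(P *ᵥ detB_ind (HT d h r s bad) u) k‖ ^ 2 ≤ 24 * √η * θ * G := by
    refine (hform bad).trans ?_
    rw [← hwtT bad]
    have h3 : ∑ t ∈ bad, κ t * wt t ≤ (K + 3 * η) * θ * ∑ t ∈ bad, wt t := by
      rw [Finset.mul_sum]
      exact Finset.sum_le_sum fun t _ => mul_le_mul_of_nonneg_right (hκle t) (hwt0 t)
    have h4 : (K + 3 * η) * θ * ∑ t ∈ bad, wt t + 2 * θ * η * ∑ t ∈ bad, wt t =
        (K + 5 * η) * θ * ∑ t ∈ bad, wt t := by ring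
    have h5 : (K + 5 * η) * θ * ∑ t ∈ bad, wt t ≤ 2 * θ * (12 * √η * G) := by
      have h6 : (K + 5 * η) * θ ≤ 2 * θ := mul_le_mul_of_nonneg_right (by linarith) hθ.le
      exact mul_le_mul h6 h2b (Finset.sum_nonneg fun t _ => hwt0 t) (by positivity)
    linarith
  -- (3)
  set W : Finset (Fin (2 * n)) := HT d h r s good with hW
  have hWcard : W.card ≤ M * q := by
    apply detB_good hd hη hη1 hθ hr1 hs good
    · intro t ht
      have h3 := (Finset.mem_filter.1 ht).1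
      obtain ⟨k, hk, hk2⟩ := Finset.mem_image.1 h3
      exact ⟨k, Finset.mem_filter.2 ⟨hk, hk2⟩⟩
    · intro t ht
      have h3 := not_lt.1 (Finset.mem_filter.1 ht).2
      have h4 : (K + η) * ((1 - 4 * √η) * θ) ≤ (K + 3 * η - √η) * θ := by
        have h5 : (K + η) * (1 - 4 * √η) ≤ K + 3 * η - √η := by nlinarith
        calc (K + η) * ((1 - 4 * √η) * θ) = ((K + η) * (1 - 4 * √η)) * θ := by ring
          _ ≤ _ := mul_le_mul_of_nonneg_right h5 hθ.le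
      exact le_of_mul_le_mul_left (h4.trans h3) (by linarith)
  set S : Finset (Fin (2 * n)) := Finset.univ.filter (fun k => ∃ l ∈ W, cd k l < R) with hS
  have hSc : ∑ k ∈ Finset.univ.filter (fun k : Fin (2 * n) => ¬ ∃ l ∈ W, cd k l < R),
      ‖(P *ᵥ detB_ind W u) k‖ ^ 2 ≤ 2 * η * θ * G := by
    refine (detB_out htail W u).trans ?_
    have hR0 : (0 : ℝ) < R := by exact_mod_cast hR1
    have h3 : (W.card : ℝ) / R ≤ η := by
      rw [div_le_iff₀ hR0]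
      refine le_trans ?_ hR
      exact_mod_cast hWcard
    have h4 : ∑ l ∈ W, ‖u l‖ ^ 2 ≤ 2 * θ * G := by
      calc ∑ l ∈ W, ‖u l‖ ^ 2 ≤ ∑ l ∈ W, 2 * θ * w l := by
            refine Finset.sum_le_sum fun l hl => ?_
            have h5 := hAhigh l (hHTsub good hl)
            have h6 := hd.bd l
            have h7 : ‖u l‖ ^ 2 = d l * w l := by
              rw [hu, hw]
              simp only
              rw [norm_mul, mul_pow, Complex.norm_real, Real.norm_eq_abs, sq_abs]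
              ring
            rw [h7]
            apply mul_le_mul_of_nonneg_right _ (hwpos l h5)
            exact (le_abs_self _).trans h6
        _ = 2 * θ * ∑ l ∈ W, w l := by rw [Finset.mul_sum]
        _ ≤ 2 * θ * G := by
            apply mul_le_mul_of_nonneg_left _ (by positivity)
            exact Finset.sum_le_sum_of_subset_of_nonneg (hHTsub good) fun k hk _ => hwpos k (hAhigh k hk)
    calc (W.card : ℝ) / R * ∑ l ∈ W, ‖u l‖ ^ 2 ≤ η * (2 * θ * G) :=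
          mul_le_mul h3 h4 (Finset.sum_nonneg fun _ _ => by positivity) hη.le
      _ = _ := by ring
  -- (4)
  refine ⟨S, ?_, ?_⟩
  · refine (detB_card W R).trans ?_
    exact Nat.mul_le_mul_left _ hWcard
  have hzsplit : ∀ k, z k = (P *ᵥ detB_ind (HT d h r s bad) u) k + (P *ᵥ detB_ind W u) k := by
    intro k
    rw [hz, ← Pi.add_apply, ← Matrix.mulVec_add]
    congr 2
    funext l
    rw [Pi.add_apply]
    unfold detB_ind
    by_cases hl : l ∈ A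
    · have hlT : ((l : ℕ) + s) / r ^ 2 ∈ T₀ := Finset.mem_image_of_mem _ hl
      rw [if_pos hl]
      by_cases hb : κ (((l : ℕ) + s) / r ^ 2) < (K + 3 * η - √η) * θ
      · have e1 : l ∈ HT d h r s bad := Finset.mem_filter.2 ⟨hl, Finset.mem_filter.2 ⟨hlT, hb⟩⟩
        have e2 : l ∉ W := by
          intro h3
          have h4 := (Finset.mem_filter.1 h3).2
          exact (Finset.mem_filter.1 h4).2 hb
        rw [if_pos e1, if_neg e2, add_zero]
      · have e1 : l ∉ HT d h r s bad := by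
          intro h3
          have h4 := (Finset.mem_filter.1 h3).2
          exact hb (Finset.mem_filter.1 h4).2
        have e2 : l ∈ W := Finset.mem_filter.2 ⟨hl, Finset.mem_filter.2 ⟨hlT, hb⟩⟩
        rw [if_neg e1, if_pos e2, zero_add]
    · rw [if_neg hl, if_neg (fun h3 => hl (hHTsub _ h3)), if_neg (fun h3 => hl (hHTsub _ h3)), add_zero]
  have hcompl : ∑ k ∈ Finset.univ.filter (fun k : Fin (2 * n) => ¬ ∃ l ∈ W, cd k l < R), ‖v k‖ ^ 2 ≤ 200 * √η := by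
    set Sc := Finset.univ.filter (fun k : Fin (2 * n) => ¬ ∃ l ∈ W, cd k l < R) with hSc'
    have h3 : ∀ k ∈ Sc, ‖v k‖ ^ 2 ≤ 4 * ‖v k - (G : ℂ)⁻¹ * z k‖ ^ 2 +
        2 * (G⁻¹ ^ 2 * ‖(P *ᵥ detB_ind (HT d h r s bad) u) k‖ ^ 2) +
        4 * (G⁻¹ ^ 2 * ‖(P *ᵥ detB_ind W u) k‖ ^ 2) := by
      intro k _
      set a := v k - (G : ℂ)⁻¹ * z k with ha
      set b := (P *ᵥ detB_ind (HT d h r s bad) u) k with hb
      set c := (P *ᵥ detB_ind W u) k with hc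
      have h4 : v k = a + ((G : ℂ)⁻¹ * c) + (G : ℂ)⁻¹ * b := by
        rw [ha, hzsplit k]
        ring
      have hGn : ‖(G : ℂ)⁻¹‖ = G⁻¹ := by
        rw [norm_inv, Complex.norm_real, Real.norm_of_nonneg hG0.le]
      have h5 : ‖v k‖ ≤ (‖a‖ + G⁻¹ * ‖c‖) + G⁻¹ * ‖b‖ := by
        calc ‖v k‖ = ‖a + ((G : ℂ)⁻¹ * c) + (G : ℂ)⁻¹ * b‖ := by rw [← h4]
          _ ≤ ‖a + ((G : ℂ)⁻¹ * c)‖ + ‖(G : ℂ)⁻¹ * b‖ := norm_add_le _ _
          _ ≤ (‖a‖ + ‖(G : ℂ)⁻¹ * c‖) + ‖(G : ℂ)⁻¹ * b‖ := by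
              have := norm_add_le a ((G : ℂ)⁻¹ * c)
              linarith
          _ = _ := by rw [norm_mul, norm_mul, hGn]
      have h6 : ‖v k‖ ^ 2 ≤ ((‖a‖ + G⁻¹ * ‖c‖) + G⁻¹ * ‖b‖) ^ 2 := pow_le_pow_left₀ (norm_nonneg _) h5 2
      have h7 : ((‖a‖ + G⁻¹ * ‖c‖) + G⁻¹ * ‖b‖) ^ 2 ≤ 2 * (‖a‖ + G⁻¹ * ‖c‖) ^ 2 + 2 * (G⁻¹ * ‖b‖) ^ 2 := by
        have := sq_nonneg ((‖a‖ + G⁻¹ * ‖c‖) - G⁻¹ * ‖b‖)
        linarith
      have h8 : (‖a‖ + G⁻¹ * ‖c‖) ^ 2 ≤ 2 * ‖a‖ ^ 2 + 2 * (G⁻¹ * ‖c‖) ^ 2 := by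
        have := sq_nonneg (‖a‖ - G⁻¹ * ‖c‖)
        linarith
      have h9 : (G⁻¹ * ‖b‖) ^ 2 = G⁻¹ ^ 2 * ‖b‖ ^ 2 := by ring
      have h10 : (G⁻¹ * ‖c‖) ^ 2 = G⁻¹ ^ 2 * ‖c‖ ^ 2 := by ring
      linarith
    have h4 := Finset.sum_le_sum h3
    rw [Finset.sum_add_distrib, Finset.sum_add_distrib, ← Finset.mul_sum, ← Finset.mul_sum, ← Finset.mul_sum,
      ← Finset.mul_sum, ← Finset.mul_sum] at h4
    have h5 : ∑ k ∈ Sc, ‖v k - (G : ℂ)⁻¹ * z k‖ ^ 2 ≤ 48 * η :=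
      (Finset.sum_le_sum_of_subset_of_nonneg (Finset.subset_univ _) fun _ _ _ => by positivity).trans h1
    have h6 : ∑ k ∈ Sc, ‖(P *ᵥ detB_ind (HT d h r s bad) u) k‖ ^ 2 ≤ 24 * √η * θ * G :=
      (Finset.sum_le_sum_of_subset_of_nonneg (Finset.subset_univ _) fun _ _ _ => by positivity).trans h2c
    have hθG : G⁻¹ * θ ≤ 4 := by
      rw [inv_mul_le_iff₀ hG0]
      linarith
    have h7 : G⁻¹ ^ 2 * (24 * √η * θ * G) ≤ 96 * √η := by
      have e : G⁻¹ ^ 2 * (24 * √η * θ * G) = 24 * √η * (G⁻¹ * θ) := by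
        field_simp
      rw [e]
      have := mul_le_mul_of_nonneg_left hθG (show 0 ≤ 24 * √η by positivity)
      linarith only [this]
    have h8 : G⁻¹ ^ 2 * (2 * η * θ * G) ≤ 8 * η := by
      have e : G⁻¹ ^ 2 * (2 * η * θ * G) = 2 * η * (G⁻¹ * θ) := by
        field_simp
      rw [e]
      have := mul_le_mul_of_nonneg_left hθG (show 0 ≤ 2 * η by positivity)
      linarith only [this]
    have hGi : 0 ≤ G⁻¹ ^ 2 := by positivity
    have h9 := mul_le_mul_of_nonneg_left h6 hGi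
    have h10 := mul_le_mul_of_nonneg_left hSc hGi
    linarith only [h4, h5, h9, h10, h7, h8, hηs, hsη0]
  have htot : ∑ k, ‖v k‖ ^ 2 = ∑ k ∈ S, ‖v k‖ ^ 2 +
      ∑ k ∈ Finset.univ.filter (fun k : Fin (2 * n) => ¬ ∃ l ∈ W, cd k l < R), ‖v k‖ ^ 2 := by
    rw [hS, Finset.sum_filter_add_sum_filter_not]
  rw [hv1] at htot
  linarith

end TZ
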