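import Pool.Agent.TZ.Defs

/-!
Project TZ (MP_b753aa_pr), module KerB: the diagonal `D`.
Proof. `bv (2n - j) = bv j` for `0 < j < 2n`; pairing `k` and `2n - k` in the sum shows that `d_j` is real and (dr_eq).
(dr_symm): `cos(π k (2n - j)/n) = cos (π k j / n)`. (sandwich): `Uᴴ Q U diag((-1)^j) Uᴴ Q U`: `diag((-1)^j) = (ex n (n j))`,
`U diag((-1)^j) Uᴴ` is the permutation matrix of the shift by `n` modulo `2n`, and `Q (shift by n) Q = 0`.
(DD_shift): `d` is linear in `b`: the change of `b_0` by `s` adds `s/√(2n)` to each `d_j`, the change of `b_n` by `c' - c` adds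
`(c' - c)/√(2n) (-1)^j` (`ex n (j n) = (-1)^j`).
-/

noncomputable section

namespace TZ

open MeasureTheory ProbabilityTheory Filter Topology Matrix
open scoped Real

theorem KerB_ex_eq (n m : ℕ) : ex n m = Complex.exp (((π * m / n : ℝ) : ℂ) * Complex.I) := by
  unfold ex
  congr 1
  push_cast
  by_cases hn : (n : ℂ) = 0
  · simp [hn]
  · field_simp

theorem KerB_ex_re (n m : ℕ) : (ex n m).re = Real.cos (π * m / n) := by
  rw [KerB_ex_eq, Complex.exp_ofReal_mul_I_re]

theorem KerB_ex_im (n m : ℕ) : (ex n m).im = Real.sin (π * m / n) := by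
  rw [KerB_ex_eq, Complex.exp_ofReal_mul_I_im]

theorem KerB_ex_pow (n m l : ℕ) : ex n (m * l) = ex n m ^ l := by
  unfold ex
  rw [← Complex.exp_nat_mul]
  congr 1
  push_cast
  ring

theorem KerB_ex_zero (n : ℕ) : ex n 0 = 1 := by
  unfold ex
  simp

theorem KerB_ex_n (n : ℕ) (hn : 0 < n) : ex n n = -1 := by
  have hn' : (n : ℝ) ≠ 0 := by exact_mod_cast hn.ne'
  rw [KerB_ex_eq, mul_div_assoc, div_self hn', mul_one, Complex.exp_pi_mul_I]

theorem KerB_ex_mul_n (n m : ℕ) (hn : 0 < n) : ex n (m * n) = (-1) ^ m := by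
  rw [mul_comm, KerB_ex_pow, KerB_ex_n n hn]

theorem KerB_ex_two_n (n m : ℕ) (hn : 0 < n) : ex n m ^ (2 * n) = 1 := by
  rw [← KerB_ex_pow, mul_left_comm, ← mul_assoc, KerB_ex_mul_n n _ hn, pow_mul]
  simp

theorem KerB_ex_conj (n m : ℕ) : ex n m * starRingEnd ℂ (ex n m) = 1 := by
  rw [Complex.mul_conj, Complex.normSq_apply, KerB_ex_re, KerB_ex_im]
  have h := Real.cos_sq_add_sin_sq (π * m / n)
  rw [← pow_two, ← pow_two, h]
  simp

theorem KerB_sum_refl {M : Type*} [AddCommMonoid M] (n : ℕ) (f g : ℕ → M) (h0 : f 0 = g 0)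
    (h : ∀ k, 0 < k → k < 2 * n → f k = g (2 * n - k)) :
    ∑ k : Fin (2 * n), f k = ∑ k : Fin (2 * n), g k := by
  rw [Fin.sum_univ_eq_sum_range, Fin.sum_univ_eq_sum_range]
  rcases Nat.eq_zero_or_pos n with rfl | hn
  · simp
  obtain ⟨m, hm⟩ : ∃ m, 2 * n = m + 1 := ⟨2 * n - 1, by omega⟩
  rw [hm, Finset.sum_range_succ', Finset.sum_range_succ', h0]
  congr 1
  rw [← Finset.sum_range_reflect]
  apply Finset.sum_congr rfl
  intro k hk
  rw [Finset.mem_range] at hk
  rw [h _ (by omega) (by omega)]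
  congr 1
  omega

theorem KerB_bv_symm (n : ℕ) (a : Fin n → ℝ) (c : ℝ) (k : ℕ) (h0 : 0 < k) (hk : k < 2 * n) :
    bv n a c (2 * n - k) = bv n a c k := by
  unfold bv
  rcases lt_trichotomy k n with h | h | h
  · rw [dif_neg (by omega), if_neg (by omega), dif_pos (by omega), dif_pos h]
    congr 1
    apply Fin.ext
    simp only
    omega
  · subst h
    rw [dif_neg (by omega), if_pos (by omega), dif_neg (by omega), if_pos rfl]
  · rw [dif_pos (by omega), dif_neg (by omega), if_neg (by omega), dif_pos (by omega)]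

theorem KerB_dd_re_im (n : ℕ) (a : Fin n → ℝ) (c : ℝ) (j : Fin (2 * n)) :
    (dd n a c j).re = 1 / √(2 * n) * ∑ k : Fin (2 * n), bv n a c k * Real.cos (π * k * j / n) ∧
    (dd n a c j).im = 1 / √(2 * n) * ∑ k : Fin (2 * n), bv n a c k * Real.sin (π * k * j / n) := by
  unfold dd
  rw [Complex.re_ofReal_mul, Complex.im_ofReal_mul, Complex.re_sum, Complex.im_sum]
  constructor
  · congr 1
    apply Finset.sum_congr rfl
    intro k _
    rw [Complex.re_ofReal_mul, KerB_ex_re]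
    congr 2
    push_cast
    ring
  · congr 1
    apply Finset.sum_congr rfl
    intro k _
    rw [Complex.im_ofReal_mul, KerB_ex_im]
    congr 2
    push_cast
    ring

theorem KerB_dd_im (n : ℕ) (a : Fin n → ℝ) (c : ℝ) (j : Fin (2 * n)) : (dd n a c j).im = 0 := by
  have hn : 0 < n := by
    have := j.isLt
    omega
  have hn' : (n : ℝ) ≠ 0 := by exact_mod_cast hn.ne'
  rw [(KerB_dd_re_im n a c j).2]
  have h1 := KerB_sum_refl n (fun k : ℕ => bv n a c k * Real.sin (π * k * j / n))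
    (fun k : ℕ => -(bv n a c k * Real.sin (π * k * j / n))) (by simp) (by
      intro k hk0 hk
      rw [KerB_bv_symm n a c k hk0 hk]
      have h2 : π * ((2 * n - k : ℕ) : ℝ) * (j : ℕ) / n =
          ((j : ℕ) : ℝ) * (2 * π) - π * k * (j : ℕ) / n := by
        rw [Nat.cast_sub hk.le]
        push_cast
        field_simp
      rw [h2, Real.sin_nat_mul_two_pi_sub]
      ring)
  rw [Finset.sum_neg_distrib] at h1
  have h3 : ∑ k : Fin (2 * n), bv n a c k * Real.sin (π * k * j / n) = 0 := by linarith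
  rw [h3, mul_zero]

theorem dd_real (n : ℕ) (a : Fin n → ℝ) (c : ℝ) (j : Fin (2 * n)) : dd n a c j = (dr n a c j : ℂ) := by
  apply Complex.ext
  · rw [Complex.ofReal_re]
    rfl
  · rw [Complex.ofReal_im]
    exact KerB_dd_im n a c j

theorem dr_eq (n : ℕ) (a : Fin n → ℝ) (c : ℝ) (j : Fin (2 * n)) :
    dr n a c j = 1 / √(2 * n) * ∑ k : Fin (2 * n), bv n a c k * Real.cos (π * k * j / n) :=
  (KerB_dd_re_im n a c j).1

theorem dr_symm (n : ℕ) (a : Fin n → ℝ) (c : ℝ) (j j' : Fin (2 * n)) (h : (j : ℕ) + (j' : ℕ) = 2 * n) :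
    dr n a c j = dr n a c j' := by
  have hn : 0 < n := by
    have := j.isLt
    omega
  have hn' : (n : ℝ) ≠ 0 := by exact_mod_cast hn.ne'
  rw [dr_eq, dr_eq]
  congr 1
  apply Finset.sum_congr rfl
  intro k _
  congr 1
  have h1 : ((j : ℕ) : ℝ) = 2 * n - (j' : ℕ) := by
    have : ((j : ℕ) : ℝ) + ((j' : ℕ) : ℝ) = 2 * n := by exact_mod_cast h
    linarith
  have h2 : π * (k : ℕ) * ((j : ℕ) : ℝ) / n =
      ((k : ℕ) : ℝ) * (2 * π) - π * (k : ℕ) * (j' : ℕ) / n := by
    rw [h1]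
    field_simp
  rw [h2, Real.cos_nat_mul_two_pi_sub]

theorem KerB_zeta_ne (n j k : ℕ) (hj : j < n) (hk : k < n) :
    ex n j * (-1) * starRingEnd ℂ (ex n k) ≠ 1 := by
  intro h
  have hn : 0 < n := by omega
  have h1 : ex n (j + n) = ex n k := by
    have h2 : ex n (j + n) = ex n j * (-1) := by
      rw [← KerB_ex_n n hn]
      unfold ex
      rw [← Complex.exp_add]
      congr 1
      push_cast
      ring
    have h3 := congrArg (fun z => z * ex n k) h
    rw [mul_assoc, mul_comm (starRingEnd ℂ (ex n k)), KerB_ex_conj, one_mul, mul_one] at h3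
    rw [h2, h3]
  unfold ex at h1
  rw [Complex.exp_eq_exp_iff_exists_int] at h1
  obtain ⟨z, hz⟩ := h1
  have hnC : (n : ℂ) ≠ 0 := by exact_mod_cast hn.ne'
  have hpi : (π : ℂ) ≠ 0 := by exact_mod_cast Real.pi_ne_zero
  have h4 : ((j + n : ℕ) : ℂ) = k + 2 * n * z := by
    have h5 : (2 * π * Complex.I) * ((j + n : ℕ) : ℂ) = (2 * π * Complex.I) * (k + 2 * n * z) := by
      field_simp at hz
      linear_combination (2 * π * Complex.I) * hz
    exact mul_left_cancel₀ Complex.two_pi_I_ne_zero h5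
  have h6 : ((j + n : ℕ) : ℤ) = k + 2 * n * z := by exact_mod_cast h4
  push_cast at h6
  have h7 : (0 : ℤ) < 2 * n * z := by omega
  have h8 : 2 * (n : ℤ) * z < 2 * n * 1 := by omega
  have h9 : z < 1 := lt_of_mul_lt_mul_left h8 (by omega)
  have h10 : 0 < z := (mul_pos_iff_of_pos_left (by omega)).1 h7
  omega

theorem KerB_key (n : ℕ) : QQ n * (UU n * Matrix.diagonal (fun j : Fin (2 * n) => (-1 : ℂ) ^ (j : ℕ)) *
    (UU n)ᴴ) * QQ n = 0 := by
  ext j k
  have hn : 0 < n := by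
    have := j.isLt
    omega
  rw [QQ, Matrix.mul_diagonal, Matrix.diagonal_mul]
  by_cases hj : (j : ℕ) < n
  swap
  · simp [hj]
  by_cases hk : (k : ℕ) < n
  swap
  · simp [hk]
  rw [if_pos hj, if_pos hk, one_mul, mul_one, Matrix.mul_apply, Matrix.zero_apply]
  have h1 : ∀ l : Fin (2 * n), (UU n * Matrix.diagonal (fun j : Fin (2 * n) => (-1 : ℂ) ^ (j : ℕ))) j l *
      (UU n)ᴴ l k = ((1 / √(2 * n) : ℝ) : ℂ) ^ 2 *
        (ex n j * (-1) * starRingEnd ℂ (ex n k)) ^ (l : ℕ) := by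
    intro l
    rw [Matrix.mul_diagonal, Matrix.conjTranspose_apply, UU, Matrix.of_apply, Matrix.of_apply,
      KerB_ex_pow, KerB_ex_pow, star_mul', star_pow, mul_pow, mul_pow]
    rw [show star ((1 / √(2 * n) : ℝ) : ℂ) = ((1 / √(2 * n) : ℝ) : ℂ) from Complex.conj_ofReal _]
    rw [show star (ex n k) = starRingEnd ℂ (ex n k) from rfl]
    ring
  rw [Finset.sum_congr rfl (fun l _ => h1 l), ← Finset.mul_sum]
  have h2 := mul_geom_sum (ex n j * (-1) * starRingEnd ℂ (ex n k)) (2 * n)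
  have h3 : (ex n j * (-1) * starRingEnd ℂ (ex n k)) ^ (2 * n) = 1 := by
    rw [mul_pow, mul_pow, ← map_pow, KerB_ex_two_n n _ hn, KerB_ex_two_n n _ hn, pow_mul]
    simp
  rw [h3, sub_self] at h2
  have h4 := KerB_zeta_ne n j k hj hk
  have h5 : ∑ i ∈ Finset.range (2 * n), (ex n j * (-1) * starRingEnd ℂ (ex n k)) ^ i = 0 := by
    rcases mul_eq_zero.1 h2 with h | h
    · exact absurd (sub_eq_zero.1 h) h4
    · exact h
  rw [Fin.sum_univ_eq_sum_range (fun i => (ex n j * (-1) * starRingEnd ℂ (ex n k)) ^ i), h5, mul_zero]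

theorem sandwich (n : ℕ) : PP n * Matrix.diagonal (fun j : Fin (2 * n) => (-1 : ℂ) ^ (j : ℕ)) * PP n = 0 := by
  have h1 : PP n * Matrix.diagonal (fun j : Fin (2 * n) => (-1 : ℂ) ^ (j : ℕ)) * PP n =
      (UU n)ᴴ * (QQ n * (UU n * Matrix.diagonal (fun j : Fin (2 * n) => (-1 : ℂ) ^ (j : ℕ)) *
        (UU n)ᴴ) * QQ n) * UU n := by
    unfold PP
    simp only [Matrix.mul_assoc]
  rw [h1, KerB_key]
  simp

theorem KerB_bv_shift (n : ℕ) (a : Fin n → ℝ) (c c' s : ℝ) (k : ℕ) (hk : k < 2 * n) :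
    bv n (aE a s) c' k = bv n a c k + (if k = 0 then s else 0) + (if k = n then c' - c else 0) := by
  unfold bv
  rcases lt_trichotomy k n with h | h | h
  · rw [dif_pos h, dif_pos h, if_neg (by omega : ¬ k = n)]
    unfold aE
    simp only
    split_ifs <;> ring
  · rw [dif_neg (by omega), if_pos h, dif_neg (by omega), if_pos h, if_neg (by omega), if_pos h]
    ring
  · rw [dif_neg (by omega), if_neg (by omega), dif_pos (by omega), dif_neg (by omega),
      if_neg (by omega), dif_pos (by omega), if_neg (by omega), if_neg (by omega)]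
    unfold aE
    simp only
    rw [if_neg (by omega)]
    ring

theorem KerB_dd_shift (n : ℕ) (a : Fin n → ℝ) (c c' s : ℝ) (j : Fin (2 * n)) :
    dd n (aE a s) c' j = dd n a c j + ((s / √(2 * n) : ℝ) : ℂ) +
      (((c' - c) / √(2 * n) : ℝ) : ℂ) * (-1) ^ (j : ℕ) := by
  have hn : 0 < n := by
    have := j.isLt
    omega
  unfold dd
  have h1 : ∀ k : Fin (2 * n), (bv n (aE a s) c' k : ℂ) * ex n (j * k) =
      (bv n a c k : ℂ) * ex n (j * k) + (if k = (⟨0, by omega⟩ : Fin (2 * n)) then (s : ℂ) else 0) +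
        (if k = (⟨n, by omega⟩ : Fin (2 * n)) then ((c' : ℂ) - c) * (-1) ^ (j : ℕ) else 0) := by
    intro k
    rw [KerB_bv_shift n a c c' s k k.isLt]
    by_cases h0 : k = (⟨0, by omega⟩ : Fin (2 * n))
    · have h0' : (k : ℕ) = 0 := by rw [h0]
      rw [if_pos h0, if_pos h0', if_neg (by omega), if_neg (by
        intro h
        have := congrArg Fin.val h
        simp only at this
        omega), h0', mul_zero, KerB_ex_zero]
      push_cast
      ring
    · have h0' : ¬ (k : ℕ) = 0 := fun h => h0 (Fin.ext h)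
      rw [if_neg h0, if_neg h0']
      by_cases h2 : k = (⟨n, by omega⟩ : Fin (2 * n))
      · have h2' : (k : ℕ) = n := by rw [h2]
        rw [if_pos h2, if_pos h2', h2', KerB_ex_mul_n n _ hn]
        push_cast
        ring
      · have h2' : ¬ (k : ℕ) = n := fun h => h2 (Fin.ext h)
        rw [if_neg h2, if_neg h2']
        push_cast
        ring
  rw [Finset.sum_congr rfl (fun k _ => h1 k), Finset.sum_add_distrib, Finset.sum_add_distrib,
    Finset.sum_ite_eq', Finset.sum_ite_eq', if_pos (Finset.mem_univ _), if_pos (Finset.mem_univ _)]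
  push_cast
  ring

theorem DD_shift (n : ℕ) (a : Fin n → ℝ) (c c' s : ℝ) :
    PP n * DD n (aE a s) c' * PP n =
      PP n * DD n a c * PP n + ((s / √(2 * n) : ℝ) : ℂ) • (PP n * PP n) := by
  have h1 : DD n (aE a s) c' = DD n a c + ((s / √(2 * n) : ℝ) : ℂ) • (1 : Matrix (Fin (2 * n)) (Fin (2 * n)) ℂ) +
      (((c' - c) / √(2 * n) : ℝ) : ℂ) • Matrix.diagonal (fun j : Fin (2 * n) => (-1 : ℂ) ^ (j : ℕ)) := by
    ext j k
    unfold DD
    by_cases hjk : j = k
    · subst hjk
      simp [KerB_dd_shift n a c c' s j]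
    · simp [Matrix.diagonal_apply_ne _ hjk, Matrix.one_apply_ne hjk]
  rw [h1, Matrix.mul_add, Matrix.mul_add, Matrix.add_mul, Matrix.add_mul, Matrix.mul_smul,
    Matrix.mul_smul, Matrix.smul_mul, Matrix.smul_mul, sandwich, Matrix.mul_one, smul_zero, add_zero]

end TZ
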