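import Pool.Agent.TZ.Defs
import Pool.Agent.TZ.KerB

/-!
Project TZ (MP_b753aa_pr), module Law: the entries of `D` are independent gaussians.
Proof. By `dr_eq`, for `t : Fin (n-1) → ℝ` and `T j = (1/√(2n)) ∑_i t_i cos(π j (i+1)/n)` (so `T (2n-j) = T j`):
`∑_i t_i dE(i+1) = ∑_{j<2n} b_j T_j = (a_0+g_0) T_0 + √2 g_1 T_n + 2 ∑_{0<j<n} a_j T_j`; the sum of the squares of the coefficients of
the independent gaussians `a_0, g_0, g_1, a_j` is `2T_0² + 2T_n² + 4∑ T_j² = 2 ∑_{j<2n} T_j² = ∑ t_i²`, as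
`∑_{j<2n} cos(π j k/n) cos(π j l/n) = n δ_{kl}` for `0 < k, l < n`. So the characteristic functions agree.
(law0): the variance of `dE k` is `(1/n) ∑_{j<2n} cos² ≤ 2` (Chebyshev / Markov).
-/

noncomputable section

namespace TZ

open MeasureTheory ProbabilityTheory Filter Topology Matrix
open scoped Real

/-! ### sums over a full period -/

theorem Law_split (m : ℕ) (F : ℕ → ℝ) : ∑ k ∈ Finset.range (2 * (m + 1)), F k =
    F 0 + F (m + 1) + ∑ k ∈ Finset.range m, (F (k + 1) + F (2 * (m + 1) - (k + 1))) := by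
  rw [show 2 * (m + 1) = (m + 1) + (m + 1) by ring, Finset.sum_range_add, Finset.sum_range_succ',
    Finset.sum_range_succ' (fun x => F (m + 1 + x)), Finset.sum_add_distrib,
    ← Finset.sum_range_reflect (fun x => F (m + 1 + (x + 1)))]
  have h : ∑ j ∈ Finset.range m, F (m + 1 + (m - 1 - j + 1)) =
      ∑ x ∈ Finset.range m, F (m + 1 + (m + 1) - (x + 1)) := by
    refine Finset.sum_congr rfl fun j hj => ?_
    rw [Finset.mem_range] at hj
    congr 1
    omega
  rw [h]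
  simp only [add_zero]
  ring

/-- the coefficient of `a_j` -/
def Law_C (n j k : ℕ) : ℝ := 1 / √(2 * n) * Real.cos (π * j * k / n)

theorem Law_C_symm (n j k : ℕ) (hn : 0 < n) (hj : j ≤ 2 * n) :
    Law_C n (2 * n - j) k = Law_C n j k := by
  unfold Law_C
  congr 1
  have hn' : (n : ℝ) ≠ 0 := by positivity
  rw [Nat.cast_sub hj]
  push_cast
  rw [show π * (2 * (n : ℝ) - j) * k / n = (k : ℝ) * (2 * π) - π * j * k / n by field_simp]
  rw [Real.cos_nat_mul_two_pi_sub]

/-- the weight of `a_j` -/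
def Law_w {n : ℕ} (j : Fin n) : ℝ := if (j : ℕ) = 0 then 1 else 2

theorem Law_dE (n : ℕ) (hn : 1 ≤ n) (ω : (Fin n → ℝ) × (ℝ × ℝ)) (k : Fin (2 * n)) :
    dE n ω k = ∑ j : Fin n, Law_w j * Law_C n j k * ω.1 j + Law_C n 0 k * ω.2.1 +
      √2 * Law_C n n k * ω.2.2 := by
  obtain ⟨m, rfl⟩ : ∃ m, n = m + 1 := ⟨n - 1, by omega⟩
  obtain ⟨a, g0, g1⟩ := ω
  unfold dE
  simp only
  rw [dr_eq, Fin.sum_univ_eq_sum_range (fun j => bv (m + 1) (aE a g0) (√2 * g1) j *
    Real.cos (π * j * (k : ℕ) / ((m + 1 : ℕ) : ℝ))), Finset.mul_sum]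
  have h1 : ∀ j : ℕ, 1 / √(2 * ((m + 1 : ℕ) : ℝ)) * (bv (m + 1) (aE a g0) (√2 * g1) j *
      Real.cos (π * j * (k : ℕ) / ((m + 1 : ℕ) : ℝ))) =
      bv (m + 1) (aE a g0) (√2 * g1) j * Law_C (m + 1) j k := by
    intro j
    unfold Law_C
    ring
  simp only [h1]
  rw [Law_split m (fun j => bv (m + 1) (aE a g0) (√2 * g1) j * Law_C (m + 1) j k),
    Fin.sum_univ_succ]
  have h0 : bv (m + 1) (aE a g0) (√2 * g1) 0 = a 0 + g0 := by
    simp [bv, aE]
  have hm : bv (m + 1) (aE a g0) (√2 * g1) (m + 1) = √2 * g1 := by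
    simp [bv]
  have hj : ∀ j : Fin m, bv (m + 1) (aE a g0) (√2 * g1) ((j : ℕ) + 1) = a j.succ := by
    intro j
    have : (j : ℕ) + 1 < m + 1 := by omega
    rw [bv, dif_pos this, aE, if_neg (by simp)]
    rfl
  have hr : ∀ j : Fin m, bv (m + 1) (aE a g0) (√2 * g1) (2 * (m + 1) - ((j : ℕ) + 1)) =
      bv (m + 1) (aE a g0) (√2 * g1) ((j : ℕ) + 1) := fun j =>
    KerB_bv_symm (m + 1) _ _ ((j : ℕ) + 1) (by omega) (by omega)
  rw [Finset.sum_range]
  have h2 : ∀ j : Fin m, bv (m + 1) (aE a g0) (√2 * g1) ((j : ℕ) + 1) * Law_C (m + 1) ((j : ℕ) + 1) k +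
      bv (m + 1) (aE a g0) (√2 * g1) (2 * (m + 1) - ((j : ℕ) + 1)) *
        Law_C (m + 1) (2 * (m + 1) - ((j : ℕ) + 1)) k =
      Law_w j.succ * Law_C (m + 1) (j.succ : ℕ) k * a j.succ := by
    intro j
    rw [hr, hj, Law_C_symm (m + 1) _ _ (by omega) (by omega), Law_w, if_neg (by simp), Fin.val_succ]
    ring
  simp only [h2]
  rw [h0, hm, Law_w, if_pos (by simp)]
  simp only [Fin.val_zero]
  ring

theorem Law_sq (n : ℕ) (hn : 1 ≤ n) (X : ℕ → ℝ) (hX : ∀ j, j ≤ 2 * n → X (2 * n - j) = X j) :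
    ∑ j : Fin n, (Law_w j * X j) ^ 2 + X 0 ^ 2 + (√2 * X n) ^ 2 =
      2 * ∑ k ∈ Finset.range (2 * n), X k ^ 2 := by
  obtain ⟨m, rfl⟩ : ∃ m, n = m + 1 := ⟨n - 1, by omega⟩
  rw [Law_split m (fun k => X k ^ 2), Fin.sum_univ_succ, Finset.sum_range]
  have h2 : ∀ j : Fin m, X ((j : ℕ) + 1) ^ 2 + X (2 * (m + 1) - ((j : ℕ) + 1)) ^ 2 =
      1 / 2 * (Law_w j.succ * X (j.succ : ℕ)) ^ 2 := by
    intro j
    rw [hX _ (by omega), Law_w, if_neg (by simp), Fin.val_succ]
    ring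
  simp only [h2]
  rw [← Finset.mul_sum, Law_w, if_pos (by simp), mul_pow √2, Real.sq_sqrt (by norm_num)]
  simp only [Fin.val_zero]
  ring

/-! ### characteristic function of a linear form -/

theorem Law_char1 (c : ℝ) : ∫ x, Complex.exp ((c * x : ℝ) * Complex.I) ∂(gaussianReal 0 1) =
    Complex.exp ((-(c ^ 2) / 2 : ℝ)) := by
  have h := charFun_gaussianReal (μ := 0) (v := 1) c
  rw [charFun_apply_real] at h
  push_cast at h ⊢
  rw [h]
  congr 1
  ring

theorem Law_char (n : ℕ) (w : Fin n → ℝ) (e0 e1 : ℝ) :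
    ∫ ω, Complex.exp ((∑ j, w j * ω.1 j + e0 * ω.2.1 + e1 * ω.2.2 : ℝ) * Complex.I) ∂(ext n) =
      Complex.exp ((-(∑ j, w j ^ 2 + e0 ^ 2 + e1 ^ 2) / 2 : ℝ)) := by
  unfold ext gam
  have h1 : ∀ ω : (Fin n → ℝ) × (ℝ × ℝ),
      Complex.exp ((∑ j, w j * ω.1 j + e0 * ω.2.1 + e1 * ω.2.2 : ℝ) * Complex.I) =
      (∏ j, Complex.exp ((w j * ω.1 j : ℝ) * Complex.I)) *
        (Complex.exp ((e0 * ω.2.1 : ℝ) * Complex.I) * Complex.exp ((e1 * ω.2.2 : ℝ) * Complex.I)) := by
    intro ω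
    rw [← Complex.exp_sum, ← Complex.exp_add, ← Complex.exp_add]
    congr 1
    push_cast
    rw [add_mul, add_mul, Finset.sum_mul]
    ring
  simp only [h1]
  rw [integral_prod_mul (fun a : Fin n → ℝ => ∏ j, Complex.exp ((w j * a j : ℝ) * Complex.I))
    (fun g : ℝ × ℝ => Complex.exp ((e0 * g.1 : ℝ) * Complex.I) * Complex.exp ((e1 * g.2 : ℝ) * Complex.I)),
    integral_prod_mul (fun x : ℝ => Complex.exp ((e0 * x : ℝ) * Complex.I))
      (fun x : ℝ => Complex.exp ((e1 * x : ℝ) * Complex.I)),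
    integral_fintype_prod_eq_prod (fun j (x : ℝ) => Complex.exp ((w j * x : ℝ) * Complex.I))]
  simp only [Law_char1]
  rw [← Complex.exp_sum, ← Complex.exp_add, ← Complex.exp_add]
  congr 1
  push_cast
  rw [← Finset.sum_div, Finset.sum_neg_distrib]
  ring

/-! ### orthogonality -/

theorem Law_cos (N : ℕ) (hN : 0 < N) (m : ℤ) (h : ¬ (N : ℤ) ∣ m) :
    ∑ k ∈ Finset.range N, Real.cos (2 * π * k * m / N) = 0 := by
  have hN' : (N : ℂ) ≠ 0 := by exact_mod_cast hN.ne'
  obtain ⟨z, hz⟩ : ∃ z : ℂ, z = Complex.exp (2 * π * Complex.I * m / N) := ⟨_, rfl⟩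
  have h1 : z ^ N = 1 := by
    rw [hz, ← Complex.exp_nat_mul, Complex.exp_eq_one_iff]
    refine ⟨m, ?_⟩
    field_simp
  have h2 : z ≠ 1 := by
    intro h2
    rw [hz, Complex.exp_eq_one_iff] at h2
    obtain ⟨q, hq⟩ := h2
    apply h
    refine ⟨q, ?_⟩
    have h3 : (m : ℂ) = N * q := by
      have h4 : (2 * π * Complex.I : ℂ) ≠ 0 := Complex.two_pi_I_ne_zero
      have h5 : (2 * π * Complex.I : ℂ) * m = (2 * π * Complex.I) * (N * q) := by
        rw [div_eq_iff hN'] at hq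
        rw [hq]
        ring
      exact mul_left_cancel₀ h4 h5
    exact_mod_cast h3
  have h3 : ∑ k ∈ Finset.range N, z ^ k = 0 := by
    have := mul_geom_sum z N
    rw [h1, sub_self] at this
    exact (mul_eq_zero.mp this).resolve_left (sub_ne_zero.mpr h2)
  have h4 := congrArg Complex.re h3
  rw [Complex.re_sum, Complex.zero_re] at h4
  rw [← h4]
  refine Finset.sum_congr rfl fun k _ => ?_
  have h5 : z ^ k = Complex.exp (((2 * π * k * m / N : ℝ) : ℂ) * Complex.I) := by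
    rw [hz, ← Complex.exp_nat_mul]
    congr 1
    push_cast
    ring
  rw [h5, Complex.exp_ofReal_mul_I_re]

theorem Law_orth (n : ℕ) (k l : ℕ) (hk : 0 < k) (hk' : k < n) (hl : 0 < l) (hl' : l < n) :
    ∑ j ∈ Finset.range (2 * n), Law_C n j k * Law_C n j l = if k = l then 1 / 2 else 0 := by
  have hn : (0:ℝ) < n := by exact_mod_cast hk.trans hk'
  have hn0 : 0 < 2 * n := by omega
  have h1 : ∀ j : ℕ, Law_C n j k * Law_C n j l = 1 / (4 * n) *
      (Real.cos (2 * π * j * ((k - l : ℤ) : ℤ) / (2 * n : ℕ)) + Real.cos (2 * π * j * ((k + l : ℤ) : ℤ) / (2 * n : ℕ))) := by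
    intro j
    unfold Law_C
    have e1 : 2 * π * j * (((k : ℤ) - l : ℤ) : ℝ) / ((2 * n : ℕ) : ℝ) = π * j * k / n - π * j * l / n := by
      push_cast
      field_simp
    have e2 : 2 * π * j * (((k : ℤ) + l : ℤ) : ℝ) / ((2 * n : ℕ) : ℝ) = π * j * k / n + π * j * l / n := by
      push_cast
      field_simp
    rw [e1, e2, Real.cos_sub, Real.cos_add]
    have e3 : 1 / √(2 * (n : ℝ)) * (1 / √(2 * (n : ℝ))) = 1 / (2 * n) := by
      rw [div_mul_div_comm, one_mul, Real.mul_self_sqrt (by positivity)]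
    have e4 : 1 / √(2 * (n : ℝ)) * Real.cos (π * j * k / n) * (1 / √(2 * (n : ℝ)) * Real.cos (π * j * l / n)) =
        (1 / √(2 * (n : ℝ)) * (1 / √(2 * (n : ℝ)))) * (Real.cos (π * j * k / n) * Real.cos (π * j * l / n)) := by
      ring
    rw [e4, e3]
    field_simp
    ring
  simp only [h1]
  rw [← Finset.mul_sum, Finset.sum_add_distrib]
  have h2 : ∑ j ∈ Finset.range (2 * n), Real.cos (2 * π * j * ((k + l : ℤ) : ℤ) / (2 * n : ℕ)) = 0 := by
    refine Law_cos (2 * n) hn0 _ ?_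
    intro h
    have := Int.le_of_dvd (by omega) h
    push_cast at this
    omega
  rw [h2, add_zero]
  split_ifs with hkl
  · rw [hkl]
    simp only [sub_self, Int.cast_zero, mul_zero, zero_div, Real.cos_zero, Finset.sum_const,
      Finset.card_range, nsmul_eq_mul, mul_one]
    push_cast
    field_simp
    norm_num
  · rw [Law_cos (2 * n) hn0 _ ?_, mul_zero]
    intro h
    have h3 := Int.eq_zero_of_abs_lt_dvd h (by
      rw [abs_lt]
      push_cast
      constructor <;> omega)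
    omega

/-! ### the theorems -/

theorem dE_meas (n : ℕ) (k : Fin (2 * n)) : Measurable fun ω => dE n ω k := by
  rcases Nat.eq_zero_or_pos n with rfl | hn
  · exact absurd k.2 (by simp)
  simp only [Law_dE n hn]
  fun_prop

theorem law (n : ℕ) (hn : 2 ≤ n) :
    (ext n).map (fun ω (i : Fin (n - 1)) => dE n ω ⟨(i : ℕ) + 1, by omega⟩) = gam (n - 1) := by
  have hmeas : Measurable (fun ω (i : Fin (n - 1)) => dE n ω ⟨(i : ℕ) + 1, by omega⟩) :=
    measurable_pi_lambda _ fun i => dE_meas n _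
  have : IsProbabilityMeasure ((ext n).map (fun ω (i : Fin (n - 1)) => dE n ω ⟨(i : ℕ) + 1, by omega⟩)) :=
    Measure.isProbabilityMeasure_map hmeas.aemeasurable
  refine Measure.ext_of_charFunDual (funext fun L => ?_)
  obtain ⟨t, ht⟩ : ∃ t : Fin (n - 1) → ℝ, t = fun i => L (Pi.single i 1) := ⟨_, rfl⟩
  have hL : ∀ x : Fin (n - 1) → ℝ, L x = ∑ i, t i * x i := by
    intro x
    conv_lhs => rw [← Finset.univ_sum_single x]
    rw [map_sum]
    refine Finset.sum_congr rfl fun i _ => ?_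
    have : (Pi.single i (x i) : Fin (n - 1) → ℝ) = x i • Pi.single i 1 := by
      rw [← Pi.single_smul, smul_eq_mul, mul_one]
    rw [this, map_smul, ht, smul_eq_mul, mul_comm]
  rw [charFunDual_apply, charFunDual_apply, integral_map hmeas.aemeasurable (by fun_prop)]
  -- left side
  obtain ⟨T, hT⟩ : ∃ T : ℕ → ℝ, T = fun j => ∑ i : Fin (n - 1), t i * Law_C n j ((i : ℕ) + 1) := ⟨_, rfl⟩
  have h1 : ∀ ω : (Fin n → ℝ) × (ℝ × ℝ), L (fun i => dE n ω ⟨(i : ℕ) + 1, by omega⟩) =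
      ∑ j : Fin n, (Law_w j * T j) * ω.1 j + T 0 * ω.2.1 + (√2 * T n) * ω.2.2 := by
    intro ω
    rw [hL]
    simp only [Law_dE n (by omega : 1 ≤ n)]
    simp only [mul_add, Finset.sum_add_distrib, hT, Finset.mul_sum, Finset.sum_mul]
    rw [Finset.sum_comm]
    congr 1
    · congr 1
      · refine Finset.sum_congr rfl fun j _ => Finset.sum_congr rfl fun i _ => ?_
        ring
      · refine Finset.sum_congr rfl fun i _ => ?_
        ring
    · refine Finset.sum_congr rfl fun i _ => ?_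
      ring
  simp only [h1]
  rw [Law_char n (fun j => Law_w j * T j) (T 0) (√2 * T n),
    Law_sq n (by omega) T (fun j hj => by
      rw [hT]
      exact Finset.sum_congr rfl fun i _ => by rw [Law_C_symm n j _ (by omega) hj])]
  -- the sum of squares
  have h2 : 2 * ∑ k ∈ Finset.range (2 * n), T k ^ 2 = ∑ i, t i ^ 2 := by
    have h3 : ∀ k, T k ^ 2 = ∑ i : Fin (n - 1), ∑ i' : Fin (n - 1),
        t i * t i' * (Law_C n k ((i : ℕ) + 1) * Law_C n k ((i' : ℕ) + 1)) := by
      intro k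
      rw [hT, sq, Finset.sum_mul_sum]
      refine Finset.sum_congr rfl fun i _ => Finset.sum_congr rfl fun i' _ => ?_
      ring
    simp only [h3]
    rw [Finset.sum_comm, Finset.mul_sum]
    refine Finset.sum_congr rfl fun i _ => ?_
    rw [Finset.sum_comm]
    simp only [← Finset.mul_sum]
    have h4 : ∀ i' : Fin (n - 1), ∑ k ∈ Finset.range (2 * n),
        Law_C n k ((i : ℕ) + 1) * Law_C n k ((i' : ℕ) + 1) = if i = i' then 1 / 2 else 0 := by
      intro i'
      rw [Law_orth n _ _ (by omega) (by omega) (by omega) (by omega)]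
      simp [Fin.ext_iff]
    simp only [h4, mul_ite, mul_zero, Finset.sum_ite_eq, Finset.mem_univ, if_true]
    ring
  rw [h2]
  -- right side
  unfold gam
  simp only [hL]
  have h5 : ∀ x : Fin (n - 1) → ℝ, Complex.exp (((∑ i, t i * x i : ℝ) : ℂ) * Complex.I) =
      ∏ i, Complex.exp ((t i * x i : ℝ) * Complex.I) := by
    intro x
    rw [← Complex.exp_sum]
    congr 1
    push_cast
    rw [Finset.sum_mul]
  simp only [h5]
  rw [integral_fintype_prod_eq_prod (fun i (x : ℝ) => Complex.exp ((t i * x : ℝ) * Complex.I))]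
  simp only [Law_char1]
  rw [← Complex.exp_sum]
  congr 1
  push_cast
  rw [← Finset.sum_div, Finset.sum_neg_distrib]

theorem law0 (n : ℕ) (hn : 1 ≤ n) (k : Fin (2 * n)) {t : ℝ} (ht : 0 < t) :
    ext n {ω | t ≤ |dE n ω k|} ≤ ENNReal.ofReal (2 / t ^ 2) := by
  obtain ⟨S, hS⟩ : ∃ S : ℝ, S = 2 * ∑ j ∈ Finset.range (2 * n), Law_C n j k ^ 2 := ⟨_, rfl⟩
  have hS0 : 0 ≤ S := by rw [hS]; positivity
  have hS2 : S ≤ 2 := by
    have hn' : (0:ℝ) < n := by exact_mod_cast hn
    have h1 : ∀ j ∈ Finset.range (2 * n), Law_C n j k ^ 2 ≤ 1 / (2 * n) := by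
      intro j _
      unfold Law_C
      rw [mul_pow, div_pow, one_pow, Real.sq_sqrt (by positivity)]
      exact mul_le_of_le_one_right (by positivity) (Real.cos_sq_le_one _)
    have h2 := Finset.sum_le_sum h1
    rw [Finset.sum_const, Finset.card_range, nsmul_eq_mul] at h2
    have h3 : ((2 * n : ℕ) : ℝ) * (1 / (2 * n)) = 1 := by
      push_cast
      field_simp
    rw [h3] at h2
    rw [hS]
    linarith
  have hlaw : (ext n).map (fun ω => dE n ω k) = gaussianReal 0 S.toNNReal := by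
    have : IsProbabilityMeasure ((ext n).map (fun ω => dE n ω k)) :=
      Measure.isProbabilityMeasure_map (dE_meas n k).aemeasurable
    refine Measure.ext_of_charFun (funext fun x => ?_)
    rw [charFun_apply_real, charFun_gaussianReal, integral_map (dE_meas n k).aemeasurable (by fun_prop)]
    simp only [Law_dE n hn]
    have h1 : ∀ ω : (Fin n → ℝ) × (ℝ × ℝ), (x : ℂ) * ((∑ j : Fin n, Law_w j * Law_C n j k * ω.1 j +
        Law_C n 0 k * ω.2.1 + √2 * Law_C n n k * ω.2.2 : ℝ) : ℂ) =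
        ((∑ j : Fin n, (Law_w j * (x * Law_C n j k)) * ω.1 j + (x * Law_C n 0 k) * ω.2.1 +
          (√2 * (x * Law_C n n k)) * ω.2.2 : ℝ) : ℂ) := by
      intro ω
      rw [← Complex.ofReal_mul]
      congr 1
      rw [mul_add, mul_add, Finset.mul_sum]
      congr 1
      · congr 1
        · exact Finset.sum_congr rfl fun j _ => by ring
        · ring
      · ring
    simp only [h1]
    rw [Law_char n (fun j => Law_w j * (x * Law_C n j k)) (x * Law_C n 0 k) (√2 * (x * Law_C n n k)),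
      Law_sq n hn (fun j => x * Law_C n j k) (fun j hj => by simp only [Law_C_symm n j _ (by omega) hj])]
    congr 1
    simp only [mul_pow]
    rw [← Finset.mul_sum]
    rw [Real.coe_toNNReal S hS0, hS]
    push_cast
    ring
  have hset : {ω | t ≤ |dE n ω k|} = (fun ω => dE n ω k) ⁻¹' {x | t ≤ |x|} := rfl
  have hms : MeasurableSet {x : ℝ | t ≤ |x|} := measurableSet_le measurable_const (by fun_prop)
  rw [hset, ← Measure.map_apply (dE_meas n k) hms, hlaw]
  have h3 := meas_ge_le_variance_div_sq (μ := gaussianReal 0 S.toNNReal) (X := id)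
    (memLp_id_gaussianReal 2) ht
  rw [variance_id_gaussianReal, Real.coe_toNNReal S hS0] at h3
  simp only [id_eq, integral_id_gaussianReal, sub_zero] at h3
  refine h3.trans (ENNReal.ofReal_le_ofReal ?_)
  exact div_le_div_of_nonneg_right hS2 (by positivity)

end TZ
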