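import Pool.Agent.TZ.Defs

/-!
Project TZ (MP_b753aa_pr), module Ray: variational principle on the range of `P`.
Proof. The restriction `T` of `P D P` to the subspace `{v | P v = v}` of `EuclideanSpace ℂ (Fin N)` is symmetric; the largest value of
the Rayleigh quotient is an eigenvalue (`LinearMap.IsSymmetric.hasEigenvalue_iSup_of_finiteDimensional`); `⟨v, P D P v⟩ = ∑ d ‖v‖²`
for `P v = v`. (Or: spectral theorem for the hermitian matrix `P D P + t (1 - P)`.)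
-/

noncomputable section

namespace TZ

open MeasureTheory ProbabilityTheory Filter Topology Matrix
open scoped Real

theorem Ray_herm {N : ℕ} {A : Matrix (Fin N) (Fin N) ℂ} (hA : A.IsHermitian) (v w : Fin N → ℂ) :
    star v ⬝ᵥ (A *ᵥ w) = star (A *ᵥ v) ⬝ᵥ w := by
  rw [Matrix.dotProduct_mulVec, Matrix.star_mulVec, hA.eq]

theorem Ray_self {N : ℕ} (v : Fin N → ℂ) : star v ⬝ᵥ v = ((∑ k, ‖v k‖ ^ 2 : ℝ) : ℂ) := by
  unfold dotProduct
  rw [Complex.ofReal_sum]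
  apply Finset.sum_congr rfl
  intro k _
  rw [Pi.star_apply]
  rw [show star (v k) = (starRingEnd ℂ) (v k) from rfl, mul_comm, Complex.mul_conj,
    Complex.normSq_eq_norm_sq]

theorem Ray_diag {N : ℕ} (d : Fin N → ℝ) (v : Fin N → ℂ) :
    star v ⬝ᵥ (Matrix.diagonal (fun k => (d k : ℂ)) *ᵥ v) = ((∑ k, d k * ‖v k‖ ^ 2 : ℝ) : ℂ) := by
  unfold dotProduct
  rw [Complex.ofReal_sum]
  apply Finset.sum_congr rfl
  intro k _
  rw [Pi.star_apply, Matrix.mulVec_diagonal]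
  rw [show star (v k) = (starRingEnd ℂ) (v k) from rfl, mul_left_comm, mul_comm ((starRingEnd ℂ) (v k)),
    Complex.mul_conj, Complex.normSq_eq_norm_sq]
  push_cast
  ring

theorem Ray_form {N : ℕ} {P : Matrix (Fin N) (Fin N) ℂ} (hP : P.IsHermitian) (d : Fin N → ℝ)
    {v : Fin N → ℂ} (hv : P *ᵥ v = v) :
    star v ⬝ᵥ ((P * Matrix.diagonal (fun k => (d k : ℂ)) * P) *ᵥ v) =
      ((∑ k, d k * ‖v k‖ ^ 2 : ℝ) : ℂ) := by
  rw [← Matrix.mulVec_mulVec, ← Matrix.mulVec_mulVec, hv, Ray_herm hP, hv, Ray_diag]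

theorem ray_val {N : ℕ} {P : Matrix (Fin N) (Fin N) ℂ} (hP : P.IsHermitian) (d : Fin N → ℝ)
    {v : Fin N → ℂ} {lam : ℝ} (hv : P *ᵥ v = v) (hv1 : ∑ k, ‖v k‖ ^ 2 = 1)
    (h : (P * Matrix.diagonal (fun k => (d k : ℂ)) * P) *ᵥ v = (lam : ℂ) • v) :
    ∑ k, d k * ‖v k‖ ^ 2 = lam := by
  have h1 := Ray_form hP d hv
  rw [h, dotProduct_smul, Ray_self, hv1] at h1
  have h2 : ((∑ k, d k * ‖v k‖ ^ 2 : ℝ) : ℂ) = (lam : ℂ) := by
    rw [← h1]
    simp
  exact_mod_cast h2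

theorem Ray_max {N : ℕ} {A : Matrix (Fin N) (Fin N) ℂ} (hA : A.IsHermitian) (v0 : Fin N → ℂ)
    (hv1 : ∑ k, ‖v0 k‖ ^ 2 = 1) {ρ : ℝ} (hρ : star v0 ⬝ᵥ (A *ᵥ v0) = (ρ : ℂ)) :
    ∃ (v : Fin N → ℂ) (lam : ℝ), ∑ k, ‖v k‖ ^ 2 = 1 ∧ A *ᵥ v = (lam : ℂ) • v ∧ ρ ≤ lam := by
  by_contra hcon
  push Not at hcon
  set b := hA.eigenvectorBasis with hb
  set x : EuclideanSpace ℂ (Fin N) := WithLp.toLp 2 v0 with hx
  have hlam : ∀ i, hA.eigenvalues i < ρ := by
    intro i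
    apply hcon (b i).ofLp (hA.eigenvalues i)
    · have h1 := b.orthonormal.1 i
      rw [EuclideanSpace.norm_eq] at h1
      have h2 := congrArg (fun t : ℝ => t ^ 2) h1
      simp only at h2
      rw [Real.sq_sqrt (by positivity)] at h2
      rw [h2]
      norm_num
    · have h3 := hA.mulVec_eigenvectorBasis i
      rw [← hb] at h3
      rw [h3]
      ext k
      simp
  have hxx : ∑ i, ‖(inner ℂ (b i) x : ℂ)‖ ^ 2 = 1 := by
    rw [b.sum_sq_norm_inner_right, EuclideanSpace.norm_eq, Real.sq_sqrt (by positivity)]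
    exact hv1
  have hsum : ∑ i, hA.eigenvalues i * ‖(inner ℂ (b i) x : ℂ)‖ ^ 2 = ρ := by
    have h1 := b.sum_inner_mul_inner x (WithLp.toLp 2 (A *ᵥ v0))
    have h2 : (inner ℂ x (WithLp.toLp 2 (A *ᵥ v0)) : ℂ) = (ρ : ℂ) := by
      rw [EuclideanSpace.inner_eq_star_dotProduct, dotProduct_comm]
      exact hρ
    have h3 : ∀ i, (inner ℂ (b i) (WithLp.toLp 2 (A *ᵥ v0) : EuclideanSpace ℂ (Fin N)) : ℂ) =
        (hA.eigenvalues i : ℂ) * inner ℂ (b i) x := by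
      intro i
      rw [EuclideanSpace.inner_eq_star_dotProduct, EuclideanSpace.inner_eq_star_dotProduct,
        dotProduct_comm, dotProduct_comm (WithLp.ofLp x)]
      have h4 := hA.mulVec_eigenvectorBasis i
      rw [← hb] at h4
      have h5 := Ray_herm hA (b i).ofLp v0
      rw [h4] at h5
      rw [show (WithLp.toLp 2 (A *ᵥ v0) : EuclideanSpace ℂ (Fin N)).ofLp = A *ᵥ v0 from rfl, h5]
      rw [show WithLp.ofLp x = v0 from rfl]
      unfold dotProduct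
      rw [Finset.mul_sum]
      apply Finset.sum_congr rfl
      intro k _
      simp [mul_assoc]
    rw [h2] at h1
    have h6 : ((∑ i, hA.eigenvalues i * ‖(inner ℂ (b i) x : ℂ)‖ ^ 2 : ℝ) : ℂ) = (ρ : ℂ) := by
      rw [← h1, Complex.ofReal_sum]
      apply Finset.sum_congr rfl
      intro i _
      rw [h3 i, ← inner_conj_symm x (b i)]
      rw [mul_left_comm, mul_comm ((starRingEnd ℂ) (inner ℂ (b i) x)), Complex.mul_conj,
        Complex.normSq_eq_norm_sq]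
      push_cast
      ring
    exact_mod_cast h6
  have hz : ∑ i, (ρ - hA.eigenvalues i) * ‖(inner ℂ (b i) x : ℂ)‖ ^ 2 = 0 := by
    simp_rw [sub_mul]
    rw [Finset.sum_sub_distrib, hsum, ← Finset.mul_sum, hxx, mul_one, sub_self]
  have hz2 : ∀ i, ‖(inner ℂ (b i) x : ℂ)‖ ^ 2 = 0 := by
    intro i
    have h7 := (Finset.sum_eq_zero_iff_of_nonneg (by
      intro j _
      have := hlam j
      exact mul_nonneg (by linarith) (by positivity))).1 hz i (Finset.mem_univ _)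
    rcases mul_eq_zero.1 h7 with h | h
    · have := hlam i
      linarith
    · exact h
  rw [Finset.sum_congr rfl (fun i _ => hz2 i), Finset.sum_const_zero] at hxx
  exact zero_ne_one hxx

theorem ray {N : ℕ} {P : Matrix (Fin N) (Fin N) ℂ} (hP : P.IsHermitian) (hP2 : P * P = P) (d : Fin N → ℝ)
    {v0 : Fin N → ℂ} (hv : P *ᵥ v0 = v0) (hv1 : ∑ k, ‖v0 k‖ ^ 2 = 1) :
    ∃ (v : Fin N → ℂ) (lam : ℝ), P *ᵥ v = v ∧ ∑ k, ‖v k‖ ^ 2 = 1 ∧
      (P * Matrix.diagonal (fun k => (d k : ℂ)) * P) *ᵥ v = (lam : ℂ) • v ∧ ∑ k, d k * ‖v0 k‖ ^ 2 ≤ lam := by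
  set D : Matrix (Fin N) (Fin N) ℂ := Matrix.diagonal (fun k => (d k : ℂ)) with hD
  set ρ : ℝ := ∑ k, d k * ‖v0 k‖ ^ 2 with hρ
  set t : ℝ := |ρ| + 1 with ht
  set A : Matrix (Fin N) (Fin N) ℂ := P * D * P + (t : ℂ) • (P - 1) with hA
  have hDh : D.IsHermitian := by
    rw [hD]
    apply Matrix.isHermitian_diagonal_of_self_adjoint
    ext k
    simp
  have hPDP : (P * D * P).IsHermitian := by
    unfold Matrix.IsHermitian
    rw [Matrix.conjTranspose_mul, Matrix.conjTranspose_mul, hP.eq, hDh.eq, Matrix.mul_assoc]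
  have hAh : A.IsHermitian := by
    unfold Matrix.IsHermitian
    rw [hA, Matrix.conjTranspose_add, hPDP.eq, Matrix.conjTranspose_smul, Matrix.conjTranspose_sub, hP.eq,
      Matrix.conjTranspose_one]
    simp
  have hA0 : star v0 ⬝ᵥ (A *ᵥ v0) = (ρ : ℂ) := by
    rw [hA, Matrix.add_mulVec, Matrix.smul_mulVec, Matrix.sub_mulVec, hv, Matrix.one_mulVec, sub_self,
      smul_zero, add_zero, Ray_form hP d hv]
  obtain ⟨v, lam, h1, h2, h3⟩ := Ray_max hAh v0 hv1 hA0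
  have hPA : P * A = P * D * P := by
    rw [hA, Matrix.mul_add, Matrix.mul_smul, Matrix.mul_sub, hP2, Matrix.mul_one, sub_self, smul_zero,
      add_zero, ← Matrix.mul_assoc, ← Matrix.mul_assoc, hP2]
  have hv' : P *ᵥ v = v := by
    have h4 : (P * D * P) *ᵥ v = (lam : ℂ) • (P *ᵥ v) := by
      rw [← hPA, ← Matrix.mulVec_mulVec, h2, Matrix.mulVec_smul]
    have h5 : A *ᵥ v = (P * D * P) *ᵥ v + (t : ℂ) • (P *ᵥ v - v) := by
      rw [hA, Matrix.add_mulVec, Matrix.smul_mulVec, Matrix.sub_mulVec, Matrix.one_mulVec]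
    rw [h2, h4] at h5
    have h6 : ((lam : ℂ) + t) • (P *ᵥ v - v) = 0 := by
      have h7 : (lam : ℂ) • v - (lam : ℂ) • (P *ᵥ v) = (t : ℂ) • (P *ᵥ v - v) := by
        rw [h5]
        abel
      rw [add_smul, smul_sub, ← h7]
      abel
    have h8 : (0 : ℝ) < lam + t := by
      have := neg_abs_le ρ
      linarith
    have h9 : ((lam : ℂ) + t) ≠ 0 := by
      intro h
      have h10 : ((lam + t : ℝ) : ℂ) = 0 := by
        push_cast
        exact h
      have h11 : lam + t = 0 := by exact_mod_cast h10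
      linarith
    exact sub_eq_zero.1 ((smul_eq_zero.1 h6).resolve_left h9)
  refine ⟨v, lam, hv', h1, ?_, h3⟩
  rw [← hPA, ← Matrix.mulVec_mulVec, h2, Matrix.mulVec_smul, hv']

end TZ
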