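import Pool.Agent.TZ.Defs
import Pool.Agent.TZ.KerA
import Pool.Agent.TZ.KerB
import Pool.Agent.TZ.Ray
import Pool.Agent.TZ.Law

/-!
Project TZ (MP_b753aa_pr), module Ext: the extended probability space.
-/

noncomputable section

namespace TZ

open MeasureTheory ProbabilityTheory Filter Topology Matrix
open scoped Real

/-- projection of an event on the extended space -/
theorem prod_le (n : ℕ) (A : Set (Fin n → ℝ)) (B : Set ((Fin n → ℝ) × (ℝ × ℝ)))
    (h : ∀ a ∈ A, ∀ g : ℝ × ℝ, (a, g) ∈ B) : gam n A ≤ ext n B := by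
  have h1 : A ×ˢ (Set.univ : Set (ℝ × ℝ)) ⊆ B := by
    rintro ⟨a, g⟩ ⟨ha, -⟩
    exact h a ha g
  calc gam n A = gam n A * ((gaussianReal 0 1).prod (gaussianReal 0 1)) Set.univ := by
        rw [measure_univ, mul_one]
    _ = ext n (A ×ˢ Set.univ) := by
        unfold ext
        rw [Measure.prod_prod]
    _ ≤ ext n B := measure_mono h1

theorem law_le (n : ℕ) (hn : 2 ≤ n) (A : Set (Fin (n - 1) → ℝ)) :
    ext n {ω | (fun i : Fin (n - 1) => dE n ω ⟨(i : ℕ) + 1, by omega⟩) ∈ A} ≤ gam (n - 1) A := by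
  rw [← law n hn]
  have hm : Measurable (fun ω (i : Fin (n - 1)) => dE n ω ⟨(i : ℕ) + 1, by omega⟩) :=
    measurable_pi_lambda _ fun i => dE_meas n _
  exact Measure.le_map_apply hm.aemeasurable A

theorem ext_mat {n : ℕ} {ω : (Fin n → ℝ) × (ℝ × ℝ)} {c : ℝ} :
    PP n * Matrix.diagonal (fun k => (dE n ω k : ℂ)) * PP n =
      PP n * DD n ω.1 c * PP n + ((ω.2.1 / √(2 * n) : ℝ) : ℂ) • (PP n * PP n) := by
  have h1 : Matrix.diagonal (fun k => (dE n ω k : ℂ)) = DD n (aE ω.1 ω.2.1) (√2 * ω.2.2) := by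
    unfold DD
    congr 1
    funext k
    exact (dd_real n _ _ k).symm
  rw [h1]
  exact DD_shift n ω.1 c _ _

/-- the quadratic form of the extended diagonal -/
theorem ext_val {n : ℕ} {ω : (Fin n → ℝ) × (ℝ × ℝ)} {c : ℝ} {v : Fin (2 * n) → ℂ} {lam : ℝ}
    (h : Eig n ω.1 c v lam) : ∑ k, dE n ω k * ‖v k‖ ^ 2 = lam + ω.2.1 / √(2 * n) := by
  refine ray_val (PP_herm n) _ h.ran h.unit ?_
  rw [ext_mat (c := c), Matrix.add_mulVec, h.eig, PP_idem, Matrix.smul_mulVec, h.ran, ← add_smul]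
  push_cast
  rfl

/-- an eigenvector for the extended diagonal is an eigenvector -/
theorem ext_eig {n : ℕ} {ω : (Fin n → ℝ) × (ℝ × ℝ)} (c : ℝ) {v : Fin (2 * n) → ℂ} {lam : ℝ}
    (hv : PP n *ᵥ v = v) (hv1 : ∑ j, ‖v j‖ ^ 2 = 1)
    (h : (PP n * Matrix.diagonal (fun k => (dE n ω k : ℂ)) * PP n) *ᵥ v = (lam : ℂ) • v) :
    Eig n ω.1 c v (lam - ω.2.1 / √(2 * n)) where
  ran := hv
  unit := hv1
  eig := by
    rw [ext_mat (c := c), Matrix.add_mulVec, PP_idem, Matrix.smul_mulVec, hv] at h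
    rw [eq_sub_of_add_eq h, ← sub_smul]
    push_cast
    rfl

end TZ
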