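import Pool.Agent.TZ.Defs

/-!
Project TZ (MP_b753aa_pr), module Fold: from the independent variables `x` to the entries of `D`.
Proof. A high site (`d k ≥ ηθ > 0`) is neither `0` nor `n`; in the first half (`0 < k < n`) `d k = x (k-1)` and `XUp.edge` gives
`3L ≤ k - 1` and `k - 1 + 3L < n - 1`; in the second half `d k = d (2n-k)`. So a window `[y, y+L)` with a high site has all its
sites in one half, and its high sites correspond to a set `C` of indices of `x` in a window of length `L` (starting at `y - 1`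
resp. `2n - y - L`): `k ↦ k - 1`, resp. `k ↦ 2n - k - 1`. (cnt): a subset of exactly `q` (if `card > q`) high sites would have
`∑ ≥ q (ηθ)² ≥ 4θ² ≥ ((1+η)θ)²`, against `XUp.sq`; the same argument shows `card ≤ q`, so `XUp.sq` applies to all high sites: (sq).
(few): `F = {y' + 1} ∪ {2n - y' - L}` over `y' ∈ F_x`, `card ≤ 2M`. (bd): `XUp.sq` for one site; `|d 0|, |d n| < ηθ`.
-/

noncomputable section

namespace TZ

open MeasureTheory ProbabilityTheory Filter Topology Matrix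
open scoped Real

theorem fold_rep {n : ℕ} {d : Fin (2 * n) → ℝ} {x : Fin (n - 1) → ℝ}
    (hd : ∀ (k : Fin (2 * n)) (i : Fin (n - 1)), (k : ℕ) = (i : ℕ) + 1 → d k = x i)
    (hs : ∀ k k' : Fin (2 * n), (k : ℕ) + (k' : ℕ) = 2 * n → d k = d k')
    (k : Fin (2 * n)) (h0 : (k : ℕ) ≠ 0) (hn : (k : ℕ) ≠ n) :
    ∃ i : Fin (n - 1), d k = x i ∧ ((k : ℕ) = (i : ℕ) + 1 ∨ (k : ℕ) + (i : ℕ) + 1 = 2 * n) := by
  rcases lt_or_gt_of_ne hn with h | h
  · have hi : (k : ℕ) - 1 < n - 1 := by omega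
    have hki : (k : ℕ) = ((⟨(k : ℕ) - 1, hi⟩ : Fin (n - 1)) : ℕ) + 1 := by
      show (k : ℕ) = (k : ℕ) - 1 + 1
      omega
    exact ⟨⟨(k : ℕ) - 1, hi⟩, hd k _ hki, Or.inl hki⟩
  · have hk := k.2
    have hi : 2 * n - (k : ℕ) - 1 < n - 1 := by omega
    have hk' : 2 * n - (k : ℕ) < 2 * n := by omega
    refine ⟨⟨2 * n - (k : ℕ) - 1, hi⟩, ?_, Or.inr ?_⟩
    · rw [hs k ⟨2 * n - (k : ℕ), hk'⟩ (by show (k : ℕ) + (2 * n - (k : ℕ)) = 2 * n; omega)]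
      refine hd _ _ ?_
      show 2 * n - (k : ℕ) = 2 * n - (k : ℕ) - 1 + 1
      omega
    · show (k : ℕ) + (2 * n - (k : ℕ) - 1) + 1 = 2 * n
      omega

theorem fold_high {n : ℕ} {d : Fin (2 * n) → ℝ} {x : Fin (n - 1) → ℝ} {η θ : ℝ} {L q M : ℕ}
    (hx : XUp x η θ L q M) (hη : 0 < η) (hθ : 0 < θ)
    (hd : ∀ (k : Fin (2 * n)) (i : Fin (n - 1)), (k : ℕ) = (i : ℕ) + 1 → d k = x i)
    (hs : ∀ k k' : Fin (2 * n), (k : ℕ) + (k' : ℕ) = 2 * n → d k = d k')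
    (h0 : ∀ k : Fin (2 * n), (k : ℕ) = 0 ∨ (k : ℕ) = n → |d k| < η * θ)
    (k : Fin (2 * n)) (hk : η * θ ≤ d k) :
    ∃ i : Fin (n - 1), d k = x i ∧ 3 * L ≤ (i : ℕ) ∧ (i : ℕ) + 3 * L < n - 1 ∧
      ((k : ℕ) = (i : ℕ) + 1 ∨ (k : ℕ) + (i : ℕ) + 1 = 2 * n) := by
  have hne : ¬ ((k : ℕ) = 0 ∨ (k : ℕ) = n) := fun h =>
    absurd (h0 k h) (not_lt.2 (hk.trans (le_abs_self _)))
  rw [not_or] at hne
  obtain ⟨i, hi, hki⟩ := fold_rep hd hs k hne.1 hne.2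
  have he : ¬ ((i : ℕ) < 3 * L ∨ n - 1 ≤ (i : ℕ) + 3 * L) := fun h =>
    absurd (hx.edge i h) (not_lt.2 ((hi ▸ hk).trans (le_abs_self _)))
  rw [not_or, not_lt, not_le] at he
  exact ⟨i, hi, he.1, he.2, hki⟩

theorem fold_win {n : ℕ} {d : Fin (2 * n) → ℝ} {x : Fin (n - 1) → ℝ} {η θ : ℝ} {L q M : ℕ}
    (hx : XUp x η θ L q M) (hL : 1 ≤ L) (hη : 0 < η) (hθ : 0 < θ)
    (hd : ∀ (k : Fin (2 * n)) (i : Fin (n - 1)), (k : ℕ) = (i : ℕ) + 1 → d k = x i)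
    (hs : ∀ k k' : Fin (2 * n), (k : ℕ) + (k' : ℕ) = 2 * n → d k = d k')
    (h0 : ∀ k : Fin (2 * n), (k : ℕ) = 0 ∨ (k : ℕ) = n → |d k| < η * θ)
    (y : ℕ) (hne : (Hw d (η * θ) y L).Nonempty) :
    ∃ (y' : ℕ) (f : Fin (2 * n) → Fin (n - 1)), (y = y' + 1 ∨ y = 2 * n - y' - L) ∧
      (∀ k ∈ Hw d (η * θ) y L, y' ≤ (f k : ℕ) ∧ (f k : ℕ) < y' + L) ∧
      (∀ k ∈ Hw d (η * θ) y L, ∀ l ∈ Hw d (η * θ) y L, f k = f l → k = l) ∧
      ∀ k ∈ Hw d (η * θ) y L, d k = x (f k) := by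
  have key : ∀ k ∈ Hw d (η * θ) y L, ∃ i : Fin (n - 1), d k = x i ∧ 3 * L ≤ (i : ℕ) ∧
      (i : ℕ) + 3 * L < n - 1 ∧ ((k : ℕ) = (i : ℕ) + 1 ∨ (k : ℕ) + (i : ℕ) + 1 = 2 * n) := by
    intro k hk
    exact fold_high hx hη hθ hd hs h0 k (Finset.mem_filter.1 hk).2.2.2
  have hw : ∀ k ∈ Hw d (η * θ) y L, y ≤ (k : ℕ) ∧ (k : ℕ) < y + L := fun k hk =>
    ⟨(Finset.mem_filter.1 hk).2.1, (Finset.mem_filter.1 hk).2.2.1⟩
  obtain ⟨k0, hk0⟩ := hne
  haveI : Nonempty (Fin (n - 1)) := ⟨(key k0 hk0).choose⟩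
  choose! f hf using key
  obtain ⟨-, a1, a2, a3⟩ := hf k0 hk0
  obtain ⟨b1, b2⟩ := hw k0 hk0
  have hinj : ∀ k ∈ Hw d (η * θ) y L, ∀ l ∈ Hw d (η * θ) y L, f k = f l → k = l := by
    intro k hk l hl hkl
    obtain ⟨-, c1, c2, c3⟩ := hf k hk
    obtain ⟨-, e1, e2, e3⟩ := hf l hl
    obtain ⟨g1, g2⟩ := hw k hk
    obtain ⟨g3, g4⟩ := hw l hl
    have : (f k : ℕ) = (f l : ℕ) := by rw [hkl]
    apply Fin.ext
    omega
  rcases a3 with a3 | a3
  · refine ⟨y - 1, f, Or.inl (by omega), ?_, hinj, fun k hk => (hf k hk).1⟩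
    intro k hk
    obtain ⟨-, c1, c2, c3⟩ := hf k hk
    obtain ⟨g1, g2⟩ := hw k hk
    omega
  · refine ⟨2 * n - (y + L), f, Or.inr (by omega), ?_, hinj, fun k hk => (hf k hk).1⟩
    intro k hk
    obtain ⟨-, c1, c2, c3⟩ := hf k hk
    obtain ⟨g1, g2⟩ := hw k hk
    omega

theorem fold {n : ℕ} {d : Fin (2 * n) → ℝ} {x : Fin (n - 1) → ℝ} {η θ : ℝ} {L q M : ℕ}
    (hx : XUp x η θ L q M) (hL : 1 ≤ L) (hq : 4 ≤ q * η ^ 2) (hη : 0 < η) (hη1 : η ≤ 1) (hθ : 0 < θ)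
    (hd : ∀ (k : Fin (2 * n)) (i : Fin (n - 1)), (k : ℕ) = (i : ℕ) + 1 → d k = x i)
    (hs : ∀ k k' : Fin (2 * n), (k : ℕ) + (k' : ℕ) = 2 * n → d k = d k')
    (h0 : ∀ k : Fin (2 * n), (k : ℕ) = 0 ∨ (k : ℕ) = n → |d k| < η * θ) :
    DUp d η θ L q (2 * M) := by
  have hq1 : 1 ≤ q := by
    rcases Nat.eq_zero_or_pos q with h | h
    · subst h
      norm_num at hq
    · exact h
  have hθη : 0 < η * θ := mul_pos hη hθ
  have h2 : ((1 + η) * θ) ^ 2 ≤ 4 * θ ^ 2 := by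
    have h3 : (1 + η) * θ ≤ 2 * θ := by nlinarith
    have h4 : 0 ≤ (1 + η) * θ := by positivity
    nlinarith
  have himg : ∀ (f : Fin (2 * n) → Fin (n - 1)) (S : Finset (Fin (2 * n))),
      (∀ k ∈ S, ∀ l ∈ S, f k = f l → k = l) → (∀ k ∈ S, d k = x (f k)) →
      (S.image f).card = S.card ∧ ∑ i ∈ S.image f, x i ^ 2 = ∑ k ∈ S, d k ^ 2 := by
    intro f S h1 h3
    refine ⟨Finset.card_image_of_injOn fun k hk l hl h => h1 k hk l hl h, ?_⟩
    rw [Finset.sum_image h1]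
    exact Finset.sum_congr rfl fun k hk => by rw [h3 k hk]
  have hcnt : ∀ y : ℕ, (Hw d (η * θ) y L).card ≤ q := by
    intro y
    by_contra hc
    rw [not_le] at hc
    have hne : (Hw d (η * θ) y L).Nonempty := Finset.card_pos.1 (by omega)
    obtain ⟨y', f, -, hf1, hf2, hf3⟩ := fold_win hx hL hη hθ hd hs h0 y hne
    obtain ⟨S, hS, hSc⟩ := Finset.exists_subset_card_eq hc.le
    obtain ⟨e1, e2⟩ := himg f S (fun k hk l hl => hf2 k (hS hk) l (hS hl)) fun k hk => hf3 k (hS hk)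
    have hlt := hx.sq y' (S.image f) (by
      intro i hi
      obtain ⟨k, hk, rfl⟩ := Finset.mem_image.1 hi
      exact hf1 k (hS hk)) (by rw [e1, hSc])
    rw [e2] at hlt
    have hge : (q : ℝ) * (η * θ) ^ 2 ≤ ∑ k ∈ S, d k ^ 2 := by
      have := Finset.card_nsmul_le_sum S (fun k => d k ^ 2) ((η * θ) ^ 2) (by
        intro k hk
        have h5 : η * θ ≤ d k := (Finset.mem_filter.1 (hS hk)).2.2.2
        exact pow_le_pow_left₀ hθη.le h5 2)
      rw [hSc, nsmul_eq_mul] at this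
      exact this
    have h6 : 4 * θ ^ 2 ≤ (q : ℝ) * (η * θ) ^ 2 := by
      have := mul_le_mul_of_nonneg_right hq (sq_nonneg θ)
      calc 4 * θ ^ 2 ≤ (q : ℝ) * η ^ 2 * θ ^ 2 := this
        _ = (q : ℝ) * (η * θ) ^ 2 := by ring
    linarith
  have hone : ∀ i : Fin (n - 1), |x i| ≤ 2 * θ := by
    intro i
    have h7 := hx.sq i {i} (by
      intro k hk
      rw [Finset.mem_singleton] at hk
      subst hk
      omega) (by rw [Finset.card_singleton]; exact hq1)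
    rw [Finset.sum_singleton] at h7
    refine abs_le_of_sq_le_sq ?_ (by positivity)
    nlinarith
  refine ⟨hcnt, ?_, ?_, ?_, ?_⟩
  · intro y
    rcases (Hw d (η * θ) y L).eq_empty_or_nonempty with he | hne
    · rw [he, Finset.sum_empty]
      positivity
    · obtain ⟨y', f, -, hf1, hf2, hf3⟩ := fold_win hx hL hη hθ hd hs h0 y hne
      obtain ⟨e1, e2⟩ := himg f _ hf2 hf3
      rw [← e2]
      refine (hx.sq y' _ ?_ (by rw [e1]; exact hcnt y)).le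
      intro i hi
      obtain ⟨k, hk, rfl⟩ := Finset.mem_image.1 hi
      exact hf1 k hk
  · intro k hk
    obtain ⟨i, -, c1, c2, c3⟩ := fold_high hx hη hθ hd hs h0 k hk
    have := k.2
    omega
  · obtain ⟨F, hF, hF2⟩ := hx.few
    refine ⟨F.image (fun t => t + 1) ∪ F.image (fun t => 2 * n - t - L), ?_, ?_⟩
    · refine (Finset.card_union_le _ _).trans ?_
      have h8 := Finset.card_image_le (s := F) (f := fun t => t + 1)
      have h9 := Finset.card_image_le (s := F) (f := fun t => 2 * n - t - L)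
      omega
    · intro y hne hsum
      obtain ⟨y', f, hy', hf1, hf2, hf3⟩ := fold_win hx hL hη hθ hd hs h0 y hne
      obtain ⟨e1, e2⟩ := himg f _ hf2 hf3
      have hmem : y' ∈ F := by
        refine hF2 y' ((Hw d (η * θ) y L).image f) ?_ (hne.image f) (by rw [e1]; exact hcnt y)
          (by rw [e2]; exact hsum)
        intro i hi
        obtain ⟨k, hk, rfl⟩ := Finset.mem_image.1 hi
        exact hf1 k hk
      rw [Finset.mem_union, Finset.mem_image, Finset.mem_image]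
      rcases hy' with h | h
      · exact Or.inl ⟨y', hmem, h.symm⟩
      · exact Or.inr ⟨y', hmem, h.symm⟩
  · intro k
    by_cases hk : (k : ℕ) = 0 ∨ (k : ℕ) = n
    · have := h0 k hk
      nlinarith
    · rw [not_or] at hk
      obtain ⟨i, hi, -⟩ := fold_rep hd hs k hk.1 hk.2
      rw [hi]
      exact hone i

end TZ
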