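import Pool.Agent.TZ.Defs
import Pool.Agent.TZ.KerA
import Pool.Agent.TZ.Best

/-!
Project TZ (MP_b753aa_pr), module LowD: a vector with a large form, deterministic part.
Proof. `near` with `K0 - η` gives `M, y, g`. Take a margin `M'` (large, depending on `η` and `(∑ √y ‖g‖)²`), `Mt = M + 2 M'`,
`yy j = y (j - M')` for `M' ≤ j < M' + M`, else `0`. Put `u (x0 + M' + j) = √(y j) g j`, `z = P u`, `τ = ‖z‖² = ⟨u, P u⟩ ≥ K0 - 2η`
for `n ≥ n0` (`PP_pinf`). By Cauchy-Schwarz `τ = ⟨u, z⟩ ≤ (∑ y ‖z‖²)^{1/2}`, so `∑_window d ‖z‖² ≥ (1-η) θ ∑ yy ‖z‖² ≥ (1-η) θ τ²`.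
Outside of `[x0, x0 + Mt)`: `‖z k‖ ≤ (∑ ‖u‖)/(2 dist)`, so `∑_outside ‖z‖² ≤ (∑ ‖u‖)²/M' · const ≤ η/8`, and `d ≥ -2θ`. The vector
`v = z/√τ`; `(1-η) τ - (η/4)/τ ≥ K0 - 4η` (use `1/2 ≤ K0 ≤ 1`, `η ≤ 1/100`).
-/

noncomputable section

namespace TZ

open MeasureTheory ProbabilityTheory Filter Topology Matrix
open scoped Real

/-- sums over a window -/
private theorem lowD_win {β : Type*} [AddCommMonoid β] {n s M : ℕ} (h : s + M ≤ 2 * n) (F : ℤ → β) :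
    ∑ k ∈ Finset.univ.filter (fun k : Fin (2 * n) => s ≤ (k : ℕ) ∧ (k : ℕ) < s + M), F (((k : ℕ) : ℤ) - s) =
      ∑ j ∈ Finset.Ico (0 : ℤ) M, F j := by
  apply Finset.sum_bij (fun (k : Fin (2 * n)) _ => ((k : ℕ) : ℤ) - s)
  · intro k hk
    have h1 := (Finset.mem_filter.1 hk).2
    rw [Finset.mem_Ico]
    omega
  · intro k hk l hl hkl
    apply Fin.ext
    omega
  · intro j hj
    rw [Finset.mem_Ico] at hj
    refine ⟨⟨s + j.toNat, by omega⟩, ?_, ?_⟩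
    · rw [Finset.mem_filter]
      refine ⟨Finset.mem_univ _, ?_, ?_⟩
      · show s ≤ s + j.toNat
        omega
      · show s + j.toNat < s + M
        omega
    · show ((s + j.toNat : ℕ) : ℤ) - s = j
      omega
  · intro k _
    rfl

private theorem lowD_inv {N B : ℕ} {M' : ℕ} (hM : 1 ≤ M') (S : Finset (Fin N)) (φ : Fin N → ℕ)
    (hφ : Set.InjOn φ S) (h1 : ∀ k ∈ S, M' ≤ φ k) (h2 : ∀ k ∈ S, φ k < B) :
    ∑ k ∈ S, 1 / ((φ k : ℝ)) ^ 2 ≤ 2 / (M' : ℝ) := by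
  have h3 : ∑ k ∈ S, 1 / ((φ k : ℝ)) ^ 2 = ∑ m ∈ S.image φ, ((m : ℝ) ^ 2)⁻¹ := by
    rw [Finset.sum_image hφ]
    exact Finset.sum_congr rfl fun k _ => one_div _
  rw [h3]
  have h4 : S.image φ ⊆ Finset.Ioo (M' - 1) B := by
    intro m hm
    obtain ⟨k, hk, rfl⟩ := Finset.mem_image.1 hm
    rw [Finset.mem_Ioo]
    have := h1 k hk
    have := h2 k hk
    omega
  refine (Finset.sum_le_sum_of_subset_of_nonneg h4 (fun m _ _ => by positivity)).trans ?_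
  have h5 := sum_Ioo_inv_sq_le (α := ℝ) (M' - 1) B
  have h6 : ((M' - 1 : ℕ) : ℝ) + 1 = M' := by
    have : ((M' - 1 : ℕ) : ℝ) = (M' : ℝ) - 1 := by
      rw [Nat.cast_sub hM]
      simp
    rw [this]
    ring
  rw [h6] at h5
  exact h5

/-- the sum of the squares of the inverse circular distances -/
private theorem lowD_cd {n x0 M M' : ℕ} (hM : 1 ≤ M') (hx : x0 + (M + 2 * M') ≤ n) (l : Fin (2 * n))
    (hl : x0 + M' ≤ (l : ℕ) ∧ (l : ℕ) < x0 + M' + M) :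
    ∑ k ∈ Finset.univ.filter (fun k : Fin (2 * n) => ¬ (x0 ≤ (k : ℕ) ∧ (k : ℕ) < x0 + (M + 2 * M'))),
      1 / (cd k l : ℝ) ^ 2 ≤ 6 / (M' : ℝ) := by
  set O := Finset.univ.filter (fun k : Fin (2 * n) => ¬ (x0 ≤ (k : ℕ) ∧ (k : ℕ) < x0 + (M + 2 * M'))) with hO
  set A := O.filter (fun k : Fin (2 * n) => (k : ℕ) < (l : ℕ)) with hA
  set B := (O.filter (fun k : Fin (2 * n) => ¬ (k : ℕ) < (l : ℕ))).filter
    (fun k : Fin (2 * n) => (k : ℕ) ≤ (l : ℕ) + n) with hB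
  set C := (O.filter (fun k : Fin (2 * n) => ¬ (k : ℕ) < (l : ℕ))).filter
    (fun k : Fin (2 * n) => ¬ (k : ℕ) ≤ (l : ℕ) + n) with hC
  have hsplit : ∑ k ∈ O, 1 / (cd k l : ℝ) ^ 2 = ∑ k ∈ A, 1 / (cd k l : ℝ) ^ 2 +
      (∑ k ∈ B, 1 / (cd k l : ℝ) ^ 2 + ∑ k ∈ C, 1 / (cd k l : ℝ) ^ 2) := by
    rw [hB, hC, Finset.sum_filter_add_sum_filter_not, hA, Finset.sum_filter_add_sum_filter_not]
  have hcdA : ∀ k ∈ A, cd k l = (l : ℕ) - (k : ℕ) ∧ M' ≤ (l : ℕ) - (k : ℕ) := by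
    intro k hk
    simp only [hA, hO, Finset.mem_filter, Finset.mem_univ, true_and] at hk
    have hk2 := k.2
    unfold cd
    omega
  have hcdB : ∀ k ∈ B, cd k l = (k : ℕ) - (l : ℕ) ∧ M' ≤ (k : ℕ) - (l : ℕ) := by
    intro k hk
    simp only [hB, hO, Finset.mem_filter, Finset.mem_univ, true_and] at hk
    have hk2 := k.2
    unfold cd
    omega
  have hcdC : ∀ k ∈ C, cd k l = 2 * n - ((k : ℕ) - (l : ℕ)) ∧ M' ≤ 2 * n - ((k : ℕ) - (l : ℕ)) ∧
      (l : ℕ) < (k : ℕ) := by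
    intro k hk
    simp only [hC, hO, Finset.mem_filter, Finset.mem_univ, true_and] at hk
    have hk2 := k.2
    unfold cd
    omega
  have eA : ∑ k ∈ A, 1 / (cd k l : ℝ) ^ 2 ≤ 2 / (M' : ℝ) := by
    rw [Finset.sum_congr rfl (fun k hk => by rw [(hcdA k hk).1])]
    refine lowD_inv (B := 2 * n + 1) hM A (fun k => (l : ℕ) - (k : ℕ)) ?_ (fun k hk => (hcdA k hk).2)
      (fun k _ => by have := l.2; show (l : ℕ) - (k : ℕ) < 2 * n + 1; omega)
    intro k hk k' hk' he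
    have h1 := (hcdA k hk).2
    have h2 := (hcdA k' hk').2
    apply Fin.ext
    simp only at he
    omega
  have eB : ∑ k ∈ B, 1 / (cd k l : ℝ) ^ 2 ≤ 2 / (M' : ℝ) := by
    rw [Finset.sum_congr rfl (fun k hk => by rw [(hcdB k hk).1])]
    refine lowD_inv (B := 2 * n + 1) hM B (fun k => (k : ℕ) - (l : ℕ)) ?_ (fun k hk => (hcdB k hk).2)
      (fun k _ => by have := k.2; show (k : ℕ) - (l : ℕ) < 2 * n + 1; omega)
    intro k hk k' hk' he
    have h1 := (hcdB k hk).2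
    have h2 := (hcdB k' hk').2
    apply Fin.ext
    simp only at he
    omega
  have eC : ∑ k ∈ C, 1 / (cd k l : ℝ) ^ 2 ≤ 2 / (M' : ℝ) := by
    rw [Finset.sum_congr rfl (fun k hk => by rw [(hcdC k hk).1])]
    refine lowD_inv (B := 2 * n + 1) hM C (fun k => 2 * n - ((k : ℕ) - (l : ℕ))) ?_
      (fun k hk => (hcdC k hk).2.1) (fun k _ => by show 2 * n - ((k : ℕ) - (l : ℕ)) < 2 * n + 1; omega)
    intro k hk k' hk' he
    have h1 := (hcdC k hk).2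
    have h2 := (hcdC k' hk').2
    have h3 := k.2
    have h4 := k'.2
    apply Fin.ext
    simp only at he
    omega
  rw [hsplit]
  have h6 : (6 : ℝ) / (M' : ℝ) = 2 / (M' : ℝ) + (2 / (M' : ℝ) + 2 / (M' : ℝ)) := by ring
  rw [h6]
  linarith

/-- `‖P u‖² = ⟨u, P u⟩` -/
private theorem lowD_proj {n : ℕ} (u : Fin (2 * n) → ℂ) :
    ∑ k, ‖(PP n *ᵥ u) k‖ ^ 2 = (∑ k, starRingEnd ℂ (u k) * (PP n *ᵥ u) k).re := by
  have hz : star (PP n *ᵥ u) ⬝ᵥ (PP n *ᵥ u) = star u ⬝ᵥ (PP n *ᵥ u) := by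
    rw [Matrix.star_mulVec, ← Matrix.dotProduct_mulVec, Matrix.mulVec_mulVec, (PP_herm n).eq, PP_idem]
  have h1 : star (PP n *ᵥ u) ⬝ᵥ (PP n *ᵥ u) = ((∑ k, ‖(PP n *ᵥ u) k‖ ^ 2 : ℝ) : ℂ) := by
    unfold dotProduct
    rw [Complex.ofReal_sum]
    refine Finset.sum_congr rfl fun k _ => ?_
    rw [Pi.star_apply, Complex.star_def, Complex.conj_mul']
    push_cast
    rfl
  have h2 : star u ⬝ᵥ (PP n *ᵥ u) = ∑ k, starRingEnd ℂ (u k) * (PP n *ᵥ u) k := rfl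
  rw [← h2, ← hz, h1, Complex.ofReal_re]

theorem lowD {η : ℝ} (hη : 0 < η) (hη1 : η ≤ 1 / 100) : ∃ (Mt : ℕ) (yy : ℕ → ℝ) (n0 : ℕ), 1 ≤ Mt ∧
    (∀ j, 0 ≤ yy j) ∧ ∑ j ∈ Finset.range Mt, yy j ^ 2 ≤ 1 ∧
    ∀ n, n0 ≤ n → ∀ (d : Fin (2 * n) → ℝ) (θ : ℝ), 0 < θ → (∀ k, -(2 * θ) ≤ d k) → ∀ x0 : ℕ, x0 + Mt ≤ n →
      (∀ k : Fin (2 * n), x0 ≤ (k : ℕ) → (k : ℕ) < x0 + Mt → (1 - η) * yy ((k : ℕ) - x0) * θ ≤ d k) →
      ∃ v : Fin (2 * n) → ℂ, PP n *ᵥ v = v ∧ ∑ k, ‖v k‖ ^ 2 = 1 ∧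
        (K0 - 4 * η) * θ ≤ ∑ k, d k * ‖v k‖ ^ 2 := by
  classical
  obtain ⟨M, y, g, hM, hy, hy1, hg1, hK⟩ := near (K := K0 - η) (by linarith)
  set U : ℝ := ∑ j ∈ Finset.Ico (0 : ℤ) M, √(y j) * ‖g j‖ with hU
  have hU0 : 0 ≤ U := Finset.sum_nonneg fun j _ => by positivity
  obtain ⟨M', hM'⟩ := exists_nat_ge (max 1 (12 * U ^ 2 / η))
  have hM'1 : (1 : ℝ) ≤ M' := (le_max_left _ _).trans hM'
  have hM'n : 1 ≤ M' := by exact_mod_cast hM'1
  have hM'U : 12 * U ^ 2 / η ≤ M' := (le_max_right _ _).trans hM'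
  have hM'0 : (0 : ℝ) < M' := by linarith
  obtain ⟨n0, hn0⟩ := exists_nat_ge (max 1 (U ^ 2 / η))
  set yy : ℕ → ℝ := fun j => if M' ≤ j ∧ j < M' + M then y ((j : ℤ) - M') else 0 with hyy
  have hyy0 : ∀ j, 0 ≤ yy j := by
    intro j
    simp only [hyy]
    split_ifs
    · exact hy _
    · exact le_rfl
  refine ⟨M + 2 * M', yy, n0, by omega, hyy0, ?_, ?_⟩
  · -- the profile
    have h1 : ∑ j ∈ Finset.range (M + 2 * M'), yy j ^ 2 = ∑ j ∈ Finset.Ico (0 : ℤ) M, y j ^ 2 := by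
      have h2 : ∀ j ∈ Finset.range (M + 2 * M'), yy j ^ 2 =
          if M' ≤ j ∧ j < M' + M then y ((j : ℤ) - M') ^ 2 else 0 := by
        intro j _
        simp only [hyy]
        split_ifs
        · rfl
        · ring
      rw [Finset.sum_congr rfl h2, ← Finset.sum_filter]
      apply Finset.sum_bij (fun (j : ℕ) _ => (j : ℤ) - M')
      · intro j hj
        have h3 := (Finset.mem_filter.1 hj).2
        rw [Finset.mem_Ico]
        omega
      · intro j hj j' hj' he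
        omega
      · intro j hj
        rw [Finset.mem_Ico] at hj
        refine ⟨M' + j.toNat, ?_, by push_cast; omega⟩
        rw [Finset.mem_filter, Finset.mem_range]
        omega
      · intro j _
        rfl
    rw [h1, hy1]
  intro n hn d θ hθ hd x0 hx0 hwin
  have hnR : (1 : ℝ) ≤ n := ((le_max_left _ _).trans hn0).trans (by exact_mod_cast hn)
  have hnU : U ^ 2 / η ≤ n := ((le_max_right _ _).trans hn0).trans (by exact_mod_cast hn)
  have hn0' : (0 : ℝ) < n := by linarith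
  -- the vector
  set s : ℕ := x0 + M' with hs
  have hsM : s + M ≤ 2 * n := by omega
  set W : Finset (Fin (2 * n)) := Finset.univ.filter (fun k : Fin (2 * n) => s ≤ (k : ℕ) ∧ (k : ℕ) < s + M) with hW
  set u : Fin (2 * n) → ℂ := fun k => if k ∈ W then
    ((√(y (((k : ℕ) : ℤ) - s)) : ℝ) : ℂ) * g (((k : ℕ) : ℤ) - s) else 0 with hu
  have huW : ∀ k ∈ W, u k = ((√(y (((k : ℕ) : ℤ) - s)) : ℝ) : ℂ) * g (((k : ℕ) : ℤ) - s) := by
    intro k hk
    simp only [hu]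
    rw [if_pos hk]
  have hu0 : ∀ k, k ∉ W → u k = 0 := by
    intro k hk
    simp only [hu]
    rw [if_neg hk]
  have hunorm : ∀ k ∈ W, ‖u k‖ = √(y (((k : ℕ) : ℤ) - s)) * ‖g (((k : ℕ) : ℤ) - s)‖ := by
    intro k hk
    rw [huW k hk, norm_mul, Complex.norm_real, Real.norm_of_nonneg (Real.sqrt_nonneg _)]
  have hUW : ∑ k ∈ W, ‖u k‖ = U := by
    rw [Finset.sum_congr rfl hunorm, hU]
    exact lowD_win hsM (fun j => √(y j) * ‖g j‖)
  set z : Fin (2 * n) → ℂ := PP n *ᵥ u with hz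
  have hzW : ∀ k, z k = ∑ l ∈ W, PP n k l * u l := by
    intro k
    rw [hz]
    unfold Matrix.mulVec dotProduct
    rw [← Finset.sum_subset (Finset.subset_univ W)]
    intro l _ hl
    rw [hu0 l hl, mul_zero]
  set τ : ℝ := ∑ k, ‖z k‖ ^ 2 with hτ
  have hτ1 : τ = (∑ k ∈ W, starRingEnd ℂ (u k) * z k).re := by
    rw [hτ, hz, lowD_proj u]
    congr 1
    rw [← Finset.sum_subset (Finset.subset_univ W)]
    intro l _ hl
    rw [hu0 l hl, map_zero, zero_mul]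
  -- lower bound for `τ`
  have hτlow : K0 - 2 * η ≤ τ := by
    have h1 : (∑ k ∈ W, starRingEnd ℂ (u k) * z k) =
        ∑ k ∈ W, ∑ l ∈ W, starRingEnd ℂ (u k) * PP n k l * u l := by
      refine Finset.sum_congr rfl fun k _ => ?_
      rw [hzW k, Finset.mul_sum]
      exact Finset.sum_congr rfl fun l _ => by ring
    have h2 : frm (fun k l => pinf (k - l)) (Finset.Ico (0 : ℤ) M) (fun k => (√(y k) : ℂ) * g k) =
        (∑ k ∈ W, ∑ l ∈ W, starRingEnd ℂ (u k) * pinf (((k : ℕ) : ℤ) - ((l : ℕ) : ℤ)) * u l).re := by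
      unfold frm
      congr 1
      have h3 : ∀ k ∈ W, ∑ l ∈ W, starRingEnd ℂ (u k) * pinf (((k : ℕ) : ℤ) - ((l : ℕ) : ℤ)) * u l =
          ∑ l ∈ Finset.Ico (0 : ℤ) M, starRingEnd ℂ ((√(y (((k : ℕ) : ℤ) - s)) : ℂ) * g (((k : ℕ) : ℤ) - s)) *
            pinf ((((k : ℕ) : ℤ) - s) - l) * ((√(y l) : ℂ) * g l) := by
        intro k hk
        rw [← lowD_win hsM (fun l => starRingEnd ℂ ((√(y (((k : ℕ) : ℤ) - s)) : ℂ) * g (((k : ℕ) : ℤ) - s)) *
            pinf ((((k : ℕ) : ℤ) - s) - l) * ((√(y l) : ℂ) * g l))]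
        refine Finset.sum_congr rfl fun l hl => ?_
        rw [huW k hk, huW l hl]
        congr 3
        ring
      rw [Finset.sum_congr rfl h3]
      exact (lowD_win hsM (fun k => ∑ l ∈ Finset.Ico (0 : ℤ) M, starRingEnd ℂ ((√(y k) : ℂ) * g k) *
            pinf (k - l) * ((√(y l) : ℂ) * g l))).symm
    have h4 : |(∑ k ∈ W, ∑ l ∈ W, starRingEnd ℂ (u k) * PP n k l * u l).re -
        (∑ k ∈ W, ∑ l ∈ W, starRingEnd ℂ (u k) * pinf (((k : ℕ) : ℤ) - ((l : ℕ) : ℤ)) * u l).re| ≤ U ^ 2 / n := by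
      rw [← Complex.sub_re, ← Finset.sum_sub_distrib]
      refine (Complex.abs_re_le_norm _).trans ?_
      have h5 : ∀ k ∈ W, ‖∑ l ∈ W, starRingEnd ℂ (u k) * PP n k l * u l -
          ∑ l ∈ W, starRingEnd ℂ (u k) * pinf (((k : ℕ) : ℤ) - ((l : ℕ) : ℤ)) * u l‖ ≤ ‖u k‖ * (U / n) := by
        intro k hk
        rw [← Finset.sum_sub_distrib]
        have h6 : ∀ l ∈ W, ‖starRingEnd ℂ (u k) * PP n k l * u l -
            starRingEnd ℂ (u k) * pinf (((k : ℕ) : ℤ) - ((l : ℕ) : ℤ)) * u l‖ ≤ ‖u k‖ * (1 / n) * ‖u l‖ := by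
          intro l hl
          have h7 : starRingEnd ℂ (u k) * PP n k l * u l -
            starRingEnd ℂ (u k) * pinf (((k : ℕ) : ℤ) - ((l : ℕ) : ℤ)) * u l =
            starRingEnd ℂ (u k) * (PP n k l - pinf (((k : ℕ) : ℤ) - ((l : ℕ) : ℤ))) * u l := by ring
          rw [h7, norm_mul, norm_mul, RCLike.norm_conj]
          have h8 := (Finset.mem_filter.1 hk).2
          have h9 := (Finset.mem_filter.1 hl).2
          have h10 := PP_pinf n k l (by omega)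
          exact mul_le_mul_of_nonneg_right (mul_le_mul_of_nonneg_left h10 (norm_nonneg _)) (norm_nonneg _)
        refine (norm_sum_le_of_le W h6).trans (le_of_eq ?_)
        rw [← Finset.mul_sum, hUW]
        ring
      refine (norm_sum_le_of_le W h5).trans (le_of_eq ?_)
      rw [← Finset.sum_mul, hUW]
      ring
    have h11 : U ^ 2 / n ≤ η := by
      rw [div_le_iff₀ hn0']
      rw [div_le_iff₀ hη] at hnU
      linarith
    rw [hτ1, h1]
    rw [h2] at hK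
    have h12 := (abs_le.1 h4).1
    linarith
  have hK0 := K0_half
  have hK1 := K0_le
  have hτpos : 0.48 ≤ τ := by
    norm_num
    linarith
  have hτ0 : 0 < τ := by
    norm_num at hτpos
    linarith
  -- Cauchy-Schwarz
  have hCS : τ ^ 2 ≤ ∑ k ∈ W, y (((k : ℕ) : ℤ) - s) * ‖z k‖ ^ 2 := by
    have h1 : τ ≤ ∑ k ∈ W, ‖g (((k : ℕ) : ℤ) - s)‖ * (√(y (((k : ℕ) : ℤ) - s)) * ‖z k‖) := by
      rw [hτ1]
      refine (Complex.re_le_norm _).trans ((norm_sum_le _ _).trans (le_of_eq ?_))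
      refine Finset.sum_congr rfl fun k hk => ?_
      rw [norm_mul, RCLike.norm_conj, hunorm k hk]
      ring
    have h2 := Finset.sum_mul_sq_le_sq_mul_sq W (fun k => ‖g (((k : ℕ) : ℤ) - s)‖)
      (fun k => √(y (((k : ℕ) : ℤ) - s)) * ‖z k‖)
    have h3 : ∑ k ∈ W, ‖g (((k : ℕ) : ℤ) - s)‖ ^ 2 = 1 := by
      rw [← hg1]
      exact lowD_win hsM (fun j => ‖g j‖ ^ 2)
    have h4 : ∑ k ∈ W, (√(y (((k : ℕ) : ℤ) - s)) * ‖z k‖) ^ 2 = ∑ k ∈ W, y (((k : ℕ) : ℤ) - s) * ‖z k‖ ^ 2 := by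
      refine Finset.sum_congr rfl fun k _ => ?_
      rw [mul_pow, Real.sq_sqrt (hy _)]
    rw [h3, h4, one_mul] at h2
    exact (pow_le_pow_left₀ hτ0.le h1 2).trans h2
  -- outside of the window
  set O := Finset.univ.filter (fun k : Fin (2 * n) => ¬ (x0 ≤ (k : ℕ) ∧ (k : ℕ) < x0 + (M + 2 * M'))) with hO
  set I := Finset.univ.filter (fun k : Fin (2 * n) => (x0 ≤ (k : ℕ) ∧ (k : ℕ) < x0 + (M + 2 * M'))) with hI
  have hout : ∑ k ∈ O, ‖z k‖ ^ 2 ≤ U ^ 2 * (3 / (2 * (M' : ℝ))) := by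
    have h1 : ∀ k ∈ O, ‖z k‖ ^ 2 ≤ U * ∑ l ∈ W, ‖u l‖ * (1 / 4 * (1 / (cd k l : ℝ) ^ 2)) := by
      intro k hk
      have h2 : ‖z k‖ ≤ ∑ l ∈ W, ‖u l‖ * (1 / (2 * (cd k l : ℝ))) := by
        rw [hzW k]
        refine norm_sum_le_of_le W fun l hl => ?_
        rw [norm_mul, mul_comm]
        apply mul_le_mul_of_nonneg_left _ (norm_nonneg _)
        apply PP_dec
        rintro rfl
        have h8 := (Finset.mem_filter.1 hk).2
        have h9 := (Finset.mem_filter.1 hl).2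
        omega
      have h3 : (∑ l ∈ W, ‖u l‖ * (1 / (2 * (cd k l : ℝ)))) ^ 2 ≤
          (∑ l ∈ W, ‖u l‖) * ∑ l ∈ W, ‖u l‖ * (1 / (2 * (cd k l : ℝ))) ^ 2 := by
        have h4 := Finset.sum_mul_sq_le_sq_mul_sq W (fun l => √‖u l‖) (fun l => √‖u l‖ * (1 / (2 * (cd k l : ℝ))))
        have e1 : ∀ l ∈ W, √‖u l‖ * (√‖u l‖ * (1 / (2 * (cd k l : ℝ)))) = ‖u l‖ * (1 / (2 * (cd k l : ℝ))) := by
          intro l _
          rw [← mul_assoc, Real.mul_self_sqrt (norm_nonneg _)]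
        have e2 : ∀ l ∈ W, √‖u l‖ ^ 2 = ‖u l‖ := fun l _ => Real.sq_sqrt (norm_nonneg _)
        have e3 : ∀ l ∈ W, (√‖u l‖ * (1 / (2 * (cd k l : ℝ)))) ^ 2 = ‖u l‖ * (1 / (2 * (cd k l : ℝ))) ^ 2 := by
          intro l _
          rw [mul_pow, Real.sq_sqrt (norm_nonneg _)]
        rw [Finset.sum_congr rfl e1, Finset.sum_congr rfl e2, Finset.sum_congr rfl e3] at h4
        exact h4
      rw [hUW] at h3
      refine (pow_le_pow_left₀ (norm_nonneg _) h2 2).trans (h3.trans (le_of_eq ?_))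
      congr 1
      refine Finset.sum_congr rfl fun l _ => ?_
      congr 1
      rw [div_pow, mul_pow]
      ring
    calc ∑ k ∈ O, ‖z k‖ ^ 2 ≤ ∑ k ∈ O, U * ∑ l ∈ W, ‖u l‖ * (1 / 4 * (1 / (cd k l : ℝ) ^ 2)) :=
          Finset.sum_le_sum h1
      _ = U * ∑ l ∈ W, ‖u l‖ * (1 / 4 * ∑ k ∈ O, 1 / (cd k l : ℝ) ^ 2) := by
          rw [← Finset.mul_sum, Finset.sum_comm]
          congr 1
          refine Finset.sum_congr rfl fun l _ => ?_
          rw [← Finset.mul_sum, ← Finset.mul_sum]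
      _ ≤ U * ∑ l ∈ W, ‖u l‖ * (1 / 4 * (6 / (M' : ℝ))) := by
          apply mul_le_mul_of_nonneg_left _ hU0
          apply Finset.sum_le_sum
          intro l hl
          apply mul_le_mul_of_nonneg_left _ (norm_nonneg _)
          apply mul_le_mul_of_nonneg_left _ (by norm_num)
          have h9 := (Finset.mem_filter.1 hl).2
          exact lowD_cd hM'n hx0 l h9
      _ = U ^ 2 * (3 / (2 * (M' : ℝ))) := by
          rw [← Finset.sum_mul, hUW]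
          field_simp
          ring
  have hout2 : ∑ k ∈ O, ‖z k‖ ^ 2 ≤ η / 8 := by
    refine hout.trans ?_
    rw [div_le_iff₀ hη] at hM'U
    rw [mul_div_assoc', div_le_div_iff₀ (by positivity) (by norm_num)]
    linarith only [hM'U]
  -- the quadratic form
  have hform : (1 - η) * θ * τ ^ 2 - 2 * θ * (η / 8) ≤ ∑ k, d k * ‖z k‖ ^ 2 := by
    have h1 : ∑ k, d k * ‖z k‖ ^ 2 = ∑ k ∈ I, d k * ‖z k‖ ^ 2 + ∑ k ∈ O, d k * ‖z k‖ ^ 2 := by
      rw [hI, hO, Finset.sum_filter_add_sum_filter_not]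
    have h2 : -(2 * θ * (η / 8)) ≤ ∑ k ∈ O, d k * ‖z k‖ ^ 2 := by
      calc -(2 * θ * (η / 8)) ≤ -(2 * θ) * ∑ k ∈ O, ‖z k‖ ^ 2 := by nlinarith
        _ = ∑ k ∈ O, -(2 * θ) * ‖z k‖ ^ 2 := by rw [Finset.mul_sum]
        _ ≤ _ := Finset.sum_le_sum fun k _ => mul_le_mul_of_nonneg_right (hd k) (by positivity)
    have h3 : (1 - η) * θ * τ ^ 2 ≤ ∑ k ∈ I, d k * ‖z k‖ ^ 2 := by
      calc (1 - η) * θ * τ ^ 2 ≤ (1 - η) * θ * ∑ k ∈ W, y (((k : ℕ) : ℤ) - s) * ‖z k‖ ^ 2 :=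
            mul_le_mul_of_nonneg_left hCS (mul_nonneg (by linarith) hθ.le)
        _ = ∑ k ∈ W, (1 - η) * yy ((k : ℕ) - x0) * θ * ‖z k‖ ^ 2 := by
            rw [Finset.mul_sum]
            refine Finset.sum_congr rfl fun k hk => ?_
            have h4 := (Finset.mem_filter.1 hk).2
            have h5 : yy ((k : ℕ) - x0) = y (((k : ℕ) : ℤ) - s) := by
              simp only [hyy]
              rw [if_pos (by omega)]
              congr 1
              omega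
            rw [h5]
            ring
        _ ≤ ∑ k ∈ I, (1 - η) * yy ((k : ℕ) - x0) * θ * ‖z k‖ ^ 2 := by
            apply Finset.sum_le_sum_of_subset_of_nonneg
            · intro k hk
              have h4 := (Finset.mem_filter.1 hk).2
              rw [hI, Finset.mem_filter]
              refine ⟨Finset.mem_univ _, by omega, by omega⟩
            · intro k _ _
              have h6 := hyy0 ((k : ℕ) - x0)
              have h7 : 0 ≤ 1 - η := by linarith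
              positivity
        _ ≤ _ := by
            apply Finset.sum_le_sum
            intro k hk
            have h4 := (Finset.mem_filter.1 hk).2
            exact mul_le_mul_of_nonneg_right (hwin k h4.1 h4.2) (by positivity)
    rw [h1]
    linarith
  -- normalize
  have hsq : (√τ)⁻¹ ^ 2 = τ⁻¹ := by
    rw [inv_pow, Real.sq_sqrt hτ0.le]
  refine ⟨(((√τ)⁻¹ : ℝ) : ℂ) • z, ?_, ?_, ?_⟩
  · rw [Matrix.mulVec_smul, hz, Matrix.mulVec_mulVec, PP_idem]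
  · have h1 : ∀ k, ‖((((√τ)⁻¹ : ℝ) : ℂ) • z) k‖ ^ 2 = τ⁻¹ * ‖z k‖ ^ 2 := by
      intro k
      rw [Pi.smul_apply, norm_smul, mul_pow, Complex.norm_real, Real.norm_of_nonneg (by positivity), hsq]
    simp_rw [h1]
    rw [← Finset.mul_sum, ← hτ, inv_mul_cancel₀ hτ0.ne']
  · have h1 : ∀ k, d k * ‖((((√τ)⁻¹ : ℝ) : ℂ) • z) k‖ ^ 2 = τ⁻¹ * (d k * ‖z k‖ ^ 2) := by
      intro k
      rw [Pi.smul_apply, norm_smul, mul_pow, Complex.norm_real, Real.norm_of_nonneg (by positivity), hsq]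
      ring
    simp_rw [h1]
    rw [← Finset.mul_sum]
    have h2 := mul_le_mul_of_nonneg_left hform (inv_nonneg.2 hτ0.le)
    refine le_trans ?_ h2
    rw [le_inv_mul_iff₀ hτ0]
    norm_num at hτpos
    have h4 : K0 - 4 * η + η ≤ (1 - η) * τ := by
      have h5 : (1 - η) * (K0 - 2 * η) ≤ (1 - η) * τ := mul_le_mul_of_nonneg_left hτlow (by linarith)
      have h6 : η * (K0 - 2 * η) ≤ η * 1 := mul_le_mul_of_nonneg_left (by linarith) hη.le
      linarith only [h5, h6]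
    have h7 : τ * (K0 - 4 * η + η) ≤ τ * ((1 - η) * τ) := mul_le_mul_of_nonneg_left h4 hτ0.le
    have h8 : 12 / 25 * η ≤ τ * η := mul_le_mul_of_nonneg_right hτpos hη.le
    have h9 : τ * (K0 - 4 * η) ≤ (1 - η) * τ ^ 2 - 2 * (η / 8) := by
      linarith only [h7, h8, hη]
    have h10 := mul_le_mul_of_nonneg_left h9 hθ.le
    linarith only [h10]

end TZ
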