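import Pool.Agent.TZ.Defs

/-!
Project TZ (MP_b753aa_pr), module Tail: gaussian tails.
Proof. (chi_tail): `∫ exp((1-ζ) x²/2) dγ = 1/√ζ`, independence (`lintegral` of a product over `Measure.pi`; restrict to the coordinates
in `C` or use factors `1` outside), Markov. (low_tail): `∫_t^{t+1} exp(-x²/2)/√(2π) ≥ exp(-(t+1)²/2)/√(2π)` and `√(2π) ≤ 3`.
(two_tail): `|x| ≥ s` for one coordinate is `chi_tail` with `C = {k}`.
-/

noncomputable section

namespace TZ

open MeasureTheory ProbabilityTheory Filter Topology Matrix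
open scoped Real

theorem Tail_int {ζ : ℝ} (hζ : 0 < ζ) :
    ∫ x, Real.exp ((1 - ζ) / 2 * x ^ 2) ∂(gaussianReal 0 1) = 1 / √ζ := by
  rw [integral_gaussianReal_eq_integral_smul (by norm_num)]
  have h1 : ∀ x : ℝ, gaussianPDFReal 0 1 x • Real.exp ((1 - ζ) / 2 * x ^ 2) =
      (√(2 * π))⁻¹ * Real.exp (-(ζ / 2) * x ^ 2) := by
    intro x
    rw [gaussianPDFReal_def, smul_eq_mul]
    simp only [NNReal.coe_one, mul_one, sub_zero]
    rw [mul_assoc, ← Real.exp_add]
    congr 2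
    ring
  simp_rw [h1]
  rw [integral_const_mul, integral_gaussian]
  have h2 : π / (ζ / 2) = 2 * π / ζ := by
    field_simp
  rw [h2, Real.sqrt_div (by positivity)]
  have h3 : √(2 * π) ≠ 0 := by positivity
  have h4 : √ζ ≠ 0 := by positivity
  field_simp

theorem Tail_integrable {ζ : ℝ} (hζ : 0 < ζ) :
    Integrable (fun x => Real.exp ((1 - ζ) / 2 * x ^ 2)) (gaussianReal 0 1) := by
  by_contra h
  have h1 := integral_undef h
  rw [Tail_int hζ] at h1
  have : 0 < 1 / √ζ := by positivity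
  linarith

theorem chi_tail {m : ℕ} (C : Finset (Fin m)) {ζ s : ℝ} (hζ : 0 < ζ) (hζ1 : ζ < 1) :
    gam m {x | s ≤ ∑ k ∈ C, x k ^ 2} ≤
      ENNReal.ofReal ((1 / √ζ) ^ C.card * Real.exp (-((1 - ζ) * s / 2))) := by
  classical
  set f : Fin m → ℝ → ℝ := fun k x => if k ∈ C then Real.exp ((1 - ζ) / 2 * x ^ 2) else 1 with hf
  have hfi : ∀ k, Integrable (f k) (gaussianReal 0 1) := by
    intro k
    simp only [hf]
    split_ifs
    · exact Tail_integrable hζ
    · exact integrable_const _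
  have hprod : ∀ x : Fin m → ℝ, ∏ k, f k (x k) = Real.exp ((1 - ζ) / 2 * ∑ k ∈ C, x k ^ 2) := by
    intro x
    simp only [hf]
    rw [Finset.prod_ite_mem, Finset.univ_inter, ← Real.exp_sum, Finset.mul_sum]
  have hI : Integrable (fun x : Fin m → ℝ => Real.exp ((1 - ζ) / 2 * ∑ k ∈ C, x k ^ 2)) (gam m) := by
    have h := Integrable.fintype_prod (μ := fun _ : Fin m => gaussianReal 0 1) hfi
    simp_rw [hprod] at h
    exact h
  have hval : ∫ x, Real.exp ((1 - ζ) / 2 * ∑ k ∈ C, x k ^ 2) ∂(gam m) = (1 / √ζ) ^ C.card := by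
    simp_rw [← hprod]
    unfold gam
    rw [integral_fintype_prod_eq_prod]
    have h1 : ∀ k : Fin m, ∫ x, f k x ∂(gaussianReal 0 1) = if k ∈ C then 1 / √ζ else 1 := by
      intro k
      simp only [hf]
      split_ifs
      · exact Tail_int hζ
      · simp
    simp_rw [h1]
    rw [Finset.prod_ite_mem, Finset.univ_inter, Finset.prod_const]
  have hM := measure_ge_le_exp_mul_mgf (μ := gam m) (X := fun x : Fin m → ℝ => ∑ k ∈ C, x k ^ 2)
    (t := (1 - ζ) / 2) s (by linarith) hI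
  unfold mgf at hM
  rw [hval] at hM
  rw [← ENNReal.ofReal_toReal (measure_ne_top (gam m) {x | s ≤ ∑ k ∈ C, x k ^ 2})]
  refine ENNReal.ofReal_le_ofReal (hM.trans (le_of_eq ?_))
  rw [mul_comm]
  congr 2
  ring

theorem low_tail {t : ℝ} (ht : 0 ≤ t) :
    ENNReal.ofReal (Real.exp (-((t + 1) ^ 2 / 2)) / 3) ≤ gaussianReal 0 1 (Set.Ici t) := by
  have hsub : Set.Icc t (t + 1) ⊆ Set.Ici t := Set.Icc_subset_Ici_self
  refine le_trans ?_ (measure_mono hsub)
  rw [gaussianReal_apply 0 one_ne_zero]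
  have hpt : ∀ x ∈ Set.Icc t (t + 1), ENNReal.ofReal (Real.exp (-((t + 1) ^ 2 / 2)) / 3) ≤ gaussianPDF 0 1 x := by
    intro x hx
    rw [gaussianPDF_def]
    refine ENNReal.ofReal_le_ofReal ?_
    rw [gaussianPDFReal_def]
    simp only [NNReal.coe_one, mul_one, sub_zero]
    have h1 : √(2 * π) ≤ 3 := by
      rw [Real.sqrt_le_left (by norm_num)]
      have := Real.pi_lt_d2
      linarith
    have h2 : (3:ℝ)⁻¹ ≤ (√(2 * π))⁻¹ := inv_anti₀ (by positivity) h1
    have h3 : Real.exp (-((t + 1) ^ 2 / 2)) ≤ Real.exp (-x ^ 2 / 2) := by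
      apply Real.exp_le_exp.2
      have hx0 : 0 ≤ x := ht.trans hx.1
      have := pow_le_pow_left₀ hx0 hx.2 2
      linarith
    calc Real.exp (-((t + 1) ^ 2 / 2)) / 3 = 3⁻¹ * Real.exp (-((t + 1) ^ 2 / 2)) := by ring
      _ ≤ (√(2 * π))⁻¹ * Real.exp (-x ^ 2 / 2) := mul_le_mul h2 h3 (by positivity) (by positivity)
  calc ENNReal.ofReal (Real.exp (-((t + 1) ^ 2 / 2)) / 3)
      = ∫⁻ _ in Set.Icc t (t + 1), ENNReal.ofReal (Real.exp (-((t + 1) ^ 2 / 2)) / 3) := by
        rw [setLIntegral_const, Real.volume_Icc]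
        simp
    _ ≤ ∫⁻ x in Set.Icc t (t + 1), gaussianPDF 0 1 x := setLIntegral_mono' measurableSet_Icc hpt

end TZ
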