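import Pool.Agent.TZ.Defs
import Pool.Agent.TZ.Tail

/-!
Project TZ (MP_b753aa_pr), module LowP: with probability tending to one some window carries the profile.
Proof. `m = n - 1`, windows `[i Mt, (i+1) Mt)`, `i < m / Mt`, are disjoint, so the events `E_i = {∀ j < Mt, (1-η) yy_j θ ≤ x_{i Mt + j}}`
are independent, each of probability `p ≥ ∏_j (1/3) exp(-(t_j+1)²/2)`, `t_j = (1-η) yy_j θ` (`low_tail`), and
`∑ (t_j+1)²/2 ≤ (1-η)² θ²/2 + Mt θ + Mt` (`yy_j ≤ 1`), so `p ≥ c n^{-(1-η)²} exp(-Mt θ)`. `P(no E_i) = (1-p)^{m/Mt} ≤ exp(-p (m/Mt - 1)) → 0`,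
since `p n → ∞` (`θ = √(2 log n)`).
-/

noncomputable section

namespace TZ

open MeasureTheory ProbabilityTheory Filter Topology Matrix
open scoped Real

/-- disjoint blocks of coordinates are independent -/
theorem lowP_indep {m : ℕ} (t : ℕ → Fin m → ℝ) (S : ℕ → Finset (Fin m))
    (hS : ∀ i j, i ≠ j → Disjoint (S i) (S j)) (W : ℕ) :
    gam m {x | ∀ i < W, ∃ k ∈ S i, x k < t i k} =
      ∏ i ∈ Finset.range W, gam m {x | ∃ k ∈ S i, x k < t i k} := by
  induction W with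
  | zero =>
    simp
  | succ W ih =>
    rw [Finset.prod_range_succ, ← ih]
    let T : Finset (Fin m) := (Finset.range W).biUnion S
    have hT : Disjoint T (S W) := by
      rw [Finset.disjoint_biUnion_left]
      intro i hi
      exact hS i W (Finset.mem_range.1 hi).ne
    have hind : iIndepFun (fun (k : Fin m) (x : Fin m → ℝ) => x k) (gam m) := by
      unfold gam
      exact iIndepFun_pi (X := fun _ => id) fun _ => aemeasurable_id
    have h1 := hind.indepFun_finset T (S W) hT fun k => measurable_pi_apply k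
    have hm1 : MeasurableSet {y : T → ℝ | ∀ i < W, ∃ k : T, (k : Fin m) ∈ S i ∧ y k < t i k} := by
      simp only [Set.ofPred_forall, Set.ofPred_exists]
      refine MeasurableSet.iInter fun i => MeasurableSet.iInter fun _ => MeasurableSet.iUnion fun k => ?_
      by_cases hk : (k : Fin m) ∈ S i
      · simp only [hk, true_and]
        exact measurableSet_lt (measurable_pi_apply k) measurable_const
      · simp only [hk, false_and, Set.ofPred_false, MeasurableSet.empty]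
    have hm2 : MeasurableSet {y : S W → ℝ | ∃ k : S W, y k < t W k} := by
      simp only [Set.ofPred_exists]
      exact MeasurableSet.iUnion fun k => measurableSet_lt (measurable_pi_apply k) measurable_const
    have h2 := h1.measure_inter_preimage_eq_mul _ _ hm1 hm2
    have e1 : (fun (a : Fin m → ℝ) (i : T) => a i) ⁻¹'
        {y : T → ℝ | ∀ i < W, ∃ k : T, (k : Fin m) ∈ S i ∧ y k < t i k} =
        {x | ∀ i < W, ∃ k ∈ S i, x k < t i k} := by
      ext x
      simp only [Set.mem_preimage, Set.mem_ofPred_eq]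
      constructor
      · intro h i hi
        obtain ⟨k, hk, hk2⟩ := h i hi
        exact ⟨k, hk, hk2⟩
      · intro h i hi
        obtain ⟨k, hk, hk2⟩ := h i hi
        exact ⟨⟨k, Finset.mem_biUnion.2 ⟨i, Finset.mem_range.2 hi, hk⟩⟩, hk, hk2⟩
    have e2 : (fun (a : Fin m → ℝ) (i : S W) => a i) ⁻¹' {y : S W → ℝ | ∃ k : S W, y k < t W k} =
        {x | ∃ k ∈ S W, x k < t W k} := by
      ext x
      simp only [Set.mem_preimage, Set.mem_ofPred_eq]
      constructor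
      · rintro ⟨k, hk⟩
        exact ⟨k, k.2, hk⟩
      · rintro ⟨k, hk, hk2⟩
        exact ⟨⟨k, hk⟩, hk2⟩
    rw [e1, e2] at h2
    rw [← h2]
    congr 1
    ext x
    simp only [Set.mem_ofPred_eq, Set.mem_inter_iff]
    constructor
    · intro h
      exact ⟨fun i hi => h i (by omega), h W (by omega)⟩
    · rintro ⟨h, h'⟩ i hi
      rcases Nat.lt_succ_iff_lt_or_eq.1 hi with h3 | rfl
      · exact h i h3
      · exact h'

/-- a block fails with probability at most `exp (-p)` -/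
theorem lowP_block {m : ℕ} {t : Fin m → ℝ} (ht : ∀ k, 0 ≤ t k) (S : Finset (Fin m)) {p : ℝ}
    (hp0 : 0 ≤ p) (hp : p ≤ ∏ k ∈ S, Real.exp (-((t k + 1) ^ 2 / 2)) / 3) :
    gam m {x | ∃ k ∈ S, x k < t k} ≤ ENNReal.ofReal (Real.exp (-p)) := by
  classical
  have h1 : gam m {x | ∀ k ∈ S, t k ≤ x k} = ∏ k ∈ S, gaussianReal 0 1 (Set.Ici (t k)) := by
    have h2 : {x : Fin m → ℝ | ∀ k ∈ S, t k ≤ x k} =
        Set.pi Set.univ fun k => if k ∈ S then Set.Ici (t k) else Set.univ := by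
      ext x
      simp only [Set.mem_ofPred_eq, Set.mem_pi, Set.mem_univ, true_imp_iff]
      refine forall_congr' fun k => ?_
      by_cases hk : k ∈ S <;> simp [hk]
    rw [h2]
    unfold gam
    rw [Measure.pi_pi]
    rw [← Finset.prod_subset (Finset.subset_univ S)]
    · exact Finset.prod_congr rfl fun k hk => by rw [if_pos hk]
    · intro k _ hk
      rw [if_neg hk, measure_univ]
  have h3 : ENNReal.ofReal p ≤ gam m {x | ∀ k ∈ S, t k ≤ x k} := by
    rw [h1]
    refine (ENNReal.ofReal_le_ofReal hp).trans ?_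
    rw [ENNReal.ofReal_prod_of_nonneg fun k _ => by positivity]
    exact Finset.prod_le_prod' fun k _ => low_tail (ht k)
  have hm : MeasurableSet {x : Fin m → ℝ | ∀ k ∈ S, t k ≤ x k} := by
    simp only [Set.ofPred_forall]
    exact MeasurableSet.iInter fun k => MeasurableSet.iInter fun _ =>
      measurableSet_le measurable_const (measurable_pi_apply k)
  have h4 : {x : Fin m → ℝ | ∃ k ∈ S, x k < t k} = {x | ∀ k ∈ S, t k ≤ x k}ᶜ := by
    ext x
    simp only [Set.mem_ofPred_eq, Set.mem_compl_iff, not_forall, not_le, exists_prop]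
  rw [h4, prob_compl_eq_one_sub hm]
  refine (tsub_le_tsub_left h3 1).trans ?_
  rw [← ENNReal.ofReal_one, ← ENNReal.ofReal_sub _ hp0]
  refine ENNReal.ofReal_le_ofReal ?_
  have := Real.add_one_le_exp (-p)
  linarith

/-- the block `i` -/
def lowPS (m Mt i : ℕ) : Finset (Fin m) :=
  Finset.univ.filter fun k => i * Mt ≤ (k : ℕ) ∧ (k : ℕ) < (i + 1) * Mt

theorem lowPS_disj (m Mt i j : ℕ) (h : i ≠ j) : Disjoint (lowPS m Mt i) (lowPS m Mt j) := by
  rw [Finset.disjoint_left]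
  intro k hk hk'
  unfold lowPS at hk hk'
  simp only [Finset.mem_filter, Finset.mem_univ, true_and] at hk hk'
  rcases lt_or_gt_of_ne h with h1 | h1
  · have : (i + 1) * Mt ≤ j * Mt := Nat.mul_le_mul_right _ h1
    omega
  · have : (j + 1) * Mt ≤ i * Mt := Nat.mul_le_mul_right _ h1
    omega

theorem lowPS_prod (m Mt i : ℕ) (g : ℕ → ℝ) (hg0 : ∀ j, 0 ≤ g j) (hg1 : ∀ j, g j ≤ 1) :
    ∏ j ∈ Finset.range Mt, g j ≤ ∏ k ∈ lowPS m Mt i, g ((k : ℕ) - i * Mt) := by
  classical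
  let T : Finset ℕ := (lowPS m Mt i).image fun k : Fin m => (k : ℕ) - i * Mt
  have h1 : ∏ k ∈ lowPS m Mt i, g ((k : ℕ) - i * Mt) = ∏ j ∈ T, g j := by
    rw [Finset.prod_image]
    intro k hk k' hk' h
    unfold lowPS at hk hk'
    rw [Finset.mem_coe, Finset.mem_filter] at hk hk'
    have h3 := hk.2
    have h4 := hk'.2
    have h5 : (k : ℕ) - i * Mt = (k' : ℕ) - i * Mt := h
    exact Fin.ext (by omega)
  rw [h1]
  have h2 : T ⊆ Finset.range Mt := by
    intro j hj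
    rw [Finset.mem_image] at hj
    obtain ⟨k, hk, rfl⟩ := hj
    unfold lowPS at hk
    rw [Finset.mem_filter] at hk
    have h3 := hk.2
    rw [Finset.mem_range]
    have : (i + 1) * Mt = i * Mt + Mt := by ring
    omega
  rw [← Finset.prod_sdiff h2]
  have h3 : ∏ x ∈ Finset.range Mt \ T, g x ≤ 1 := Finset.prod_le_one (fun j _ => hg0 j) fun j _ => hg1 j
  have h4 : 0 ≤ ∏ x ∈ T, g x := Finset.prod_nonneg fun j _ => hg0 j
  nlinarith

/-- nonasymptotic form -/
theorem lowP_main {m Mt : ℕ} {t : ℕ → ℝ} (ht : ∀ j, 0 ≤ t j) {p : ℝ}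
    (hp0 : 0 ≤ p) (hp : p ≤ ∏ j ∈ Finset.range Mt, Real.exp (-((t j + 1) ^ 2 / 2)) / 3) :
    gam m {x | ¬ ∃ x0 : ℕ, x0 + Mt ≤ m ∧
      ∀ k : Fin m, x0 ≤ (k : ℕ) → (k : ℕ) < x0 + Mt → t ((k : ℕ) - x0) ≤ x k} ≤
      ENNReal.ofReal (Real.exp (-(p * (m / Mt : ℕ)))) := by
  have h1 : {x : Fin m → ℝ | ¬ ∃ x0 : ℕ, x0 + Mt ≤ m ∧
      ∀ k : Fin m, x0 ≤ (k : ℕ) → (k : ℕ) < x0 + Mt → t ((k : ℕ) - x0) ≤ x k} ⊆
      {x | ∀ i < m / Mt, ∃ k ∈ lowPS m Mt i, x k < t ((k : ℕ) - i * Mt)} := by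
    intro x hx i hi
    simp only [Set.mem_ofPred_eq] at hx
    by_contra hcon
    apply hx
    refine ⟨i * Mt, ?_, ?_⟩
    · have h2 : (i + 1) * Mt ≤ m / Mt * Mt := Nat.mul_le_mul_right _ hi
      have h3 := Nat.div_mul_le_self m Mt
      have : (i + 1) * Mt = i * Mt + Mt := by ring
      omega
    · intro k hk1 hk2
      by_contra hlt
      apply hcon
      refine ⟨k, ?_, not_le.1 hlt⟩
      unfold lowPS
      simp only [Finset.mem_filter, Finset.mem_univ, true_and]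
      have : (i + 1) * Mt = i * Mt + Mt := by ring
      omega
  refine (measure_mono h1).trans ?_
  rw [lowP_indep (fun i k => t ((k : ℕ) - i * Mt)) (lowPS m Mt) (lowPS_disj m Mt)]
  have h2 : ∀ i ∈ Finset.range (m / Mt), gam m {x | ∃ k ∈ lowPS m Mt i, x k < t ((k : ℕ) - i * Mt)} ≤
      ENNReal.ofReal (Real.exp (-p)) := by
    intro i _
    refine lowP_block (t := fun k => t ((k : ℕ) - i * Mt)) (fun k => ht _) _ hp0 (hp.trans ?_)
    refine lowPS_prod m Mt i (fun j => Real.exp (-((t j + 1) ^ 2 / 2)) / 3) (fun j => by positivity) ?_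
    intro j
    have : Real.exp (-((t j + 1) ^ 2 / 2)) ≤ 1 := Real.exp_le_one_iff.2 (by nlinarith [sq_nonneg (t j + 1)])
    linarith
  refine (Finset.prod_le_prod' h2).trans ?_
  rw [Finset.prod_const, Finset.card_range, ← ENNReal.ofReal_pow (Real.exp_pos _).le, ← Real.exp_nat_mul]
  refine ENNReal.ofReal_le_ofReal (Real.exp_le_exp.2 ?_)
  linarith

theorem lowP_th : Tendsto (fun n : ℕ => th n) atTop atTop := by
  unfold th
  exact Real.tendsto_sqrt_atTop.comp
    ((Real.tendsto_log_atTop.comp tendsto_natCast_atTop_atTop).const_mul_atTop two_pos)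

theorem lowP_exp {n : ℕ} (hn : 1 ≤ n) : Real.exp (th n ^ 2 / 2) = n := by
  unfold th
  have h1 : (1 : ℝ) ≤ n := by exact_mod_cast hn
  rw [Real.sq_sqrt (by have := Real.log_nonneg h1; linarith), mul_div_cancel_left₀ _ (two_ne_zero),
    Real.exp_log (by linarith)]

theorem lowP_lim {η : ℝ} (hη : 0 < η) (hη1 : η ≤ 1 / 100) {Mt : ℕ} (hM : 1 ≤ Mt) :
    Tendsto (fun n : ℕ => Real.exp (-((1 - η) ^ 2 * th n ^ 2 / 2 + Mt * th n + Mt)) / 3 ^ Mt *
      (((n - 1) / Mt : ℕ) : ℝ)) atTop atTop := by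
  have hM0 : (0 : ℝ) < Mt := by exact_mod_cast hM
  have ha : 0 < (1 - (1 - η) ^ 2) / 2 := by nlinarith
  have h1 : Tendsto (fun n : ℕ => th n * ((1 - (1 - η) ^ 2) / 2 * th n - Mt) - Mt) atTop atTop :=
    tendsto_atTop_add_const_right _ _ (lowP_th.atTop_mul_atTop₀
      (tendsto_atTop_add_const_right _ _ (lowP_th.const_mul_atTop ha)))
  have h2 : Tendsto (fun n : ℕ => (1 / (3 ^ Mt * (2 * Mt) : ℝ)) *
      Real.exp (th n * ((1 - (1 - η) ^ 2) / 2 * th n - Mt) - Mt)) atTop atTop :=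
    (Real.tendsto_exp_atTop.comp h1).const_mul_atTop (by positivity)
  refine tendsto_atTop_mono' atTop ?_ h2
  filter_upwards [eventually_ge_atTop (2 * Mt)] with n hn
  have hn1 : 1 ≤ n := by omega
  have h3 : (n : ℝ) / (2 * Mt) ≤ (((n - 1) / Mt : ℕ) : ℝ) := by
    have h4 : n - 1 < Mt * ((n - 1) / Mt) + Mt := by
      have := Nat.div_add_mod (n - 1) Mt
      have := Nat.mod_lt (n - 1) (show 0 < Mt by omega)
      omega
    have h5 : n ≤ Mt * ((n - 1) / Mt) + Mt := by omega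
    have h6 : (n : ℝ) ≤ Mt * (((n - 1) / Mt : ℕ) : ℝ) + Mt := by exact_mod_cast h5
    have h7 : (2 * Mt : ℝ) ≤ n := by exact_mod_cast hn
    rw [div_le_iff₀ (by positivity)]
    linarith
  have h8 : (1 / (3 ^ Mt * (2 * Mt) : ℝ)) *
      Real.exp (th n * ((1 - (1 - η) ^ 2) / 2 * th n - Mt) - Mt) =
      Real.exp (-((1 - η) ^ 2 * th n ^ 2 / 2 + Mt * th n + Mt)) / 3 ^ Mt * ((n : ℝ) / (2 * Mt)) := by
    have h9 : Real.exp (th n * ((1 - (1 - η) ^ 2) / 2 * th n - Mt) - Mt) =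
        Real.exp (-((1 - η) ^ 2 * th n ^ 2 / 2 + Mt * th n + Mt)) * Real.exp (th n ^ 2 / 2) := by
      rw [← Real.exp_add]
      congr 1
      ring
    rw [h9, lowP_exp hn1]
    field_simp
  rw [h8]
  exact mul_le_mul_of_nonneg_left h3 (by positivity)

theorem lowP {η : ℝ} (hη : 0 < η) (hη1 : η ≤ 1 / 100) {Mt : ℕ} (hM : 1 ≤ Mt) {yy : ℕ → ℝ} (hy : ∀ j, 0 ≤ yy j)
    (hy1 : ∑ j ∈ Finset.range Mt, yy j ^ 2 ≤ 1) :
    Tendsto (fun n : ℕ => gam (n - 1) {x | ¬ ∃ x0 : ℕ, x0 + Mt ≤ n - 1 ∧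
      ∀ k : Fin (n - 1), x0 ≤ (k : ℕ) → (k : ℕ) < x0 + Mt → (1 - η) * yy ((k : ℕ) - x0) * th n ≤ x k})
      atTop (𝓝 0) := by
  have hlim : Tendsto (fun n : ℕ => ENNReal.ofReal (Real.exp (-(
      Real.exp (-((1 - η) ^ 2 * th n ^ 2 / 2 + Mt * th n + Mt)) / 3 ^ Mt *
      (((n - 1) / Mt : ℕ) : ℝ))))) atTop (𝓝 0) := by
    rw [← ENNReal.ofReal_zero]
    exact (ENNReal.continuous_ofReal.tendsto 0).comp
      (Real.tendsto_exp_neg_atTop_nhds_zero.comp (lowP_lim hη hη1 hM))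
  refine tendsto_of_tendsto_of_tendsto_of_le_of_le tendsto_const_nhds hlim (fun n => zero_le) ?_
  intro n
  have hth : 0 ≤ th n := Real.sqrt_nonneg _
  have hyj : ∀ j ∈ Finset.range Mt, yy j ≤ 1 := by
    intro j hj
    have h1 : yy j ^ 2 ≤ 1 :=
      (Finset.single_le_sum (f := fun j => yy j ^ 2) (fun i _ => sq_nonneg _) hj).trans hy1
    exact (sq_le_one_iff₀ (hy j)).1 h1
  refine lowP_main (m := n - 1) (Mt := Mt) (t := fun j => (1 - η) * yy j * th n)
    (fun j => mul_nonneg (mul_nonneg (by linarith) (hy j)) hth)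
    (p := Real.exp (-((1 - η) ^ 2 * th n ^ 2 / 2 + Mt * th n + Mt)) / 3 ^ Mt) (by positivity) ?_
  rw [Finset.prod_div_distrib, ← Real.exp_sum, Finset.prod_const, Finset.card_range]
  refine div_le_div_of_nonneg_right (Real.exp_le_exp.2 ?_) (by positivity)
  rw [Finset.sum_neg_distrib]
  refine neg_le_neg ?_
  have h1 : ∀ j ∈ Finset.range Mt, ((1 - η) * yy j * th n + 1) ^ 2 / 2 ≤
      (1 - η) ^ 2 * th n ^ 2 / 2 * yy j ^ 2 + (th n + 1) := by
    intro j hj
    have h2 := hyj j hj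
    have h3 := hy j
    have h4 : (1 - η) * yy j * th n ≤ th n := by
      have h5 : (1 - η) * yy j ≤ 1 := by nlinarith
      nlinarith
    nlinarith
  refine (Finset.sum_le_sum h1).trans ?_
  rw [Finset.sum_add_distrib, ← Finset.mul_sum, Finset.sum_const, Finset.card_range, nsmul_eq_mul]
  have h6 : (1 - η) ^ 2 * th n ^ 2 / 2 * ∑ j ∈ Finset.range Mt, yy j ^ 2 ≤
      (1 - η) ^ 2 * th n ^ 2 / 2 * 1 := mul_le_mul_of_nonneg_left hy1 (by positivity)
  linarith

end TZ
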