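import Pool.Agent.TZ.Defs

/-!
Project TZ (MP_b753aa_pr), module Num: asymptotics of the parameters.
-/

noncomputable section

namespace TZ

open MeasureTheory ProbabilityTheory Filter Topology Matrix
open scoped Real

theorem th_pos {n : ℕ} (hn : 2 ≤ n) : 0 < th n := by
  unfold th
  have h : 0 < Real.log n := Real.log_pos (by exact_mod_cast hn)
  exact Real.sqrt_pos.2 (by linarith)

theorem th_tendsto : Tendsto (fun n : ℕ => th n) atTop atTop := by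
  unfold th
  refine Real.tendsto_sqrt_atTop.comp ?_
  exact (Real.tendsto_log_atTop.comp tendsto_natCast_atTop_atTop).const_mul_atTop (by norm_num)

theorem rr_ge (η : ℝ) (n : ℕ) : (n : ℝ) ^ (η ^ 3 / 100) ≤ rr η n := Nat.le_ceil _

theorem rr_le (η : ℝ) (n : ℕ) : (rr η n : ℝ) ≤ (n : ℝ) ^ (η ^ 3 / 100) + 1 :=
  (Nat.ceil_lt_add_one (Real.rpow_nonneg (Nat.cast_nonneg n) _)).le

theorem pow_tendsto {α : ℝ} (hα : 0 < α) : Tendsto (fun n : ℕ => (n : ℝ) ^ α) atTop atTop :=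
  (tendsto_rpow_atTop hα).comp tendsto_natCast_atTop_atTop

theorem rr_tendsto {η : ℝ} (hη : 0 < η) : Tendsto (fun n : ℕ => (rr η n : ℝ)) atTop atTop :=
  tendsto_atTop_mono (rr_ge η) (pow_tendsto (by positivity))

theorem ev_r {η : ℝ} (hη : 0 < η) : ∀ᶠ n : ℕ in atTop, 1 ≤ η * rr η n := by
  have h := (rr_tendsto hη).const_mul_atTop hη
  exact h.eventually_ge_atTop 1

/-- powers of `n` beat constants times smaller powers -/
theorem ev_pow {a b C : ℝ} (hab : a < b) : ∀ᶠ n : ℕ in atTop, C * (n : ℝ) ^ a ≤ (n : ℝ) ^ b := by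
  have h := (pow_tendsto (sub_pos.2 hab)).eventually_ge_atTop C
  filter_upwards [h, eventually_gt_atTop 0] with n hn hn0
  have hn0' : (0 : ℝ) < n := by exact_mod_cast hn0
  have : (n : ℝ) ^ b = (n : ℝ) ^ (b - a) * (n : ℝ) ^ a := by
    rw [← Real.rpow_add hn0']
    ring_nf
  rw [this]
  exact mul_le_mul_of_nonneg_right hn (Real.rpow_nonneg hn0'.le _)

theorem one_le_pow {n : ℕ} (hn : 1 ≤ n) {a : ℝ} (ha : 0 ≤ a) : (1 : ℝ) ≤ (n : ℝ) ^ a :=
  Real.one_le_rpow (by exact_mod_cast hn) ha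

theorem ev_L {η : ℝ} (hη : 0 < η) (hη1 : η ≤ 1 / 10000) : ∀ᶠ n : ℕ in atTop, rr η n ^ 2 ≤ n := by
  have h3 : η ^ 3 ≤ 1 := pow_le_one₀ hη.le (by linarith)
  have h := ev_pow (a := 2 * (η ^ 3 / 100)) (b := 1) (C := 4) (by linarith)
  filter_upwards [h, eventually_ge_atTop 1] with n hn hn1
  have h1 : (rr η n : ℝ) ≤ 2 * (n : ℝ) ^ (η ^ 3 / 100) := by
    have := rr_le η n
    have := one_le_pow hn1 (a := η ^ 3 / 100) (by positivity)
    linarith
  have h2 : ((rr η n ^ 2 : ℕ) : ℝ) ≤ n := by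
    push_cast
    calc (rr η n : ℝ) ^ 2 ≤ (2 * (n : ℝ) ^ (η ^ 3 / 100)) ^ 2 := by gcongr
      _ = 4 * (n : ℝ) ^ (2 * (η ^ 3 / 100)) := by
          rw [mul_pow, ← Real.rpow_natCast ((n : ℝ) ^ (η ^ 3 / 100)) 2, ← Real.rpow_mul (Nat.cast_nonneg n)]
          norm_num
          ring_nf
      _ ≤ (n : ℝ) ^ (1 : ℝ) := hn
      _ = n := Real.rpow_one _
  exact_mod_cast h2

theorem ev_q {η : ℝ} (hη : 0 < η) (q : ℕ) : ∀ᶠ n : ℕ in atTop, (q : ℝ) / n ≤ η := by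
  have h := (tendsto_natCast_atTop_atTop (R := ℝ)).const_mul_atTop hη
  filter_upwards [h.eventually_ge_atTop (q : ℝ), eventually_gt_atTop 0] with n hn hn0
  rw [div_le_iff₀ (by exact_mod_cast hn0)]
  exact hn

theorem ev_sch {η : ℝ} (hη : 0 < η) (q : ℕ) : ∀ᶠ n : ℕ in atTop,
    2 * (q : ℝ) / rr η n + 2 * q / ((rr η n ^ 2 : ℕ) : ℝ) * (1 + Real.log n) ≤ η := by
  have hα : 0 < η ^ 3 / 100 := by positivity
  have h1 : Tendsto (fun n : ℕ => 2 * (q : ℝ) / rr η n) atTop (𝓝 0) :=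
    (rr_tendsto hη).const_div_atTop _
  have h2 : Tendsto (fun n : ℕ => 2 * (q : ℝ) * ((1 + Real.log n) / (n : ℝ) ^ (2 * (η ^ 3 / 100)))) atTop (𝓝 0) := by
    have a1 : Tendsto (fun x : ℝ => Real.log x / x ^ (2 * (η ^ 3 / 100))) atTop (𝓝 0) :=
      (isLittleO_log_rpow_atTop (by positivity)).tendsto_div_nhds_zero
    have a2 := a1.comp (tendsto_natCast_atTop_atTop (R := ℝ))
    have a3 : Tendsto (fun n : ℕ => 1 / (n : ℝ) ^ (2 * (η ^ 3 / 100))) atTop (𝓝 0) :=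
      (pow_tendsto (by positivity)).const_div_atTop _
    have a4 := (a3.add a2).const_mul (2 * (q : ℝ))
    simp only [add_zero, mul_zero] at a4
    refine a4.congr fun n => ?_
    simp only [Function.comp]
    ring
  have h3 := h1.add h2
  rw [add_zero] at h3
  filter_upwards [h3.eventually_le_const hη, eventually_ge_atTop 1] with n hn hn1
  refine le_trans (add_le_add le_rfl ?_) hn
  have hn1' : (1 : ℝ) ≤ n := by exact_mod_cast hn1
  have hlog : 0 ≤ 1 + Real.log n := by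
    have := Real.log_nonneg hn1'
    linarith
  have hp : 0 < (n : ℝ) ^ (2 * (η ^ 3 / 100)) := Real.rpow_pos_of_pos (by linarith) _
  have hle : (n : ℝ) ^ (2 * (η ^ 3 / 100)) ≤ ((rr η n ^ 2 : ℕ) : ℝ) := by
    push_cast
    calc (n : ℝ) ^ (2 * (η ^ 3 / 100)) = ((n : ℝ) ^ (η ^ 3 / 100)) ^ 2 := by
          rw [← Real.rpow_natCast ((n : ℝ) ^ (η ^ 3 / 100)) 2, ← Real.rpow_mul (Nat.cast_nonneg n)]
          norm_num
          ring_nf
      _ ≤ (rr η n : ℝ) ^ 2 := by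
          have := rr_ge η n
          have h0 : 0 ≤ (n : ℝ) ^ (η ^ 3 / 100) := Real.rpow_nonneg (Nat.cast_nonneg n) _
          gcongr
  calc 2 * (q : ℝ) / ((rr η n ^ 2 : ℕ) : ℝ) * (1 + Real.log n)
      ≤ 2 * (q : ℝ) / (n : ℝ) ^ (2 * (η ^ 3 / 100)) * (1 + Real.log n) := by
        refine mul_le_mul_of_nonneg_right ?_ hlog
        exact div_le_div_of_nonneg_left (by positivity) hp hle
    _ = _ := by ring

theorem qq_ge {η : ℝ} (hη : 0 < η) : 4 ≤ qq η * η ^ 2 := by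
  have h : 4 / η ^ 2 ≤ qq η := Nat.le_ceil _
  rwa [div_le_iff₀ (by positivity)] at h

theorem ev_card {η ε : ℝ} (hη : 0 < η) (hε : 41 * √η ≤ ε) (q : ℕ) :
    ∀ᶠ n : ℕ in atTop, ∀ R : ℕ, (R : ℝ) ≤ (2 * MM η n) * q / η + 2 →
      ((2 * R * ((2 * MM η n) * q) : ℕ) : ℝ) ≤ (n : ℝ) ^ ε := by
  have hs : 0 < √η := Real.sqrt_pos.2 hη
  have h := ev_pow (a := 40 * √η) (b := ε) (C := 2 * (2 * q / η + 2) * (2 * q)) (by linarith)
  filter_upwards [h, eventually_ge_atTop 1] with n hn hn1 R hR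
  have hM : (MM η n : ℝ) ≤ (n : ℝ) ^ (20 * √η) := Nat.floor_le (Real.rpow_nonneg (Nat.cast_nonneg n) _)
  have h1 := one_le_pow hn1 (a := 20 * √η) (by positivity)
  set X := (n : ℝ) ^ (20 * √η)
  have hX0 : 0 ≤ X := by linarith
  have hR' : (R : ℝ) ≤ (2 * q / η + 2) * X := by
    refine hR.trans ?_
    have : (2 * (MM η n : ℝ)) * q / η ≤ 2 * q / η * X := by
      have : (2 * (MM η n : ℝ)) * q / η = 2 * q / η * MM η n := by ring
      rw [this]
      exact mul_le_mul_of_nonneg_left hM (by positivity)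
    nlinarith
  have hXX : X * X = (n : ℝ) ^ (40 * √η) := by
    rw [← Real.rpow_add (by exact_mod_cast hn1)]
    ring_nf
  push_cast
  calc 2 * (R : ℝ) * (2 * (MM η n : ℝ) * q) ≤ 2 * ((2 * q / η + 2) * X) * (2 * X * q) := by gcongr
    _ = 2 * (2 * q / η + 2) * (2 * q) * (X * X) := by ring
    _ ≤ _ := by rw [hXX]; exact hn

end TZ
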