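import Pool.Agent.TZ.Defs

/-!
Project TZ (MP_b753aa_pr), module Sch: two sums over the circle.
Proof. (sch): sort the `l ∈ H` with `r ≤ cd k l` by `t = cd k l / L`. For each `t` the `l` with `cd k l / L = t` lie in four windows
of length `L` (`|k - l|` or `2n - |k - l|` in `[tL, (t+1)L)`, each with `l > k` or `l < k`), so there are at most `4q`. `t = 0`:
terms `≤ 1/(2r)`; `1 ≤ t ≤ n`: terms `≤ 1/(2tL)`, `∑_{t ≤ n} 1/t ≤ 1 + log n` (`harmonic_le_one_add_log`).
(tail): for fixed `l` at most `2` sites `k` have `cd k l = t`, `∑_{t ≥ R} 1/t² ≤ 2/R`; `cd k l ≥ 1` for `k ≠ l`.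
-/

noncomputable section

namespace TZ

open MeasureTheory ProbabilityTheory Filter Topology Matrix
open scoped Real

theorem Sch_cd_le {n : ℕ} (k l : Fin (2 * n)) : cd k l ≤ n := by
  have h1 := k.isLt
  have h2 := l.isLt
  unfold cd
  omega

theorem Sch_fib {n : ℕ} (H : Finset (Fin (2 * n))) {L q : ℕ} (hL : 1 ≤ L)
    (cnt : ∀ y : ℕ, (H.filter fun k : Fin (2 * n) => y ≤ (k : ℕ) ∧ (k : ℕ) < y + L).card ≤ q)
    (k : Fin (2 * n)) (t : ℕ) : (H.filter fun l => cd k l / L = t).card ≤ 4 * q := by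
  classical
  have hsub : (H.filter fun l => cd k l / L = t) ⊆
      ((H.filter fun l : Fin (2 * n) => ((k : ℕ) + t * L) ≤ (l : ℕ) ∧ (l : ℕ) < ((k : ℕ) + t * L) + L) ∪
       (H.filter fun l : Fin (2 * n) => ((k : ℕ) + 1 - (t * L + L)) ≤ (l : ℕ) ∧
          (l : ℕ) < ((k : ℕ) + 1 - (t * L + L)) + L)) ∪
      ((H.filter fun l : Fin (2 * n) => (2 * n + (k : ℕ) + 1 - (t * L + L)) ≤ (l : ℕ) ∧
          (l : ℕ) < (2 * n + (k : ℕ) + 1 - (t * L + L)) + L) ∪
       (H.filter fun l : Fin (2 * n) => (t * L + (k : ℕ) - 2 * n) ≤ (l : ℕ) ∧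
          (l : ℕ) < (t * L + (k : ℕ) - 2 * n) + L)) := by
    intro l hl
    rw [Finset.mem_filter] at hl
    obtain ⟨hlH, hlt⟩ := hl
    have h1 : t * L ≤ cd k l := by
      rw [← hlt]; exact Nat.div_mul_le_self _ _
    have h2 : cd k l < t * L + L := by
      rw [← hlt]; exact Nat.lt_div_mul_add hL
    have hk := k.isLt
    have hl' := l.isLt
    simp only [Finset.mem_union, Finset.mem_filter, hlH, true_and]
    unfold cd at h1 h2
    generalize t * L = T at *
    omega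
  refine (Finset.card_le_card hsub).trans ?_
  refine (Finset.card_union_le _ _).trans ?_
  have a1 := Finset.card_union_le
    (H.filter fun l : Fin (2 * n) => ((k : ℕ) + t * L) ≤ (l : ℕ) ∧ (l : ℕ) < ((k : ℕ) + t * L) + L)
    (H.filter fun l : Fin (2 * n) => ((k : ℕ) + 1 - (t * L + L)) ≤ (l : ℕ) ∧
          (l : ℕ) < ((k : ℕ) + 1 - (t * L + L)) + L)
  have a2 := Finset.card_union_le
    (H.filter fun l : Fin (2 * n) => (2 * n + (k : ℕ) + 1 - (t * L + L)) ≤ (l : ℕ) ∧
          (l : ℕ) < (2 * n + (k : ℕ) + 1 - (t * L + L)) + L)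
    (H.filter fun l : Fin (2 * n) => (t * L + (k : ℕ) - 2 * n) ≤ (l : ℕ) ∧
          (l : ℕ) < (t * L + (k : ℕ) - 2 * n) + L)
  have b1 := cnt ((k : ℕ) + t * L)
  have b2 := cnt ((k : ℕ) + 1 - (t * L + L))
  have b3 := cnt (2 * n + (k : ℕ) + 1 - (t * L + L))
  have b4 := cnt (t * L + (k : ℕ) - 2 * n)
  omega

theorem sch {n : ℕ} (H : Finset (Fin (2 * n))) {L q r : ℕ} (hr : 1 ≤ r) (hrL : r ≤ L)
    (cnt : ∀ y : ℕ, (H.filter fun k : Fin (2 * n) => y ≤ (k : ℕ) ∧ (k : ℕ) < y + L).card ≤ q) (k : Fin (2 * n)) :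
    ∑ l ∈ H.filter (fun l => r ≤ cd k l), 1 / (2 * (cd k l : ℝ)) ≤
      2 * q / r + 2 * q / L * (1 + Real.log n) := by
  classical
  have hL : 1 ≤ L := hr.trans hrL
  have hL0 : (0:ℝ) < L := by exact_mod_cast hL
  have hr0 : (0:ℝ) < r := by exact_mod_cast hr
  have hmap : ∀ l ∈ H.filter (fun l => r ≤ cd k l), cd k l / L ∈ Finset.range (n + 1) := by
    intro l _
    rw [Finset.mem_range]
    have := Sch_cd_le k l
    have := Nat.div_le_self (cd k l) L
    omega
  rw [← Finset.sum_fiberwise_of_maps_to hmap, Finset.sum_range_succ', add_comm]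
  have hfib : ∀ t, ((H.filter (fun l => r ≤ cd k l)).filter (fun l => cd k l / L = t)).card ≤ 4 * q := by
    intro t
    refine le_trans (Finset.card_le_card ?_) (Sch_fib H hL cnt k t)
    intro l hl
    simp only [Finset.mem_filter] at hl ⊢
    exact ⟨hl.1.1, hl.2⟩
  have hone : ∀ t : ℕ, ∀ c : ℝ, 0 ≤ c →
      (∀ l ∈ (H.filter (fun l => r ≤ cd k l)).filter (fun l => cd k l / L = t), 1 / (2 * (cd k l : ℝ)) ≤ c) →
      ∑ l ∈ (H.filter (fun l => r ≤ cd k l)).filter (fun l => cd k l / L = t), 1 / (2 * (cd k l : ℝ)) ≤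
        4 * q * c := by
    intro t c hc h
    refine (Finset.sum_le_card_nsmul _ _ _ h).trans ?_
    rw [nsmul_eq_mul]
    refine mul_le_mul_of_nonneg_right ?_ hc
    exact_mod_cast hfib t
  refine add_le_add ?_ ?_
  · refine (hone 0 (1 / (2 * r)) (by positivity) ?_).trans (le_of_eq ?_)
    · intro l hl
      simp only [Finset.mem_filter] at hl
      have h1 : (r : ℝ) ≤ cd k l := by exact_mod_cast hl.1.2
      exact one_div_le_one_div_of_le (by positivity) (by linarith)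
    · field_simp
      ring
  · have hstep : ∀ t ∈ Finset.range n,
        ∑ l ∈ (H.filter (fun l => r ≤ cd k l)).filter (fun l => cd k l / L = t + 1), 1 / (2 * (cd k l : ℝ)) ≤
          2 * q / L * ((t + 1 : ℕ) : ℝ)⁻¹ := by
      intro t _
      have ht0 : (0:ℝ) < ((t + 1 : ℕ) : ℝ) := by positivity
      refine (hone (t + 1) (1 / (2 * (((t + 1 : ℕ) : ℝ) * L))) (by positivity) ?_).trans (le_of_eq ?_)
      · intro l hl
        simp only [Finset.mem_filter] at hl
        have h0 : (t + 1) * L ≤ cd k l := by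
          rw [← hl.2]; exact Nat.div_mul_le_self _ _
        have h1 : ((t + 1 : ℕ) : ℝ) * L ≤ cd k l := by exact_mod_cast h0
        exact one_div_le_one_div_of_le (by positivity) (by linarith)
      · field_simp
        ring
    refine (Finset.sum_le_sum hstep).trans ?_
    rw [← Finset.mul_sum]
    refine mul_le_mul_of_nonneg_left ?_ (by positivity)
    have h := harmonic_le_one_add_log n
    unfold harmonic at h
    push_cast at h ⊢
    exact h

theorem Sch_two {n : ℕ} (l : Fin (2 * n)) (t : ℕ) (S : Finset (Fin (2 * n))) :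
    (S.filter fun k => cd k l = t).card ≤ 2 := by
  classical
  have hsub : (S.filter fun k => cd k l = t) ⊆
      (S.filter fun k : Fin (2 * n) => (k : ℕ) = (l : ℕ) + t ∨ (k : ℕ) + 2 * n = (l : ℕ) + t) ∪
      (S.filter fun k : Fin (2 * n) => (k : ℕ) + t = (l : ℕ) ∨ (k : ℕ) + t = (l : ℕ) + 2 * n) := by
    intro k hk
    simp only [Finset.mem_union, Finset.mem_filter] at hk ⊢
    obtain ⟨hkS, hkt⟩ := hk
    have h1 := k.isLt
    have h2 := l.isLt
    unfold cd at hkt
    simp only [hkS, true_and]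
    omega
  refine (Finset.card_le_card hsub).trans ?_
  refine (Finset.card_union_le _ _).trans ?_
  have c1 : (S.filter fun k : Fin (2 * n) => (k : ℕ) = (l : ℕ) + t ∨ (k : ℕ) + 2 * n = (l : ℕ) + t).card ≤ 1 := by
    rw [Finset.card_le_one]
    intro a ha b hb
    simp only [Finset.mem_filter] at ha hb
    have h1 := a.isLt
    have h2 := b.isLt
    apply Fin.ext
    omega
  have c2 : (S.filter fun k : Fin (2 * n) => (k : ℕ) + t = (l : ℕ) ∨ (k : ℕ) + t = (l : ℕ) + 2 * n).card ≤ 1 := by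
    rw [Finset.card_le_one]
    intro a ha b hb
    simp only [Finset.mem_filter] at ha hb
    have h1 := a.isLt
    have h2 := b.isLt
    apply Fin.ext
    omega
  omega

theorem Sch_one {n : ℕ} (l : Fin (2 * n)) {R : ℕ} (hR : 1 ≤ R) :
    ∑ k ∈ Finset.univ.filter (fun k : Fin (2 * n) => R ≤ cd k l), (1 / (2 * (cd k l : ℝ))) ^ 2 ≤ 1 / (R : ℝ) := by
  classical
  have hmap : ∀ k ∈ Finset.univ.filter (fun k : Fin (2 * n) => R ≤ cd k l), cd k l ∈ Finset.Ioo (R - 1) (n + 1) := by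
    intro k hk
    simp only [Finset.mem_filter, Finset.mem_univ, true_and] at hk
    rw [Finset.mem_Ioo]
    have := Sch_cd_le k l
    omega
  rw [← Finset.sum_fiberwise_of_maps_to hmap]
  have hstep : ∀ t ∈ Finset.Ioo (R - 1) (n + 1),
      ∑ k ∈ (Finset.univ.filter (fun k : Fin (2 * n) => R ≤ cd k l)).filter (fun k => cd k l = t),
        (1 / (2 * (cd k l : ℝ))) ^ 2 ≤ 1 / 2 * ((t : ℝ) ^ 2)⁻¹ := by
    intro t ht
    rw [Finset.mem_Ioo] at ht
    have ht0 : (0:ℝ) < t := by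
      have : 0 < t := by omega
      exact_mod_cast this
    have h1 : ∀ k ∈ (Finset.univ.filter (fun k : Fin (2 * n) => R ≤ cd k l)).filter (fun k => cd k l = t),
        (1 / (2 * (cd k l : ℝ))) ^ 2 ≤ (1 / (2 * (t : ℝ))) ^ 2 := by
      intro k hk
      rw [Finset.mem_filter] at hk
      rw [hk.2]
    refine (Finset.sum_le_card_nsmul _ _ _ h1).trans ?_
    rw [nsmul_eq_mul]
    have h2 : ((((Finset.univ.filter (fun k : Fin (2 * n) => R ≤ cd k l)).filter
        (fun k => cd k l = t)).card : ℕ) : ℝ) ≤ 2 := by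
      exact_mod_cast Sch_two l t _
    refine (mul_le_mul_of_nonneg_right h2 (by positivity)).trans (le_of_eq ?_)
    field_simp
  refine (Finset.sum_le_sum hstep).trans ?_
  rw [← Finset.mul_sum]
  have h3 := sum_Ioo_inv_sq_le (α := ℝ) (R - 1) (n + 1)
  have h4 : (((R - 1 : ℕ) : ℝ) + 1) = R := by
    have : R - 1 + 1 = R := by omega
    exact_mod_cast this
  rw [h4] at h3
  have hR0 : (0:ℝ) < R := by exact_mod_cast hR
  calc 1 / 2 * ∑ i ∈ Finset.Ioo (R - 1) (n + 1), ((i : ℝ) ^ 2)⁻¹ ≤ 1 / 2 * (2 / R) := by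
        refine mul_le_mul_of_nonneg_left h3 (by norm_num)
    _ = 1 / R := by ring

theorem tail {n : ℕ} (W : Finset (Fin (2 * n))) {R : ℕ} (hR : 1 ≤ R) :
    ∑ k ∈ Finset.univ.filter (fun k => ∀ l ∈ W, R ≤ cd k l), ∑ l ∈ W, (1 / (2 * (cd k l : ℝ))) ^ 2 ≤
      (W.card : ℝ) / R := by
  classical
  rw [Finset.sum_comm]
  have h : ∀ l ∈ W, ∑ k ∈ Finset.univ.filter (fun k => ∀ l ∈ W, R ≤ cd k l), (1 / (2 * (cd k l : ℝ))) ^ 2 ≤
      1 / (R : ℝ) := by
    intro l hl
    refine le_trans (Finset.sum_le_sum_of_subset_of_nonneg ?_ ?_) (Sch_one l hR)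
    · intro k hk
      simp only [Finset.mem_filter, Finset.mem_univ, true_and] at hk ⊢
      exact hk l hl
    · intro k _ _
      positivity
  refine (Finset.sum_le_card_nsmul _ _ _ h).trans (le_of_eq ?_)
  rw [nsmul_eq_mul]
  ring

end TZ
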