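import Pool.Agent.TZ.Defs
import Pool.Agent.TZ.Tail

/-!
Project TZ (MP_b753aa_pr), union bounds for the upper event.
-/

noncomputable section

namespace TZ

open MeasureTheory ProbabilityTheory Filter Topology Matrix
open scoped Real

/-- the window -/
def UpAF_I (m y L : ℕ) : Finset (Fin m) := Finset.univ.filter fun k => y ≤ (k : ℕ) ∧ (k : ℕ) < y + L

/-- the small sets in the window -/
def UpAF_W (m y L q : ℕ) : Finset (Finset (Fin m)) :=
  Finset.univ.filter fun C => (∀ k ∈ C, y ≤ (k : ℕ) ∧ (k : ℕ) < y + L) ∧ C.card ≤ q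

theorem UpAF_cardI (m y L : ℕ) : (UpAF_I m y L).card ≤ L := by
  have h1 : (UpAF_I m y L).map Fin.valEmbedding ⊆ Finset.Ico y (y + L) := by
    intro j hj
    rw [Finset.mem_map] at hj
    obtain ⟨k, hk, rfl⟩ := hj
    unfold UpAF_I at hk
    rw [Finset.mem_filter] at hk
    rw [Finset.mem_Ico]
    exact hk.2
  have h2 := Finset.card_le_card h1
  rwa [Finset.card_map, Nat.card_Ico, Nat.add_sub_cancel_left] at h2

theorem UpAF_cardW (m y L q : ℕ) : (UpAF_W m y L q).card ≤ (L + 1) ^ q := by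
  classical
  let g : (Fin q → Option (Fin m)) → Finset (Fin m) := fun f => Finset.univ.filter fun k => ∃ i, f i = some k
  have h1 : UpAF_W m y L q ⊆ (Fintype.piFinset fun _ : Fin q => Finset.insertNone (UpAF_I m y L)).image g := by
    intro C hC
    unfold UpAF_W at hC
    rw [Finset.mem_filter] at hC
    obtain ⟨-, hC1, hC2⟩ := hC
    rw [Finset.mem_image]
    refine ⟨fun i => if h : (i : ℕ) < C.card then some (C.equivFin.symm ⟨i, h⟩ : Fin m) else none, ?_, ?_⟩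
    · rw [Fintype.mem_piFinset]
      intro i
      by_cases h : (i : ℕ) < C.card
      · rw [dif_pos h, Finset.some_mem_insertNone]
        unfold UpAF_I
        rw [Finset.mem_filter]
        exact ⟨Finset.mem_univ _, hC1 _ (Finset.coe_mem _)⟩
      · rw [dif_neg h]
        exact Finset.none_mem_insertNone
    · ext k
      show k ∈ Finset.univ.filter _ ↔ k ∈ C
      rw [Finset.mem_filter]
      constructor
      · rintro ⟨-, i, hi⟩
        beta_reduce at hi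
        by_cases h : (i : ℕ) < C.card
        · rw [dif_pos h, Option.some_inj] at hi
          rw [← hi]
          exact Finset.coe_mem _
        · rw [dif_neg h] at hi
          exact absurd hi (by simp)
      · intro hk
        refine ⟨Finset.mem_univ _, ⟨(C.equivFin ⟨k, hk⟩ : ℕ), lt_of_lt_of_le (C.equivFin ⟨k, hk⟩).2 hC2⟩, ?_⟩
        beta_reduce
        rw [dif_pos (C.equivFin ⟨k, hk⟩).2]
        simp
  calc (UpAF_W m y L q).card ≤ _ := Finset.card_le_card h1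
    _ ≤ _ := Finset.card_image_le
    _ = ((UpAF_I m y L).card + 1) ^ q := by
        rw [Fintype.card_piFinset, Finset.card_insertNone]
        simp
    _ ≤ (L + 1) ^ q := by
        gcongr
        exact UpAF_cardI m y L

/-- the event at `y` -/
def UpAF_E (m y L q : ℕ) (s : ℝ) : Set (Fin m → ℝ) :=
  ⋃ C ∈ (UpAF_W m y L q).filter (fun C => C.Nonempty), {x | s ≤ ∑ k ∈ C, x k ^ 2}

theorem UpAF_meas (m y L q : ℕ) (s : ℝ) : MeasurableSet (UpAF_E m y L q s) := by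
  unfold UpAF_E
  refine Finset.measurableSet_biUnion _ fun C _ => ?_
  exact measurableSet_le measurable_const
    (Finset.measurable_sum _ fun k _ => (measurable_pi_apply k).pow_const 2)

theorem UpAF_mem {m y L q : ℕ} {s : ℝ} {x : Fin m → ℝ} : x ∈ UpAF_E m y L q s ↔
    ∃ C : Finset (Fin m), (∀ k ∈ C, y ≤ (k : ℕ) ∧ (k : ℕ) < y + L) ∧ C.Nonempty ∧ C.card ≤ q ∧
      s ≤ ∑ k ∈ C, x k ^ 2 := by
  unfold UpAF_E UpAF_W
  simp only [Set.mem_iUnion, Finset.mem_filter, Finset.mem_univ, true_and, Set.mem_ofPred_eq, exists_prop]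
  constructor
  · rintro ⟨C, ⟨⟨h1, h2⟩, h3⟩, h4⟩
    exact ⟨C, h1, h3, h2, h4⟩
  · rintro ⟨C, h1, h3, h2, h4⟩
    exact ⟨C, ⟨⟨h1, h2⟩, h3⟩, h4⟩

theorem UpAF_one {ζ : ℝ} (hζ : 0 < ζ) (hζ1 : ζ < 1) : 1 ≤ 1 / √ζ := by
  rw [le_div_iff₀ (Real.sqrt_pos.mpr hζ), one_mul]
  exact Real.sqrt_le_one.mpr hζ1.le

theorem UpAF_le {m y L q : ℕ} {ζ s : ℝ} (hζ : 0 < ζ) (hζ1 : ζ < 1) :
    gam m (UpAF_E m y L q s) ≤
      ENNReal.ofReal ((L + 1) ^ q * (1 / √ζ) ^ q * Real.exp (-((1 - ζ) * s / 2))) := by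
  unfold UpAF_E
  have h1 := UpAF_one hζ hζ1
  have hb : 0 ≤ (1 / √ζ) ^ q * Real.exp (-((1 - ζ) * s / 2)) := by positivity
  calc gam m (⋃ C ∈ (UpAF_W m y L q).filter (fun C => C.Nonempty), {x | s ≤ ∑ k ∈ C, x k ^ 2})
      ≤ ∑ C ∈ (UpAF_W m y L q).filter (fun C => C.Nonempty), gam m {x | s ≤ ∑ k ∈ C, x k ^ 2} :=
        measure_biUnion_finset_le _ _
    _ ≤ ∑ C ∈ (UpAF_W m y L q).filter (fun C => C.Nonempty),
          ENNReal.ofReal ((1 / √ζ) ^ q * Real.exp (-((1 - ζ) * s / 2))) := by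
        refine Finset.sum_le_sum fun C hC => (chi_tail C hζ hζ1).trans (ENNReal.ofReal_le_ofReal ?_)
        rw [Finset.mem_filter] at hC
        unfold UpAF_W at hC
        rw [Finset.mem_filter] at hC
        exact mul_le_mul_of_nonneg_right (pow_le_pow_right₀ h1 hC.1.2.2) (Real.exp_pos _).le
    _ ≤ ∑ C ∈ UpAF_W m y L q, ENNReal.ofReal ((1 / √ζ) ^ q * Real.exp (-((1 - ζ) * s / 2))) :=
        Finset.sum_le_sum_of_subset (Finset.filter_subset _ _)
    _ = (UpAF_W m y L q).card * ENNReal.ofReal ((1 / √ζ) ^ q * Real.exp (-((1 - ζ) * s / 2))) := by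
        rw [Finset.sum_const, nsmul_eq_mul]
    _ ≤ ENNReal.ofReal (((L + 1 : ℕ) ^ q : ℕ) : ℝ) * ENNReal.ofReal ((1 / √ζ) ^ q * Real.exp (-((1 - ζ) * s / 2))) := by
        gcongr
        rw [ENNReal.ofReal_natCast]
        exact_mod_cast UpAF_cardW m y L q
    _ = ENNReal.ofReal ((L + 1) ^ q * (1 / √ζ) ^ q * Real.exp (-((1 - ζ) * s / 2))) := by
        rw [← ENNReal.ofReal_mul (by positivity)]
        congr 1
        push_cast
        ring

theorem UpAF_sum {m L q : ℕ} {ζ s : ℝ} (hζ : 0 < ζ) (hζ1 : ζ < 1) :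
    ∑ y ∈ Finset.range m, gam m (UpAF_E m y L q s) ≤
      ENNReal.ofReal (m * (L + 1) ^ q * (1 / √ζ) ^ q * Real.exp (-((1 - ζ) * s / 2))) := by
  calc ∑ y ∈ Finset.range m, gam m (UpAF_E m y L q s)
      ≤ ∑ y ∈ Finset.range m, ENNReal.ofReal ((L + 1) ^ q * (1 / √ζ) ^ q * Real.exp (-((1 - ζ) * s / 2))) :=
        Finset.sum_le_sum fun y _ => UpAF_le hζ hζ1
    _ = ENNReal.ofReal (m * (L + 1) ^ q * (1 / √ζ) ^ q * Real.exp (-((1 - ζ) * s / 2))) := by
        rw [Finset.sum_const, Finset.card_range, nsmul_eq_mul, ← ENNReal.ofReal_natCast,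
          ← ENNReal.ofReal_mul (by positivity)]
        congr 1
        ring

theorem UpAF_lt {m y L : ℕ} {C : Finset (Fin m)} (hC : ∀ k ∈ C, y ≤ (k : ℕ) ∧ (k : ℕ) < y + L)
    (hne : C.Nonempty) : y < m := by
  obtain ⟨k, hk⟩ := hne
  exact lt_of_le_of_lt (hC k hk).1 k.2

theorem UpAF_sq {m L q : ℕ} {ζ s : ℝ} (hζ : 0 < ζ) (hζ1 : ζ < 1) (hs : 0 < s) :
    gam m {x | ¬ ∀ y : ℕ, ∀ C : Finset (Fin m), (∀ k ∈ C, y ≤ (k : ℕ) ∧ (k : ℕ) < y + L) → C.card ≤ q →
      ∑ k ∈ C, x k ^ 2 < s} ≤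
      ENNReal.ofReal (m * (L + 1) ^ q * (1 / √ζ) ^ q * Real.exp (-((1 - ζ) * s / 2))) := by
  refine le_trans ?_ (UpAF_sum (m := m) (L := L) (q := q) hζ hζ1)
  refine (measure_mono ?_).trans (measure_biUnion_finset_le (Finset.range m) fun y => UpAF_E m y L q s)
  intro x hx
  rw [Set.mem_ofPred_eq] at hx
  push Not at hx
  obtain ⟨y, C, hC, hcard, hsum⟩ := hx
  have hne : C.Nonempty := by
    rw [Finset.nonempty_iff_ne_empty]
    rintro rfl
    rw [Finset.sum_empty] at hsum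
    linarith
  simp only [Set.mem_iUnion]
  exact ⟨y, Finset.mem_range.mpr (UpAF_lt hC hne), UpAF_mem.mpr ⟨C, hC, hne, hcard, hsum⟩⟩

theorem UpAF_few {m L q M : ℕ} {ζ s : ℝ} (hζ : 0 < ζ) (hζ1 : ζ < 1) :
    gam m {x | ¬ ∃ F : Finset ℕ, F.card ≤ M ∧ ∀ (y : ℕ) (C : Finset (Fin m)),
      (∀ k ∈ C, y ≤ (k : ℕ) ∧ (k : ℕ) < y + L) → C.Nonempty → C.card ≤ q → s ≤ ∑ k ∈ C, x k ^ 2 → y ∈ F} ≤
      ENNReal.ofReal (m * (L + 1) ^ q * (1 / √ζ) ^ q * Real.exp (-((1 - ζ) * s / 2)) / (M + 1)) := by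
  classical
  let f : (Fin m → ℝ) → ENNReal := fun x => ∑ y ∈ Finset.range m, (UpAF_E m y L q s).indicator (fun _ => 1) x
  have hf : Measurable f := Finset.measurable_fun_sum _ fun y _ =>
    measurable_const.indicator (UpAF_meas m y L q s)
  have hint : ∫⁻ x, f x ∂(gam m) = ∑ y ∈ Finset.range m, gam m (UpAF_E m y L q s) := by
    show ∫⁻ x, ∑ y ∈ Finset.range m, (UpAF_E m y L q s).indicator (fun _ => 1) x ∂(gam m) = _
    rw [lintegral_finsetSum _ fun y _ => measurable_const.indicator (UpAF_meas m y L q s)]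
    refine Finset.sum_congr rfl fun y _ => ?_
    rw [lintegral_indicator (UpAF_meas m y L q s), setLIntegral_const, one_mul]
  have hcnt : ∀ x, f x = (((Finset.range m).filter fun y => x ∈ UpAF_E m y L q s).card : ENNReal) := by
    intro x
    show ∑ y ∈ Finset.range m, (UpAF_E m y L q s).indicator (fun _ => (1 : ENNReal)) x = _
    rw [Finset.card_filter]
    push_cast
    refine Finset.sum_congr rfl fun y _ => ?_
    rw [Set.indicator_apply]
  have hsub : {x : Fin m → ℝ | ¬ ∃ F : Finset ℕ, F.card ≤ M ∧ ∀ (y : ℕ) (C : Finset (Fin m)),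
      (∀ k ∈ C, y ≤ (k : ℕ) ∧ (k : ℕ) < y + L) → C.Nonempty → C.card ≤ q → s ≤ ∑ k ∈ C, x k ^ 2 → y ∈ F} ⊆
      {x | ((M + 1 : ℕ) : ENNReal) ≤ f x} := by
    intro x hx
    rw [Set.mem_ofPred_eq] at hx ⊢
    rw [hcnt]
    by_contra hlt
    apply hx
    refine ⟨(Finset.range m).filter fun y => x ∈ UpAF_E m y L q s, ?_, ?_⟩
    · rw [not_le] at hlt
      have h1 : ((Finset.range m).filter fun y => x ∈ UpAF_E m y L q s).card < M + 1 := by exact_mod_cast hlt
      omega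
    · intro y C hC hne hcard hsum
      rw [Finset.mem_filter]
      exact ⟨Finset.mem_range.mpr (UpAF_lt hC hne), UpAF_mem.mpr ⟨C, hC, hne, hcard, hsum⟩⟩
  have hM : (0 : ℝ) < (M : ℝ) + 1 := by positivity
  calc gam m _ ≤ gam m {x | ((M + 1 : ℕ) : ENNReal) ≤ f x} := measure_mono hsub
    _ ≤ (∫⁻ x, f x ∂(gam m)) / ((M + 1 : ℕ) : ENNReal) :=
        meas_ge_le_lintegral_div hf.aemeasurable (by simp) (ENNReal.natCast_ne_top _)
    _ ≤ ENNReal.ofReal (m * (L + 1) ^ q * (1 / √ζ) ^ q * Real.exp (-((1 - ζ) * s / 2))) / ((M + 1 : ℕ) : ENNReal) := by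
        rw [hint]
        gcongr
        exact UpAF_sum hζ hζ1
    _ = ENNReal.ofReal (m * (L + 1) ^ q * (1 / √ζ) ^ q * Real.exp (-((1 - ζ) * s / 2)) / (M + 1)) := by
        rw [ENNReal.ofReal_div_of_pos hM]
        congr 1
        rw [← ENNReal.ofReal_natCast]
        push_cast
        rfl

theorem UpAF_edge {m L : ℕ} {ζ s : ℝ} (hζ : 0 < ζ) (hζ1 : ζ < 1) (hs : 0 < s) :
    gam m {x | ¬ ∀ k : Fin m, ((k : ℕ) < 3 * L ∨ m ≤ (k : ℕ) + 3 * L) → |x k| < s} ≤
      ENNReal.ofReal (6 * L * (1 / √ζ) * Real.exp (-((1 - ζ) * s ^ 2 / 2))) := by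
  classical
  let B : Finset (Fin m) := Finset.univ.filter fun k => (k : ℕ) < 3 * L ∨ m ≤ (k : ℕ) + 3 * L
  have hB : B.card ≤ 6 * L := by
    have h1 : B.map Fin.valEmbedding ⊆ Finset.range (3 * L) ∪ Finset.Ico (m - 3 * L) m := by
      intro j hj
      rw [Finset.mem_map] at hj
      obtain ⟨k, hk, rfl⟩ := hj
      rw [Finset.mem_filter] at hk
      rw [Finset.mem_union, Finset.mem_range, Finset.mem_Ico]
      rcases hk.2 with h | h
      · left; exact h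
      · right
        have := k.2
        exact ⟨by show m - 3 * L ≤ (k : ℕ); omega, k.2⟩
    have h2 := (Finset.card_le_card h1).trans (Finset.card_union_le _ _)
    rw [Finset.card_map, Finset.card_range, Nat.card_Ico] at h2
    omega
  have hsub : {x : Fin m → ℝ | ¬ ∀ k : Fin m, ((k : ℕ) < 3 * L ∨ m ≤ (k : ℕ) + 3 * L) → |x k| < s} ⊆
      ⋃ k ∈ B, {x | s ^ 2 ≤ ∑ j ∈ ({k} : Finset (Fin m)), x j ^ 2} := by
    intro x hx
    rw [Set.mem_ofPred_eq] at hx
    push Not at hx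
    obtain ⟨k, hk, hxk⟩ := hx
    simp only [Set.mem_iUnion]
    refine ⟨k, Finset.mem_filter.mpr ⟨Finset.mem_univ _, hk⟩, ?_⟩
    rw [Set.mem_ofPred_eq, Finset.sum_singleton, ← sq_abs (x k)]
    exact pow_le_pow_left₀ hs.le hxk 2
  calc gam m _ ≤ gam m (⋃ k ∈ B, {x | s ^ 2 ≤ ∑ j ∈ ({k} : Finset (Fin m)), x j ^ 2}) := measure_mono hsub
    _ ≤ ∑ k ∈ B, gam m {x | s ^ 2 ≤ ∑ j ∈ ({k} : Finset (Fin m)), x j ^ 2} := measure_biUnion_finset_le _ _
    _ ≤ ∑ k ∈ B, ENNReal.ofReal ((1 / √ζ) * Real.exp (-((1 - ζ) * s ^ 2 / 2))) := by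
        refine Finset.sum_le_sum fun k _ => (chi_tail {k} hζ hζ1).trans (le_of_eq ?_)
        rw [Finset.card_singleton, pow_one]
    _ = (B.card : ENNReal) * ENNReal.ofReal ((1 / √ζ) * Real.exp (-((1 - ζ) * s ^ 2 / 2))) := by
        rw [Finset.sum_const, nsmul_eq_mul]
    _ ≤ ENNReal.ofReal ((6 * L : ℕ) : ℝ) * ENNReal.ofReal ((1 / √ζ) * Real.exp (-((1 - ζ) * s ^ 2 / 2))) := by
        gcongr
        rw [ENNReal.ofReal_natCast]
        exact_mod_cast hB
    _ = ENNReal.ofReal (6 * L * (1 / √ζ) * Real.exp (-((1 - ζ) * s ^ 2 / 2))) := by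
        rw [← ENNReal.ofReal_mul (by positivity)]
        congr 1
        push_cast
        ring

end TZ
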