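import Pool.Agent.TZ.Defs
import Pool.Agent.TZ.UpAF

/-!
Project TZ (MP_b753aa_pr), module UpA: union bounds, nonasymptotic.
Proof. A nonempty `C` in a window `[y, y+L)` has `y < m`; there are at most `(L+1)^q` sets of at most `q` sites in a window (code by
functions `Fin q → Option (Fin L)`, or `∑_{i ≤ q} L.choose i ≤ (L+1)^q`). Union bound with `chi_tail`; `(1/√ζ)^{card} ≤ (1/√ζ)^q`.
(upSq): the event fails for `C = ∅` never (`0 < s`). (upFew): the number of `y < m` such that some `C` is large has expectation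
`≤ m (L+1)^q ...`, Markov (`meas_ge_le_lintegral_div` or: `lintegral` of the count `= ∑ measures`), and `M + 1 ≤ count` is the complement.
(upEdge): at most `6L` indices.
-/

noncomputable section

namespace TZ

open MeasureTheory ProbabilityTheory Filter Topology Matrix
open scoped Real

theorem upSq {m L q : ℕ} {ζ s : ℝ} (hζ : 0 < ζ) (hζ1 : ζ < 1) (hs : 0 < s) :
    gam m {x | ¬ ∀ y : ℕ, ∀ C : Finset (Fin m), (∀ k ∈ C, y ≤ (k : ℕ) ∧ (k : ℕ) < y + L) → C.card ≤ q →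
      ∑ k ∈ C, x k ^ 2 < s} ≤
      ENNReal.ofReal (m * (L + 1) ^ q * (1 / √ζ) ^ q * Real.exp (-((1 - ζ) * s / 2))) := UpAF_sq hζ hζ1 hs

theorem upFew {m L q M : ℕ} {ζ s : ℝ} (hζ : 0 < ζ) (hζ1 : ζ < 1) :
    gam m {x | ¬ ∃ F : Finset ℕ, F.card ≤ M ∧ ∀ (y : ℕ) (C : Finset (Fin m)),
      (∀ k ∈ C, y ≤ (k : ℕ) ∧ (k : ℕ) < y + L) → C.Nonempty → C.card ≤ q → s ≤ ∑ k ∈ C, x k ^ 2 → y ∈ F} ≤
      ENNReal.ofReal (m * (L + 1) ^ q * (1 / √ζ) ^ q * Real.exp (-((1 - ζ) * s / 2)) / (M + 1)) := UpAF_few hζ hζ1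

theorem upEdge {m L : ℕ} {ζ s : ℝ} (hζ : 0 < ζ) (hζ1 : ζ < 1) (hs : 0 < s) :
    gam m {x | ¬ ∀ k : Fin m, ((k : ℕ) < 3 * L ∨ m ≤ (k : ℕ) + 3 * L) → |x k| < s} ≤
      ENNReal.ofReal (6 * L * (1 / √ζ) * Real.exp (-((1 - ζ) * s ^ 2 / 2))) := UpAF_edge hζ hζ1 hs

end TZ
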