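import Pool.Agent.TZ.Defs
import Pool.Agent.TZ.UpA

/-!
Project TZ (MP_b753aa_pr), module UpB: the upper event has probability tending to one.
Proof. `m = n - 1`, `L = (rr η n)²`, `q = qq η`, `ζ = η/2`, `exp(-c θ²/2) = n^{-c}` for `θ = th n`. With `α = η³/100`: `L + 1 ≤ 5 n^{2α}`,
`2αq ≤ η/10` (`q ≤ 4/η² + 1 ≤ 5/η²`). (upSq), `s = ((1+η)θ)²`: exponent of `n` at most `1 + η/10 - (1-η/2)(1+η)² < 0`.
(upFew), `s = ((1-4√η)θ)²`: `1 + η/10 - (1-η/2)(1-4√η)² - 20√η < 0` (`M + 1 ≥ n^{20√η}`). (upEdge), `s = ηθ`: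
`2α - (1-η/2)η² < 0`. All prefactors are constants.
-/

noncomputable section

namespace TZ

open MeasureTheory ProbabilityTheory Filter Topology Matrix
open scoped Real

theorem UpB_th {n : ℕ} (hn : 1 ≤ n) : th n ^ 2 = 2 * Real.log n := by
  have h1 : (1 : ℝ) ≤ n := by exact_mod_cast hn
  have h2 := Real.log_nonneg h1
  unfold th
  exact Real.sq_sqrt (by positivity)

theorem UpB_exp (c : ℝ) {n : ℕ} (hn : 1 ≤ n) : Real.exp (-(c * th n ^ 2 / 2)) = (n : ℝ) ^ (-c) := by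
  have h1 : (0 : ℝ) < n := by exact_mod_cast hn
  rw [UpB_th hn, Real.rpow_def_of_pos h1]
  congr 1
  ring

theorem UpB_L {η : ℝ} (hη : 0 < η) {n : ℕ} (hn : 1 ≤ n) :
    (((rr η n ^ 2 : ℕ) : ℝ) + 1) ≤ 5 * (n : ℝ) ^ (η ^ 3 / 50) := by
  have h1 : (1 : ℝ) ≤ n := by exact_mod_cast hn
  have h0 : (0 : ℝ) < n := by linarith
  have hα : 0 ≤ η ^ 3 / 100 := by positivity
  have h2 : (1 : ℝ) ≤ (n : ℝ) ^ (η ^ 3 / 100) := Real.one_le_rpow h1 hα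
  have h3 : ((rr η n : ℕ) : ℝ) ≤ 2 * (n : ℝ) ^ (η ^ 3 / 100) := by
    have h4 := (Nat.ceil_lt_add_one (a := (n : ℝ) ^ (η ^ 3 / 100)) (by linarith)).le
    unfold rr
    linarith
  have h5 : (n : ℝ) ^ (η ^ 3 / 50) = (n : ℝ) ^ (η ^ 3 / 100) * (n : ℝ) ^ (η ^ 3 / 100) := by
    rw [← Real.rpow_add h0]
    congr 1
    ring
  rw [h5]
  push_cast
  have h6 : (0 : ℝ) ≤ (rr η n : ℝ) := Nat.cast_nonneg _
  nlinarith

theorem UpB_q {η : ℝ} (hη : 0 < η) (hη1 : η ≤ 1 / 10000) : η ^ 3 / 50 * (qq η : ℝ) ≤ η / 10 := by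
  have h1 : ((qq η : ℕ) : ℝ) ≤ 5 / η ^ 2 := by
    have h2 := (Nat.ceil_lt_add_one (a := 4 / η ^ 2) (by positivity)).le
    have h3 : (1 : ℝ) ≤ 1 / η ^ 2 := by
      rw [le_div_iff₀ (by positivity)]
      nlinarith
    have h4 : 4 / η ^ 2 + 1 / η ^ 2 = 5 / η ^ 2 := by ring
    unfold qq
    linarith
  calc η ^ 3 / 50 * (qq η : ℝ) ≤ η ^ 3 / 50 * (5 / η ^ 2) := by gcongr
    _ = η / 10 := by field_simp; norm_num

theorem UpB_Lq {η : ℝ} (hη : 0 < η) (hη1 : η ≤ 1 / 10000) {n : ℕ} (hn : 1 ≤ n) :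
    (((rr η n ^ 2 : ℕ) : ℝ) + 1) ^ (qq η) ≤ 5 ^ (qq η) * (n : ℝ) ^ (η / 10) := by
  have h1 : (1 : ℝ) ≤ n := by exact_mod_cast hn
  calc (((rr η n ^ 2 : ℕ) : ℝ) + 1) ^ (qq η) ≤ (5 * (n : ℝ) ^ (η ^ 3 / 50)) ^ (qq η) := by
        gcongr
        exact UpB_L hη hn
    _ = 5 ^ (qq η) * (n : ℝ) ^ (η ^ 3 / 50 * (qq η : ℝ)) := by
        rw [mul_pow, ← Real.rpow_natCast ((n : ℝ) ^ (η ^ 3 / 50)), ← Real.rpow_mul (by positivity)]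
    _ ≤ 5 ^ (qq η) * (n : ℝ) ^ (η / 10) := by
        exact mul_le_mul_of_nonneg_left (Real.rpow_le_rpow_of_exponent_le h1 (UpB_q hη hη1)) (by positivity)

/-- the common estimate -/
theorem UpB_main {η : ℝ} (hη : 0 < η) (hη1 : η ≤ 1 / 10000) (c : ℝ) {n : ℕ} (hn : 1 ≤ n) {K : ℝ} (hK : 0 ≤ K) :
    ((n - 1 : ℕ) : ℝ) * (((rr η n ^ 2 : ℕ) : ℝ) + 1) ^ (qq η) * K *
      Real.exp (-((1 - η / 2) * (c * th n) ^ 2 / 2)) ≤
      5 ^ (qq η) * K * (n : ℝ) ^ (1 + η / 10 - (1 - η / 2) * c ^ 2) := by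
  have h1 : (1 : ℝ) ≤ n := by exact_mod_cast hn
  have h0 : (0 : ℝ) < n := by linarith
  have h2 : Real.exp (-((1 - η / 2) * (c * th n) ^ 2 / 2)) = (n : ℝ) ^ (-((1 - η / 2) * c ^ 2)) := by
    rw [← UpB_exp _ hn]
    congr 1
    ring
  have h3 : ((n - 1 : ℕ) : ℝ) ≤ n := by exact_mod_cast Nat.sub_le n 1
  rw [h2]
  calc ((n - 1 : ℕ) : ℝ) * (((rr η n ^ 2 : ℕ) : ℝ) + 1) ^ (qq η) * K * (n : ℝ) ^ (-((1 - η / 2) * c ^ 2))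
      ≤ n * (5 ^ (qq η) * (n : ℝ) ^ (η / 10)) * K * (n : ℝ) ^ (-((1 - η / 2) * c ^ 2)) := by
        gcongr
        exact UpB_Lq hη hη1 hn
    _ = 5 ^ (qq η) * K * ((n : ℝ) ^ (1 : ℝ) * (n : ℝ) ^ (η / 10) * (n : ℝ) ^ (-((1 - η / 2) * c ^ 2))) := by
        rw [Real.rpow_one]; ring
    _ = 5 ^ (qq η) * K * (n : ℝ) ^ (1 + η / 10 - (1 - η / 2) * c ^ 2) := by
        rw [← Real.rpow_add h0, ← Real.rpow_add h0]
        congr 2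

theorem UpB_lim {C δ : ℝ} (hδ : 0 < δ) :
    Tendsto (fun n : ℕ => ENNReal.ofReal (C * (n : ℝ) ^ (-δ))) atTop (𝓝 0) := by
  have h1 : Tendsto (fun n : ℕ => C * (n : ℝ) ^ (-δ)) atTop (𝓝 (C * 0)) :=
    ((tendsto_rpow_neg_atTop hδ).comp tendsto_natCast_atTop_atTop).const_mul C
  rw [mul_zero] at h1
  have h2 := ENNReal.tendsto_ofReal h1
  rwa [ENNReal.ofReal_zero] at h2

theorem upB {η : ℝ} (hη : 0 < η) (hη1 : η ≤ 1 / 10000) :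
    Tendsto (fun n : ℕ => gam (n - 1) {x | ¬ XUp x η (th n) (rr η n ^ 2) (qq η) (MM η n)}) atTop (𝓝 0) := by
  obtain ⟨t, ht0, ht⟩ : ∃ t : ℝ, 0 < t ∧ t ^ 2 = η := ⟨√η, Real.sqrt_pos.mpr hη, Real.sq_sqrt hη.le⟩
  have hsq : √η = t := by rw [← ht]; exact Real.sqrt_sq ht0.le
  have ht1 : t ≤ 1 / 100 := by nlinarith
  have hζ : 0 < η / 2 := by positivity
  have hζ1 : η / 2 < 1 := by linarith
  set q := qq η with hq
  set K : ℝ := (1 / √(η / 2)) ^ q with hK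
  have hK0 : 0 ≤ K := by positivity
  set K' : ℝ := 1 / √(η / 2) with hK'
  have hK'0 : 0 ≤ K' := by positivity
  set δ₁ : ℝ := -(1 + η / 10 - (1 - η / 2) * (1 + η) ^ 2) with hδ₁
  set δ₂ : ℝ := -(1 + η / 10 - (1 - η / 2) * (1 - 4 * √η) ^ 2 - 20 * √η) with hδ₂
  set δ₃ : ℝ := -(η ^ 3 / 50 - (1 - η / 2) * η ^ 2) with hδ₃
  have h1 : 0 < δ₁ := by
    rw [hδ₁]; nlinarith [mul_pos hη hη, mul_pos (mul_pos hη hη) hη]
  have h2 : 0 < δ₂ := by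
    rw [hδ₂, hsq, ← ht]
    have e : -(1 + t ^ 2 / 10 - (1 - t ^ 2 / 2) * (1 - 4 * t) ^ 2 - 20 * t) =
      t * (12 + 15.4 * t + 4 * t ^ 2 - 8 * t ^ 3) := by ring
    rw [e]
    apply mul_pos ht0
    have e2 : t ^ 3 ≤ 1 := pow_le_one₀ ht0.le (by linarith)
    nlinarith [mul_pos ht0 ht0]
  have h3 : 0 < δ₃ := by
    rw [hδ₃]; nlinarith [mul_pos hη hη, mul_pos (mul_pos hη hη) hη]
  have hlim : Tendsto (fun n : ℕ => ENNReal.ofReal (5 ^ q * K * (n : ℝ) ^ (-δ₁)) +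
      ENNReal.ofReal (5 ^ q * K * (n : ℝ) ^ (-δ₂)) + ENNReal.ofReal (30 * K' * (n : ℝ) ^ (-δ₃))) atTop (𝓝 0) := by
    have := ((UpB_lim (C := 5 ^ q * K) h1).add (UpB_lim (C := 5 ^ q * K) h2)).add (UpB_lim (C := 30 * K') h3)
    simpa using this
  refine tendsto_of_tendsto_of_tendsto_of_le_of_le' tendsto_const_nhds hlim (Eventually.of_forall fun n => bot_le) ?_
  filter_upwards [eventually_ge_atTop 2] with n hn
  have hn1 : 1 ≤ n := by omega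
  have hnr : (1 : ℝ) ≤ n := by exact_mod_cast hn1
  have hn0 : (0 : ℝ) < n := by linarith
  have hth : 0 < th n := by
    unfold th
    apply Real.sqrt_pos.mpr
    have : 0 < Real.log n := Real.log_pos (by exact_mod_cast hn)
    positivity
  have b1 := upSq (m := n - 1) (L := rr η n ^ 2) (q := q) hζ hζ1 (s := ((1 + η) * th n) ^ 2) (by positivity)
  have b2 := upFew (m := n - 1) (L := rr η n ^ 2) (q := q) (M := MM η n) hζ hζ1 (s := ((1 - 4 * √η) * th n) ^ 2)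
  have b3 := upEdge (m := n - 1) (L := rr η n ^ 2) hζ hζ1 (s := η * th n) (by positivity)
  have c1 : ENNReal.ofReal (((n - 1 : ℕ) : ℝ) * (((rr η n ^ 2 : ℕ) : ℝ) + 1) ^ q * (1 / √(η / 2)) ^ q *
      Real.exp (-((1 - η / 2) * ((1 + η) * th n) ^ 2 / 2))) ≤ ENNReal.ofReal (5 ^ q * K * (n : ℝ) ^ (-δ₁)) := by
    apply ENNReal.ofReal_le_ofReal
    have := UpB_main hη hη1 (1 + η) hn1 hK0
    rw [hδ₁, neg_neg]
    exact this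
  have c2 : ENNReal.ofReal (((n - 1 : ℕ) : ℝ) * (((rr η n ^ 2 : ℕ) : ℝ) + 1) ^ q * (1 / √(η / 2)) ^ q *
      Real.exp (-((1 - η / 2) * ((1 - 4 * √η) * th n) ^ 2 / 2)) / ((MM η n : ℕ) + 1)) ≤
      ENNReal.ofReal (5 ^ q * K * (n : ℝ) ^ (-δ₂)) := by
    apply ENNReal.ofReal_le_ofReal
    have h4 := UpB_main hη hη1 (1 - 4 * √η) hn1 hK0
    have h5 : (n : ℝ) ^ (20 * √η) ≤ ((MM η n : ℕ) : ℝ) + 1 := (Nat.lt_floor_add_one _).le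
    have h6 : 0 < (n : ℝ) ^ (20 * √η) := Real.rpow_pos_of_pos hn0 _
    rw [div_le_iff₀ (lt_of_lt_of_le h6 h5)]
    calc ((n - 1 : ℕ) : ℝ) * (((rr η n ^ 2 : ℕ) : ℝ) + 1) ^ q * (1 / √(η / 2)) ^ q *
        Real.exp (-((1 - η / 2) * ((1 - 4 * √η) * th n) ^ 2 / 2))
        ≤ 5 ^ q * K * (n : ℝ) ^ (1 + η / 10 - (1 - η / 2) * (1 - 4 * √η) ^ 2) := h4
      _ = 5 ^ q * K * (n : ℝ) ^ (-δ₂) * (n : ℝ) ^ (20 * √η) := by
          rw [mul_assoc (5 ^ q * K), ← Real.rpow_add hn0, hδ₂]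
          congr 2
          ring
      _ ≤ 5 ^ q * K * (n : ℝ) ^ (-δ₂) * (((MM η n : ℕ) : ℝ) + 1) := by gcongr
  have c3 : ENNReal.ofReal (6 * ((rr η n ^ 2 : ℕ) : ℝ) * (1 / √(η / 2)) *
      Real.exp (-((1 - η / 2) * (η * th n) ^ 2 / 2))) ≤ ENNReal.ofReal (30 * K' * (n : ℝ) ^ (-δ₃)) := by
    apply ENNReal.ofReal_le_ofReal
    have h4 : Real.exp (-((1 - η / 2) * (η * th n) ^ 2 / 2)) = (n : ℝ) ^ (-((1 - η / 2) * η ^ 2)) := by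
      rw [← UpB_exp _ hn1]
      congr 1
      ring
    have h5 : ((rr η n ^ 2 : ℕ) : ℝ) ≤ 5 * (n : ℝ) ^ (η ^ 3 / 50) := by
      have := UpB_L hη hn1
      linarith
    rw [h4]
    calc 6 * ((rr η n ^ 2 : ℕ) : ℝ) * (1 / √(η / 2)) * (n : ℝ) ^ (-((1 - η / 2) * η ^ 2))
        ≤ 6 * (5 * (n : ℝ) ^ (η ^ 3 / 50)) * K' * (n : ℝ) ^ (-((1 - η / 2) * η ^ 2)) := by gcongr
      _ = 30 * K' * ((n : ℝ) ^ (η ^ 3 / 50) * (n : ℝ) ^ (-((1 - η / 2) * η ^ 2))) := by ring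
      _ = 30 * K' * (n : ℝ) ^ (-δ₃) := by
          rw [← Real.rpow_add hn0, hδ₃]
          congr 2
          ring
  have hsub : {x : Fin (n - 1) → ℝ | ¬ XUp x η (th n) (rr η n ^ 2) q (MM η n)} ⊆
      {x | ¬ ∀ y : ℕ, ∀ C : Finset (Fin (n - 1)), (∀ k ∈ C, y ≤ (k : ℕ) ∧ (k : ℕ) < y + rr η n ^ 2) → C.card ≤ q →
        ∑ k ∈ C, x k ^ 2 < ((1 + η) * th n) ^ 2} ∪
      {x | ¬ ∃ F : Finset ℕ, F.card ≤ MM η n ∧ ∀ (y : ℕ) (C : Finset (Fin (n - 1))),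
        (∀ k ∈ C, y ≤ (k : ℕ) ∧ (k : ℕ) < y + rr η n ^ 2) → C.Nonempty → C.card ≤ q →
          ((1 - 4 * √η) * th n) ^ 2 ≤ ∑ k ∈ C, x k ^ 2 → y ∈ F} ∪
      {x | ¬ ∀ k : Fin (n - 1), ((k : ℕ) < 3 * rr η n ^ 2 ∨ n - 1 ≤ (k : ℕ) + 3 * rr η n ^ 2) → |x k| < η * th n} := by
    intro x hx
    by_contra hno
    simp only [Set.mem_union, Set.mem_ofPred_eq, not_or, not_not] at hno
    exact hx ⟨hno.1.1, hno.1.2, hno.2⟩
  calc gam (n - 1) {x | ¬ XUp x η (th n) (rr η n ^ 2) q (MM η n)} ≤ _ := measure_mono hsub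
    _ ≤ _ := (measure_union_le _ _).trans (add_le_add (measure_union_le _ _) le_rfl)
    _ ≤ _ := add_le_add (add_le_add (b1.trans c1) (b2.trans c2)) (b3.trans c3)

end TZ
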