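import Pool.Agent.TZ.Defs
import Pool.Agent.TZ.KerA
import Pool.Agent.TZ.KerB
import Pool.Agent.TZ.Best
import Pool.Agent.TZ.LowD
import Pool.Agent.TZ.Sch
import Pool.Agent.TZ.DetB
import Pool.Agent.TZ.Law
import Pool.Agent.TZ.UpB
import Pool.Agent.TZ.LowP
import Pool.Agent.TZ.Fold
import Pool.Agent.TZ.Ray
import Pool.Agent.TZ.Num
import Pool.Agent.TZ.Ext

/-!
Project TZ (MP_b753aa_pr), module Asm: localization at the spectral edge.
-/

noncomputable section

namespace TZ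

open MeasureTheory ProbabilityTheory Filter Topology Matrix
open scoped Real

theorem cd_self {n : ℕ} (k : Fin (2 * n)) : cd k k = 0 := by
  unfold cd
  simp

/-- the good event -/
def Gd (η : ℝ) (Mt : ℕ) (yy : ℕ → ℝ) (n : ℕ) : Set ((Fin n → ℝ) × (ℝ × ℝ)) := {ω | ∀ hn : 2 ≤ n,
  XUp (fun i : Fin (n - 1) => dE n ω ⟨(i : ℕ) + 1, by omega⟩) η (th n) (rr η n ^ 2) (qq η) (MM η n) ∧
  (∃ x0 : ℕ, x0 + Mt ≤ n - 1 ∧ ∀ k : Fin (n - 1), x0 ≤ (k : ℕ) → (k : ℕ) < x0 + Mt →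
    (1 - η) * yy ((k : ℕ) - x0) * th n ≤ dE n ω ⟨(k : ℕ) + 1, by omega⟩) ∧
  ∀ k : Fin (2 * n), ((k : ℕ) = 0 ∨ (k : ℕ) = n) → |dE n ω k| < η * th n}

theorem Gd_prob {η : ℝ} (hη : 0 < η) (hη1 : η ≤ 1 / 10000) {Mt : ℕ} (hM : 1 ≤ Mt) {yy : ℕ → ℝ}
    (hy : ∀ j, 0 ≤ yy j) (hy1 : ∑ j ∈ Finset.range Mt, yy j ^ 2 ≤ 1) :
    Tendsto (fun n : ℕ => ext n (Gd η Mt yy n)ᶜ) atTop (𝓝 0) := by
  have h1 := upB hη hη1
  have h2 := lowP hη (by linarith) hM hy hy1
  have h3 : Tendsto (fun n : ℕ => 2 * ENNReal.ofReal (2 / (η * th n) ^ 2)) atTop (𝓝 0) := by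
    have a1 : Tendsto (fun n : ℕ => (η * th n) ^ 2) atTop atTop :=
      (tendsto_pow_atTop (by norm_num)).comp (th_tendsto.const_mul_atTop hη)
    have a2 : Tendsto (fun n : ℕ => 2 / (η * th n) ^ 2) atTop (𝓝 0) := a1.const_div_atTop _
    have a3 := ENNReal.tendsto_ofReal a2
    rw [ENNReal.ofReal_zero] at a3
    have a4 := ENNReal.Tendsto.const_mul (a := 2) a3 (Or.inr (by norm_num))
    rwa [mul_zero] at a4
  have h4 := (h1.add h2).add h3
  simp only [add_zero] at h4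
  refine tendsto_of_tendsto_of_tendsto_of_le_of_le' tendsto_const_nhds h4
    (Eventually.of_forall fun n => zero_le) ?_
  filter_upwards [eventually_ge_atTop 2] with n hn
  have hsub : (Gd η Mt yy n)ᶜ ⊆
      ({ω | (fun i : Fin (n - 1) => dE n ω ⟨(i : ℕ) + 1, by omega⟩) ∈
        {x | ¬ XUp x η (th n) (rr η n ^ 2) (qq η) (MM η n)}} ∪
      {ω | (fun i : Fin (n - 1) => dE n ω ⟨(i : ℕ) + 1, by omega⟩) ∈ {x : Fin (n - 1) → ℝ | ¬ ∃ x0 : ℕ,
        x0 + Mt ≤ n - 1 ∧ ∀ k : Fin (n - 1), x0 ≤ (k : ℕ) → (k : ℕ) < x0 + Mt →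
          (1 - η) * yy ((k : ℕ) - x0) * th n ≤ x k}}) ∪
      ({ω | η * th n ≤ |dE n ω ⟨0, by omega⟩|} ∪ {ω | η * th n ≤ |dE n ω ⟨n, by omega⟩|}) := by
    intro ω hω
    by_contra hcon
    simp only [Set.mem_union, Set.mem_setOf_eq, not_or, not_not, not_le] at hcon
    obtain ⟨⟨b1, b2⟩, b3, b4⟩ := hcon
    refine hω fun _ => ⟨b1, b2, fun k hk => ?_⟩
    rcases hk with hk | hk
    · have : k = ⟨0, by omega⟩ := Fin.ext hk
      rw [this]; exact b3
    · have : k = ⟨n, by omega⟩ := Fin.ext hk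
      rw [this]; exact b4
  have hθ : 0 < η * th n := mul_pos hη (th_pos hn)
  refine (measure_mono hsub).trans ((measure_union_le _ _).trans (add_le_add
    ((measure_union_le _ _).trans (add_le_add (law_le n hn _) (law_le n hn _)))
    ((measure_union_le _ _).trans ?_)))
  refine (add_le_add (law0 n (by omega) _ hθ) (law0 n (by omega) _ hθ)).trans (le_of_eq ?_)
  exact (two_mul _).symm

/-- localization on the good event -/
theorem edge_det {ε η : ℝ} (hη : 0 < η) (hη1 : η ≤ 1 / 10000) (hε : 41 * √η ≤ ε) (hε2 : 200 * √η ≤ ε) :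
    ∃ (Mt : ℕ) (yy : ℕ → ℝ), 1 ≤ Mt ∧ (∀ j, 0 ≤ yy j) ∧ ∑ j ∈ Finset.range Mt, yy j ^ 2 ≤ 1 ∧
      ∀ᶠ n : ℕ in atTop, ∀ ω ∈ Gd η Mt yy n, ∀ (c : ℝ) (v : Fin (2 * n) → ℂ) (lam : ℝ),
        Eig n ω.1 c v lam → Top n ω.1 c lam (η * √(Real.log n)) → Loc n v ε := by
  obtain ⟨Mt, yy, n0, hMt, hy, hy1, hlow⟩ := lowD hη (by linarith)
  refine ⟨Mt, yy, hMt, hy, hy1, ?_⟩
  filter_upwards [eventually_ge_atTop 2, eventually_ge_atTop n0, ev_r hη, ev_L hη hη1, ev_q hη (qq η),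
    ev_sch hη (qq η), ev_card hη hε (qq η)] with n hn hn0 hr hL hq hsch hcard ω hω c v lam hv htop
  obtain ⟨hX, ⟨x0, hx0, hprof⟩, h0⟩ := hω hn
  have hθ := th_pos hn
  have hnR : (0 : ℝ) < n := by exact_mod_cast (show 0 < n by omega)
  have hrpos : 1 ≤ rr η n := by
    by_contra hcon
    have : rr η n = 0 := by omega
    rw [this] at hr
    norm_num at hr
  set L := rr η n ^ 2 with hLdef
  have hL1 : 1 ≤ L := Nat.one_le_pow _ _ hrpos
  have hrL : rr η n ≤ L := by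
    rw [hLdef, sq]
    exact Nat.le_mul_of_pos_left _ hrpos
  have hsym : ∀ k k' : Fin (2 * n), (k : ℕ) + (k' : ℕ) = 2 * n → dE n ω k = dE n ω k' := fun k k' h =>
    dr_symm n _ _ k k' h
  have hD : DUp (dE n ω) η (th n) L (qq η) (2 * MM η n) := by
    refine fold hX hL1 (qq_ge hη) hη (by linarith) hθ (fun k i hki => ?_) hsym h0
    have : k = ⟨(i : ℕ) + 1, by omega⟩ := Fin.ext hki
    rw [this]
  -- the form is large somewhere
  obtain ⟨v0, hv0, hv01, hv0d⟩ := hlow n hn0 (dE n ω) (th n) hθ (fun k => (abs_le.1 (hD.bd k)).1 |> fun h => by linarith)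
    (x0 + 1) (by omega) (fun k hk1 hk2 => by
      have hkn : (k : ℕ) - 1 < n - 1 := by omega
      have := hprof ⟨(k : ℕ) - 1, hkn⟩ (by simp only; omega) (by simp only; omega)
      have e1 : (k : ℕ) - 1 - x0 = (k : ℕ) - (x0 + 1) := by omega
      have e2 : (⟨(k : ℕ) - 1 + 1, by omega⟩ : Fin (2 * n)) = k := Fin.ext (by simp only; omega)
      simp only [e1, e2] at this
      exact this)
  obtain ⟨v', lam', hv', hv'1, hv'e, hv'l⟩ := ray (PP_herm n) (PP_idem n) (dE n ω) hv0 hv01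
  have h1 := htop v' _ (ext_eig c hv' hv'1 hv'e)
  have h2 := ext_val hv
  have hth : η * √(Real.log n) ≤ η * th n := by
    refine mul_le_mul_of_nonneg_left ?_ hη.le
    unfold th
    refine Real.sqrt_le_sqrt ?_
    have := Real.log_nonneg (show (1 : ℝ) ≤ n by exact_mod_cast (show 1 ≤ n by omega))
    linarith
  have hlam : (K0 - 5 * η) * th n ≤ ∑ k, dE n ω k * ‖v k‖ ^ 2 := by
    rw [h2]
    have e1 : (K0 - 5 * η) * th n = (K0 - 4 * η) * th n - η * th n := by ring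
    rw [e1]
    linarith
  -- kernel bounds
  have hdec : ∀ k l : Fin (2 * n), k ≠ l → ‖PP n k l‖ ≤ 1 / (2 * (cd k l : ℝ)) := PP_dec n
  have hne : ∀ (m : ℕ), 1 ≤ m → ∀ k l : Fin (2 * n), m ≤ cd k l → k ≠ l := by
    rintro m hm k l h rfl
    rw [cd_self] at h
    omega
  set R : ℕ := ⌈(2 * MM η n : ℝ) * qq η / η⌉₊ + 1 with hR
  have hR1 : 1 ≤ R := by omega
  have hceil : (2 * MM η n : ℝ) * qq η / η ≤ (⌈(2 * MM η n : ℝ) * qq η / η⌉₊ : ℝ) := Nat.le_ceil _
  have hceil2 : (⌈(2 * MM η n : ℝ) * qq η / η⌉₊ : ℝ) ≤ (2 * MM η n : ℝ) * qq η / η + 1 :=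
    (Nat.ceil_lt_add_one (by positivity)).le
  have hR2 : (((2 * MM η n : ℕ) : ℝ) * qq η : ℝ) ≤ η * R := by
    have e1 : (((2 * MM η n : ℕ) : ℝ) * qq η : ℝ) = η * ((2 * MM η n : ℝ) * qq η / η) := by
      push_cast
      field_simp
    rw [e1]
    refine mul_le_mul_of_nonneg_left ?_ hη.le
    have e2 : (R : ℝ) = (⌈(2 * MM η n : ℝ) * qq η / η⌉₊ : ℝ) + 1 := by
      rw [hR]
      push_cast
      rfl
    rw [e2]
    linarith
  obtain ⟨S, hS, hSm⟩ := det (P := PP n) (d := dE n ω) (K := K0) (η := η) (θ := th n) (r := rr η n)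
    (q := qq η) (M := 2 * MM η n) (R := R) (PP_herm n) (PP_idem n) hD
    (fun C ⟨y, hy⟩ hC x g hx => by
      refine (transfer C hy hL hC x g hx).trans ?_
      refine mul_le_mul_of_nonneg_right (mul_le_mul_of_nonneg_right ?_ (Real.sqrt_nonneg _))
        (Finset.sum_nonneg fun _ _ => by positivity)
      linarith)
    (fun k => by
      have h3 := sch (Finset.univ.filter fun l : Fin (2 * n) => η * th n ≤ dE n ω l) (L := L) (q := qq η)
        hrpos hrL (fun y => by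
          have h4 := hD.cnt y
          unfold Hw at h4
          rw [Finset.filter_filter]
          refine le_trans (le_of_eq ?_) h4
          congr 1
          ext l
          simp only [Finset.mem_filter, Finset.mem_univ, true_and]
          tauto) k
      rw [Finset.filter_filter] at h3
      refine le_trans (Finset.sum_le_sum fun l hl => ?_) (h3.trans hsch)
      rw [Finset.mem_filter] at hl
      exact hdec k l (hne _ hrpos k l hl.2.2))
    (fun W => by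
      refine le_trans (Finset.sum_le_sum fun k hk => Finset.sum_le_sum fun l hl => ?_) (tail W hR1)
      rw [Finset.mem_filter] at hk
      exact pow_le_pow_left₀ (norm_nonneg _) (hdec k l (hne _ hR1 k l (hk.2 l hl))) 2)
    hη hη1 K0_half K0_le hθ hr hR1 hR2 hv.ran hv.unit hlam
  refine ⟨S, ?_, by linarith⟩
  refine le_trans ?_ (hcard R ?_)
  · exact_mod_cast hS
  · rw [hR]
    push_cast
    linarith

theorem edge_top {ε : ℝ} (hε : 0 < ε) : ∃ δ : ℝ, 0 < δ ∧ Tendsto (fun n : ℕ => gam n {a |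
    ¬ ∀ (c : ℝ) (v : Fin (2 * n) → ℂ) (lam : ℝ), Eig n a c v lam → Top n a c lam (δ * √(Real.log n)) →
      Loc n v ε}) atTop (𝓝 0) := by
  obtain ⟨η, hη, hη1, hη2⟩ : ∃ η : ℝ, 0 < η ∧ η ≤ 1 / 10000 ∧ 400 * √η ≤ ε := by
    refine ⟨min (1 / 10000) ((ε / 400) ^ 2), lt_min (by norm_num) (by positivity), min_le_left _ _, ?_⟩
    have h1 : √(min (1 / 10000) ((ε / 400) ^ 2)) ≤ √((ε / 400) ^ 2) := Real.sqrt_le_sqrt (min_le_right _ _)
    rw [Real.sqrt_sq (by positivity)] at h1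
    linarith
  have hs := Real.sqrt_nonneg η
  obtain ⟨Mt, yy, hMt, hy, hy1, H⟩ := edge_det hη hη1 (ε := ε) (by linarith) (by linarith)
  refine ⟨η, hη, tendsto_of_tendsto_of_tendsto_of_le_of_le' tendsto_const_nhds
    (Gd_prob hη hη1 hMt hy hy1) (Eventually.of_forall fun n => zero_le) ?_⟩
  filter_upwards [H] with n hn
  refine prod_le n _ _ fun a ha g hg => ha fun c v lam hv htop => ?_
  exact hn (a, g) hg c v lam hv htop

/-! ### the lower edge -/

theorem gam_neg (n : ℕ) : (gam n).map (fun a => -a) = gam n := by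
  unfold gam
  have h : MeasurePreserving (fun (a : Fin n → ℝ) i => -(a i)) (Measure.pi fun _ => gaussianReal 0 1)
      (Measure.pi fun _ => gaussianReal 0 1) := by
    refine measurePreserving_pi _ _ fun i => ⟨measurable_neg, ?_⟩
    have := gaussianReal_map_neg (μ := 0) (v := 1)
    rw [neg_zero] at this
    exact this
  exact h.map_eq

theorem bv_neg (n : ℕ) (a : Fin n → ℝ) (c : ℝ) (j : ℕ) : bv n (-a) (-c) j = -bv n a c j := by
  unfold bv
  split_ifs <;> simp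

theorem DD_neg (n : ℕ) (a : Fin n → ℝ) (c : ℝ) : DD n (-a) (-c) = -DD n a c := by
  unfold DD
  rw [show -Matrix.diagonal (dd n a c) = Matrix.diagonal (-dd n a c) from Matrix.diagonal_neg _]
  congr 1
  funext j
  simp only [Pi.neg_apply]
  unfold dd
  rw [← mul_neg, ← Finset.sum_neg_distrib]
  congr 1
  refine Finset.sum_congr rfl fun k _ => ?_
  rw [bv_neg]
  push_cast
  ring

theorem Eig_neg {n : ℕ} {a : Fin n → ℝ} {c : ℝ} {v : Fin (2 * n) → ℂ} {lam : ℝ} (h : Eig n a c v lam) :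
    Eig n (-a) (-c) v (-lam) where
  ran := h.ran
  unit := h.unit
  eig := by
    rw [DD_neg, mul_neg, neg_mul, Matrix.neg_mulVec, h.eig]
    push_cast
    rw [neg_smul]

theorem Bot_neg {n : ℕ} {a : Fin n → ℝ} {c lam w : ℝ} (h : Bot n a c lam w) : Top n (-a) (-c) (-lam) w := by
  intro v' lam' hv'
  have h1 := Eig_neg hv'
  rw [neg_neg, neg_neg] at h1
  have := h v' _ h1
  linarith

theorem edge {ε : ℝ} (hε : 0 < ε) : ∃ δ : ℝ, 0 < δ ∧ Tendsto (fun n : ℕ => gam n {a |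
    ¬ ∀ (c : ℝ) (v : Fin (2 * n) → ℂ) (lam : ℝ), Eig n a c v lam →
      (Top n a c lam (δ * √(Real.log n)) ∨ Bot n a c lam (δ * √(Real.log n))) → Loc n v ε}) atTop (𝓝 0) := by
  obtain ⟨δ, hδ, H⟩ := edge_top hε
  refine ⟨δ, hδ, ?_⟩
  have H2 := H.add H
  rw [add_zero] at H2
  refine tendsto_of_tendsto_of_tendsto_of_le_of_le tendsto_const_nhds H2 (fun n => zero_le) fun n => ?_
  set A : Set (Fin n → ℝ) := {a | ¬ ∀ (c : ℝ) (v : Fin (2 * n) → ℂ) (lam : ℝ), Eig n a c v lam →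
    Top n a c lam (δ * √(Real.log n)) → Loc n v ε} with hA
  have hsub : {a | ¬ ∀ (c : ℝ) (v : Fin (2 * n) → ℂ) (lam : ℝ), Eig n a c v lam →
      (Top n a c lam (δ * √(Real.log n)) ∨ Bot n a c lam (δ * √(Real.log n))) → Loc n v ε} ⊆
      A ∪ (fun a => -a) ⁻¹' A := by
    intro a ha
    by_contra hcon
    rw [Set.mem_union, not_or] at hcon
    obtain ⟨h1, h2⟩ := hcon
    refine ha fun c v lam hv h => ?_
    rcases h with h | h
    · by_contra h3
      exact h1 fun h4 => h3 (h4 c v lam hv h)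
    · by_contra h3
      exact h2 fun h4 => h3 (h4 (-c) v (-lam) (Eig_neg hv) (Bot_neg h))
  refine (measure_mono hsub).trans ((measure_union_le _ _).trans (add_le_add le_rfl ?_))
  have h1 : gam n ((fun a => -a) ⁻¹' A) ≤ (gam n).map (fun a => -a) A :=
    Measure.le_map_apply measurable_neg.aemeasurable A
  rwa [gam_neg] at h1

end TZ
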