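import Pool.Agent.TZ.GDefs
import Pool.Agent.TZ.KerA

/-!
Project TZ (MP_b753aa_pr), module GFs: the function `Fs`.
Proof. For `n ≥ 1` the range of `P` contains a unit vector (`P e_0 ≠ 0`, `P 0 0 = 1/2`, normalise, `PP_idem`), and `|∑ d ‖v‖²| ≤ max |d|`, so the set is
nonempty and bounded. (Fs_lip): `∑ d ‖v‖² ≤ ∑ d' ‖v‖² + e`. (Fs_cont): from (Fs_lip).
-/

noncomputable section

namespace TZ

open MeasureTheory ProbabilityTheory Filter Topology Matrix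
open scoped Real

theorem GFs_abs {n : ℕ} {d : Fin (2 * n) → ℝ} {M : ℝ} (h : ∀ k, |d k| ≤ M) {v : Fin (2 * n) → ℂ}
    (hv1 : ∑ k, ‖v k‖ ^ 2 = 1) : |∑ k, d k * ‖v k‖ ^ 2| ≤ M := by
  calc |∑ k, d k * ‖v k‖ ^ 2| ≤ ∑ k, |d k * ‖v k‖ ^ 2| := Finset.abs_sum_le_sum_abs _ _
    _ ≤ ∑ k, M * ‖v k‖ ^ 2 := by
      refine Finset.sum_le_sum fun k _ => ?_
      rw [abs_mul, abs_of_nonneg (by positivity : 0 ≤ ‖v k‖ ^ 2)]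
      exact mul_le_mul_of_nonneg_right (h k) (by positivity)
    _ = M := by rw [← Finset.mul_sum, hv1, mul_one]

theorem GFs_le {n : ℕ} {d d' : Fin (2 * n) → ℝ} {e : ℝ} (h : ∀ k, |d k - d' k| ≤ e) {v : Fin (2 * n) → ℂ}
    (hv1 : ∑ k, ‖v k‖ ^ 2 = 1) : ∑ k, d k * ‖v k‖ ^ 2 ≤ ∑ k, d' k * ‖v k‖ ^ 2 + e := by
  have h1 := GFs_abs (d := fun k => d k - d' k) h hv1
  have h2 : ∑ k, (d k - d' k) * ‖v k‖ ^ 2 = ∑ k, d k * ‖v k‖ ^ 2 - ∑ k, d' k * ‖v k‖ ^ 2 := by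
    rw [← Finset.sum_sub_distrib]
    refine Finset.sum_congr rfl fun k _ => ?_
    ring
  rw [h2] at h1
  have h3 := (abs_le.1 h1).2
  linarith

theorem GFs_bdd {n : ℕ} (d : Fin (2 * n) → ℝ) :
    BddAbove {x : ℝ | ∃ v : Fin (2 * n) → ℂ, PP n *ᵥ v = v ∧ ∑ k, ‖v k‖ ^ 2 = 1 ∧ x = ∑ k, d k * ‖v k‖ ^ 2} := by
  refine ⟨∑ k, |d k|, ?_⟩
  rintro x ⟨v, -, hv1, rfl⟩
  have h : ∀ k, |d k| ≤ ∑ k, |d k| := fun k =>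
    Finset.single_le_sum (f := fun k => |d k|) (fun _ _ => abs_nonneg _) (Finset.mem_univ k)
  exact (le_abs_self _).trans (GFs_abs h hv1)

theorem GFs_vec {n : ℕ} (hn : 1 ≤ n) : ∃ v : Fin (2 * n) → ℂ, PP n *ᵥ v = v ∧ ∑ k, ‖v k‖ ^ 2 = 1 := by
  have h2n : 0 < 2 * n := by omega
  set z : Fin (2 * n) := ⟨0, h2n⟩ with hz
  set u : Fin (2 * n) → ℂ := PP n *ᵥ (Pi.single z 1) with hu
  have hu0 : u z = 1 / 2 := by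
    rw [hu, Matrix.mulVec_single_one]
    exact PP_diag n z
  have hPu : PP n *ᵥ u = u := by
    rw [hu, Matrix.mulVec_mulVec, PP_idem]
  set N : ℝ := ∑ k, ‖u k‖ ^ 2 with hN
  have hNpos : 0 < N := by
    have h1 : ‖u z‖ ^ 2 ≤ N :=
      Finset.single_le_sum (f := fun k => ‖u k‖ ^ 2) (fun _ _ => by positivity) (Finset.mem_univ z)
    have h2 : 0 < ‖u z‖ ^ 2 := by
      rw [hu0]
      norm_num
    linarith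
  refine ⟨((1 / √N : ℝ) : ℂ) • u, ?_, ?_⟩
  · rw [Matrix.mulVec_smul, hPu]
  · have h1 : ∀ k, ‖(((1 / √N : ℝ) : ℂ) • u) k‖ ^ 2 = N⁻¹ * ‖u k‖ ^ 2 := by
      intro k
      rw [Pi.smul_apply, norm_smul, Complex.norm_real, mul_pow, Real.norm_eq_abs, sq_abs, div_pow, one_pow,
        Real.sq_sqrt hNpos.le, one_div]
    rw [Finset.sum_congr rfl fun k _ => h1 k, ← Finset.mul_sum, ← hN, inv_mul_cancel₀ hNpos.ne']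

theorem GFs_ne {n : ℕ} (hn : 1 ≤ n) (d : Fin (2 * n) → ℝ) :
    {x : ℝ | ∃ v : Fin (2 * n) → ℂ, PP n *ᵥ v = v ∧ ∑ k, ‖v k‖ ^ 2 = 1 ∧ x = ∑ k, d k * ‖v k‖ ^ 2}.Nonempty := by
  obtain ⟨v, h1, h2⟩ := GFs_vec hn
  exact ⟨_, v, h1, h2, rfl⟩

theorem Fs_ge {n : ℕ} (d : Fin (2 * n) → ℝ) {v : Fin (2 * n) → ℂ} (hv : PP n *ᵥ v = v)
    (hv1 : ∑ k, ‖v k‖ ^ 2 = 1) : ∑ k, d k * ‖v k‖ ^ 2 ≤ Fs n d :=
  le_csSup (GFs_bdd d) ⟨v, hv, hv1, rfl⟩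

theorem Fs_ex {n : ℕ} (hn : 1 ≤ n) {d : Fin (2 * n) → ℝ} {x : ℝ} (h : x < Fs n d) :
    ∃ v : Fin (2 * n) → ℂ, PP n *ᵥ v = v ∧ ∑ k, ‖v k‖ ^ 2 = 1 ∧ x < ∑ k, d k * ‖v k‖ ^ 2 := by
  obtain ⟨y, ⟨v, h1, h2, rfl⟩, hy⟩ := exists_lt_of_lt_csSup (GFs_ne hn d) h
  exact ⟨v, h1, h2, hy⟩

theorem GFs_half {n : ℕ} (hn : 1 ≤ n) {d d' : Fin (2 * n) → ℝ} {e : ℝ} (h : ∀ k, |d k - d' k| ≤ e) :
    Fs n d ≤ Fs n d' + e := by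
  refine csSup_le (GFs_ne hn d) ?_
  rintro x ⟨v, h1, h2, rfl⟩
  have h3 := GFs_le h h2
  have h4 := Fs_ge d' h1 h2
  linarith

theorem Fs_lip {n : ℕ} (hn : 1 ≤ n) {d d' : Fin (2 * n) → ℝ} {e : ℝ} (h : ∀ k, |d k - d' k| ≤ e) :
    |Fs n d - Fs n d'| ≤ e := by
  have h1 := GFs_half hn h
  have h2 := GFs_half hn (d := d') (d' := d) (e := e) (fun k => by rw [abs_sub_comm]; exact h k)
  rw [abs_le]
  constructor <;> linarith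

theorem Fs_bd {n : ℕ} (hn : 1 ≤ n) {d : Fin (2 * n) → ℝ} {M : ℝ} (h : ∀ k, |d k| ≤ M) : |Fs n d| ≤ M := by
  rw [abs_le]
  constructor
  · obtain ⟨v, h1, h2⟩ := GFs_vec hn
    have h3 := Fs_ge d h1 h2
    have h4 := (abs_le.1 (GFs_abs h h2)).1
    linarith
  · refine csSup_le (GFs_ne hn d) ?_
    rintro x ⟨v, h1, h2, rfl⟩
    exact (abs_le.1 (GFs_abs h h2)).2

theorem Fs_cont {n : ℕ} (hn : 1 ≤ n) : Continuous (Fs n) := by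
  refine (LipschitzWith.mk_one fun d d' => ?_).continuous
  rw [Real.dist_eq]
  refine Fs_lip hn fun k => ?_
  rw [← Real.dist_eq]
  exact dist_le_pi_dist d d' k

end TZ
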