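import Pool.Agent.TZ.GDefs
import Pool.Agent.TZ.KerB
import Pool.Agent.TZ.Law

/-!
Project TZ (MP_b753aa_pr), module GLin: linear forms of the `d_k`.
Proof. (lin_eq): `dr_eq` with `c = 0`, `bv (2n - j) = bv j`, the cosine is symmetric. (lin_bd): `|cos| ≤ 1`.
(lin_sq): with `X_j = ∑_S t_k C_jk` (`Law_C`), `lin_j = w_j X_j` and (`Law_sq`, `Law_orth`)
`∑_{j<n} lin_j² + X_0² + 2 X_n² = 2 ∑_{j<2n} X_j² = ∑ t_k²`, and `X_0², X_n² ≤ (1/(2n)) card S ∑ t_k²`.
(lin_one): `∑_j lin_j² ≤ (1/(2n)) 4 n w²`. (dr_sub), (dr_upd): `dr` is linear in `a` for `c = 0`.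
-/

noncomputable section

namespace TZ

open MeasureTheory ProbabilityTheory Filter Topology Matrix
open scoped Real

/-- the coefficient of `a_j` in `d_k` -/
def GLin_c (n : ℕ) (j : Fin n) (k : ℕ) : ℝ := Law_w j * Law_C n j k

theorem GLin_c_bd (n : ℕ) (j : Fin n) (k : ℕ) : |GLin_c n j k| ≤ 2 / √(2 * n) := by
  unfold GLin_c Law_w Law_C
  rw [abs_mul, abs_mul]
  have h1 : |Real.cos (π * (j : ℕ) * k / n)| ≤ 1 := Real.abs_cos_le_one _
  have h2 : |1 / √(2 * (n : ℝ))| = 1 / √(2 * n) := abs_of_nonneg (by positivity)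
  have h3 : |(if (j : ℕ) = 0 then (1:ℝ) else 2)| ≤ 2 := by
    split_ifs <;> norm_num
  rw [h2]
  calc |(if (j : ℕ) = 0 then (1:ℝ) else 2)| * (1 / √(2 * n) * |Real.cos (π * (j : ℕ) * k / n)|)
      ≤ 2 * (1 / √(2 * n) * 1) :=
        mul_le_mul h3 (mul_le_mul_of_nonneg_left h1 (by positivity)) (by positivity) (by norm_num)
    _ = 2 / √(2 * n) := by ring

theorem GLin_lin (n : ℕ) (S : Finset (Fin (2 * n))) (t : Fin (2 * n) → ℝ) (j : Fin n) :
    lin n S t j = ∑ k ∈ S, t k * GLin_c n j k := by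
  unfold lin GLin_c Law_w Law_C
  split_ifs with h
  · rw [Finset.mul_sum]
    refine Finset.sum_congr rfl fun k _ => ?_
    rw [h]
    simp
    ring
  · rw [Finset.mul_sum]
    refine Finset.sum_congr rfl fun k _ => ?_
    ring

theorem GLin_dr (n : ℕ) (a : Fin n → ℝ) (k : Fin (2 * n)) : dr n a 0 k = ∑ j, GLin_c n j k * a j := by
  have hn : 1 ≤ n := by
    have := k.isLt
    omega
  have h := Law_dE n hn (a, (0, 0)) k
  unfold dE at h
  simp only [mul_zero, add_zero] at h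
  have h1 : aE a 0 = a := by
    funext i
    simp [aE]
  rw [h1] at h
  exact h

theorem lin_eq (n : ℕ) (S : Finset (Fin (2 * n))) (t : Fin (2 * n) → ℝ) (a : Fin n → ℝ) :
    ∑ k ∈ S, t k * dr n a 0 k = ∑ j, lin n S t j * a j := by
  simp only [GLin_dr, GLin_lin, Finset.mul_sum, Finset.sum_mul]
  rw [Finset.sum_comm]
  refine Finset.sum_congr rfl fun j _ => Finset.sum_congr rfl fun k _ => ?_
  ring

theorem lin_bd (n : ℕ) (S : Finset (Fin (2 * n))) (t : Fin (2 * n) → ℝ) (j : Fin n) :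
    |lin n S t j| ≤ 2 / √(2 * n) * ∑ k ∈ S, |t k| := by
  rw [GLin_lin, Finset.mul_sum]
  refine (Finset.abs_sum_le_sum_abs _ _).trans (Finset.sum_le_sum fun k _ => ?_)
  rw [abs_mul, mul_comm]
  exact mul_le_mul_of_nonneg_right (GLin_c_bd n j k) (abs_nonneg _)

/-- the symmetric extension of the linear form -/
def GLin_X (n : ℕ) (S : Finset (Fin (2 * n))) (t : Fin (2 * n) → ℝ) (j : ℕ) : ℝ :=
  ∑ k ∈ S, t k * Law_C n j k

theorem GLin_X_sq (n : ℕ) (S : Finset (Fin (2 * n))) (t : Fin (2 * n) → ℝ) (j : ℕ) :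
    GLin_X n S t j ^ 2 ≤ S.card / (2 * n) * ∑ k ∈ S, t k ^ 2 := by
  unfold GLin_X
  refine (Finset.sum_mul_sq_le_sq_mul_sq S t (fun k => Law_C n j k)).trans ?_
  rw [mul_comm]
  refine mul_le_mul_of_nonneg_right ?_ (Finset.sum_nonneg fun k _ => sq_nonneg _)
  have h : ∀ k ∈ S, Law_C n j k ^ 2 ≤ 1 / (2 * n) := by
    intro k _
    unfold Law_C
    rw [mul_pow, div_pow, one_pow, Real.sq_sqrt (by positivity)]
    have h1 := Real.cos_sq_le_one (π * j * (k : ℕ) / n)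
    calc 1 / (2 * (n : ℝ)) * Real.cos (π * j * (k : ℕ) / n) ^ 2 ≤ 1 / (2 * (n : ℝ)) * 1 :=
          mul_le_mul_of_nonneg_left h1 (by positivity)
      _ = 1 / (2 * n) := by ring
  refine (Finset.sum_le_card_nsmul _ _ _ h).trans (le_of_eq ?_)
  rw [nsmul_eq_mul]
  ring

theorem lin_sq (n : ℕ) (S : Finset (Fin (2 * n))) (hS : ∀ k ∈ S, 0 < (k : ℕ) ∧ (k : ℕ) < n)
    (t : Fin (2 * n) → ℝ) :
    |∑ j, lin n S t j ^ 2 - ∑ k ∈ S, t k ^ 2| ≤ 5 * S.card / (2 * n) * ∑ k ∈ S, t k ^ 2 := by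
  rcases Nat.eq_zero_or_pos n with hn | hn
  · subst hn
    have hSe : S = ∅ := by
      ext k
      exact absurd k.isLt (by omega)
    subst hSe
    simp
  have h1 := Law_sq n hn (GLin_X n S t) (fun j hj => by
    unfold GLin_X
    refine Finset.sum_congr rfl fun k _ => ?_
    rw [Law_C_symm n j k hn hj])
  have h2 : ∀ j : Fin n, Law_w j * GLin_X n S t j = lin n S t j := by
    intro j
    rw [GLin_lin, GLin_X, Finset.mul_sum]
    refine Finset.sum_congr rfl fun k _ => ?_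
    unfold GLin_c
    ring
  simp only [h2] at h1
  have h3 : ∑ j ∈ Finset.range (2 * n), GLin_X n S t j ^ 2 = 1 / 2 * ∑ k ∈ S, t k ^ 2 := by
    have e1 : ∀ j : ℕ, GLin_X n S t j ^ 2 =
        ∑ k ∈ S, ∑ l ∈ S, t k * t l * (Law_C n j k * Law_C n j l) := by
      intro j
      rw [pow_two, GLin_X, Finset.sum_mul_sum]
      refine Finset.sum_congr rfl fun k _ => Finset.sum_congr rfl fun l _ => ?_
      ring
    simp only [e1]
    rw [Finset.sum_comm, Finset.mul_sum]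
    refine Finset.sum_congr rfl fun k hk => ?_
    rw [Finset.sum_comm]
    simp only [← Finset.mul_sum]
    have e2 : ∀ l ∈ S, t k * t l * ∑ j ∈ Finset.range (2 * n), Law_C n j k * Law_C n j l =
        if l = k then 1 / 2 * t k ^ 2 else 0 := by
      intro l hl
      rw [Law_orth n k l (hS k hk).1 (hS k hk).2 (hS l hl).1 (hS l hl).2]
      by_cases h : l = k
      · rw [if_pos (by rw [h]), if_pos h, h]
        ring
      · rw [if_neg (fun h' => h (Fin.ext h'.symm)), if_neg h, mul_zero]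
    rw [Finset.sum_congr rfl e2, Finset.sum_ite_eq' S k, if_pos hk]
  rw [h3] at h1
  have h4 := GLin_X_sq n S t 0
  have h5 := GLin_X_sq n S t n
  have h6 : (√2 * GLin_X n S t n) ^ 2 = 2 * GLin_X n S t n ^ 2 := by
    rw [mul_pow, Real.sq_sqrt (by norm_num)]
  rw [h6] at h1
  have h7 : ∑ j, lin n S t j ^ 2 - ∑ k ∈ S, t k ^ 2 = -(GLin_X n S t 0 ^ 2 + 2 * GLin_X n S t n ^ 2) := by
    linarith
  rw [h7, abs_neg, abs_of_nonneg (by positivity)]
  have h8 : (0:ℝ) ≤ S.card / (2 * n) * ∑ k ∈ S, t k ^ 2 :=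
    mul_nonneg (by positivity) (Finset.sum_nonneg fun k _ => sq_nonneg _)
  have h9 : 5 * (S.card : ℝ) / (2 * n) * ∑ k ∈ S, t k ^ 2 = 5 * (S.card / (2 * n) * ∑ k ∈ S, t k ^ 2) := by
    ring
  rw [h9]
  linarith

theorem lin_one (n : ℕ) (k : Fin (2 * n)) (t : Fin (2 * n) → ℝ) :
    ∑ j, lin n {k} t j ^ 2 ≤ 2 * t k ^ 2 := by
  have hn : 0 < n := by
    have := k.isLt
    omega
  have hn' : (0:ℝ) < n := by exact_mod_cast hn
  have h : ∀ j ∈ (Finset.univ : Finset (Fin n)), lin n {k} t j ^ 2 ≤ 2 / n * t k ^ 2 := by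
    intro j _
    have h1 := lin_bd n {k} t j
    rw [Finset.sum_singleton] at h1
    have h2 : lin n {k} t j ^ 2 ≤ (2 / √(2 * n) * |t k|) ^ 2 := sq_le_sq' (by
      have := (abs_le.1 h1).1
      linarith) ((abs_le.1 h1).2)
    refine h2.trans (le_of_eq ?_)
    rw [mul_pow, div_pow, Real.sq_sqrt (by positivity), sq_abs]
    field_simp
  refine (Finset.sum_le_card_nsmul _ _ _ h).trans (le_of_eq ?_)
  rw [nsmul_eq_mul, Finset.card_univ, Fintype.card_fin]
  field_simp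

theorem dr_sub (n : ℕ) (a a' : Fin n → ℝ) (k : Fin (2 * n)) :
    dr n (fun j => a j - a' j) 0 k = dr n a 0 k - dr n a' 0 k := by
  rw [GLin_dr, GLin_dr, GLin_dr, ← Finset.sum_sub_distrib]
  refine Finset.sum_congr rfl fun j _ => ?_
  ring

theorem dr_upd (n : ℕ) (a : Fin n → ℝ) (i : Fin n) (y : ℝ) (k : Fin (2 * n)) :
    |dr n a 0 k - dr n (Function.update a i y) 0 k| ≤ 2 / √(2 * n) * |a i - y| := by
  classical
  have h : dr n a 0 k - dr n (Function.update a i y) 0 k = GLin_c n i k * (a i - y) := by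
    rw [GLin_dr, GLin_dr, ← Finset.sum_sub_distrib, Finset.sum_eq_single i]
    · rw [Function.update_self]
      ring
    · intro j _ hj
      rw [Function.update_of_ne hj, sub_self]
    · intro h
      exact absurd (Finset.mem_univ i) h
  rw [h, abs_mul]
  exact mul_le_mul_of_nonneg_right (GLin_c_bd n i k) (abs_nonneg _)

theorem dr_meas (n : ℕ) (k : Fin (2 * n)) : Measurable fun a : Fin n → ℝ => dr n a 0 k := by
  simp only [GLin_dr]
  fun_prop

end TZ
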