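import Pool.Agent.TZ.GDefs

/-!
Project TZ (MP_b753aa_pr), module GMgf: moment generating functions.
Proof. For `|x| ≤ 1`: `|e^x - 1 - x - x²/2| ≤ |x|³/2`. So with `x = u φ`, `|x| ≤ |u| b ≤ 1`: integrate, `1 + y ≤ e^y`.
(prod): independence of the coordinates (`integral_fintype_prod_eq_prod`, the exponential of the sum is the product).
-/

noncomputable section

namespace TZ

open MeasureTheory ProbabilityTheory Filter Topology Matrix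
open scoped Real

theorem GMgf_exp {x : ℝ} (hx : |x| ≤ 1) : |Real.exp x - (1 + x + x ^ 2 / 2)| ≤ |x| ^ 3 / 2 := by
  have h := Real.exp_bound hx (n := 3) (by norm_num)
  have h1 : ∑ m ∈ Finset.range 3, x ^ m / (m.factorial : ℝ) = 1 + x + x ^ 2 / 2 := by
    simp [Finset.sum_range_succ, Nat.factorial]
  rw [h1] at h
  refine h.trans ?_
  have h2 : (0 : ℝ) ≤ |x| ^ 3 := by positivity
  have h3 : ((Nat.succ 3 : ℕ) : ℝ) / ((Nat.factorial 3 : ℝ) * (3 : ℕ)) ≤ 1 / 2 := by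
    norm_num [Nat.factorial]
  nlinarith

theorem GMgf_pt {u y b : ℝ} (hb : |y| ≤ b) (hu : |u| * b ≤ 1) :
    |Real.exp (u * y) - (1 + u * y + u ^ 2 * y ^ 2 / 2)| ≤ u ^ 2 / 2 * (|u| * b) * y ^ 2 := by
  have h1 : |u * y| ≤ |u| * b := by
    rw [abs_mul]
    gcongr
  have h := GMgf_exp (h1.trans hu)
  rw [mul_pow] at h
  refine h.trans ?_
  have h2 : |u * y| ^ 3 = |u * y| * (u ^ 2 * y ^ 2) := by
    rw [pow_succ, sq_abs, mul_pow]
    ring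
  rw [h2]
  have h3 : 0 ≤ u ^ 2 * y ^ 2 := by positivity
  nlinarith

theorem GMgf_int1 {ν : Measure ℝ} [IsProbabilityMeasure ν] {φ : ℝ → ℝ} (hφ : Measurable φ) {b : ℝ}
    (hb : ∀ x, |φ x| ≤ b) (u : ℝ) : Integrable φ ν ∧ Integrable (fun x => φ x ^ 2) ν ∧
    Integrable (fun x => Real.exp (u * φ x)) ν := by
  refine ⟨Integrable.of_bound hφ.aestronglyMeasurable b (ae_of_all _ hb),
    Integrable.of_bound (hφ.pow_const 2).aestronglyMeasurable (b ^ 2) (ae_of_all _ fun x => ?_),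
    Integrable.of_bound (by fun_prop) (Real.exp (|u| * b)) (ae_of_all _ fun x => ?_)⟩
  · rw [Real.norm_eq_abs, abs_pow]
    exact pow_le_pow_left₀ (abs_nonneg _) (hb x) 2
  · rw [Real.norm_eq_abs, Real.abs_exp]
    apply Real.exp_le_exp.2
    calc u * φ x ≤ |u * φ x| := le_abs_self _
      _ = |u| * |φ x| := abs_mul _ _
      _ ≤ |u| * b := by
        gcongr
        exact hb x

theorem GMgf_lin {ν : Measure ℝ} [IsProbabilityMeasure ν] {φ : ℝ → ℝ} (i1 : Integrable φ ν)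
    (i2 : Integrable (fun x => φ x ^ 2) ν) (u w : ℝ) :
    Integrable (fun x => 1 + u * φ x + w * φ x ^ 2) ν ∧
    ∫ x, (1 + u * φ x + w * φ x ^ 2) ∂ν = 1 + u * ∫ x, φ x ∂ν + w * ∫ x, φ x ^ 2 ∂ν := by
  have j1 : Integrable (fun x => 1 + u * φ x) ν := (integrable_const 1).add (i1.const_mul u)
  have j2 : Integrable (fun x => w * φ x ^ 2) ν := i2.const_mul w
  refine ⟨j1.add j2, ?_⟩
  rw [integral_add j1 j2, integral_add (integrable_const 1) (i1.const_mul u), integral_const_mul,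
    integral_const_mul]
  simp

theorem mgf_up {ν : Measure ℝ} [IsProbabilityMeasure ν] {φ : ℝ → ℝ} (hφ : Measurable φ) {b m v u : ℝ}
    (hb : ∀ x, |φ x| ≤ b) (hm : |∫ x, φ x ∂ν| ≤ m) (hv : ∫ x, φ x ^ 2 ∂ν ≤ v) (hu : |u| * b ≤ 1) :
    ∫ x, Real.exp (u * φ x) ∂ν ≤ Real.exp (|u| * m + u ^ 2 * v / 2 * (1 + |u| * b)) := by
  obtain ⟨i1, i2, i3⟩ := GMgf_int1 (ν := ν) hφ hb u
  have hb0 : 0 ≤ b := (abs_nonneg _).trans (hb 0)
  have h1 : ∀ x, Real.exp (u * φ x) ≤ 1 + u * φ x + (u ^ 2 / 2 * (1 + |u| * b)) * φ x ^ 2 := by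
    intro x
    have h2 := (abs_le.1 (GMgf_pt (hb x) hu)).2
    linarith
  have h3 : ∫ x, Real.exp (u * φ x) ∂ν ≤
      ∫ x, (1 + u * φ x + (u ^ 2 / 2 * (1 + |u| * b)) * φ x ^ 2) ∂ν :=
    integral_mono i3 (GMgf_lin i1 i2 u _).1 h1
  have h4 := (GMgf_lin (ν := ν) i1 i2 u (u ^ 2 / 2 * (1 + |u| * b))).2
  rw [h4] at h3
  have h5 : u * ∫ x, φ x ∂ν ≤ |u| * m := by
    calc u * ∫ x, φ x ∂ν ≤ |u * ∫ x, φ x ∂ν| := le_abs_self _
      _ = |u| * |∫ x, φ x ∂ν| := abs_mul _ _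
      _ ≤ |u| * m := by gcongr
  have h6 : (u ^ 2 / 2 * (1 + |u| * b)) * ∫ x, φ x ^ 2 ∂ν ≤ (u ^ 2 / 2 * (1 + |u| * b)) * v := by
    gcongr
  have h7 := Real.add_one_le_exp (|u| * m + u ^ 2 * v / 2 * (1 + |u| * b))
  have h8 : (u ^ 2 / 2 * (1 + |u| * b)) * v = u ^ 2 * v / 2 * (1 + |u| * b) := by ring
  linarith

theorem mgf_lo {ν : Measure ℝ} [IsProbabilityMeasure ν] {φ : ℝ → ℝ} (hφ : Measurable φ) {b m v u : ℝ}
    (hb : ∀ x, |φ x| ≤ b) (hm : |∫ x, φ x ∂ν| ≤ m) (hv : v ≤ ∫ x, φ x ^ 2 ∂ν) (hv1 : ∫ x, φ x ^ 2 ∂ν ≤ 1)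
    (hu : |u| * b ≤ 1) :
    1 - |u| * m + u ^ 2 / 2 * v - u ^ 2 / 2 * (|u| * b) ≤ ∫ x, Real.exp (u * φ x) ∂ν := by
  obtain ⟨i1, i2, i3⟩ := GMgf_int1 (ν := ν) hφ hb u
  have hb0 : 0 ≤ b := (abs_nonneg _).trans (hb 0)
  have h1 : ∀ x, 1 + u * φ x + (u ^ 2 / 2 - u ^ 2 / 2 * (|u| * b)) * φ x ^ 2 ≤ Real.exp (u * φ x) := by
    intro x
    have h2 := (abs_le.1 (GMgf_pt (hb x) hu)).1
    linarith
  have h3 : ∫ x, (1 + u * φ x + (u ^ 2 / 2 - u ^ 2 / 2 * (|u| * b)) * φ x ^ 2) ∂ν ≤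
      ∫ x, Real.exp (u * φ x) ∂ν :=
    integral_mono (GMgf_lin i1 i2 u _).1 i3 h1
  have h4 := (GMgf_lin (ν := ν) i1 i2 u (u ^ 2 / 2 - u ^ 2 / 2 * (|u| * b))).2
  rw [h4] at h3
  have h5 : -(|u| * m) ≤ u * ∫ x, φ x ∂ν := by
    have h6 : |u * ∫ x, φ x ∂ν| ≤ |u| * m := by
      rw [abs_mul]
      gcongr
    exact (abs_le.1 h6).1
  have h7 : u ^ 2 / 2 * v ≤ u ^ 2 / 2 * ∫ x, φ x ^ 2 ∂ν := by gcongr
  have h8 : u ^ 2 / 2 * (|u| * b) * ∫ x, φ x ^ 2 ∂ν ≤ u ^ 2 / 2 * (|u| * b) * 1 := by gcongr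
  linarith

theorem mgf_prod {n : ℕ} (ν : Fin n → Measure ℝ) [∀ i, IsProbabilityMeasure (ν i)] {φ : Fin n → ℝ → ℝ}
    (u : Fin n → ℝ) :
    ∫ a, Real.exp (∑ i, u i * φ i (a i)) ∂(Measure.pi ν) = ∏ i, ∫ x, Real.exp (u i * φ i x) ∂(ν i) := by
  simp_rw [Real.exp_sum]
  exact integral_fintype_prod_eq_prod (fun i x => Real.exp (u i * φ i x))

theorem mgf_int {n : ℕ} (ν : Fin n → Measure ℝ) [∀ i, IsProbabilityMeasure (ν i)] {φ : Fin n → ℝ → ℝ}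
    (hφ : ∀ i, Measurable (φ i)) {b : ℝ} (hb : ∀ i x, |φ i x| ≤ b) (u : Fin n → ℝ) :
    Integrable (fun a : Fin n → ℝ => Real.exp (∑ i, u i * φ i (a i))) (Measure.pi ν) := by
  have hm : Measurable (fun a : Fin n → ℝ => Real.exp (∑ i, u i * φ i (a i))) := by
    apply Real.measurable_exp.comp
    apply Finset.measurable_sum
    intro i _
    exact ((hφ i).comp (measurable_pi_apply i)).const_mul (u i)
  refine Integrable.of_bound hm.aestronglyMeasurable (Real.exp (∑ i, |u i| * b)) (ae_of_all _ fun a => ?_)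
  rw [Real.norm_eq_abs, Real.abs_exp]
  apply Real.exp_le_exp.2
  apply Finset.sum_le_sum
  intro i _
  calc u i * φ i (a i) ≤ |u i * φ i (a i)| := le_abs_self _
    _ = |u i| * |φ i (a i)| := abs_mul _ _
    _ ≤ |u i| * b := by
      gcongr
      exact hb i (a i)

end TZ
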