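import Pool.Agent.TZ.GDefs

/-!
Project TZ (MP_b753aa_pr), module GTrc: moments of truncated variables.
Proof. `|x| 1_{|x|>b} ≤ b^{1-γ} |x|^γ`, `x² 1_{|x|>b} ≤ b^{2-γ} |x|^γ`, `1_{|x|>b} ≤ b^{-γ} |x|^γ` for `b > 0`, `γ > 2`. `∫ trc b = -∫ x 1_{|x|>b}`
(mean zero), `∫ (trc b)² = 1 - ∫ x² 1_{|x|>b}`. (`x`, `x²` are integrable: `≤ 1 + |x|^γ`.) (rmd): `f = trc b - (trc B - ∫ trc B)` for `B ≤ b`:
`∫ f = ∫ trc b`; `f = x 1_{B<|x|≤b} + ∫ trc B`, `f² ≤ 2 x² 1_{|x|>B} + 2 (∫ trc B)²`, `(∫ trc B)² = (∫ x 1_{|x|>B})² ≤ ∫ x² 1_{|x|>B} ≤ C B^{2-γ}`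
(Jensen / Cauchy-Schwarz, `ν` a probability measure).
-/

noncomputable section

namespace TZ

open MeasureTheory ProbabilityTheory Filter Topology Matrix
open scoped Real

theorem trc_meas (b : ℝ) : Measurable (trc b) := by
  unfold trc
  exact Measurable.ite (measurableSet_le measurable_norm measurable_const) measurable_id measurable_const

theorem trc_bd {b : ℝ} (hb : 0 ≤ b) (x : ℝ) : |trc b x| ≤ b := by
  unfold trc
  split_ifs with h
  · exact h
  · simpa using hb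

/-- pointwise bound above the level -/
theorem GTrc_pt {γ b x : ℝ} (s : ℝ) (hs : s ≤ γ) (hb : 0 < b) (hx : b < |x|) :
    |x| ^ s ≤ b ^ (s - γ) * |x| ^ γ := by
  have hx0 : 0 < |x| := hb.trans hx
  have h1 : |x| ^ γ = |x| ^ s * |x| ^ (γ - s) := by
    rw [← Real.rpow_add hx0]
    congr 1
    ring
  have h2 : b ^ (γ - s) ≤ |x| ^ (γ - s) := Real.rpow_le_rpow hb.le hx.le (by linarith)
  have h3 : b ^ (s - γ) * b ^ (γ - s) = 1 := by
    rw [← Real.rpow_add hb]
    have : s - γ + (γ - s) = 0 := by ring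
    rw [this, Real.rpow_zero]
  have h4 : 0 ≤ b ^ (s - γ) := (Real.rpow_pos_of_pos hb _).le
  have h5 : 0 ≤ |x| ^ s := (Real.rpow_pos_of_pos hx0 _).le
  calc |x| ^ s = |x| ^ s * (b ^ (s - γ) * b ^ (γ - s)) := by rw [h3, mul_one]
    _ = b ^ (s - γ) * |x| ^ s * b ^ (γ - s) := by ring
    _ ≤ b ^ (s - γ) * |x| ^ s * |x| ^ (γ - s) := mul_le_mul_of_nonneg_left h2 (mul_nonneg h4 h5)
    _ = b ^ (s - γ) * |x| ^ γ := by rw [h1]; ring

theorem GTrc_diff {γ b : ℝ} (hγ : 2 < γ) (hb : 0 < b) (x : ℝ) :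
    |x - trc b x| ≤ b ^ (1 - γ) * |x| ^ γ := by
  unfold trc
  split_ifs with h
  · rw [sub_self, abs_zero]
    positivity
  · have := GTrc_pt (γ := γ) 1 (by linarith) hb (not_le.1 h)
    rw [Real.rpow_one] at this
    rwa [sub_zero]

theorem GTrc_diff2 {γ b : ℝ} (hγ : 2 < γ) (hb : 0 < b) (x : ℝ) :
    (x - trc b x) ^ 2 ≤ b ^ (2 - γ) * |x| ^ γ := by
  unfold trc
  split_ifs with h
  · rw [sub_self]
    have : (0 : ℝ) ≤ b ^ (2 - γ) * |x| ^ γ := by positivity
    simpa using this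
  · have := GTrc_pt (γ := γ) 2 (by linarith) hb (not_le.1 h)
    rw [Real.rpow_two, sq_abs] at this
    rwa [sub_zero]

theorem GTrc_sq {γ b : ℝ} (hγ : 2 < γ) (hb : 0 < b) (x : ℝ) :
    x ^ 2 - trc b x ^ 2 ≤ b ^ (2 - γ) * |x| ^ γ := by
  have h := GTrc_diff2 hγ hb x
  unfold trc at h ⊢
  split_ifs with h1
  · rw [sub_self]
    positivity
  · rw [if_neg h1, sub_zero] at h
    simpa using h

variable {γ C : ℝ} {ν : Measure ℝ} [IsProbabilityMeasure ν]

omit [IsProbabilityMeasure ν] in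
theorem GTrc_int_sq (h : Mom γ C ν) : Integrable (fun x : ℝ => x ^ 2) ν := by
  by_contra h1
  have h2 := h.var
  rw [integral_undef h1] at h2
  exact zero_ne_one h2

theorem GTrc_int_id (h : Mom γ C ν) : Integrable (fun x : ℝ => x) ν := by
  have h1 : Integrable (fun x : ℝ => 1 + x ^ 2) ν := (integrable_const 1).add (GTrc_int_sq h)
  refine h1.mono' measurable_id.aestronglyMeasurable (Eventually.of_forall fun x => ?_)
  rw [Real.norm_eq_abs, abs_le]
  constructor <;> nlinarith [sq_nonneg (x - 1), sq_nonneg (x + 1)]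

theorem GTrc_int_trc (b : ℝ) : Integrable (fun x : ℝ => trc b x) ν := by
  refine (integrable_const |b|).mono' (trc_meas b).aestronglyMeasurable (Eventually.of_forall fun x => ?_)
  rw [Real.norm_eq_abs]
  unfold trc
  split_ifs with h
  · exact h.trans (le_abs_self b)
  · simp

theorem GTrc_int_trc2 (b : ℝ) : Integrable (fun x : ℝ => trc b x ^ 2) ν := by
  refine (integrable_const (|b| ^ 2)).mono' ((trc_meas b).pow_const 2).aestronglyMeasurable
    (Eventually.of_forall fun x => ?_)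
  rw [Real.norm_eq_abs, abs_pow]
  refine pow_le_pow_left₀ (abs_nonneg _) ?_ 2
  unfold trc
  split_ifs with h
  · exact h.trans (le_abs_self b)
  · simp

theorem Mom.C_ge (h : Mom γ C ν) (hγ : 2 < γ) : 1 ≤ C := by
  refine le_trans ?_ h.mom
  have h1 : ∀ x : ℝ, 1 + γ / 2 * (x ^ 2 - 1) ≤ |x| ^ γ := by
    intro x
    have h2 := one_add_mul_self_le_rpow_one_add (s := x ^ 2 - 1) (by nlinarith [sq_nonneg x])
      (p := γ / 2) (by linarith)
    have h3 : (1 + (x ^ 2 - 1)) ^ (γ / 2) = |x| ^ γ := by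
      have : 1 + (x ^ 2 - 1) = |x| ^ (2 : ℝ) := by
        rw [Real.rpow_two, sq_abs]
        ring
      rw [this, ← Real.rpow_mul (abs_nonneg x)]
      congr 1
      ring
    rwa [h3] at h2
  have h2 : ∫ x, (1 + γ / 2 * (x ^ 2 - 1)) ∂ν = 1 := by
    have hi : Integrable (fun x : ℝ => x ^ 2 - 1) ν := (GTrc_int_sq h).sub (integrable_const 1)
    rw [integral_add (integrable_const _) (hi.const_mul _), integral_const_mul,
      integral_sub (GTrc_int_sq h) (integrable_const 1), h.var]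
    simp
  rw [← h2]
  have hi : Integrable (fun x : ℝ => x ^ 2 - 1) ν := (GTrc_int_sq h).sub (integrable_const 1)
  exact integral_mono ((integrable_const _).add (hi.const_mul _)) h.int h1

omit [IsProbabilityMeasure ν] in
/-- integrals bounded by the moment -/
theorem GTrc_le (h : Mom γ C ν) {f : ℝ → ℝ} {K : ℝ} (hK : 0 ≤ K) (hf : Integrable f ν)
    (hle : ∀ x, f x ≤ K * |x| ^ γ) : ∫ x, f x ∂ν ≤ C * K := by
  refine (integral_mono hf (h.int.const_mul K) hle).trans ?_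
  rw [integral_const_mul, mul_comm C K]
  exact mul_le_mul_of_nonneg_left h.mom hK

theorem trc_mean (h : Mom γ C ν) (hγ : 2 < γ) {b : ℝ} (hb : 0 < b) : |∫ x, trc b x ∂ν| ≤ C * b ^ (1 - γ) := by
  have h1 : ∫ x, trc b x ∂ν = -∫ x, (x - trc b x) ∂ν := by
    rw [integral_sub (GTrc_int_id h) (GTrc_int_trc b), h.mean]
    ring
  rw [h1, abs_neg]
  refine (abs_integral_le_integral_abs).trans ?_
  exact GTrc_le h (Real.rpow_pos_of_pos hb _).le ((GTrc_int_id h).sub (GTrc_int_trc b)).abs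
    (GTrc_diff hγ hb)

theorem trc_le (h : Mom γ C ν) (hγ : 2 < γ) {b : ℝ} (hb : 0 < b) : ∫ x, trc b x ^ 2 ∂ν ≤ 1 := by
  rw [← h.var]
  refine integral_mono (GTrc_int_trc2 b) (GTrc_int_sq h) fun x => ?_
  show trc b x ^ 2 ≤ x ^ 2
  unfold trc
  split_ifs
  · exact le_rfl
  · simpa using sq_nonneg x

theorem trc_ge (h : Mom γ C ν) (hγ : 2 < γ) {b : ℝ} (hb : 0 < b) :
    1 - C * b ^ (2 - γ) ≤ ∫ x, trc b x ^ 2 ∂ν := by
  have h1 : ∫ x, (x ^ 2 - trc b x ^ 2) ∂ν = 1 - ∫ x, trc b x ^ 2 ∂ν := by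
    rw [integral_sub (GTrc_int_sq h) (GTrc_int_trc2 b), h.var]
  have h2 := GTrc_le h (Real.rpow_pos_of_pos hb (2 - γ)).le ((GTrc_int_sq h).sub (GTrc_int_trc2 b))
    (GTrc_sq hγ hb)
  have h3 : ∫ x, (x ^ 2 - trc b x ^ 2) ∂ν ≤ C * b ^ (2 - γ) := h2
  linarith

theorem trc_prob (h : Mom γ C ν) (hγ : 2 < γ) {b : ℝ} (hb : 0 < b) :
    ν {x | b < |x|} ≤ ENNReal.ofReal (C * b ^ (-γ)) := by
  have hS : MeasurableSet {x : ℝ | b < |x|} := measurableSet_lt measurable_const measurable_norm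
  have h1 : ∫ x, Set.indicator {x : ℝ | b < |x|} (fun _ => (1 : ℝ)) x ∂ν ≤ C * b ^ (-γ) := by
    refine GTrc_le h (Real.rpow_pos_of_pos hb _).le ((integrable_const (1 : ℝ)).indicator hS) fun x => ?_
    by_cases hx : b < |x|
    · rw [Set.indicator_of_mem (show x ∈ {x : ℝ | b < |x|} from hx)]
      have := GTrc_pt (γ := γ) 0 (by linarith) hb hx
      rwa [Real.rpow_zero, zero_sub] at this
    · rw [Set.indicator_of_notMem (show x ∉ {x : ℝ | b < |x|} from hx)]
      positivity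
  rw [integral_indicator hS, setIntegral_const, smul_eq_mul, mul_one] at h1
  rw [← ofReal_measureReal]
  exact ENNReal.ofReal_le_ofReal h1

theorem rmd_mean (h : Mom γ C ν) (hγ : 2 < γ) {b B : ℝ} (hb : 0 < b) :
    |∫ x, (trc b x - (trc B x - ∫ y, trc B y ∂ν)) ∂ν| ≤ C * b ^ (1 - γ) := by
  have h1 : ∫ x, (trc b x - (trc B x - ∫ y, trc B y ∂ν)) ∂ν = ∫ x, trc b x ∂ν := by
    have h2 : Integrable (fun x : ℝ => trc B x - ∫ y, trc B y ∂ν) ν :=
      (GTrc_int_trc B).sub (integrable_const _)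
    rw [integral_sub (GTrc_int_trc b) h2, integral_sub (GTrc_int_trc B) (integrable_const _)]
    simp
  rw [h1]
  exact trc_mean h hγ hb

/-- Jensen -/
theorem GTrc_jensen {f : ℝ → ℝ} (hf : Integrable f ν) (hf2 : Integrable (fun x => f x ^ 2) ν) :
    (∫ x, f x ∂ν) ^ 2 ≤ ∫ x, f x ^ 2 ∂ν := by
  set m := ∫ x, f x ∂ν with hm
  have h1 : 0 ≤ ∫ x, (f x - m) ^ 2 ∂ν := integral_nonneg fun x => sq_nonneg _
  have h2 : ∫ x, (f x - m) ^ 2 ∂ν = ∫ x, (f x ^ 2 - 2 * m * f x + m ^ 2) ∂ν := by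
    congr 1
    funext x
    ring
  have h3 : ∫ x, (f x ^ 2 - 2 * m * f x + m ^ 2) ∂ν = ∫ x, f x ^ 2 ∂ν - 2 * m * m + m ^ 2 := by
    have h4 : Integrable (fun x : ℝ => f x ^ 2 - 2 * m * f x) ν := hf2.sub (hf.const_mul _)
    rw [integral_add h4 (integrable_const _),
      integral_sub hf2 (hf.const_mul _), integral_const_mul, ← hm]
    simp
  rw [h2, h3] at h1
  nlinarith

theorem rmd_sq (h : Mom γ C ν) (hγ : 2 < γ) {b B : ℝ} (hB : 0 < B) (hb : B ≤ b) :
    ∫ x, (trc b x - (trc B x - ∫ y, trc B y ∂ν)) ^ 2 ∂ν ≤ 4 * C * B ^ (2 - γ) := by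
  set m := ∫ y, trc B y ∂ν with hm
  have hd : Integrable (fun x : ℝ => x - trc B x) ν := (GTrc_int_id h).sub (GTrc_int_trc B)
  have hd2 : Integrable (fun x : ℝ => (x - trc B x) ^ 2) ν := by
    refine (h.int.const_mul (B ^ (2 - γ))).mono'
      ((measurable_id.sub (trc_meas B)).pow_const 2).aestronglyMeasurable
      (Eventually.of_forall fun x => ?_)
    rw [Real.norm_eq_abs, abs_of_nonneg (sq_nonneg _)]
    exact GTrc_diff2 hγ hB x
  have h1 : m ^ 2 ≤ C * B ^ (2 - γ) := by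
    have h2 : m = -∫ x, (x - trc B x) ∂ν := by
      rw [integral_sub (GTrc_int_id h) (GTrc_int_trc B), h.mean]
      ring
    rw [h2, neg_sq]
    exact (GTrc_jensen hd hd2).trans
      (GTrc_le h (Real.rpow_pos_of_pos hB _).le hd2 (GTrc_diff2 hγ hB))
  have hi : Integrable (fun x : ℝ => trc b x - (trc B x - m)) ν :=
    (GTrc_int_trc b).sub ((GTrc_int_trc B).sub (integrable_const _))
  have h2 : ∀ x, (trc b x - (trc B x - m)) ^ 2 ≤ 2 * B ^ (2 - γ) * |x| ^ γ + 2 * m ^ 2 := by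
    intro x
    have h3 : (trc b x - trc B x) ^ 2 ≤ B ^ (2 - γ) * |x| ^ γ := by
      have h4 := GTrc_diff2 hγ hB x
      have h5 : (0 : ℝ) ≤ B ^ (2 - γ) * |x| ^ γ := by positivity
      unfold trc at h4 ⊢
      by_cases hxB : |x| ≤ B
      · rw [if_pos hxB, if_pos (hxB.trans hb), sub_self]
        simpa using h5
      · rw [if_neg hxB] at h4 ⊢
        by_cases hxb : |x| ≤ b
        · rw [if_pos hxb]
          exact h4
        · rw [if_neg hxb, sub_self]
          simpa using h5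
    nlinarith [sq_nonneg (trc b x - trc B x - m)]
  have hmeas : AEStronglyMeasurable (fun x : ℝ => (trc b x - (trc B x - m)) ^ 2) ν :=
    (((trc_meas b).sub ((trc_meas B).sub measurable_const)).pow_const 2).aestronglyMeasurable
  have hg : Integrable (fun x : ℝ => 2 * B ^ (2 - γ) * |x| ^ γ + 2 * m ^ 2) ν :=
    (h.int.const_mul _).add (integrable_const _)
  have hf : Integrable (fun x : ℝ => (trc b x - (trc B x - m)) ^ 2) ν :=
    hg.mono' hmeas (Eventually.of_forall fun x => by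
      rw [Real.norm_eq_abs, abs_of_nonneg (sq_nonneg _)]
      exact h2 x)
  refine (integral_mono hf hg h2).trans ?_
  rw [integral_add (h.int.const_mul _) (integrable_const _), integral_const_mul]
  have h6 : 2 * B ^ (2 - γ) * ∫ x, |x| ^ γ ∂ν ≤ 2 * B ^ (2 - γ) * C :=
    mul_le_mul_of_nonneg_left h.mom (by positivity)
  have h7 : ∫ _x : ℝ, 2 * m ^ 2 ∂ν = 2 * m ^ 2 := by simp
  rw [h7]
  linarith

theorem rmd_bd {b B : ℝ} (hB : 0 < B) (hb : B ≤ b) (x : ℝ) :
    |trc b x - (trc B x - ∫ y, trc B y ∂ν)| ≤ 2 * b := by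
  have h1 : |∫ y, trc B y ∂ν| ≤ B := by
    have h2 := norm_integral_le_of_norm_le_const (μ := ν) (f := fun y => trc B y) (C := B)
      (Eventually.of_forall fun y => by
        rw [Real.norm_eq_abs]
        exact trc_bd hB.le y)
    simpa [Real.norm_eq_abs] using h2
  have h2 : |trc b x - trc B x| ≤ b := by
    unfold trc
    by_cases hxB : |x| ≤ B
    · rw [if_pos hxB, if_pos (hxB.trans hb), sub_self, abs_zero]
      linarith
    · rw [if_neg hxB, sub_zero]
      split_ifs with hxb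
      · exact hxb
      · rw [abs_zero]
        linarith
  have h3 : trc b x - (trc B x - ∫ y, trc B y ∂ν) = (trc b x - trc B x) + ∫ y, trc B y ∂ν := by ring
  rw [h3]
  exact (abs_add_le _ _).trans (by linarith)

end TZ
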