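import Pool.Agent.TZ.GDefs
import Pool.Agent.TZ.GMgf
import Pool.Agent.TZ.GLin
import Pool.Agent.TZ.GTrc
import Pool.Agent.TZ.Num

/-!
Project TZ (MP_b753aa_pr), module GMd: the moment generating function of the `d_k` is that of independent gaussians, up to a factor `e`.
Proof. `b = lev γ n = n^β`, `1/γ < β < 1/2`; `u_j = lin_j`, `|u_j| ≤ 2/√(2n) · √q Λ th n`, so `x_n := sup |u_j| b → 0`, even `x_n (th n)² → 0`.
`∑_j |u_j| |∫ trc b| ≤ n · 2/√(2n) √q Λ th n · C n^{β(1-γ)} → 0` (as `1/2 + β(1-γ) < 0`, because `β > 1/γ > 1/(2(γ-1))`).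
`∑_j u_j² ≤ |t|² (1 + 5q/(2n))`, `|t|² ≤ Λ² (th n)²`, so `∑_j u_j²/2 (1 + x_n) ≤ |t|²/2 + o(1)`: (up). (lo): the `j`-th factor is `≥ 1 + y_j`,
`y_j = u_j²/2 (1 - C b^{2-γ}) - |u_j| m - u_j²/2 x_n`, `|y_j| ≤ 1/2`, `1 + y ≥ exp(y - y²)`, `∑ y_j² → 0`, `∑ y_j ≥ |t|²/2 - o(1)`.
Everything is uniform in `S`, `t`.
-/

noncomputable section

namespace TZ

open MeasureTheory ProbabilityTheory Filter Topology Matrix
open scoped Real

/-! ### asymptotics -/

theorem gmd_th_pow_tendsto (k : ℕ) {α : ℝ} (hα : α < 0) (c : ℝ) :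
    Tendsto (fun n : ℕ => c * (th n ^ k * (n : ℝ) ^ α)) atTop (𝓝 0) := by
  have h1 := (isLittleO_log_rpow_rpow_atTop ((k : ℝ) / 2) (neg_pos.2 hα)).tendsto_div_nhds_zero
  have h2 := h1.comp (tendsto_natCast_atTop_atTop (R := ℝ))
  have h3 := (h2.const_mul (c * √2 ^ k))
  rw [mul_zero] at h3
  refine h3.congr fun n => ?_
  simp only [Function.comp]
  have hl : 0 ≤ Real.log n := Real.log_natCast_nonneg n
  unfold th
  rw [Real.sqrt_mul (by norm_num), mul_pow, Real.sqrt_eq_rpow (Real.log n),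
    ← Real.rpow_natCast (Real.log n ^ (1 / 2 : ℝ)), ← Real.rpow_mul hl, Real.rpow_neg (Nat.cast_nonneg n),
    div_inv_eq_mul]
  have : (1 / 2 : ℝ) * (k : ℝ) = (k : ℝ) / 2 := by ring
  rw [this]
  ring

theorem gmd_bet_lt {γ : ℝ} (hγ : 2 < γ) : bet γ < 1 / 2 := by
  unfold bet
  have : 1 / γ < 1 / 2 := one_div_lt_one_div_of_lt (by norm_num) hγ
  linarith

theorem gmd_lt_bet {γ : ℝ} (hγ : 2 < γ) : 1 / γ < bet γ := by
  unfold bet
  have : 1 / γ < 1 / 2 := one_div_lt_one_div_of_lt (by norm_num) hγ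
  linarith

theorem gmd_bet_pos {γ : ℝ} (hγ : 2 < γ) : 0 < bet γ := lt_trans (by positivity) (gmd_lt_bet hγ)

/-- the exponent `1/2 + β(1-γ)` is negative -/
theorem gmd_bet_exp {γ : ℝ} (hγ : 2 < γ) : 1 / 2 + bet γ * (1 - γ) < 0 := by
  have h1 := gmd_lt_bet hγ
  have h2 : bet γ * (1 - γ) < 1 / γ * (1 - γ) := mul_lt_mul_of_neg_right h1 (by linarith)
  have h3 : 1 / γ * (1 - γ) = 1 / γ - 1 := by
    field_simp
  have h4 : 1 / γ < 1 / 2 := one_div_lt_one_div_of_lt (by norm_num) hγ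
  linarith

theorem gmd_lev_rpow {γ : ℝ} (n : ℕ) (s : ℝ) : lev γ n ^ s = (n : ℝ) ^ (bet γ * s) := by
  unfold lev
  rw [← Real.rpow_mul (Nat.cast_nonneg n)]

/-- bound of the coefficients -/
def gmd_gU (q : ℕ) (Λ : ℝ) (n : ℕ) : ℝ := 2 / √(2 * n) * (√q * (|Λ| * th n))

theorem gmd_th_nonneg (n : ℕ) : 0 ≤ th n := Real.sqrt_nonneg _

theorem gmd_gU_nonneg (q : ℕ) (Λ : ℝ) (n : ℕ) : 0 ≤ gmd_gU q Λ n := by
  unfold gmd_gU
  have := gmd_th_nonneg n
  positivity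

theorem gmd_gU_eq (q : ℕ) (Λ : ℝ) {n : ℕ} (hn : 1 ≤ n) :
    gmd_gU q Λ n = (2 / √2 * √q * |Λ|) * (th n ^ 1 * (n : ℝ) ^ (-(1 / 2) : ℝ)) := by
  unfold gmd_gU
  have hn0 : (0 : ℝ) < n := by exact_mod_cast hn
  rw [Real.sqrt_mul (by norm_num), Real.sqrt_eq_rpow (n : ℝ), Real.rpow_neg hn0.le, pow_one]
  have : (0 : ℝ) < (n : ℝ) ^ (1 / 2 : ℝ) := Real.rpow_pos_of_pos hn0 _
  have h2 : (0 : ℝ) < √2 := Real.sqrt_pos.2 (by norm_num)
  field_simp

/-- all the asymptotics -/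
theorem gmd_ev_all {γ : ℝ} (hγ : 2 < γ) (C : ℝ) (q : ℕ) (Λ : ℝ) : ∀ᶠ n : ℕ in atTop,
    1 ≤ n ∧ 1 ≤ lev γ n ∧ gmd_gU q Λ n * lev γ n ≤ 1 / 10 ∧ (Λ * th n) ^ 2 * (gmd_gU q Λ n * lev γ n) ≤ 1 / 10 ∧
    n * (gmd_gU q Λ n * (C * lev γ n ^ (1 - γ))) ≤ 1 / 10 ∧
    (Λ * th n) ^ 2 * (5 * q / (2 * n)) ≤ 1 / 10 ∧ 5 * (q : ℝ) / (2 * n) ≤ 1 / 10 ∧
    (Λ * th n) ^ 2 * (C * lev γ n ^ (2 - γ)) ≤ 1 / 10 ∧ C * lev γ n ^ (2 - γ) ≤ 1 / 10 ∧
    (Λ * th n) ^ 2 ≤ n := by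
  have hb := gmd_bet_lt hγ
  have hb0 := gmd_bet_pos hγ
  have he := gmd_bet_exp hγ
  have hpos : (0 : ℝ) < 1 / 10 := by norm_num
  have e1 := (gmd_th_pow_tendsto 1 (α := -(1 / 2) + bet γ) (by linarith) (2 / √2 * √q * |Λ|)).eventually_le_const hpos
  have e2 := (gmd_th_pow_tendsto 3 (α := -(1 / 2) + bet γ) (by linarith)
    (Λ ^ 2 * (2 / √2 * √q * |Λ|))).eventually_le_const hpos
  have e3 := (gmd_th_pow_tendsto 1 (α := 1 / 2 + bet γ * (1 - γ)) he
    (C * (2 / √2 * √q * |Λ|))).eventually_le_const hpos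
  have e4 := (gmd_th_pow_tendsto 2 (α := -1) (by norm_num) (Λ ^ 2 * (5 * q / 2))).eventually_le_const hpos
  have e5 := (gmd_th_pow_tendsto 0 (α := -1) (by norm_num) (5 * q / 2)).eventually_le_const hpos
  have hneg : bet γ * (2 - γ) < 0 := mul_neg_of_pos_of_neg hb0 (by linarith)
  have e6 := (gmd_th_pow_tendsto 2 hneg (Λ ^ 2 * C)).eventually_le_const hpos
  have e7 := (gmd_th_pow_tendsto 0 hneg C).eventually_le_const hpos
  have e8 := (gmd_th_pow_tendsto 2 (α := -1) (by norm_num) (Λ ^ 2)).eventually_le_const (zero_lt_one)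
  filter_upwards [e1, e2, e3, e4, e5, e6, e7, e8, eventually_ge_atTop 1] with n h1 h2 h3 h4 h5 h6 h7 h8 hn
  have hn0 : (0 : ℝ) < n := by exact_mod_cast hn
  have hinv : (n : ℝ) ^ (-1 : ℝ) = 1 / n := by rw [Real.rpow_neg_one]; exact (one_div _).symm
  have hU := gmd_gU_eq q Λ hn
  have hadd : (n : ℝ) ^ (-(1 / 2) + bet γ) = (n : ℝ) ^ (-(1 / 2) : ℝ) * lev γ n := by
    unfold lev
    rw [← Real.rpow_add hn0]
  refine ⟨hn, one_le_pow hn hb0.le, ?_, ?_, ?_, ?_, ?_, ?_, ?_, ?_⟩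
  · refine le_of_eq_of_le ?_ h1
    rw [hU, hadd]
    ring
  · refine le_of_eq_of_le ?_ h2
    rw [hU, hadd]
    ring
  · refine le_of_eq_of_le ?_ h3
    have : (n : ℝ) ^ (1 / 2 + bet γ * (1 - γ)) = n * ((n : ℝ) ^ (-(1 / 2) : ℝ) * (n : ℝ) ^ (bet γ * (1 - γ))) := by
      rw [← Real.rpow_add hn0]
      nth_rw 2 [← Real.rpow_one (n : ℝ)]
      rw [← Real.rpow_add hn0]
      congr 1
      ring
    rw [hU, gmd_lev_rpow, this]
    ring
  · refine le_of_eq_of_le ?_ h4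
    rw [hinv]
    field_simp
  · refine le_of_eq_of_le ?_ h5
    rw [hinv]
    field_simp
  · refine le_of_eq_of_le ?_ h6
    rw [gmd_lev_rpow]
    ring
  · refine le_of_eq_of_le ?_ h7
    rw [gmd_lev_rpow]
    ring
  · rw [hinv] at h8
    have : Λ ^ 2 * (th n ^ 2 * (1 / n)) = (Λ * th n) ^ 2 / n := by field_simp
    rw [this, div_le_one hn0] at h8
    exact h8

/-! ### coefficients -/

theorem gmd_sum_abs_le {n : ℕ} {S : Finset (Fin (2 * n))} {q : ℕ} (hS : S.card ≤ q) {t : Fin (2 * n) → ℝ} {T : ℝ}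
    (hT : 0 ≤ T) (ht : ∑ k ∈ S, t k ^ 2 ≤ T ^ 2) : ∑ k ∈ S, |t k| ≤ √q * T := by
  have h1 : (∑ k ∈ S, |t k|) ^ 2 ≤ S.card * ∑ k ∈ S, |t k| ^ 2 := sq_sum_le_card_mul_sum_sq
  simp only [sq_abs] at h1
  have h2 : (∑ k ∈ S, |t k|) ^ 2 ≤ (√q * T) ^ 2 := by
    rw [mul_pow, Real.sq_sqrt (Nat.cast_nonneg q)]
    refine h1.trans ?_
    have h3 : (S.card : ℝ) ≤ q := by exact_mod_cast hS
    exact mul_le_mul h3 ht (Finset.sum_nonneg fun k _ => sq_nonneg _) (Nat.cast_nonneg q)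
  exact le_of_sq_le_sq h2 (by positivity)

theorem gmd_lin_le {n : ℕ} {S : Finset (Fin (2 * n))} {q : ℕ} (hS : S.card ≤ q) {t : Fin (2 * n) → ℝ} {Λ : ℝ}
    (ht : ∑ k ∈ S, t k ^ 2 ≤ (Λ * th n) ^ 2) (j : Fin n) : |lin n S t j| ≤ gmd_gU q Λ n := by
  refine (lin_bd n S t j).trans ?_
  have h0 : 0 ≤ |Λ| * th n := mul_nonneg (abs_nonneg _) (gmd_th_nonneg n)
  have h1 : (Λ * th n) ^ 2 = (|Λ| * th n) ^ 2 := by rw [mul_pow, mul_pow, sq_abs]
  have h2 := gmd_sum_abs_le hS h0 (h1 ▸ ht)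
  unfold gmd_gU
  exact mul_le_mul_of_nonneg_left h2 (by positivity)

theorem gmd_sum_aff {n : ℕ} (u : Fin n → ℝ) (p r : ℝ) : ∑ i, (p + u i ^ 2 * r) = n * p + (∑ i, u i ^ 2) * r := by
  rw [Finset.sum_add_distrib, Finset.sum_mul]
  simp

theorem gmd_exp_lo {y : ℝ} (hy : |y| ≤ 1 / 4) : Real.exp (y - y ^ 2) ≤ 1 + y := by
  have h1 := abs_le.1 hy
  have hz : |y - y ^ 2| ≤ 5 / 16 := by
    rw [abs_le]
    constructor <;> nlinarith
  have h2 := Real.exp_bound (x := y - y ^ 2) (hz.trans (by norm_num)) (n := 3) (by norm_num)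
  have h3 := (abs_le.1 h2).2
  simp only [Finset.sum_range_succ, Finset.sum_range_zero, Nat.factorial] at h3
  norm_num at h3
  set z := y - y ^ 2 with hzd
  have h4 : |z| ^ 3 ≤ 5 / 16 * z ^ 2 := by
    calc |z| ^ 3 = |z| * |z| ^ 2 := by ring
      _ = |z| * z ^ 2 := by rw [sq_abs]
      _ ≤ 5 / 16 * z ^ 2 := mul_le_mul_of_nonneg_right hz (sq_nonneg _)
  have h5 : z ^ 2 ≤ 25 / 16 * y ^ 2 := by
    have : z ^ 2 = y ^ 2 * (1 - y) ^ 2 := by rw [hzd]; ring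
    rw [this]
    have : (1 - y) ^ 2 ≤ 25 / 16 := by nlinarith
    nlinarith [sq_nonneg y]
  nlinarith [sq_nonneg y]

variable {γ C : ℝ} {μ : (n : ℕ) → Fin n → Measure ℝ} [∀ n i, IsProbabilityMeasure (μ n i)]

theorem md_int (n : ℕ) (S : Finset (Fin (2 * n))) (t : Fin (2 * n) → ℝ) :
    Integrable (fun a => Real.exp (∑ k ∈ S, t k * dr n (tra γ n a) 0 k)) (Measure.pi (μ n)) := by
  have h := mgf_int (μ n) (φ := fun _ => trc (lev γ n)) (fun _ => trc_meas _)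
    (b := lev γ n) (fun _ x => trc_bd (Real.rpow_nonneg (Nat.cast_nonneg n) _) x) (lin n S t)
  refine h.congr (Eventually.of_forall fun a => ?_)
  simp only
  rw [lin_eq]
  rfl

theorem gmd_md_eq (n : ℕ) (S : Finset (Fin (2 * n))) (t : Fin (2 * n) → ℝ) :
    ∫ a, Real.exp (∑ k ∈ S, t k * dr n (tra γ n a) 0 k) ∂(Measure.pi (μ n)) =
      ∏ i, ∫ x, Real.exp (lin n S t i * trc (lev γ n) x) ∂(μ n i) := by
  rw [← mgf_prod (μ n) (φ := fun _ => trc (lev γ n)) (lin n S t)]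
  refine integral_congr_ae (Eventually.of_forall fun a => ?_)
  simp only
  rw [lin_eq]
  rfl

theorem md_up (hγ : 2 < γ) (hμ : ∀ n i, Mom γ C (μ n i)) (q : ℕ) (Λ : ℝ) : ∀ᶠ n : ℕ in atTop,
    ∀ S : Finset (Fin (2 * n)), S.card ≤ q → (∀ k ∈ S, 0 < (k : ℕ) ∧ (k : ℕ) < n) → ∀ t : Fin (2 * n) → ℝ,
      ∑ k ∈ S, t k ^ 2 ≤ (Λ * th n) ^ 2 →
      ∫ a, Real.exp (∑ k ∈ S, t k * dr n (tra γ n a) 0 k) ∂(Measure.pi (μ n)) ≤
        Real.exp (∑ k ∈ S, t k ^ 2 / 2 + 1) := by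
  filter_upwards [gmd_ev_all hγ C q Λ] with n ⟨hn, hb1, h1, h2, h3, h4, h5, h6, h7, h8⟩ S hS hS' t ht
  rw [gmd_md_eq]
  have hn0 : (0 : ℝ) < n := by exact_mod_cast hn
  have hU0 := gmd_gU_nonneg q Λ n
  have hu := gmd_lin_le hS ht
  have hA := lin_sq n S hS' t
  set U := gmd_gU q Λ n
  set b := lev γ n
  set u := lin n S t
  set A := ∑ j, u j ^ 2
  set T := ∑ k ∈ S, t k ^ 2
  have hT0 : 0 ≤ T := Finset.sum_nonneg fun k _ => sq_nonneg _
  have hb0 : 0 < b := by linarith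
  have hm0 : 0 ≤ C * b ^ (1 - γ) := (abs_nonneg _).trans (trc_mean (hμ n ⟨0, hn⟩) hγ hb0)
  set m := C * b ^ (1 - γ)
  have hub : ∀ j, |u j| * b ≤ 1 := fun j =>
    (mul_le_mul_of_nonneg_right (hu j) hb0.le).trans (h1.trans (by norm_num))
  have hcard : 5 * (S.card : ℝ) / (2 * n) ≤ 5 * q / (2 * n) := by
    have : (S.card : ℝ) ≤ q := by exact_mod_cast hS
    gcongr
  have hA' : A ≤ T + 5 * q / (2 * n) * T := by
    have := (abs_le.1 hA).2
    have := mul_le_mul_of_nonneg_right hcard hT0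
    linarith
  calc ∏ i, ∫ x, Real.exp (u i * trc b x) ∂(μ n i)
      ≤ ∏ i, Real.exp (|u i| * m + u i ^ 2 * 1 / 2 * (1 + |u i| * b)) := by
        refine Finset.prod_le_prod (fun i _ => integral_nonneg fun x => (Real.exp_pos _).le) fun i _ => ?_
        exact mgf_up (trc_meas b) (trc_bd hb0.le) (trc_mean (hμ n i) hγ hb0) (trc_le (hμ n i) hγ hb0) (hub i)
    _ = Real.exp (∑ i, (|u i| * m + u i ^ 2 * 1 / 2 * (1 + |u i| * b))) := (Real.exp_sum _ _).symm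
    _ ≤ _ := by
        refine Real.exp_le_exp.2 ?_
        have e1 : ∑ i, (|u i| * m + u i ^ 2 * 1 / 2 * (1 + |u i| * b)) ≤
            ∑ i, (U * m + u i ^ 2 * ((1 + U * b) / 2)) := by
          refine Finset.sum_le_sum fun i _ => ?_
          have a1 := mul_le_mul_of_nonneg_right (hu i) hm0
          have a2 := mul_le_mul_of_nonneg_right (hu i) hb0.le
          have a3 := mul_le_mul_of_nonneg_left a2 (sq_nonneg (u i))
          linarith
        have e2 : ∑ i : Fin n, (U * m + u i ^ 2 * ((1 + U * b) / 2)) = n * (U * m) + A * ((1 + U * b) / 2) := by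
          exact gmd_sum_aff u _ _
        have e3 : ∑ k ∈ S, t k ^ 2 / 2 = T / 2 := by rw [Finset.sum_div]
        rw [e3]
        refine e1.trans (e2.le.trans ?_)
        have hx0 : 0 ≤ U * b := by positivity
        have hd0 : 0 ≤ 5 * (q : ℝ) / (2 * n) := by positivity
        have f1 : A * ((1 + U * b) / 2) ≤ (T + 5 * q / (2 * n) * T) * ((1 + U * b) / 2) :=
          mul_le_mul_of_nonneg_right hA' (by positivity)
        have f2 : T * (U * b) ≤ 1 / 10 := (mul_le_mul_of_nonneg_right ht hx0).trans h2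
        have f3 : T * (5 * q / (2 * n)) ≤ 1 / 10 := (mul_le_mul_of_nonneg_right ht hd0).trans h4
        have f4 : T * (5 * q / (2 * n)) * (U * b) ≤ 1 / 10 * (1 / 10) :=
          mul_le_mul f3 h1 hx0 (by norm_num)
        nlinarith

theorem md_lo (hγ : 2 < γ) (hμ : ∀ n i, Mom γ C (μ n i)) (q : ℕ) (Λ : ℝ) : ∀ᶠ n : ℕ in atTop,
    ∀ S : Finset (Fin (2 * n)), S.card ≤ q → (∀ k ∈ S, 0 < (k : ℕ) ∧ (k : ℕ) < n) → ∀ t : Fin (2 * n) → ℝ,
      ∑ k ∈ S, t k ^ 2 ≤ (Λ * th n) ^ 2 →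
      Real.exp (∑ k ∈ S, t k ^ 2 / 2 - 1) ≤
        ∫ a, Real.exp (∑ k ∈ S, t k * dr n (tra γ n a) 0 k) ∂(Measure.pi (μ n)) := by
  filter_upwards [gmd_ev_all hγ C q Λ] with n ⟨hn, hb1, h1, h2, h3, h4, h5, h6, h7, h8⟩ S hS hS' t ht
  rw [gmd_md_eq]
  have hn0 : (0 : ℝ) < n := by exact_mod_cast hn
  have hn1 : (1 : ℝ) ≤ n := by exact_mod_cast hn
  have hU0 := gmd_gU_nonneg q Λ n
  have hu := gmd_lin_le hS ht
  have hA := lin_sq n S hS' t
  set U := gmd_gU q Λ n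
  set b := lev γ n
  set u := lin n S t
  set A := ∑ j, u j ^ 2
  set T := ∑ k ∈ S, t k ^ 2
  have hT0 : 0 ≤ T := Finset.sum_nonneg fun k _ => sq_nonneg _
  have hb0 : 0 < b := by linarith
  have hm0 : 0 ≤ C * b ^ (1 - γ) := (abs_nonneg _).trans (trc_mean (hμ n ⟨0, hn⟩) hγ hb0)
  set m := C * b ^ (1 - γ)
  have hc0 : 0 ≤ C * b ^ (2 - γ) := by
    have := (trc_ge (hμ n ⟨0, hn⟩) hγ hb0).trans (trc_le (hμ n ⟨0, hn⟩) hγ hb0)
    linarith
  set c := C * b ^ (2 - γ)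
  have hub' : ∀ j, |u j| * b ≤ 1 / 10 := fun j =>
    (mul_le_mul_of_nonneg_right (hu j) hb0.le).trans h1
  have hub : ∀ j, |u j| * b ≤ 1 := fun j => (hub' j).trans (by norm_num)
  have hcard : 5 * (S.card : ℝ) / (2 * n) ≤ 5 * q / (2 * n) := by
    have : (S.card : ℝ) ≤ q := by exact_mod_cast hS
    gcongr
  have hd0 : 0 ≤ 5 * (q : ℝ) / (2 * n) := by positivity
  have hx0 : 0 ≤ U * b := by positivity
  set d := 5 * (q : ℝ) / (2 * n)
  have hA' : A ≤ T + d * T := by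
    have := (abs_le.1 hA).2
    have := mul_le_mul_of_nonneg_right hcard hT0
    linarith
  have hA'' : T - d * T ≤ A := by
    have := (abs_le.1 hA).1
    have := mul_le_mul_of_nonneg_right hcard hT0
    linarith
  have hUm : U * m ≤ 1 / 10 := by
    have : U * m ≤ n * (U * m) := le_mul_of_one_le_left (by positivity) hn1
    linarith
  have hUb : U ≤ U * b := le_mul_of_one_le_right hU0 hb1
  have hU1 : U ≤ 1 / 10 := hUb.trans h1
  -- the factors
  set y : Fin n → ℝ := fun i => -(|u i| * m) + u i ^ 2 / 2 * (1 - c) - u i ^ 2 / 2 * (|u i| * b) with hy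
  have hyP : ∀ i, |y i| ≤ |u i| * m + u i ^ 2 / 2 := by
    intro i
    have a1 : 0 ≤ |u i| * m := mul_nonneg (abs_nonneg _) hm0
    have a2 : 0 ≤ u i ^ 2 / 2 := by positivity
    have a3 : 0 ≤ |u i| * b := by positivity
    have a4 : 0 ≤ 1 - c - |u i| * b := by linarith [hub' i]
    have a5 : 1 - c - |u i| * b ≤ 1 := by linarith
    have a6 : y i = -(|u i| * m) + u i ^ 2 / 2 * (1 - c - |u i| * b) := by rw [hy]; ring
    have a7 := mul_nonneg a2 a4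
    have a8 : u i ^ 2 / 2 * (1 - c - |u i| * b) ≤ u i ^ 2 / 2 := mul_le_of_le_one_right a2 a5
    rw [abs_le, a6]
    constructor <;> linarith
  have hPY : ∀ i, |u i| * m + u i ^ 2 / 2 ≤ U * m + U ^ 2 / 2 := by
    intro i
    have a1 := mul_le_mul_of_nonneg_right (hu i) hm0
    have a2 : u i ^ 2 ≤ U ^ 2 := by
      rw [← sq_abs]
      exact pow_le_pow_left₀ (abs_nonneg _) (hu i) 2
    linarith
  have hY : U * m + U ^ 2 / 2 ≤ 1 / 4 := by nlinarith
  have hY0 : 0 ≤ U * m + U ^ 2 / 2 := by positivity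
  calc Real.exp (∑ k ∈ S, t k ^ 2 / 2 - 1) ≤ Real.exp (∑ i, (y i - y i ^ 2)) := by
        refine Real.exp_le_exp.2 ?_
        have e3 : ∑ k ∈ S, t k ^ 2 / 2 = T / 2 := by rw [Finset.sum_div]
        have e1 : ∑ i : Fin n, (-(U * m) * (1 + (U * m + U ^ 2 / 2)) +
            u i ^ 2 * ((1 - c - U * b - (U * m + U ^ 2 / 2)) / 2)) ≤ ∑ i, (y i - y i ^ 2) := by
          refine Finset.sum_le_sum fun i _ => ?_
          have a1 := mul_le_mul_of_nonneg_right (hu i) hm0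
          have a2 := mul_le_mul_of_nonneg_right (hu i) hb0.le
          have a3 := mul_le_mul_of_nonneg_left a2 (sq_nonneg (u i))
          have a4 : y i ^ 2 ≤ (U * m + U ^ 2 / 2) * (|u i| * m + u i ^ 2 / 2) := by
            rw [← sq_abs, sq]
            exact mul_le_mul ((hyP i).trans (hPY i)) (hyP i) (abs_nonneg _) hY0
          have a5 := mul_le_mul_of_nonneg_left a1 hY0
          have a6 : y i = -(|u i| * m) + u i ^ 2 / 2 * (1 - c) - u i ^ 2 * (|u i| * b) / 2 := by rw [hy]; ring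
          have a7 : (U * m + U ^ 2 / 2) * (|u i| * m + u i ^ 2 / 2) =
            (U * m + U ^ 2 / 2) * (|u i| * m) + u i ^ 2 * (U * m + U ^ 2 / 2) / 2 := by ring
          have a8 : -(U * m) * (1 + (U * m + U ^ 2 / 2)) +
            u i ^ 2 * ((1 - c - U * b - (U * m + U ^ 2 / 2)) / 2) = -(U * m) - (U * m + U ^ 2 / 2) * (U * m) +
              u i ^ 2 / 2 * (1 - c) - u i ^ 2 * (U * b) / 2 - u i ^ 2 * (U * m + U ^ 2 / 2) / 2 := by ring
          rw [a8]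
          linarith
        have e2 : ∑ i : Fin n, (-(U * m) * (1 + (U * m + U ^ 2 / 2)) +
            u i ^ 2 * ((1 - c - U * b - (U * m + U ^ 2 / 2)) / 2)) =
            -(n * (U * m)) * (1 + (U * m + U ^ 2 / 2)) + A * ((1 - c - U * b - (U * m + U ^ 2 / 2)) / 2) := by
          rw [gmd_sum_aff]
          ring
        rw [e3]
        refine le_trans ?_ (e2.ge.trans e1)
        have f2 : T * (U * b) ≤ 1 / 10 := (mul_le_mul_of_nonneg_right ht hx0).trans h2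
        have f3 : T * d ≤ 1 / 10 := (mul_le_mul_of_nonneg_right ht hd0).trans h4
        have f4 : T * c ≤ 1 / 10 := (mul_le_mul_of_nonneg_right ht hc0).trans h6
        have f5 : T * (U * m) ≤ 1 / 10 :=
          (mul_le_mul_of_nonneg_right (ht.trans h8) (by positivity)).trans h3
        have f6 : T * U ^ 2 ≤ 1 / 100 := by
          calc T * U ^ 2 = T * U * U := by ring
            _ ≤ T * (U * b) * U := by gcongr
            _ ≤ 1 / 10 * (1 / 10) := mul_le_mul f2 hU1 hU0 (by norm_num)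
            _ = 1 / 100 := by norm_num
        -- (lower bound for the main term)
        have g1 : (T - d * T) * (1 - c - U * b - (U * m + U ^ 2 / 2)) ≤
            A * (1 - c - U * b - (U * m + U ^ 2 / 2)) :=
          mul_le_mul_of_nonneg_right hA'' (by linarith)
        have g2 : T - T * d - T * c - T * (U * b) - T * (U * m) - T * U ^ 2 / 2 ≤
            (T - d * T) * (1 - c - U * b - (U * m + U ^ 2 / 2)) := by
          have : 0 ≤ T * d * (c + U * b + (U * m + U ^ 2 / 2)) := by positivity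
          linarith
        have g3 : n * (U * m) * (1 + (U * m + U ^ 2 / 2)) ≤ 1 / 10 * (1 + 1 / 4) :=
          mul_le_mul h3 (by linarith) (by positivity) (by norm_num)
        linarith
    _ = ∏ i, Real.exp (y i - y i ^ 2) := Real.exp_sum _ _
    _ ≤ ∏ i, (1 + y i) := by
        refine Finset.prod_le_prod (fun i _ => (Real.exp_pos _).le) fun i _ => ?_
        exact gmd_exp_lo ((hyP i).trans ((hPY i).trans hY))
    _ ≤ ∏ i, ∫ x, Real.exp (u i * trc b x) ∂(μ n i) := by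
        refine Finset.prod_le_prod (fun i _ => ?_) fun i _ => ?_
        · have := (abs_le.1 ((hyP i).trans ((hPY i).trans hY))).1
          linarith
        · have := mgf_lo (trc_meas b) (trc_bd hb0.le) (trc_mean (hμ n i) hγ hb0) (trc_ge (hμ n i) hγ hb0)
            (trc_le (hμ n i) hγ hb0) (hub i)
          refine le_of_eq_of_le ?_ this
          rw [hy]
          ring

end TZ
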