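import Pool.Agent.TZ.GDefs
import Pool.Agent.TZ.GMd

/-!
Project TZ (MP_b753aa_pr), module GLowA: one window, two windows.
Proof. `t_k = (1-η) yy(k - x0) th n` on the window `W = [x0, x0 + Mt)`, `∑ t² = T² = (1-η)² (th n)² ∑ yy²`.
(low_one) by tilting: `t' = t + ρ`, `ρ = log(8 Mt) + 5`, `M(t) = E exp⟨t,d⟩` (`md_int`). For `k ∈ W`, `σ = ±1`: under the tilted law
`dQ = exp⟨t',d⟩/M(t') dP`, `Q(σ(d_k - t'_k) ≥ ρ) ≤ M(t' + σ e_k)/M(t') · exp(-σ t'_k - ρ) ≤ exp(1/2 + 2 - ρ)` (`md_up`, `md_lo`), so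
`Q(|d_k - t'_k| < ρ for all k ∈ W) ≥ 1/2`, and there `⟨t',d⟩ ≤ |t'|² + ρ ∑ |t'_k|`, `d_k ≥ t'_k - ρ = t_k`. So `P(E) ≥ (1/2) M(t') exp(-|t'|² - ρ ∑|t'|)
≥ exp(-T²/2 - A(th n + 1))`. (No measure needs to be defined: write `∫ exp⟨t',d⟩ 1_{bad} ≤ ∑ ∫ exp(⟨t',d⟩ + σ(d_k - t'_k) - ρ)`.)
(low_two): on both events `⟨t,d⟩ ≥ |t|² = 2T²` on `W ∪ W'` (`t ≥ 0`), Markov with `md_up` (`2 Mt` sites): `≤ exp(2T²/2 + 1 - 2T²)`.
-/

noncomputable section

namespace TZ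

open MeasureTheory ProbabilityTheory Filter Topology Matrix
open scoped Real

/-- the window `[x0, x0 + Mt)` carries the profile -/
def Ew (γ η : ℝ) (Mt : ℕ) (yy : ℕ → ℝ) (n x0 : ℕ) : Set (Fin n → ℝ) := {a | ∀ k : Fin (2 * n), x0 ≤ (k : ℕ) →
  (k : ℕ) < x0 + Mt → (1 - η) * yy ((k : ℕ) - x0) * th n ≤ dr n (tra γ n a) 0 k}

/-- the squared length of the profile -/
def T2 (η : ℝ) (Mt : ℕ) (yy : ℕ → ℝ) (n : ℕ) : ℝ := (1 - η) ^ 2 * th n ^ 2 * ∑ j ∈ Finset.range Mt, yy j ^ 2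

theorem GLowA_tilt {Ω ι : Type*} [MeasurableSpace Ω] {ν : Measure Ω} [IsProbabilityMeasure ν]
    [DecidableEq ι] (W : Finset ι) (X : ι → Ω → ℝ) (t : ι → ℝ) {ρ : ℝ} {E : Set Ω}
    (hE : MeasurableSet E) (hsub : ∀ a, (∀ k ∈ W, t k - ρ ≤ X k a) → a ∈ E)
    (ht : ∀ k ∈ W, 0 ≤ t k)
    (hint : ∀ s : ι → ℝ, Integrable (fun a => Real.exp (∑ k ∈ W, s k * X k a)) ν)
    (hup : ∀ k ∈ W, ∀ σ : ℝ, σ ^ 2 = 1 →
      ∫ a, Real.exp (∑ j ∈ W, (t j + σ * (if j = k then 1 else 0)) * X j a) ∂ν ≤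
        Real.exp (∑ j ∈ W, (t j + σ * (if j = k then 1 else 0)) ^ 2 / 2 + 1))
    (hlo : Real.exp (∑ k ∈ W, t k ^ 2 / 2 - 1) ≤ ∫ a, Real.exp (∑ k ∈ W, t k * X k a) ∂ν)
    (hρ : 2 * W.card * Real.exp (5 / 2 - ρ) ≤ 1 / 2) :
    1 / 2 * Real.exp (-(∑ k ∈ W, t k ^ 2 / 2) - ρ * ∑ k ∈ W, t k - 1) ≤ (ν E).toReal := by
  have hlin : ∀ k ∈ W, ∀ σ : ℝ, ∀ a, ∑ j ∈ W, (t j + σ * (if j = k then 1 else 0)) * X j a =
      ∑ j ∈ W, t j * X j a + σ * X k a := by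
    intro k hk σ a
    have h1 : ∀ j ∈ W, (t j + σ * (if j = k then 1 else 0)) * X j a =
        t j * X j a + (if j = k then σ * X j a else 0) := by
      intro j _
      split_ifs <;> ring
    rw [Finset.sum_congr rfl h1, Finset.sum_add_distrib, Finset.sum_ite_eq', if_pos hk]
  have hquad : ∀ k ∈ W, ∀ σ : ℝ, σ ^ 2 = 1 →
      ∑ j ∈ W, (t j + σ * (if j = k then 1 else 0)) ^ 2 / 2 =
        ∑ j ∈ W, t j ^ 2 / 2 + (σ * t k + 1 / 2) := by
    intro k hk σ hσ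
    have h1 : ∀ j ∈ W, (t j + σ * (if j = k then 1 else 0)) ^ 2 / 2 =
        t j ^ 2 / 2 + (if j = k then σ * t j + 1 / 2 else 0) := by
      intro j _
      split_ifs
      · have h2 : (t j + σ * 1) ^ 2 / 2 = t j ^ 2 / 2 + (σ * t j + σ ^ 2 / 2) := by ring
        rw [h2, hσ]
      · ring
    rw [Finset.sum_congr rfl h1, Finset.sum_add_distrib, Finset.sum_ite_eq', if_pos hk]
  obtain ⟨B, hB⟩ : ∃ B : ℝ, B = ∑ k ∈ W, t k ^ 2 + ρ * ∑ k ∈ W, t k := ⟨_, rfl⟩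
  let f : ι → ℝ → Ω → ℝ := fun k σ a => Real.exp (-(σ * t k) - ρ) *
    Real.exp (∑ j ∈ W, (t j + σ * (if j = k then 1 else 0)) * X j a)
  have hf0 : ∀ k σ a, 0 ≤ f k σ a := fun k σ a => by positivity
  have hfk : ∀ k ∈ W, ∀ σ : ℝ, ∀ a, ρ ≤ σ * (X k a - t k) →
      Real.exp (∑ j ∈ W, t j * X j a) ≤ f k σ a := by
    intro k hk σ a h1
    change _ ≤ Real.exp (-(σ * t k) - ρ) *
      Real.exp (∑ j ∈ W, (t j + σ * (if j = k then 1 else 0)) * X j a)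
    rw [hlin k hk σ a, ← Real.exp_add]
    refine Real.exp_le_exp.2 ?_
    have h2 : σ * (X k a - t k) = σ * X k a - σ * t k := by ring
    linarith
  have hpt : ∀ a, Real.exp (∑ k ∈ W, t k * X k a) ≤
      E.indicator (fun _ => Real.exp B) a + ∑ k ∈ W, (f k 1 a + f k (-1) a) := by
    intro a
    have hsum0 : 0 ≤ ∑ k ∈ W, (f k 1 a + f k (-1) a) :=
      Finset.sum_nonneg (fun k _ => add_nonneg (hf0 k 1 a) (hf0 k (-1) a))
    by_cases hgood : ∀ k ∈ W, |X k a - t k| ≤ ρ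
    · have h1 : a ∈ E := hsub a (fun k hk => by
        have h2 := (abs_le.1 (hgood k hk)).1
        linarith)
      rw [Set.indicator_of_mem h1]
      have h3 : Real.exp (∑ k ∈ W, t k * X k a) ≤ Real.exp B := by
        refine Real.exp_le_exp.2 ?_
        rw [hB, Finset.mul_sum, ← Finset.sum_add_distrib]
        refine Finset.sum_le_sum (fun k hk => ?_)
        have h2 := (abs_le.1 (hgood k hk)).2
        have h4 : t k * X k a ≤ t k * (t k + ρ) :=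
          mul_le_mul_of_nonneg_left (by linarith) (ht k hk)
        have h5 : t k * (t k + ρ) = t k ^ 2 + ρ * t k := by ring
        linarith
      linarith
    · push Not at hgood
      obtain ⟨k, hk, h1⟩ := hgood
      have h2 : Real.exp (∑ j ∈ W, t j * X j a) ≤ f k 1 a + f k (-1) a := by
        rcases lt_abs.1 h1 with h3 | h3
        · have h4 := hfk k hk 1 a (by linarith)
          have h5 := hf0 k (-1) a
          linarith
        · have h4 := hfk k hk (-1) a (by linarith)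
          have h5 := hf0 k 1 a
          linarith
      have h3 : f k 1 a + f k (-1) a ≤ ∑ k ∈ W, (f k 1 a + f k (-1) a) :=
        Finset.single_le_sum (f := fun k => f k 1 a + f k (-1) a)
          (fun k _ => add_nonneg (hf0 k 1 a) (hf0 k (-1) a)) hk
      have h4 : 0 ≤ E.indicator (fun _ => Real.exp B) a :=
        Set.indicator_nonneg (fun _ _ => (Real.exp_pos _).le) _
      linarith
  have hfi : ∀ k σ, Integrable (fun a => f k σ a) ν := fun k σ => (hint _).const_mul _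
  have hadd : ∀ k, Integrable (fun a => f k 1 a + f k (-1) a) ν :=
    fun k => (hfi k 1).add (hfi k (-1))
  have hsi : Integrable (fun a => ∑ k ∈ W, (f k 1 a + f k (-1) a)) ν :=
    integrable_finsetSum W (fun k _ => hadd k)
  have hindi : Integrable (fun a => E.indicator (fun _ => Real.exp B) a) ν :=
    (integrable_const (Real.exp B)).indicator hE
  have hI : ∫ a, Real.exp (∑ k ∈ W, t k * X k a) ∂ν ≤
      (ν E).toReal * Real.exp B + ∑ k ∈ W, (∫ a, f k 1 a ∂ν + ∫ a, f k (-1) a ∂ν) := by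
    have h1 := integral_mono (hint t) (hindi.add hsi) hpt
    have h2 : ∫ a, (E.indicator (fun _ => Real.exp B) a + ∑ k ∈ W, (f k 1 a + f k (-1) a)) ∂ν =
        (ν E).toReal * Real.exp B + ∑ k ∈ W, (∫ a, f k 1 a ∂ν + ∫ a, f k (-1) a ∂ν) := by
      rw [integral_add hindi hsi, integral_finsetSum W (fun k _ => hadd k)]
      have h3 : ∫ a, E.indicator (fun _ => Real.exp B) a ∂ν = (ν E).toReal * Real.exp B := by
        rw [integral_indicator_const _ hE, smul_eq_mul]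
        rfl
      rw [h3]
      refine congrArg _ (Finset.sum_congr rfl (fun k _ => ?_))
      exact integral_add (hfi k 1) (hfi k (-1))
    exact h1.trans (le_of_eq h2)
  obtain ⟨M, hM⟩ : ∃ M : ℝ, M = ∫ a, Real.exp (∑ k ∈ W, t k * X k a) ∂ν := ⟨_, rfl⟩
  rw [← hM] at hI hlo
  have hterm : ∀ k ∈ W, ∀ σ : ℝ, σ ^ 2 = 1 → ∫ a, f k σ a ∂ν ≤ Real.exp (5 / 2 - ρ) * M := by
    intro k hk σ hσ
    have h1 : ∫ a, f k σ a ∂ν = Real.exp (-(σ * t k) - ρ) *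
        ∫ a, Real.exp (∑ j ∈ W, (t j + σ * (if j = k then 1 else 0)) * X j a) ∂ν :=
      integral_const_mul _ _
    rw [h1]
    have h2 := mul_le_mul_of_nonneg_left (hup k hk σ hσ) (Real.exp_pos (-(σ * t k) - ρ)).le
    refine h2.trans ?_
    rw [hquad k hk σ hσ, ← Real.exp_add]
    have h3 : -(σ * t k) - ρ + (∑ j ∈ W, t j ^ 2 / 2 + (σ * t k + 1 / 2) + 1) =
        (5 / 2 - ρ) + (∑ j ∈ W, t j ^ 2 / 2 - 1) := by ring
    rw [h3, Real.exp_add]
    exact mul_le_mul_of_nonneg_left hlo (Real.exp_pos _).le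
  have hM0 : 0 ≤ M := (Real.exp_pos _).le.trans hlo
  have hS : ∑ k ∈ W, (∫ a, f k 1 a ∂ν + ∫ a, f k (-1) a ∂ν) ≤ 1 / 2 * M := by
    calc ∑ k ∈ W, (∫ a, f k 1 a ∂ν + ∫ a, f k (-1) a ∂ν)
        ≤ ∑ k ∈ W, (Real.exp (5 / 2 - ρ) * M + Real.exp (5 / 2 - ρ) * M) :=
          Finset.sum_le_sum (fun k hk =>
            add_le_add (hterm k hk 1 (by norm_num)) (hterm k hk (-1) (by norm_num)))
      _ = 2 * W.card * Real.exp (5 / 2 - ρ) * M := by
          rw [Finset.sum_const, nsmul_eq_mul]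
          ring
      _ ≤ 1 / 2 * M := mul_le_mul_of_nonneg_right hρ hM0
  have h1 : 1 / 2 * Real.exp (∑ k ∈ W, t k ^ 2 / 2 - 1) ≤ (ν E).toReal * Real.exp B := by
    linarith
  have h2 : Real.exp (-(∑ k ∈ W, t k ^ 2 / 2) - ρ * ∑ k ∈ W, t k - 1) =
      Real.exp (∑ k ∈ W, t k ^ 2 / 2 - 1) * Real.exp (-B) := by
    rw [← Real.exp_add, hB]
    have h3 : ∑ k ∈ W, t k ^ 2 / 2 = (∑ k ∈ W, t k ^ 2) / 2 := by rw [Finset.sum_div]
    rw [h3]
    congr 1
    ring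
  rw [h2, ← mul_assoc]
  have h3 := mul_le_mul_of_nonneg_right h1 (Real.exp_pos (-B)).le
  have h4 : (ν E).toReal * Real.exp B * Real.exp (-B) = (ν E).toReal := by
    rw [mul_assoc, ← Real.exp_add, add_neg_cancel, Real.exp_zero, mul_one]
  rwa [h4] at h3

/-- the window `[x0, x0 + Mt)` -/
def Wn (n x0 Mt : ℕ) : Finset (Fin (2 * n)) :=
  Finset.univ.filter fun k => x0 ≤ (k : ℕ) ∧ (k : ℕ) < x0 + Mt

theorem Wn_mem {n x0 Mt : ℕ} {k : Fin (2 * n)} :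
    k ∈ Wn n x0 Mt ↔ x0 ≤ (k : ℕ) ∧ (k : ℕ) < x0 + Mt := by
  unfold Wn
  rw [Finset.mem_filter]
  exact and_iff_right (Finset.mem_univ k)

theorem Wn_inj (n x0 Mt : ℕ) : Set.InjOn (fun k : Fin (2 * n) => (k : ℕ) - x0) (Wn n x0 Mt) := by
  intro k hk l hl hkl
  have h1 := (Wn_mem.1 (Finset.mem_coe.1 hk)).1
  have h2 := (Wn_mem.1 (Finset.mem_coe.1 hl)).1
  have h3 : (k : ℕ) - x0 = (l : ℕ) - x0 := hkl
  apply Fin.ext
  omega

theorem Wn_image (n x0 Mt : ℕ) :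
    (Wn n x0 Mt).image (fun k : Fin (2 * n) => (k : ℕ) - x0) ⊆ Finset.range Mt := by
  intro j hj
  obtain ⟨k, hk, rfl⟩ := Finset.mem_image.1 hj
  have h1 := Wn_mem.1 hk
  rw [Finset.mem_range]
  omega

theorem Wn_card (n x0 Mt : ℕ) : (Wn n x0 Mt).card ≤ Mt := by
  rw [← Finset.card_image_of_injOn (Wn_inj n x0 Mt)]
  exact (Finset.card_le_card (Wn_image n x0 Mt)).trans (Finset.card_range Mt).le

theorem Wn_sum (n x0 Mt : ℕ) {F : ℕ → ℝ} (hF : ∀ j, 0 ≤ F j) :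
    ∑ k ∈ Wn n x0 Mt, F ((k : ℕ) - x0) ≤ ∑ j ∈ Finset.range Mt, F j := by
  rw [← Finset.sum_image (f := F) (Wn_inj n x0 Mt)]
  exact Finset.sum_le_sum_of_subset_of_nonneg (Wn_image n x0 Mt) (fun j _ _ => hF j)

theorem Ew_meas (γ η : ℝ) (Mt : ℕ) (yy : ℕ → ℝ) (n x0 : ℕ) : MeasurableSet (Ew γ η Mt yy n x0) := by
  unfold Ew
  have h1 : ∀ k : Fin (2 * n), Measurable fun a : Fin n → ℝ => dr n (tra γ n a) 0 k := by
    intro k
    refine (dr_meas n k).comp (measurable_pi_iff.2 (fun j => ?_))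
    exact (trc_meas (lev γ n)).comp (measurable_pi_apply j)
  simp only [Set.ofPred_forall]
  refine MeasurableSet.iInter (fun k => MeasurableSet.iInter (fun _ => MeasurableSet.iInter
    (fun _ => ?_)))
  exact measurableSet_le measurable_const (h1 k)

theorem low_one {γ C : ℝ} (hγ : 2 < γ) {η : ℝ} (hη : 0 < η) (hη1 : η ≤ 1 / 100) {Mt : ℕ} (hM : 1 ≤ Mt)
    {yy : ℕ → ℝ} (hy : ∀ j, 0 ≤ yy j) (hy1 : ∑ j ∈ Finset.range Mt, yy j ^ 2 ≤ 1) :
    ∃ A : ℝ, 0 ≤ A ∧ ∀ (μ : (n : ℕ) → Fin n → Measure ℝ) [∀ n i, IsProbabilityMeasure (μ n i)],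
    (∀ n i, Mom γ C (μ n i)) → ∀ᶠ n : ℕ in atTop, ∀ x0 : ℕ, 1 ≤ x0 → x0 + Mt ≤ n →
      ENNReal.ofReal (Real.exp (-(T2 η Mt yy n / 2 + A * (th n + 1)))) ≤ Measure.pi (μ n) (Ew γ η Mt yy n x0) := by
  have hMt : (1 : ℝ) ≤ Mt := by exact_mod_cast hM
  obtain ⟨ρ, hρdef⟩ : ∃ ρ : ℝ, ρ = Real.log (8 * Mt) + 5 := ⟨_, rfl⟩
  have hlog : 0 ≤ Real.log (8 * Mt) := Real.log_nonneg (by linarith)
  have hρ5 : 5 ≤ ρ := by linarith
  refine ⟨2 * ρ * Mt + 2 * ρ ^ 2 * Mt + 2, by positivity, ?_⟩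
  intro μ _ hμ
  have hth : ∀ᶠ n : ℕ in atTop, Mt * (ρ + 1) ^ 2 + 1 ≤ th n :=
    th_tendsto.eventually_ge_atTop _
  filter_upwards [md_up hγ hμ Mt 2, md_lo hγ hμ Mt 2, hth] with n hup hlo hthn
  intro x0 hx0 hx1
  have hth0 : 0 ≤ th n := Real.sqrt_nonneg _
  have hth1 : 1 ≤ th n := by
    have h1 : 0 ≤ Mt * (ρ + 1) ^ 2 := by positivity
    linarith
  have hyle : ∀ j ∈ Finset.range Mt, yy j ≤ 1 := by
    intro j hj
    have h1 : yy j ^ 2 ≤ ∑ j ∈ Finset.range Mt, yy j ^ 2 :=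
      Finset.single_le_sum (f := fun j => yy j ^ 2) (fun j _ => sq_nonneg _) hj
    have h2 : yy j ^ 2 ≤ 1 ^ 2 := by
      rw [one_pow]
      exact h1.trans hy1
    exact (pow_le_pow_iff_left₀ (hy j) zero_le_one two_ne_zero).1 h2
  have hWn : ∀ k ∈ Wn n x0 Mt, 0 < (k : ℕ) ∧ (k : ℕ) < n := by
    intro k hk
    have h1 := Wn_mem.1 hk
    omega
  obtain ⟨t, htdef⟩ : ∃ t : Fin (2 * n) → ℝ,
      t = fun k : Fin (2 * n) => (1 - η) * yy ((k : ℕ) - x0) * th n := ⟨_, rfl⟩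
  have ht0 : ∀ k, 0 ≤ t k := by
    intro k
    rw [htdef]
    have h1 : 0 ≤ 1 - η := by linarith
    have h2 := hy ((k : ℕ) - x0)
    positivity
  have ht1 : ∀ k ∈ Wn n x0 Mt, t k ≤ th n := by
    intro k hk
    rw [htdef]
    have h1 : yy ((k : ℕ) - x0) ≤ 1 := by
      refine hyle _ (Wn_image n x0 Mt (Finset.mem_image_of_mem _ hk))
    have h2 : (1 - η) * yy ((k : ℕ) - x0) ≤ 1 * 1 :=
      mul_le_mul (by linarith) h1 (hy _) (by norm_num)
    have h3 := mul_le_mul_of_nonneg_right h2 hth0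
    linarith
  have hts : ∑ k ∈ Wn n x0 Mt, t k ≤ Mt * th n := by
    calc ∑ k ∈ Wn n x0 Mt, t k ≤ ∑ k ∈ Wn n x0 Mt, th n := Finset.sum_le_sum ht1
      _ = (Wn n x0 Mt).card * th n := by rw [Finset.sum_const, nsmul_eq_mul]
      _ ≤ Mt * th n := by
          refine mul_le_mul_of_nonneg_right ?_ hth0
          exact_mod_cast Wn_card n x0 Mt
  have htsq : ∑ k ∈ Wn n x0 Mt, t k ^ 2 ≤ T2 η Mt yy n := by
    unfold T2
    rw [Finset.mul_sum]
    have h1 := Wn_sum n x0 Mt (F := fun j => (1 - η) ^ 2 * th n ^ 2 * yy j ^ 2)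
      (fun j => by positivity)
    refine le_trans (le_of_eq ?_) h1
    refine Finset.sum_congr rfl (fun k _ => ?_)
    rw [htdef]
    ring
  have hT2 : T2 η Mt yy n ≤ th n ^ 2 := by
    unfold T2
    have h1 : (1 - η) ^ 2 ≤ 1 := by nlinarith
    have h2 : (1 - η) ^ 2 * th n ^ 2 * ∑ j ∈ Finset.range Mt, yy j ^ 2 ≤
        (1 - η) ^ 2 * th n ^ 2 * 1 := mul_le_mul_of_nonneg_left hy1 (by positivity)
    have h3 : (1 - η) ^ 2 * th n ^ 2 ≤ 1 * th n ^ 2 := mul_le_mul_of_nonneg_right h1 (sq_nonneg _)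
    linarith
  have hnorm : ∀ s : Fin (2 * n) → ℝ, (∀ k, |s k| ≤ ρ + 1) →
      ∑ k ∈ Wn n x0 Mt, (t k + s k) ^ 2 ≤ (2 * th n) ^ 2 := by
    intro s hs
    have h1 : ∀ k ∈ Wn n x0 Mt, (t k + s k) ^ 2 ≤ 2 * t k ^ 2 + 2 * (ρ + 1) ^ 2 := by
      intro k _
      have h2 : s k ^ 2 ≤ (ρ + 1) ^ 2 := sq_le_sq' (abs_le.1 (hs k)).1 (abs_le.1 (hs k)).2
      nlinarith [sq_nonneg (t k - s k)]
    calc ∑ k ∈ Wn n x0 Mt, (t k + s k) ^ 2
        ≤ ∑ k ∈ Wn n x0 Mt, (2 * t k ^ 2 + 2 * (ρ + 1) ^ 2) := Finset.sum_le_sum h1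
      _ = 2 * ∑ k ∈ Wn n x0 Mt, t k ^ 2 + (Wn n x0 Mt).card * (2 * (ρ + 1) ^ 2) := by
          rw [Finset.sum_add_distrib, ← Finset.mul_sum, Finset.sum_const, nsmul_eq_mul]
      _ ≤ 2 * th n ^ 2 + Mt * (2 * (ρ + 1) ^ 2) := by
          have h3 : ((Wn n x0 Mt).card : ℝ) * (2 * (ρ + 1) ^ 2) ≤ Mt * (2 * (ρ + 1) ^ 2) := by
            refine mul_le_mul_of_nonneg_right ?_ (by positivity)
            exact_mod_cast Wn_card n x0 Mt
          linarith [htsq.trans hT2]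
      _ ≤ (2 * th n) ^ 2 := by
          have h3 : th n ≤ th n ^ 2 := by nlinarith
          have h4 : (Mt : ℝ) * (2 * (ρ + 1) ^ 2) = 2 * (Mt * (ρ + 1) ^ 2) := by ring
          have h5 : (2 * th n) ^ 2 = 4 * th n ^ 2 := by ring
          rw [h4, h5]
          linarith
  have hρabs : |ρ| ≤ ρ + 1 := by rw [abs_of_nonneg (by linarith)]; linarith
  have key := GLowA_tilt (ν := Measure.pi (μ n)) (Wn n x0 Mt)
    (fun k a => dr n (tra γ n a) 0 k) (fun k => t k + ρ) (ρ := ρ)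
    (E := Ew γ η Mt yy n x0) (Ew_meas γ η Mt yy n x0)
    (by
      intro a ha k hk1 hk2
      have h1 := ha k (Wn_mem.2 ⟨hk1, hk2⟩)
      rw [htdef] at h1
      simp only [add_sub_cancel_right] at h1
      exact h1)
    (fun k _ => by have := ht0 k; linarith)
    (fun s => md_int n (Wn n x0 Mt) s)
    (by
      intro k hk σ hσ
      refine hup (Wn n x0 Mt) (Wn_card n x0 Mt) hWn
        (fun j => t j + ρ + σ * (if j = k then 1 else 0)) ?_
      have h1 := hnorm (fun j => ρ + σ * (if j = k then 1 else 0)) (by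
        intro j
        have hσ1 : |σ| = 1 := by
          rw [← sq_abs] at hσ
          have h2 := abs_nonneg σ
          nlinarith
        split_ifs
        · rw [mul_one]
          refine (abs_add_le _ _).trans ?_
          rw [hσ1, abs_of_nonneg (by linarith : (0 : ℝ) ≤ ρ)]
        · rw [mul_zero, add_zero]
          exact hρabs)
      refine le_trans (le_of_eq (Finset.sum_congr rfl (fun j _ => ?_))) h1
      rw [add_assoc])
    (hlo (Wn n x0 Mt) (Wn_card n x0 Mt) hWn (fun j => t j + ρ) (hnorm (fun _ => ρ) (fun _ => hρabs)))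
    (by
      have h1 : Real.exp (5 / 2 - ρ) ≤ 1 / (8 * Mt) := by
        have h2 : 5 / 2 - ρ ≤ -Real.log (8 * Mt) := by linarith
        refine (Real.exp_le_exp.2 h2).trans ?_
        rw [Real.exp_neg, Real.exp_log (by linarith), one_div]
      have h3 : (2 : ℝ) * (Wn n x0 Mt).card ≤ 2 * Mt := by
        have h4 : ((Wn n x0 Mt).card : ℝ) ≤ Mt := by exact_mod_cast Wn_card n x0 Mt
        linarith
      have h5 := mul_le_mul h3 h1 (Real.exp_pos _).le (by linarith)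
      refine h5.trans ?_
      have h6 : (2 : ℝ) * Mt * (1 / (8 * Mt)) = 1 / 4 := by
        field_simp
        norm_num
      rw [h6]
      norm_num)
  rw [ENNReal.ofReal_le_iff_le_toReal (measure_ne_top _ _)]
  refine le_trans ?_ key
  have h2 : (1 / 2 : ℝ) = Real.exp (-Real.log 2) := by
    rw [Real.exp_neg, Real.exp_log (by norm_num)]
    norm_num
  rw [h2, ← Real.exp_add]
  refine Real.exp_le_exp.2 ?_
  have hl2 : Real.log 2 ≤ 1 := by
    have h3 := Real.log_le_sub_one_of_pos (by norm_num : (0 : ℝ) < 2)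
    linarith
  have hcr : ((Wn n x0 Mt).card : ℝ) ≤ Mt := by exact_mod_cast Wn_card n x0 Mt
  have h3 : ∑ k ∈ Wn n x0 Mt, (t k + ρ) ^ 2 / 2 ≤
      T2 η Mt yy n / 2 + ρ * (Mt * th n) + Mt * (ρ ^ 2 / 2) := by
    have h4 : ∑ k ∈ Wn n x0 Mt, (t k + ρ) ^ 2 / 2 = (∑ k ∈ Wn n x0 Mt, t k ^ 2) / 2 +
        ρ * ∑ k ∈ Wn n x0 Mt, t k + (Wn n x0 Mt).card * (ρ ^ 2 / 2) := by
      rw [Finset.sum_div, Finset.mul_sum, ← nsmul_eq_mul, ← Finset.sum_const,
        ← Finset.sum_add_distrib, ← Finset.sum_add_distrib]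
      refine Finset.sum_congr rfl (fun k _ => ?_)
      ring
    rw [h4]
    have h5 : ρ * ∑ k ∈ Wn n x0 Mt, t k ≤ ρ * (Mt * th n) :=
      mul_le_mul_of_nonneg_left hts (by linarith)
    have h6 : ((Wn n x0 Mt).card : ℝ) * (ρ ^ 2 / 2) ≤ Mt * (ρ ^ 2 / 2) :=
      mul_le_mul_of_nonneg_right hcr (by positivity)
    linarith
  have h4 : ρ * ∑ k ∈ Wn n x0 Mt, (t k + ρ) ≤ ρ * (Mt * th n) + Mt * ρ ^ 2 := by
    rw [Finset.sum_add_distrib, Finset.sum_const, nsmul_eq_mul, mul_add]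
    have h5 : ρ * ∑ k ∈ Wn n x0 Mt, t k ≤ ρ * (Mt * th n) :=
      mul_le_mul_of_nonneg_left hts (by linarith)
    have h6 : ((Wn n x0 Mt).card : ℝ) * ρ ^ 2 ≤ Mt * ρ ^ 2 :=
      mul_le_mul_of_nonneg_right hcr (by positivity)
    have h7 : ρ * ((Wn n x0 Mt).card * ρ) = (Wn n x0 Mt).card * ρ ^ 2 := by ring
    linarith
  have h5 : 0 ≤ (Mt : ℝ) * ρ ^ 2 := by positivity
  have h6 : 0 ≤ ρ * Mt := by positivity
  have h7 : 0 ≤ (2 * ρ ^ 2 * Mt + 2) * th n := by positivity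
  have h8 : (2 * ρ * Mt + 2 * ρ ^ 2 * Mt + 2) * (th n + 1) = 2 * (ρ * (Mt * th n)) +
      (2 * ρ ^ 2 * Mt + 2) * th n + 2 * (ρ * Mt) + 2 * (Mt * ρ ^ 2) + 2 := by ring
  rw [h8]
  linarith

/-- the sites of the window `[x, x + M)` -/
def winS (n x M : ℕ) : Finset (Fin (2 * n)) :=
  Finset.univ.filter fun k => x ≤ (k : ℕ) ∧ (k : ℕ) < x + M

theorem mem_winS {n x M : ℕ} {k : Fin (2 * n)} : k ∈ winS n x M ↔ x ≤ (k : ℕ) ∧ (k : ℕ) < x + M := by
  simp [winS]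

theorem winS_sum {n x M : ℕ} (hx : x + M ≤ n) (f : ℕ → ℝ) :
    ∑ k ∈ winS n x M, f ((k : ℕ) - x) = ∑ j ∈ Finset.range M, f j := by
  refine Finset.sum_bij' (fun k _ => (k : ℕ) - x)
    (fun j hj => (⟨x + j, by have := Finset.mem_range.1 hj; omega⟩ : Fin (2 * n))) ?_ ?_ ?_ ?_ ?_
  · intro k hk
    have := mem_winS.1 hk
    exact Finset.mem_range.2 (by omega)
  · intro j hj
    have := Finset.mem_range.1 hj
    refine mem_winS.2 ⟨?_, ?_⟩
    · show x ≤ x + j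
      omega
    · show x + j < x + M
      omega
  · intro k hk
    have := mem_winS.1 hk
    apply Fin.ext
    show x + ((k : ℕ) - x) = k
    omega
  · intro j hj
    show x + j - x = j
    omega
  · intro k hk
    rfl

theorem winS_card {n x M : ℕ} (hx : x + M ≤ n) : (winS n x M).card = M := by
  have h := winS_sum (n := n) hx (fun _ => (1 : ℝ))
  rw [Finset.sum_const, Finset.sum_const, Finset.card_range, nsmul_eq_mul, nsmul_eq_mul, mul_one,
    mul_one] at h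
  exact_mod_cast h

theorem low_two {γ C : ℝ} (hγ : 2 < γ) {η : ℝ} (hη : 0 < η) (hη1 : η ≤ 1 / 100) {Mt : ℕ} (hM : 1 ≤ Mt)
    {yy : ℕ → ℝ} (hy : ∀ j, 0 ≤ yy j) (hy1 : ∑ j ∈ Finset.range Mt, yy j ^ 2 ≤ 1)
    {μ : (n : ℕ) → Fin n → Measure ℝ} [∀ n i, IsProbabilityMeasure (μ n i)] (hμ : ∀ n i, Mom γ C (μ n i)) :
    ∀ᶠ n : ℕ in atTop, ∀ x0 x1 : ℕ, 1 ≤ x0 → x0 + Mt ≤ x1 → x1 + Mt ≤ n →
      Measure.pi (μ n) (Ew γ η Mt yy n x0 ∩ Ew γ η Mt yy n x1) ≤ ENNReal.ofReal (Real.exp (-T2 η Mt yy n + 1)) := by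
  filter_upwards [md_up hγ hμ (2 * Mt) 2] with n hn x0 x1 h0 h01 h1
  have hth : 0 ≤ th n := Real.sqrt_nonneg _
  have hη0 : 0 ≤ 1 - η := by linarith
  set t : Fin (2 * n) → ℝ := fun k => if (k : ℕ) < x0 + Mt then (1 - η) * yy ((k : ℕ) - x0) * th n
    else (1 - η) * yy ((k : ℕ) - x1) * th n with ht
  have ht0 : ∀ k, 0 ≤ t k := by
    intro k
    simp only [ht]
    split_ifs
    · exact mul_nonneg (mul_nonneg hη0 (hy _)) hth
    · exact mul_nonneg (mul_nonneg hη0 (hy _)) hth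
  have hdis : Disjoint (winS n x0 Mt) (winS n x1 Mt) := by
    rw [Finset.disjoint_left]
    intro k hk hk'
    have a1 := mem_winS.1 hk
    have a2 := mem_winS.1 hk'
    omega
  have hTsum : ∀ x : ℕ, x + Mt ≤ n →
      ∑ k ∈ winS n x Mt, ((1 - η) * yy ((k : ℕ) - x) * th n) ^ 2 = T2 η Mt yy n := by
    intro x hx
    rw [winS_sum hx (fun j => ((1 - η) * yy j * th n) ^ 2)]
    unfold T2
    rw [Finset.mul_sum]
    exact Finset.sum_congr rfl fun j _ => by ring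
  have hs : ∑ k ∈ winS n x0 Mt ∪ winS n x1 Mt, t k ^ 2 = 2 * T2 η Mt yy n := by
    rw [Finset.sum_union hdis]
    have e0 : ∑ k ∈ winS n x0 Mt, t k ^ 2 = T2 η Mt yy n := by
      rw [← hTsum x0 (by omega)]
      refine Finset.sum_congr rfl fun k hk => ?_
      have a1 := mem_winS.1 hk
      simp only [ht]
      rw [if_pos a1.2]
    have e1 : ∑ k ∈ winS n x1 Mt, t k ^ 2 = T2 η Mt yy n := by
      rw [← hTsum x1 h1]
      refine Finset.sum_congr rfl fun k hk => ?_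
      have a1 := mem_winS.1 hk
      simp only [ht]
      rw [if_neg (by omega)]
    rw [e0, e1]
    ring
  have hT0 : 0 ≤ T2 η Mt yy n := by
    unfold T2
    exact mul_nonneg (by positivity) (Finset.sum_nonneg fun j _ => sq_nonneg _)
  have hT1 : T2 η Mt yy n ≤ th n ^ 2 := by
    unfold T2
    have a1 : (1 - η) ^ 2 ≤ 1 := by nlinarith
    calc (1 - η) ^ 2 * th n ^ 2 * ∑ j ∈ Finset.range Mt, yy j ^ 2
        ≤ (1 - η) ^ 2 * th n ^ 2 * 1 := mul_le_mul_of_nonneg_left hy1 (by positivity)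
      _ = (1 - η) ^ 2 * th n ^ 2 := mul_one _
      _ ≤ 1 * th n ^ 2 := mul_le_mul_of_nonneg_right a1 (sq_nonneg _)
      _ = th n ^ 2 := one_mul _
  have hint := md_int (γ := γ) (μ := μ) n (winS n x0 Mt ∪ winS n x1 Mt) t
  have hup := hn (winS n x0 Mt ∪ winS n x1 Mt) (by
      rw [Finset.card_union_of_disjoint hdis, winS_card (by omega), winS_card h1]
      omega) (by
      intro k hk
      rcases Finset.mem_union.1 hk with h | h
      · have a1 := mem_winS.1 h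
        omega
      · have a1 := mem_winS.1 h
        omega) t (by
      rw [hs]
      nlinarith [sq_nonneg (th n)])
  rw [← Finset.sum_div, hs] at hup
  have hmark := mul_meas_ge_le_integral_of_nonneg
    (Filter.Eventually.of_forall fun a => (Real.exp_pos
      (∑ k ∈ winS n x0 Mt ∪ winS n x1 Mt, t k * dr n (tra γ n a) 0 k)).le) hint
    (Real.exp (2 * T2 η Mt yy n))
  have hsub : Ew γ η Mt yy n x0 ∩ Ew γ η Mt yy n x1 ⊆
      {a | Real.exp (2 * T2 η Mt yy n) ≤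
        Real.exp (∑ k ∈ winS n x0 Mt ∪ winS n x1 Mt, t k * dr n (tra γ n a) 0 k)} := by
    rintro a ⟨ha0, ha1⟩
    refine Real.exp_le_exp.2 ?_
    rw [← hs]
    refine Finset.sum_le_sum fun k hk => ?_
    have hle : t k ≤ dr n (tra γ n a) 0 k := by
      rcases Finset.mem_union.1 hk with h | h
      · have a1 := mem_winS.1 h
        simp only [ht]
        rw [if_pos a1.2]
        exact ha0 k a1.1 a1.2
      · have a1 := mem_winS.1 h
        simp only [ht]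
        rw [if_neg (by omega)]
        exact ha1 k a1.1 a1.2
    rw [pow_two]
    exact mul_le_mul_of_nonneg_left hle (ht0 k)
  refine (measure_mono hsub).trans ?_
  rw [← ofReal_measureReal]
  refine ENNReal.ofReal_le_ofReal ?_
  have h5 := hmark.trans hup
  have h6 : Real.exp (2 * T2 η Mt yy n / 2 + 1) =
      Real.exp (2 * T2 η Mt yy n) * Real.exp (-T2 η Mt yy n + 1) := by
    rw [← Real.exp_add]
    congr 1
    ring
  rw [h6] at h5
  exact le_of_mul_le_mul_left h5 (Real.exp_pos _)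

end TZ
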