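import Pool.Agent.TZ.GLowA

/-!
Project TZ (MP_b753aa_pr): `low_two` is in module GLowA.
-/
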