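import Pool.Agent.TZ.GDefs
import Pool.Agent.TZ.GMd
import Pool.Agent.TZ.GLowA
import Pool.Agent.TZ.GLowB

/-!
Project TZ (MP_b753aa_pr), module GLow: some window carries the profile with probability at least `n^{-o(1)}`.
Proof. Windows `W_i = [1 + i Mt, 1 + (i+1) Mt)`, `i < I = (n-1)/Mt` (disjoint, inside `(0,n)`), `t_k = (1-η) yy(k - x0) th n` on `W_i`,
`|t|² = T² := (1-η)² (th n)² ∑ yy² ≤ (1-η)² (th n)²`; `E_i = {∀ k ∈ W_i, t_k ≤ d_k}`.
(A), (B) are `low_one`, `low_two` of module GLowA.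
(C) second moment: for every `λ`: `0 ≤ E (N - λ)² 1_{N>0} = E N² - 2 λ E N + λ² P(N>0)`, `N = ∑ 1_{E_i}`, `E N² ≤ E N + I² exp(-T² + 1)`,
`E N ≥ I exp(-T²/2 - A0(th n+1)) ≥ 1` for large `n` (`T²/2 ≤ (1-η)² log n`), `λ = 1 + 2 I r/p`.
The events are measurable (`dr_meas`, `trc_meas`).
-/

noncomputable section

namespace TZ

open MeasureTheory ProbabilityTheory Filter Topology Matrix
open scoped Real

/-- second moment inequality -/
theorem GLow_sm {Ω : Type*} [MeasurableSpace Ω] (P : Measure Ω) [IsProbabilityMeasure P]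
    (s : Finset ℕ) (E : ℕ → Set Ω) (hE : ∀ i ∈ s, MeasurableSet (E i)) (lam : ℝ) :
    0 ≤ ∑ i ∈ s, ∑ j ∈ s, P.real (E i ∩ E j) - 2 * lam * ∑ i ∈ s, P.real (E i) +
      lam ^ 2 * P.real (⋃ i ∈ s, E i) := by
  classical
  have hUm : MeasurableSet (⋃ i ∈ s, E i) := Finset.measurableSet_biUnion s hE
  have hint : ∀ A : Set Ω, MeasurableSet A → Integrable (A.indicator fun _ => (1 : ℝ)) P :=
    fun A hA => (integrable_const 1).indicator hA
  have hval : ∀ A : Set Ω, MeasurableSet A → ∫ ω, A.indicator (fun _ => (1 : ℝ)) ω ∂P = P.real A := by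
    intro A hA
    rw [integral_indicator_const _ hA, smul_eq_mul, mul_one]
  have h1 : Integrable (fun ω => ∑ i ∈ s, ∑ j ∈ s, (E i ∩ E j).indicator (fun _ => (1 : ℝ)) ω) P :=
    integrable_finset_sum _ fun i hi => integrable_finset_sum _ fun j hj =>
      hint _ ((hE i hi).inter (hE j hj))
  have h2 : Integrable (fun ω => ∑ i ∈ s, (E i).indicator (fun _ => (1 : ℝ)) ω) P :=
    integrable_finset_sum _ fun i hi => hint _ (hE i hi)
  have hg : ∫ ω, ((∑ i ∈ s, ∑ j ∈ s, (E i ∩ E j).indicator (fun _ => (1 : ℝ)) ω) -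
      2 * lam * (∑ i ∈ s, (E i).indicator (fun _ => (1 : ℝ)) ω) +
      lam ^ 2 * (⋃ i ∈ s, E i).indicator (fun _ => (1 : ℝ)) ω) ∂P =
      ∑ i ∈ s, ∑ j ∈ s, P.real (E i ∩ E j) - 2 * lam * ∑ i ∈ s, P.real (E i) +
      lam ^ 2 * P.real (⋃ i ∈ s, E i) := by
    have h3 : Integrable (fun ω => 2 * lam * (∑ i ∈ s, (E i).indicator (fun _ => (1 : ℝ)) ω)) P :=
      h2.const_mul _
    have h4 : Integrable (fun ω => (∑ i ∈ s, ∑ j ∈ s, (E i ∩ E j).indicator (fun _ => (1 : ℝ)) ω) -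
        2 * lam * (∑ i ∈ s, (E i).indicator (fun _ => (1 : ℝ)) ω)) P := h1.sub h3
    have h5 : Integrable (fun ω => lam ^ 2 * (⋃ i ∈ s, E i).indicator (fun _ => (1 : ℝ)) ω) P :=
      (hint _ hUm).const_mul _
    rw [integral_add h4 h5, integral_sub h1 h3, integral_const_mul, integral_const_mul, hval _ hUm,
      integral_finset_sum _ fun i hi => hint _ (hE i hi),
      integral_finset_sum _ fun i hi => integrable_finset_sum _ fun j hj =>
        hint _ ((hE i hi).inter (hE j hj))]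
    congr 2
    · refine Finset.sum_congr rfl fun i hi => ?_
      rw [integral_finset_sum _ fun j hj => hint _ ((hE i hi).inter (hE j hj))]
      exact Finset.sum_congr rfl fun j hj => hval _ ((hE i hi).inter (hE j hj))
    · congr 1
      exact Finset.sum_congr rfl fun i hi => hval _ (hE i hi)
  rw [← hg]
  refine integral_nonneg fun ω => ?_
  have hsq : ∑ i ∈ s, ∑ j ∈ s, (E i ∩ E j).indicator (fun _ => (1 : ℝ)) ω =
      (∑ i ∈ s, (E i).indicator (fun _ => (1 : ℝ)) ω) ^ 2 := by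
    rw [sq, Finset.sum_mul_sum]
    refine Finset.sum_congr rfl fun i _ => Finset.sum_congr rfl fun j _ => ?_
    by_cases hi : ω ∈ E i <;> by_cases hj : ω ∈ E j <;> simp [Set.indicator, hi, hj]
  show 0 ≤ (∑ i ∈ s, ∑ j ∈ s, (E i ∩ E j).indicator (fun _ => (1 : ℝ)) ω) -
      2 * lam * (∑ i ∈ s, (E i).indicator (fun _ => (1 : ℝ)) ω) +
      lam ^ 2 * (⋃ i ∈ s, E i).indicator (fun _ => (1 : ℝ)) ω
  rw [hsq]
  by_cases hω : ω ∈ ⋃ i ∈ s, E i
  · rw [Set.indicator_of_mem hω]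
    nlinarith [sq_nonneg ((∑ i ∈ s, (E i).indicator (fun _ => (1 : ℝ)) ω) - lam)]
  · rw [Set.indicator_of_notMem hω]
    have h0 : ∑ i ∈ s, (E i).indicator (fun _ => (1 : ℝ)) ω = 0 := by
      refine Finset.sum_eq_zero fun i hi => ?_
      rw [Set.indicator_of_notMem]
      intro h
      exact hω (Set.mem_biUnion hi h)
    rw [h0]
    simp

theorem GLow_meas (γ η : ℝ) (Mt : ℕ) (yy : ℕ → ℝ) (n x0 : ℕ) : MeasurableSet (Ew γ η Mt yy n x0) := by
  have h : Ew γ η Mt yy n x0 = ⋂ k : Fin (2 * n), {a | x0 ≤ (k : ℕ) → (k : ℕ) < x0 + Mt →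
      (1 - η) * yy ((k : ℕ) - x0) * th n ≤ dr n (tra γ n a) 0 k} := by
    ext a
    simp [Ew]
  rw [h]
  refine MeasurableSet.iInter fun k => ?_
  by_cases h1 : x0 ≤ (k : ℕ) ∧ (k : ℕ) < x0 + Mt
  · have h2 : {a : Fin n → ℝ | x0 ≤ (k : ℕ) → (k : ℕ) < x0 + Mt →
        (1 - η) * yy ((k : ℕ) - x0) * th n ≤ dr n (tra γ n a) 0 k} =
        {a | (1 - η) * yy ((k : ℕ) - x0) * th n ≤ dr n (tra γ n a) 0 k} := by
      ext a
      simp [h1.1, h1.2]
    rw [h2]
    have h3 : Measurable fun a : Fin n → ℝ => tra γ n a :=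
      measurable_pi_lambda _ fun j => (trc_meas _).comp (measurable_pi_apply j)
    exact measurableSet_le measurable_const ((dr_meas n k).comp h3)
  · have h2 : {a : Fin n → ℝ | x0 ≤ (k : ℕ) → (k : ℕ) < x0 + Mt →
        (1 - η) * yy ((k : ℕ) - x0) * th n ≤ dr n (tra γ n a) 0 k} = Set.univ := by
      rw [Set.eq_univ_iff_forall]
      intro a h3 h4
      exact absurd ⟨h3, h4⟩ h1
    rw [h2]
    exact MeasurableSet.univ

/-- the growth of the number of windows -/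
theorem GLow_grow {η A0 : ℝ} (hη : 0 < η) (hA0 : 0 ≤ A0) (L : ℝ) :
    ∀ᶠ n : ℕ in atTop, A0 * (th n + 1) + L ≤ η * th n ^ 2 / 2 := by
  filter_upwards [th_tendsto.eventually_ge_atTop (max 1 (2 * (2 * A0 + |L|) / η))] with n hn
  have h1 : 1 ≤ th n := (le_max_left _ _).trans hn
  have h2 : 2 * (2 * A0 + |L|) / η ≤ th n := (le_max_right _ _).trans hn
  rw [div_le_iff₀ hη] at h2
  have h3 : A0 * (th n + 1) ≤ 2 * A0 * th n := by nlinarith
  have h4 : L ≤ |L| * th n := by nlinarith [le_abs_self L, abs_nonneg L]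
  nlinarith

theorem GLow_th {n : ℕ} (hn : 1 ≤ n) : (n : ℝ) = Real.exp (th n ^ 2 / 2) := by
  have h1 : (1 : ℝ) ≤ n := by exact_mod_cast hn
  unfold th
  rw [Real.sq_sqrt (by have := Real.log_nonneg h1; linarith)]
  have h2 : 2 * Real.log n / 2 = Real.log n := by ring
  rw [h2, Real.exp_log (by linarith)]

/-- the final computation -/
theorem GLow_num {I p r w S Q U : ℝ} (hI : 0 ≤ I) (hp : 0 < p) (hr : 0 ≤ r) (hw : 0 ≤ w)
    (hIp : 1 ≤ I * p) (hw4 : w ≤ 1 / 4) (hwr : 8 * (r * w) ≤ p ^ 2) (hS : I * p ≤ S)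
    (hQ : Q ≤ S + I ^ 2 * r) (hsm : ∀ lam : ℝ, 0 ≤ Q - 2 * lam * S + lam ^ 2 * U) : w ≤ U := by
  set lam : ℝ := 1 + 2 * I * r / p with hlam
  have h0 : 0 ≤ 2 * I * r / p := by positivity
  have h1 : 1 ≤ lam := by linarith
  have h2 : lam * (I * p) = I * p + 2 * I ^ 2 * r := by
    rw [hlam]
    field_simp
  have h3 := hsm lam
  have h4 : (2 * lam - 1) * (I * p) ≤ (2 * lam - 1) * S := mul_le_mul_of_nonneg_left hS (by linarith)
  have h5 : lam * (I * p) ≤ (2 * lam - 1) * (I * p) :=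
    mul_le_mul_of_nonneg_right (by linarith) (by linarith)
  have h6 : lam * (I * p) / 2 ≤ lam ^ 2 * U := by nlinarith
  have h7 : I * p / 2 ≤ lam * U := by
    have h8 : lam * (I * p / 2) ≤ lam * (lam * U) := by
      calc lam * (I * p / 2) = lam * (I * p) / 2 := by ring
        _ ≤ lam ^ 2 * U := h6
        _ = lam * (lam * U) := by ring
    exact le_of_mul_le_mul_left h8 (by linarith)
  have h9 : lam * w ≤ I * p / 2 := by
    have h10 : 2 * I * r / p * w ≤ I * p / 4 := by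
      have h11 : 2 * I * r / p * w = I / (4 * p) * (8 * (r * w)) := by
        field_simp
        ring
      have h12 : I * p / 4 = I / (4 * p) * p ^ 2 := by
        field_simp
      rw [h11, h12]
      exact mul_le_mul_of_nonneg_left hwr (by positivity)
    have h13 : lam * w = w + 2 * I * r / p * w := by
      rw [hlam]
      ring
    rw [h13]
    linarith
  exact le_of_mul_le_mul_left (h9.trans h7) (by linarith)

theorem lowG {γ C : ℝ} (hγ : 2 < γ) {η : ℝ} (hη : 0 < η) (hη1 : η ≤ 1 / 100) {Mt : ℕ} (hM : 1 ≤ Mt)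
    {yy : ℕ → ℝ} (hy : ∀ j, 0 ≤ yy j) (hy1 : ∑ j ∈ Finset.range Mt, yy j ^ 2 ≤ 1) :
    ∃ A : ℝ, ∀ (μ : (n : ℕ) → Fin n → Measure ℝ) [∀ n i, IsProbabilityMeasure (μ n i)],
    (∀ n i, Mom γ C (μ n i)) → ∀ᶠ n : ℕ in atTop,
      ENNReal.ofReal (Real.exp (-(A * (th n + 1)))) ≤ Measure.pi (μ n) {a | ∃ x0 : ℕ, 1 ≤ x0 ∧ x0 + Mt ≤ n ∧
        ∀ k : Fin (2 * n), x0 ≤ (k : ℕ) → (k : ℕ) < x0 + Mt →
          (1 - η) * yy ((k : ℕ) - x0) * th n ≤ dr n (tra γ n a) 0 k} := by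
  classical
  obtain ⟨A0, hA0, hone⟩ := low_one (C := C) hγ hη hη1 hM hy hy1
  refine ⟨2 * A0 + 6, fun μ _ hμ => ?_⟩
  filter_upwards [hone μ hμ, low_two hγ hη hη1 hM hy hy1 hμ,
    GLow_grow hη hA0 (Real.log (2 * Mt)), eventually_ge_atTop (2 * Mt)] with n h1 h2 h3 h4
  have hMR : (1 : ℝ) ≤ Mt := by exact_mod_cast hM
  have hn1 : 1 ≤ n := by omega
  have hth : 0 ≤ th n := Real.sqrt_nonneg _
  set I : ℕ := (n - 1) / Mt with hI
  have hI1 : I * Mt ≤ n - 1 := Nat.div_mul_le_self _ _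
  have hI2 : n ≤ (I + 1) * Mt := by
    have h5 : n - 1 < (I + 1) * Mt := (Nat.div_lt_iff_lt_mul hM).1 (Nat.lt_succ_self _)
    omega
  have hT0 : 0 ≤ T2 η Mt yy n := by
    unfold T2
    have := Finset.sum_nonneg (s := Finset.range Mt) (f := fun j => yy j ^ 2) fun _ _ => sq_nonneg _
    positivity
  have hT1 : T2 η Mt yy n ≤ (1 - η) ^ 2 * th n ^ 2 := by
    unfold T2
    have h5 : 0 ≤ (1 - η) ^ 2 * th n ^ 2 := by positivity
    nlinarith
  set T := T2 η Mt yy n with hT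
  set p : ℝ := Real.exp (-(T / 2 + A0 * (th n + 1))) with hp
  set r : ℝ := Real.exp (-T + 1) with hr
  set w : ℝ := Real.exp (-((2 * A0 + 6) * (th n + 1))) with hw
  set P := Measure.pi (μ n) with hP
  let E : ℕ → Set (Fin n → ℝ) := fun i => Ew γ η Mt yy n (1 + i * Mt)
  have hEm : ∀ i, MeasurableSet (E i) := fun i => GLow_meas γ η Mt yy n _
  have hin : ∀ i, i < I → 1 + i * Mt + Mt ≤ n := by
    intro i hi
    have h5 : (i + 1) * Mt ≤ I * Mt := Nat.mul_le_mul_right _ hi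
    have h6 : (i + 1) * Mt = i * Mt + Mt := by ring
    omega
  have hEp : ∀ i, i < I → p ≤ P.real (E i) := by
    intro i hi
    have h5 := h1 (1 + i * Mt) (by omega) (hin i hi)
    exact (ENNReal.ofReal_le_iff_le_toReal (measure_ne_top _ _)).1 h5
  have hEr : ∀ i j, i < j → j < I → P.real (E i ∩ E j) ≤ r := by
    intro i j hij hj
    have h5 : 1 + i * Mt + Mt ≤ 1 + j * Mt := by
      have h6 : (i + 1) * Mt ≤ j * Mt := Nat.mul_le_mul_right _ hij
      have h7 : (i + 1) * Mt = i * Mt + Mt := by ring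
      omega
    have h6 := h2 (1 + i * Mt) (1 + j * Mt) (by omega) h5 (hin j hj)
    exact ENNReal.toReal_le_of_le_ofReal (Real.exp_pos _).le h6
  have hr0 : 0 ≤ r := (Real.exp_pos _).le
  have hErr : ∀ i ∈ Finset.range I, ∀ j ∈ Finset.range I, P.real (E i ∩ E j) ≤
      (if i = j then P.real (E i) else 0) + r := by
    intro i hi j hj
    rw [Finset.mem_range] at hi hj
    split_ifs with hij
    · subst hij
      rw [Set.inter_self]
      linarith
    · rw [zero_add]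
      rcases lt_or_gt_of_ne hij with h | h
      · exact hEr i j h hj
      · rw [Set.inter_comm]
        exact hEr j i h hi
  have hQ : ∑ i ∈ Finset.range I, ∑ j ∈ Finset.range I, P.real (E i ∩ E j) ≤
      ∑ i ∈ Finset.range I, P.real (E i) + (I : ℝ) ^ 2 * r := by
    have h5 : ∀ i ∈ Finset.range I, ∑ j ∈ Finset.range I, P.real (E i ∩ E j) ≤
        P.real (E i) + I * r := by
      intro i hi
      refine (Finset.sum_le_sum (hErr i hi)).trans (le_of_eq ?_)
      rw [Finset.sum_add_distrib, Finset.sum_ite_eq, if_pos hi, Finset.sum_const,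
        Finset.card_range, nsmul_eq_mul]
    refine (Finset.sum_le_sum h5).trans (le_of_eq ?_)
    rw [Finset.sum_add_distrib, Finset.sum_const, Finset.card_range, nsmul_eq_mul]
    ring
  have hS : (I : ℝ) * p ≤ ∑ i ∈ Finset.range I, P.real (E i) := by
    have h5 : ∑ i ∈ Finset.range I, p ≤ ∑ i ∈ Finset.range I, P.real (E i) :=
      Finset.sum_le_sum fun i hi => hEp i (Finset.mem_range.1 hi)
    rwa [Finset.sum_const, Finset.card_range, nsmul_eq_mul] at h5
  have hIR : (n : ℝ) ≤ 2 * Mt * I := by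
    have h5 : (n : ℝ) ≤ (I + 1) * Mt := by exact_mod_cast hI2
    have h6 : (2 : ℝ) * Mt ≤ n := by exact_mod_cast h4
    nlinarith
  have hIp : 1 ≤ (I : ℝ) * p := by
    have h5 : (2 * Mt : ℝ) = Real.exp (Real.log (2 * Mt)) := (Real.exp_log (by linarith)).symm
    have h6 : Real.exp (Real.log (2 * Mt)) ≤ n * p := by
      rw [GLow_th hn1, hp, ← Real.exp_add]
      apply Real.exp_le_exp.2
      nlinarith [mul_nonneg hη.le (sq_nonneg (th n)), mul_nonneg (mul_nonneg hη.le (sub_nonneg.2 hη1)) (sq_nonneg (th n))]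
    rw [← h5] at h6
    have h7 : (n : ℝ) * p ≤ 2 * Mt * I * p := mul_le_mul_of_nonneg_right hIR (Real.exp_pos _).le
    have h8 : (2 * Mt : ℝ) * 1 ≤ 2 * Mt * (I * p) := by
      calc (2 * Mt : ℝ) * 1 ≤ n * p := by linarith
        _ ≤ 2 * Mt * I * p := h7
        _ = 2 * Mt * (I * p) := by ring
    exact le_of_mul_le_mul_left h8 (by linarith)
  have he5 : Real.exp (-5) ≤ 1 / 8 := by
    rw [Real.exp_neg, ← one_div]
    apply one_div_le_one_div_of_le (by norm_num)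
    have h5 := Real.exp_one_gt_d9
    have h6 : Real.exp 5 = Real.exp 1 ^ 5 := by
      rw [← Real.exp_nat_mul]
      norm_num
    rw [h6]
    calc (8 : ℝ) ≤ 2 ^ 5 := by norm_num
      _ ≤ Real.exp 1 ^ 5 := pow_le_pow_left₀ (by norm_num) (by linarith) 5
  have hw4 : w ≤ 1 / 4 := by
    have h5 : w ≤ Real.exp (-5) := by
      apply Real.exp_le_exp.2
      nlinarith [mul_nonneg hA0 hth]
    linarith
  have hwr : 8 * (r * w) ≤ p ^ 2 := by
    have h5 : r * w = p ^ 2 * Real.exp (1 - 6 * (th n + 1)) := by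
      rw [hr, hw, hp, sq, ← Real.exp_add, ← Real.exp_add, ← Real.exp_add]
      congr 1
      ring
    have h6 : Real.exp (1 - 6 * (th n + 1)) ≤ Real.exp (-5) := by
      apply Real.exp_le_exp.2
      linarith
    have h7 : 0 < p ^ 2 := by positivity
    rw [h5]
    nlinarith
  have hfin := GLow_num (Nat.cast_nonneg I) (Real.exp_pos _) hr0 (Real.exp_pos _).le hIp hw4 hwr hS hQ
    (GLow_sm P (Finset.range I) E fun i _ => hEm i)
  have hsub : (⋃ i ∈ Finset.range I, E i) ⊆ {a | ∃ x0 : ℕ, 1 ≤ x0 ∧ x0 + Mt ≤ n ∧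
        ∀ k : Fin (2 * n), x0 ≤ (k : ℕ) → (k : ℕ) < x0 + Mt →
          (1 - η) * yy ((k : ℕ) - x0) * th n ≤ dr n (tra γ n a) 0 k} := by
    intro a ha
    obtain ⟨i, hi, hai⟩ := Set.mem_iUnion₂.1 ha
    exact ⟨1 + i * Mt, by omega, hin i (Finset.mem_range.1 hi), hai⟩
  refine le_trans ?_ (measure_mono hsub)
  exact (ENNReal.ofReal_le_iff_le_toReal (measure_ne_top _ _)).2 hfin

end TZ
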