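import Pool.Agent.TZ.GDefs

/-!
Project TZ (MP_b753aa_pr), module GMcd: bounded differences inequality for product measures.
(Adapted from helper97/GUE/McDiarmid to products of different measures.)
-/

noncomputable section

namespace TZ

open MeasureTheory ProbabilityTheory Filter Topology Matrix
open scoped Real

theorem mcd_integrable_of_osc {α : Type*} [MeasurableSpace α] (μ : Measure α)
    [IsProbabilityMeasure μ]
    (g : α → ℝ) (hg : Measurable g) (M : ℝ) (hM : ∀ x y, |g x - g y| ≤ M) : Integrable g μ := by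
  have hne : Nonempty α := by
    by_contra h
    rw [not_nonempty_iff] at h
    have := measure_univ (μ := μ)
    rw [Set.univ_eq_empty_iff.mpr h] at this
    simp at this
  obtain ⟨x0⟩ := hne
  refine Integrable.of_bound hg.aestronglyMeasurable (|g x0| + M) (ae_of_all _ fun x => ?_)
  have := hM x x0
  rw [Real.norm_eq_abs]
  calc |g x| = |g x0 + (g x - g x0)| := by ring_nf
    _ ≤ |g x0| + |g x - g x0| := abs_add_le _ _
    _ ≤ _ := by linarith

theorem mcd_osc_integral {α β : Type*} [MeasurableSpace β] (ν : Measure β)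
    [IsProbabilityMeasure ν] (g : α → β → ℝ) (hg : ∀ a, Integrable (g a) ν) (M : ℝ)
    (hM : ∀ a a' b, |g a b - g a' b| ≤ M) (a a' : α) :
    |∫ b, g a b ∂ν - ∫ b, g a' b ∂ν| ≤ M := by
  rw [← integral_sub (hg a) (hg a')]
  calc |∫ b, (g a b - g a' b) ∂ν| ≤ ∫ b, |g a b - g a' b| ∂ν := abs_integral_le_integral_abs
    _ ≤ ∫ _, M ∂ν := by
      refine integral_mono ((hg a).sub (hg a')).abs (integrable_const _) fun b => hM a a' b
    _ = M := by simp

theorem mcd_centre {α : Type*} [MeasurableSpace α] (μ : Measure α) [IsProbabilityMeasure μ]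
    (g : α → ℝ) (hg : Measurable g) (M : ℝ) (hM : ∀ x y, |g x - g y| ≤ M) (x : α) :
    |g x - ∫ y, g y ∂μ| ≤ M := by
  have hI := mcd_integrable_of_osc μ g hg M hM
  have : g x - ∫ y, g y ∂μ = ∫ y, (g x - g y) ∂μ := by
    rw [integral_sub (integrable_const _) hI]; simp
  rw [this]
  calc |∫ y, (g x - g y) ∂μ| ≤ ∫ y, |g x - g y| ∂μ := abs_integral_le_integral_abs
    _ ≤ ∫ _, M ∂μ := by
      refine integral_mono ((integrable_const _).sub hI).abs (integrable_const _)
        fun y => hM x y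
    _ = M := by simp

theorem mcd_hoeffding {α : Type*} [MeasurableSpace α] (μ : Measure α) [IsProbabilityMeasure μ]
    (g : α → ℝ) (hg : Measurable g) (M : ℝ) (hM0 : 0 ≤ M) (hM : ∀ x y, |g x - g y| ≤ M) (t : ℝ) :
    Integrable (fun x => Real.exp (t * (g x - ∫ y, g y ∂μ))) μ ∧
    ∫ x, Real.exp (t * (g x - ∫ y, g y ∂μ)) ∂μ ≤ Real.exp (M ^ 2 * t ^ 2 / 2) := by
  have hb : ∀ x, g x ∈ Set.Icc ((∫ y, g y ∂μ) - M) ((∫ y, g y ∂μ) + M) := by
    intro x
    have h1 := mcd_centre μ g hg M hM x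
    rw [abs_le] at h1
    constructor <;> linarith [h1.1, h1.2]
  have h2 := hasSubgaussianMGF_of_mem_Icc (μ := μ) (X := g) hg.aemeasurable (ae_of_all _ hb)
  refine ⟨h2.integrable_exp_mul t, ?_⟩
  have h3 := h2.mgf_le t
  unfold mgf at h3
  refine h3.trans ?_
  apply Real.exp_le_exp.mpr
  have h4 : ((((‖(∫ y, g y ∂μ) + M - ((∫ y, g y ∂μ) - M)‖₊ / 2) ^ 2 : NNReal)) : ℝ) = M ^ 2 := by
    push_cast
    rw [Real.norm_eq_abs]
    have : (∫ y, g y ∂μ) + M - ((∫ y, g y ∂μ) - M) = 2 * M := by ring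
    rw [this, abs_of_nonneg (by linarith)]
    ring
  rw [h4]

theorem mcd_aux (c : ℝ) (hc0 : 0 ≤ c) (N : ℕ) :
    ∀ (μ : Fin N → Measure ℝ) (_ : ∀ i, IsProbabilityMeasure (μ i)) (f : (Fin N → ℝ) → ℝ),
    Measurable f →
    (∀ (x : Fin N → ℝ) (j : Fin N) (y : ℝ), |f (Function.update x j y) - f x| ≤ c) →
    (∀ x y, |f x - f y| ≤ N * c) ∧
    ∀ t : ℝ, ∫ x, Real.exp (t * (f x - ∫ y, f y ∂(Measure.pi μ)))
      ∂(Measure.pi μ) ≤ Real.exp (N * c ^ 2 * t ^ 2 / 2) := by
  induction N with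
  | zero =>
    intro μ hμ f hf hfc
    refine ⟨fun x y => ?_, fun t => ?_⟩
    · rw [Subsingleton.elim x y]; simp
    · have : ∀ x, f x = ∫ y, f y ∂(Measure.pi μ) := by
        intro x
        rw [integral_congr_ae (g := fun _ => f x) (ae_of_all _ fun y => by
          rw [Subsingleton.elim x y])]
        simp
      rw [integral_congr_ae (g := fun _ => (1 : ℝ)) (ae_of_all _ fun y => by
        simp only
        rw [← this y]; simp)]
      simp
  | succ N ih =>
    intro μ hμ f hf hfc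
    have hμ' := hμ
    set e := MeasurableEquiv.piFinSuccAbove (fun _ : Fin (N + 1) => ℝ) 0 with he
    have hmp : MeasurePreserving e (Measure.pi μ)
        ((μ 0).prod (Measure.pi fun j : Fin N => μ (Fin.succAbove 0 j))) :=
      measurePreserving_piFinSuccAbove μ 0
    set ν := Measure.pi fun j : Fin N => μ (Fin.succAbove 0 j) with hν
    set f' : ℝ → (Fin N → ℝ) → ℝ := fun y x => f (e.symm (y, x)) with hf'
    have hsymm : ∀ (y : ℝ) (x : Fin N → ℝ), e.symm (y, x) = Fin.cons y x := by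
      intro y x
      rw [he]
      ext i
      simp [MeasurableEquiv.piFinSuccAbove, Fin.insertNthEquiv]
    have hf'm : Measurable (Function.uncurry f') := hf.comp e.symm.measurable
    have hf'y : ∀ y, Measurable (f' y) := fun y => hf'm.comp measurable_prodMk_left
    have hbd1 : ∀ y (x : Fin N → ℝ) (j : Fin N) (z : ℝ),
        |f' y (Function.update x j z) - f' y x| ≤ c := by
      intro y x j z
      have := hfc (Fin.cons y x) j.succ z
      simp only [hf', hsymm]
      rw [Fin.cons_update]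
      exact this
    have hbd2 : ∀ y y' x, |f' y x - f' y' x| ≤ c := by
      intro y y' x
      have := hfc (Fin.cons y' x) 0 y
      simp only [hf', hsymm]
      rw [Fin.update_cons_zero] at this
      exact this
    have hih := fun y => ih (fun j : Fin N => μ (Fin.succAbove 0 j)) (fun j => hμ _)
      (f' y) (hf'y y) (hbd1 y)
    have hosc : ∀ y x y' x', |f' y x - f' y' x'| ≤ (N + 1 : ℕ) * c := by
      intro y x y' x'
      have h1 := (hih y).1 x x'
      have h2 := hbd2 y y' x'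
      calc |f' y x - f' y' x'| = |(f' y x - f' y x') + (f' y x' - f' y' x')| := by ring_nf
        _ ≤ |f' y x - f' y x'| + |f' y x' - f' y' x'| := abs_add_le _ _
        _ ≤ N * c + c := by linarith
        _ = (N + 1 : ℕ) * c := by push_cast; ring
    have hosc' : ∀ x y, |f x - f y| ≤ (N + 1 : ℕ) * c := by
      intro x y
      have := hosc (e x).1 (e x).2 (e y).1 (e y).2
      simpa [hf'] using this
    refine ⟨hosc', fun t => ?_⟩
    set F : ℝ → ℝ := fun y => ∫ x, f' y x ∂ν with hF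
    have hFm : Measurable F := hf'm.stronglyMeasurable.integral_prod_right.measurable
    have hint : ∀ y, Integrable (f' y) ν := fun y =>
      mcd_integrable_of_osc ν (f' y) (hf'y y) (N * c) (hih y).1
    have hFosc : ∀ y y', |F y - F y'| ≤ c := fun y y' =>
      mcd_osc_integral ν f' hint c (fun a a' b => hbd2 a a' b) y y'
    have hmean : ∫ y, f y ∂(Measure.pi μ) = ∫ y, F y ∂(μ 0) := by
      have h1 : ∫ y, f y ∂(Measure.pi μ)
          = ∫ p, f (e.symm p) ∂((μ 0).prod ν) := by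
        rw [← hmp.map_eq, integral_map_equiv]
        simp
      rw [h1, integral_prod]
      refine mcd_integrable_of_osc ((μ 0).prod ν) (fun p => f (e.symm p)) hf'm
        ((N + 1 : ℕ) * c) ?_
      intro p p'
      exact hosc p.1 p.2 p'.1 p'.2
    rw [hmean]
    have hexp : ∫ x, Real.exp (t * (f x - ∫ y, F y ∂(μ 0))) ∂(Measure.pi μ)
        = ∫ y, ∫ x, Real.exp (t * (f' y x - ∫ y, F y ∂(μ 0))) ∂ν ∂(μ 0) := by
      have h1 : ∫ x, Real.exp (t * (f x - ∫ y, F y ∂(μ 0))) ∂(Measure.pi μ)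
          = ∫ p, Real.exp (t * (f (e.symm p) - ∫ y, F y ∂(μ 0))) ∂((μ 0).prod ν) := by
        rw [← hmp.map_eq, integral_map_equiv]
        simp
      rw [h1, integral_prod]
      have hm : Measurable (fun p : ℝ × (Fin N → ℝ) =>
          Real.exp (t * (f (e.symm p) - ∫ y, F y ∂(μ 0)))) := by
        exact Real.measurable_exp.comp (measurable_const.mul (hf'm.sub measurable_const))
      set p0 : ℝ × (Fin N → ℝ) := (0, fun _ => 0)
      have hB : ∀ p : ℝ × (Fin N → ℝ),
          |f (e.symm p)| ≤ |f (e.symm p0)| + (N + 1 : ℕ) * c := by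
        intro p
        have := hosc' (e.symm p) (e.symm p0)
        calc |f (e.symm p)| = |f (e.symm p0) + (f (e.symm p) - f (e.symm p0))| := by ring_nf
          _ ≤ |f (e.symm p0)| + |f (e.symm p) - f (e.symm p0)| := abs_add_le _ _
          _ ≤ _ := by linarith
      refine Integrable.of_bound hm.aestronglyMeasurable
        (Real.exp (|t| * (|f (e.symm p0)| + (N + 1 : ℕ) * c + |∫ y, F y ∂(μ 0)|)))
        (ae_of_all _ fun p => ?_)
      rw [Real.norm_eq_abs, abs_of_pos (Real.exp_pos _), Real.exp_le_exp]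
      calc t * (f (e.symm p) - ∫ y, F y ∂(μ 0))
          ≤ |t * (f (e.symm p) - ∫ y, F y ∂(μ 0))| := le_abs_self _
        _ = |t| * |f (e.symm p) - ∫ y, F y ∂(μ 0)| := abs_mul _ _
        _ ≤ |t| * (|f (e.symm p0)| + (N + 1 : ℕ) * c + |∫ y, F y ∂(μ 0)|) := by
          apply mul_le_mul_of_nonneg_left _ (abs_nonneg _)
          calc |f (e.symm p) - ∫ y, F y ∂(μ 0)| ≤ |f (e.symm p)| + |∫ y, F y ∂(μ 0)| := abs_sub _ _
            _ ≤ _ := by linarith [hB p]
    rw [hexp]
    have hinner : ∀ y, ∫ x, Real.exp (t * (f' y x - ∫ y, F y ∂(μ 0))) ∂ν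
        ≤ Real.exp (t * (F y - ∫ y, F y ∂(μ 0))) * Real.exp (N * c ^ 2 * t ^ 2 / 2) := by
      intro y
      have h1 := (hih y).2 t
      have h2 : ∀ x, Real.exp (t * (f' y x - ∫ y, F y ∂(μ 0)))
          = Real.exp (t * (F y - ∫ y, F y ∂(μ 0))) * Real.exp (t * (f' y x - F y)) := by
        intro x
        rw [← Real.exp_add]
        congr 1
        ring
      simp_rw [h2]
      rw [integral_const_mul]
      exact mul_le_mul_of_nonneg_left h1 (Real.exp_pos _).le
    have hH := mcd_hoeffding (μ 0) F hFm c hc0 hFosc t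
    calc ∫ y, ∫ x, Real.exp (t * (f' y x - ∫ y, F y ∂(μ 0))) ∂ν ∂(μ 0)
        ≤ ∫ y, Real.exp (t * (F y - ∫ y, F y ∂(μ 0))) * Real.exp (N * c ^ 2 * t ^ 2 / 2)
            ∂(μ 0) := by
          refine integral_mono_of_nonneg (ae_of_all _ fun y =>
            integral_nonneg fun x => (Real.exp_pos _).le) (hH.1.mul_const _)
            (ae_of_all _ hinner)
      _ = (∫ y, Real.exp (t * (F y - ∫ y, F y ∂(μ 0))) ∂(μ 0))
            * Real.exp (N * c ^ 2 * t ^ 2 / 2) :=
          integral_mul_const _ _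
      _ ≤ Real.exp (c ^ 2 * t ^ 2 / 2) * Real.exp (N * c ^ 2 * t ^ 2 / 2) :=
          mul_le_mul_of_nonneg_right hH.2 (Real.exp_pos _).le
      _ = Real.exp ((N + 1 : ℕ) * c ^ 2 * t ^ 2 / 2) := by
          rw [← Real.exp_add]
          congr 1
          push_cast
          ring

/-- bounded differences: moment generating function form -/
theorem mcd_subG {n : ℕ} {ν : Fin n → Measure ℝ} [∀ i, IsProbabilityMeasure (ν i)]
    {f : (Fin n → ℝ) → ℝ} (hf : Measurable f) {c : ℝ} (hc0 : 0 ≤ c)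
    (hc : ∀ x i y, |f x - f (Function.update x i y)| ≤ c) (d : NNReal) (hd : (d : ℝ) = n * c ^ 2) :
    HasSubgaussianMGF (fun x => f x - ∫ y, f y ∂(Measure.pi ν)) d (Measure.pi ν) := by
  obtain ⟨h1, h2⟩ := mcd_aux c hc0 n ν (fun i => inferInstance) f hf
    (fun x j y => by rw [abs_sub_comm]; exact hc x j y)
  refine ⟨fun t => ?_, fun t => ?_⟩
  · have hm : Measurable (fun x => Real.exp (t * (f x - ∫ y, f y ∂(Measure.pi ν)))) :=
      Real.measurable_exp.comp (measurable_const.mul (hf.sub measurable_const))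
    refine Integrable.of_bound hm.aestronglyMeasurable
      (Real.exp (|t| * (n * c))) (ae_of_all _ fun x => ?_)
    rw [Real.norm_eq_abs, abs_of_pos (Real.exp_pos _), Real.exp_le_exp]
    have h3 := mcd_centre (Measure.pi ν) f hf _ h1 x
    calc t * (f x - ∫ y, f y ∂(Measure.pi ν)) ≤ |t * (f x - ∫ y, f y ∂(Measure.pi ν))| :=
          le_abs_self _
      _ = |t| * |f x - ∫ y, f y ∂(Measure.pi ν)| := abs_mul _ _
      _ ≤ _ := mul_le_mul_of_nonneg_left h3 (abs_nonneg _)
  · have := h2 t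
    unfold mgf
    rw [hd]
    exact this

theorem mcd {n : ℕ} {ν : Fin n → Measure ℝ} [∀ i, IsProbabilityMeasure (ν i)] {f : (Fin n → ℝ) → ℝ}
    (hf : Measurable f) {M c : ℝ} (hM : ∀ x, |f x| ≤ M) (hc0 : 0 < c) (hn : 0 < n)
    (hc : ∀ x i y, |f x - f (Function.update x i y)| ≤ c) {s : ℝ} (hs : 0 ≤ s) :
    Measure.pi ν {x | (∫ y, f y ∂(Measure.pi ν)) + s ≤ f x} ≤
      ENNReal.ofReal (Real.exp (-(s ^ 2 / (2 * n * c ^ 2)))) := by
  have hd0 : (0 : ℝ) ≤ n * c ^ 2 := by positivity
  have h := (mcd_subG (ν := ν) hf hc0.le hc (n * c ^ 2).toNNReal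
    (Real.coe_toNNReal _ hd0)).measure_ge_le hs
  rw [Real.coe_toNNReal _ hd0] at h
  have e1 : {x | (∫ y, f y ∂(Measure.pi ν)) + s ≤ f x} =
      {x | s ≤ f x - ∫ y, f y ∂(Measure.pi ν)} := by
    ext x
    simp only [Set.mem_ofPred_eq]
    constructor <;> intro h <;> linarith
  rw [e1, ← ofReal_measureReal (measure_ne_top _ _)]
  apply ENNReal.ofReal_le_ofReal
  refine h.trans (le_of_eq ?_)
  congr 1
  rw [neg_div, mul_assoc]

theorem mcd_lo {n : ℕ} {ν : Fin n → Measure ℝ} [∀ i, IsProbabilityMeasure (ν i)] {f : (Fin n → ℝ) → ℝ}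
    (hf : Measurable f) {M c : ℝ} (hM : ∀ x, |f x| ≤ M) (hc0 : 0 < c) (hn : 0 < n)
    (hc : ∀ x i y, |f x - f (Function.update x i y)| ≤ c) {s : ℝ} (hs : 0 ≤ s) :
    Measure.pi ν {x | f x ≤ (∫ y, f y ∂(Measure.pi ν)) - s} ≤
      ENNReal.ofReal (Real.exp (-(s ^ 2 / (2 * n * c ^ 2)))) := by
  have h := mcd (ν := ν) (f := fun x => - f x) hf.neg (M := M) (c := c)
    (fun x => by rw [abs_neg]; exact hM x) hc0 hn
    (fun x i y => by
      have := hc x i y
      rw [show - f x - - f (Function.update x i y) = -(f x - f (Function.update x i y)) by ring,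
        abs_neg]
      exact this) hs
  refine le_trans (measure_mono ?_) h
  intro x hx
  simp only [Set.mem_ofPred_eq, integral_neg] at hx ⊢
  linarith

end TZ
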