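import Pool.Agent.TZ.GDefs
import Pool.Agent.TZ.GMgf
import Pool.Agent.TZ.GLin
import Pool.Agent.TZ.GTrc
import Pool.Agent.TZ.Num

/-!
Project TZ (MP_b753aa_pr), module GMe: one site, truncated entries and remainder.
Proof. `b = lev γ n = n^β`, `1/γ < β < 1/2`, `u = lin n {k} (fun _ => w)`, `|u_j| ≤ 2|w|/√(2n)`, `∑ u_j² ≤ 2w²` (`lin_one`), for every site `k`
(also `0`, `n`, `> n`). (md_one): `mgf_up` for `trc b` (second moment `≤ 1`, mean `≤ C b^{1-γ}`): `E exp(w d_k) ≤ exp(1 + w² (1 + x_n))`, `x_n = 2|w| b/√(2n) → 0`;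
`w = ± th n`: `P(|d_k| ≥ 2 th n) ≤ 2 exp(1 + (th n)²(1 + x_n) - 2 (th n)²) ≤ 2e n^{-1.8} ≤ n^{-3/2}` for large `n`.
(md_rem): `dr_sub`; the variables `trc b - (trc B - mean)` have second moment `≤ 4 C B^{2-γ} ≤ σ² := η²/16`, mean `≤ C b^{1-γ}`, bound `2b` (`rmd_*`): `E exp(w d'_k) ≤
exp(1 + 2 σ² w²)` for `w = ± η th n/(4σ²)`, so `P(|d'_k| ≥ η th n) ≤ 2e exp(-η² (th n)²/(8σ²)) = 2e n^{-4} ≤ n^{-3}`.
`∑_j |u_j| C b^{1-γ} ≤ √(2n) |w| C n^{β(1-γ)} → 0` since `1/2 + β(1-γ) < 0`.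
-/

noncomputable section

namespace TZ

open MeasureTheory ProbabilityTheory Filter Topology Matrix
open scoped Real

/-- exponential moment of one site -/
theorem GMe_mgf {n : ℕ} (hn : 1 ≤ n) (ν : Fin n → Measure ℝ) [∀ i, IsProbabilityMeasure (ν i)]
    {φ : Fin n → ℝ → ℝ} (hφ : ∀ i, Measurable (φ i)) {b m v w x : ℝ} (hm0 : 0 ≤ m) (hv0 : 0 ≤ v) (hb0 : 0 ≤ b)
    (hb : ∀ i x, |φ i x| ≤ b) (hm : ∀ i, |∫ x, φ i x ∂(ν i)| ≤ m) (hv : ∀ i, ∫ x, φ i x ^ 2 ∂(ν i) ≤ v)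
    (hx : 2 / √(2 * n) * |w| * b ≤ x) (hx1 : x ≤ 1) (k : Fin (2 * n)) :
    Integrable (fun a : Fin n → ℝ => Real.exp (w * dr n (fun j => φ j (a j)) 0 k)) (Measure.pi ν) ∧
    ∫ a, Real.exp (w * dr n (fun j => φ j (a j)) 0 k) ∂(Measure.pi ν) ≤
      Real.exp (√(2 * n) * |w| * m + w ^ 2 * v * (1 + x)) := by
  have hn' : (1 : ℝ) ≤ n := by exact_mod_cast hn
  set u : Fin n → ℝ := lin n {k} (fun _ => w) with hu
  have e : ∀ a : Fin n → ℝ, w * dr n (fun j => φ j (a j)) 0 k = ∑ j, u j * φ j (a j) := by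
    intro a
    have := lin_eq n {k} (fun _ => w) (fun j => φ j (a j))
    rwa [Finset.sum_singleton] at this
  have hub : ∀ j, |u j| ≤ 2 / √(2 * n) * |w| := by
    intro j
    have := lin_bd n {k} (fun _ => w) j
    rwa [Finset.sum_singleton] at this
  have hu2 : ∑ j, u j ^ 2 ≤ 2 * w ^ 2 := lin_one n k (fun _ => w)
  have hs : 0 < √(2 * (n : ℝ)) := Real.sqrt_pos.2 (by linarith)
  have hub' : ∀ j, |u j| * b ≤ x := fun j =>
    le_trans (mul_le_mul_of_nonneg_right (hub j) hb0) hx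
  have hsum1 : ∑ j, |u j| ≤ √(2 * n) * |w| := by
    calc ∑ j, |u j| ≤ ∑ _j : Fin n, 2 / √(2 * n) * |w| := Finset.sum_le_sum fun j _ => hub j
      _ = n * (2 / √(2 * n) * |w|) := by simp
      _ = (√(2 * n) * √(2 * n)) / √(2 * n) * |w| := by
          rw [Real.mul_self_sqrt (by linarith)]
          ring
      _ = √(2 * n) * |w| := by
          rw [mul_div_assoc, div_self hs.ne', mul_one]
  simp only [e]
  refine ⟨mgf_int ν hφ hb u, ?_⟩
  rw [mgf_prod ν u]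
  have h1 : ∏ i, ∫ x, Real.exp (u i * φ i x) ∂(ν i) ≤
      ∏ i, Real.exp (|u i| * m + u i ^ 2 * v / 2 * (1 + x)) := by
    apply Finset.prod_le_prod
    · intro i _
      exact integral_nonneg fun y => (Real.exp_pos _).le
    · intro i _
      refine le_trans (mgf_up (hφ i) (hb i) (hm i) (hv i) (le_trans (hub' i) hx1)) ?_
      apply Real.exp_le_exp.2
      have : u i ^ 2 * v / 2 * (1 + |u i| * b) ≤ u i ^ 2 * v / 2 * (1 + x) :=
        mul_le_mul_of_nonneg_left (by linarith [hub' i]) (by positivity)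
      linarith
  refine le_trans h1 ?_
  rw [← Real.exp_sum]
  apply Real.exp_le_exp.2
  rw [Finset.sum_add_distrib, ← Finset.sum_mul]
  have h2 : ∑ i, u i ^ 2 * v / 2 * (1 + x) = (∑ i, u i ^ 2) * (v / 2 * (1 + x)) := by
    rw [Finset.sum_mul]
    exact Finset.sum_congr rfl fun i _ => by ring
  rw [h2]
  have hx0 : 0 ≤ x := le_trans (by positivity) hx
  have h3 : (∑ i, u i ^ 2) * (v / 2 * (1 + x)) ≤ 2 * w ^ 2 * (v / 2 * (1 + x)) :=
    mul_le_mul_of_nonneg_right hu2 (by positivity)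
  have h4 : (∑ i, |u i|) * m ≤ √(2 * n) * |w| * m := mul_le_mul_of_nonneg_right hsum1 hm0
  calc (∑ i, |u i|) * m + (∑ i, u i ^ 2) * (v / 2 * (1 + x))
      ≤ √(2 * n) * |w| * m + 2 * w ^ 2 * (v / 2 * (1 + x)) := add_le_add h4 h3
    _ = _ := by ring

/-- two sided tail of one site -/
theorem GMe_tail {n : ℕ} (hn : 1 ≤ n) (ν : Fin n → Measure ℝ) [∀ i, IsProbabilityMeasure (ν i)]
    {φ : Fin n → ℝ → ℝ} (hφ : ∀ i, Measurable (φ i)) {b m v w x T : ℝ} (hm0 : 0 ≤ m) (hv0 : 0 ≤ v) (hb0 : 0 ≤ b)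
    (hb : ∀ i x, |φ i x| ≤ b) (hm : ∀ i, |∫ x, φ i x ∂(ν i)| ≤ m) (hv : ∀ i, ∫ x, φ i x ^ 2 ∂(ν i) ≤ v)
    (hw : 0 ≤ w) (hx : 2 / √(2 * n) * w * b ≤ x) (hx1 : x ≤ 1) (k : Fin (2 * n)) :
    Measure.pi ν {a | T ≤ |dr n (fun j => φ j (a j)) 0 k|} ≤
      ENNReal.ofReal (2 * Real.exp (√(2 * n) * w * m + w ^ 2 * v * (1 + x) - w * T)) := by
  set X : (Fin n → ℝ) → ℝ := fun a => dr n (fun j => φ j (a j)) 0 k with hX
  set E : ℝ := Real.exp (√(2 * n) * w * m + w ^ 2 * v * (1 + x) - w * T) with hE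
  have A := GMe_mgf hn ν hφ (w := w) (x := x) hm0 hv0 hb0 hb hm hv (by rwa [abs_of_nonneg hw]) hx1 k
  have B := GMe_mgf hn ν hφ (w := -w) (x := x) hm0 hv0 hb0 hb hm hv
    (by rwa [abs_neg, abs_of_nonneg hw]) hx1 k
  rw [abs_of_nonneg hw] at A
  rw [abs_neg, abs_of_nonneg hw, neg_sq] at B
  have a1 : (Measure.pi ν).real {a | T ≤ X a} ≤ E := by
    refine le_trans (measure_ge_le_exp_mul_mgf T hw A.1) ?_
    refine le_trans (mul_le_mul_of_nonneg_left A.2 (Real.exp_pos _).le) ?_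
    rw [← Real.exp_add, hE]
    apply Real.exp_le_exp.2
    linarith
  have a2 : (Measure.pi ν).real {a | X a ≤ -T} ≤ E := by
    refine le_trans (measure_le_le_exp_mul_mgf (-T) (neg_nonpos.2 hw) B.1) ?_
    refine le_trans (mul_le_mul_of_nonneg_left B.2 (Real.exp_pos _).le) ?_
    rw [← Real.exp_add, hE]
    apply Real.exp_le_exp.2
    linarith
  have a3 : {a | T ≤ |X a|} ⊆ {a | T ≤ X a} ∪ {a | X a ≤ -T} := by
    intro a ha
    rcases le_abs.1 (show T ≤ |X a| from ha) with h | h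
    · exact Or.inl h
    · right
      show X a ≤ -T
      linarith
  calc Measure.pi ν {a | T ≤ |X a|} ≤ Measure.pi ν ({a | T ≤ X a} ∪ {a | X a ≤ -T}) := measure_mono a3
    _ ≤ Measure.pi ν {a | T ≤ X a} + Measure.pi ν {a | X a ≤ -T} := measure_union_le _ _
    _ = ENNReal.ofReal ((Measure.pi ν).real {a | T ≤ X a}) +
        ENNReal.ofReal ((Measure.pi ν).real {a | X a ≤ -T}) := by
          rw [ofReal_measureReal, ofReal_measureReal]
    _ ≤ ENNReal.ofReal E + ENNReal.ofReal E :=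
        add_le_add (ENNReal.ofReal_le_ofReal a1) (ENNReal.ofReal_le_ofReal a2)
    _ = ENNReal.ofReal (2 * E) := by
        rw [← ENNReal.ofReal_add (Real.exp_pos _).le (Real.exp_pos _).le]
        congr 1
        ring

theorem GMe_th {α c : ℝ} (hα : 0 < α) (hc : 0 < c) : ∀ᶠ n : ℕ in atTop, th n ≤ c * (n : ℝ) ^ α := by
  have a1 : Tendsto (fun x : ℝ => Real.log x / x ^ (2 * α)) atTop (𝓝 0) :=
    (isLittleO_log_rpow_atTop (by positivity)).tendsto_div_nhds_zero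
  have a2 := a1.comp (tendsto_natCast_atTop_atTop (R := ℝ))
  filter_upwards [a2.eventually_le_const (show (0 : ℝ) < c ^ 2 / 2 by positivity), eventually_ge_atTop 1]
    with n hn hn1
  have hn1' : (1 : ℝ) ≤ n := by exact_mod_cast hn1
  simp only [Function.comp] at hn
  have hp : 0 < (n : ℝ) ^ (2 * α) := Real.rpow_pos_of_pos (by linarith) _
  rw [div_le_iff₀ hp] at hn
  unfold th
  apply Real.sqrt_le_iff.2
  refine ⟨by positivity, ?_⟩
  have e : (c * (n : ℝ) ^ α) ^ 2 = c ^ 2 * (n : ℝ) ^ (2 * α) := by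
    rw [mul_pow, ← Real.rpow_natCast ((n : ℝ) ^ α) 2, ← Real.rpow_mul (by linarith)]
    norm_num
    ring_nf
    simp
  rw [e]
  linarith

theorem GMe_bet {γ : ℝ} (hγ : 2 < γ) : 0 < bet γ ∧ bet γ < 1 / 2 ∧ 1 / 2 + bet γ * (1 - γ) < 0 := by
  unfold bet
  have h0 : 0 < γ := by linarith
  have h1 : 0 < 1 / γ := by positivity
  have h2 : 1 / γ < 1 / 2 := one_div_lt_one_div_of_lt (by norm_num) hγ
  refine ⟨by linarith, by linarith, ?_⟩
  have h3 : 1 / γ < (1 / γ + 1 / 2) / 2 := by linarith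
  have h4 : 1 / γ * (γ - 1) < (1 / γ + 1 / 2) / 2 * (γ - 1) :=
    mul_lt_mul_of_pos_right h3 (by linarith)
  have h5 : 1 / γ * (γ - 1) = 1 - 1 / γ := by
    field_simp
  nlinarith

theorem GMe_sqrt {n : ℕ} (hn : 1 ≤ n) : √(2 * (n : ℝ)) ≤ 2 * (n : ℝ) ^ (1 / 2 : ℝ) ∧
    2 / √(2 * (n : ℝ)) ≤ 2 * (n : ℝ) ^ (-(1 / 2) : ℝ) := by
  have hn' : (1 : ℝ) ≤ n := by exact_mod_cast hn
  have h1 : (n : ℝ) ^ (1 / 2 : ℝ) = √n := (Real.sqrt_eq_rpow n).symm
  have hs : 0 < √(n : ℝ) := Real.sqrt_pos.2 (by linarith)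
  constructor
  · rw [h1]
    apply Real.sqrt_le_iff.2
    refine ⟨by positivity, ?_⟩
    rw [mul_pow, Real.sq_sqrt (by linarith)]
    linarith
  · rw [Real.rpow_neg (by linarith), h1, div_eq_mul_inv]
    apply mul_le_mul_of_nonneg_left _ (by norm_num)
    apply inv_anti₀ hs
    exact Real.sqrt_le_sqrt (by linarith)

theorem GMe_x {γ κ : ℝ} (hγ : 2 < γ) (hκ : 0 < κ) : ∀ᶠ n : ℕ in atTop,
    2 / √(2 * n) * (κ * th n) * (2 * lev γ n) ≤ 1 / 10 := by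
  obtain ⟨b0, b1, b2⟩ := GMe_bet hγ
  filter_upwards [GMe_th (α := 1 / 2 - bet γ) (c := 1 / (40 * κ)) (by linarith) (by positivity),
    eventually_ge_atTop 2] with n hn hn2
  have hn' : (2 : ℝ) ≤ n := by exact_mod_cast hn2
  have h1 := (GMe_sqrt (show 1 ≤ n by omega)).2
  have hth := th_pos hn2
  have hlev : 0 ≤ lev γ n := Real.rpow_nonneg (by linarith) _
  calc 2 / √(2 * n) * (κ * th n) * (2 * lev γ n)
      ≤ 2 * (n : ℝ) ^ (-(1 / 2) : ℝ) * (κ * (1 / (40 * κ) * (n : ℝ) ^ (1 / 2 - bet γ))) * (2 * lev γ n) := by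
        gcongr
    _ = 1 / 10 * ((n : ℝ) ^ (-(1 / 2) : ℝ) * (n : ℝ) ^ (1 / 2 - bet γ) * (n : ℝ) ^ bet γ) := by
        unfold lev
        field_simp
        ring
    _ = 1 / 10 := by
        rw [← Real.rpow_add (by linarith), ← Real.rpow_add (by linarith)]
        rw [show (-(1 / 2) : ℝ) + (1 / 2 - bet γ) + bet γ = 0 by ring, Real.rpow_zero, mul_one]
    _ ≤ 1 / 10 := le_rfl

theorem GMe_m {γ κ C : ℝ} (hγ : 2 < γ) (hκ : 0 < κ) (hC : 0 < C) : ∀ᶠ n : ℕ in atTop,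
    √(2 * n) * (κ * th n) * (C * lev γ n ^ (1 - γ)) ≤ 1 := by
  obtain ⟨b0, b1, b2⟩ := GMe_bet hγ
  filter_upwards [GMe_th (α := -(1 / 2 + bet γ * (1 - γ))) (c := 1 / (2 * κ * C)) (by linarith) (by positivity),
    eventually_ge_atTop 2] with n hn hn2
  have hn' : (2 : ℝ) ≤ n := by exact_mod_cast hn2
  have h1 := (GMe_sqrt (show 1 ≤ n by omega)).1
  have hth := th_pos hn2
  have hlev : 0 ≤ lev γ n ^ (1 - γ) := Real.rpow_nonneg (Real.rpow_nonneg (by linarith) _) _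
  have hl : lev γ n ^ (1 - γ) = (n : ℝ) ^ (bet γ * (1 - γ)) := by
    unfold lev
    rw [← Real.rpow_mul (by linarith)]
  calc √(2 * n) * (κ * th n) * (C * lev γ n ^ (1 - γ))
      ≤ 2 * (n : ℝ) ^ (1 / 2 : ℝ) * (κ * (1 / (2 * κ * C) * (n : ℝ) ^ (-(1 / 2 + bet γ * (1 - γ))))) *
        (C * lev γ n ^ (1 - γ)) := by
        gcongr
    _ = (n : ℝ) ^ (1 / 2 : ℝ) * (n : ℝ) ^ (-(1 / 2 + bet γ * (1 - γ))) * (n : ℝ) ^ (bet γ * (1 - γ)) := by
        rw [hl]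
        field_simp
    _ = 1 := by
        rw [← Real.rpow_add (by linarith), ← Real.rpow_add (by linarith)]
        rw [show (1 / 2 : ℝ) + -(1 / 2 + bet γ * (1 - γ)) + bet γ * (1 - γ) = 0 by ring, Real.rpow_zero]
    _ ≤ 1 := le_rfl

theorem GMe_exp {n : ℕ} (hn : 1 ≤ n) (c : ℝ) :
    Real.exp (1 - c * th n ^ 2) = Real.exp 1 * (n : ℝ) ^ (-(2 * c)) := by
  have hn' : (1 : ℝ) ≤ n := by exact_mod_cast hn
  have h : th n ^ 2 = 2 * Real.log n := by
    unfold th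
    rw [Real.sq_sqrt (mul_nonneg (by norm_num) (Real.log_nonneg hn'))]
  rw [h, Real.rpow_def_of_pos (by linarith), ← Real.exp_add]
  congr 1
  ring

variable {γ C : ℝ} {μ : (n : ℕ) → Fin n → Measure ℝ} [∀ n i, IsProbabilityMeasure (μ n i)]

theorem md_one (hγ : 2 < γ) (hμ : ∀ n i, Mom γ C (μ n i)) : ∀ᶠ n : ℕ in atTop, ∀ k : Fin (2 * n),
    Measure.pi (μ n) {a | 2 * th n ≤ |dr n (tra γ n a) 0 k|} ≤ ENNReal.ofReal ((n : ℝ) ^ (-(3 / 2) : ℝ)) := by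
  have hC : 1 ≤ C := (hμ 1 0).C_ge hγ
  have h1 := GMe_x (κ := 1) hγ one_pos
  have h2 := GMe_m (κ := 1) (C := C) hγ one_pos (by linarith)
  have h3 := ev_pow (a := -(2 * (9 / 10))) (b := -(3 / 2)) (C := 2 * Real.exp 1) (by norm_num)
  filter_upwards [h1, h2, h3, eventually_ge_atTop 2] with n g1 g2 g3 hn k
  have hn1 : 1 ≤ n := by omega
  have hn' : (2 : ℝ) ≤ n := by exact_mod_cast hn
  have hth := th_pos hn
  have hlev : 0 < lev γ n := Real.rpow_pos_of_pos (by linarith) _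
  rw [one_mul] at g1 g2
  have hx : 2 / √(2 * n) * th n * lev γ n ≤ 1 / 10 := by
    refine le_trans ?_ g1
    apply mul_le_mul_of_nonneg_left (by linarith) (by positivity)
  have key := GMe_tail hn1 (μ n) (φ := fun _ => trc (lev γ n)) (fun _ => trc_meas _) (b := lev γ n)
    (m := C * lev γ n ^ (1 - γ)) (v := 1) (w := th n) (x := 1 / 10) (T := 2 * th n)
    (mul_nonneg (by linarith) (Real.rpow_nonneg hlev.le _)) zero_le_one hlev.le (fun _ y => trc_bd hlev.le y)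
    (fun i => trc_mean (hμ n i) hγ hlev) (fun i => trc_le (hμ n i) hγ hlev) hth.le hx (by norm_num) k
  refine le_trans key (ENNReal.ofReal_le_ofReal ?_)
  have e1 : Real.exp (√(2 * n) * th n * (C * lev γ n ^ (1 - γ)) + th n ^ 2 * 1 * (1 + 1 / 10) - th n * (2 * th n)) ≤
      Real.exp (1 - 9 / 10 * th n ^ 2) := by
    apply Real.exp_le_exp.2
    nlinarith
  calc _ ≤ 2 * Real.exp (1 - 9 / 10 * th n ^ 2) := mul_le_mul_of_nonneg_left e1 (by norm_num)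
    _ = 2 * Real.exp 1 * (n : ℝ) ^ (-(2 * (9 / 10)) : ℝ) := by rw [GMe_exp hn1]; ring
    _ ≤ _ := g3

theorem md_rem (hγ : 2 < γ) (hμ : ∀ n i, Mom γ C (μ n i)) {η B : ℝ} (hη : 0 < η) (hη1 : η ≤ 1) (hB : 0 < B)
    (hBC : 4 * C * B ^ (2 - γ) ≤ η ^ 2 / 16) : ∀ᶠ n : ℕ in atTop, ∀ k : Fin (2 * n),
    Measure.pi (μ n) {a | η * th n ≤ |dr n (tra γ n a) 0 k - dr n (cen B (μ n) a) 0 k|} ≤
      ENNReal.ofReal ((n : ℝ) ^ (-3 : ℝ)) := by
  have hC : 1 ≤ C := (hμ 1 0).C_ge hγ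
  obtain ⟨b0, b1, b2⟩ := GMe_bet hγ
  have h1 := GMe_x (κ := 4 / η) hγ (by positivity)
  have h2 := GMe_m (κ := 4 / η) (C := C) hγ (by positivity) (by linarith)
  have h3 := ev_pow (a := -(2 * (29 / 10))) (b := -3) (C := 2 * Real.exp 1) (by norm_num)
  have h4 := (pow_tendsto b0).eventually_ge_atTop B
  filter_upwards [h1, h2, h3, h4, eventually_ge_atTop 2] with n g1 g2 g3 g4 hn k
  have hn1 : 1 ≤ n := by omega
  have hn' : (2 : ℝ) ≤ n := by exact_mod_cast hn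
  have hth := th_pos hn
  have hlev : 0 < lev γ n := Real.rpow_pos_of_pos (by linarith) _
  have hBl : B ≤ lev γ n := g4
  have key := GMe_tail hn1 (μ n)
    (φ := fun i x => trc (lev γ n) x - (trc B x - ∫ y, trc B y ∂(μ n i)))
    (fun _ => (trc_meas _).sub ((trc_meas _).sub_const _)) (b := 2 * lev γ n)
    (m := C * lev γ n ^ (1 - γ)) (v := η ^ 2 / 16) (w := 4 / η * th n) (x := 1 / 10) (T := η * th n)
    (mul_nonneg (by linarith) (Real.rpow_nonneg hlev.le _)) (by positivity) (by linarith)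
    (fun i y => rmd_bd hB hBl y)
    (fun i => rmd_mean (hμ n i) hγ hlev) (fun i => le_trans (rmd_sq (hμ n i) hγ hB hBl) hBC)
    (by positivity) g1 (by norm_num) k
  have hset : {a : Fin n → ℝ | η * th n ≤ |dr n (tra γ n a) 0 k - dr n (cen B (μ n) a) 0 k|} =
      {a | η * th n ≤
        |dr n (fun j => trc (lev γ n) (a j) - (trc B (a j) - ∫ y, trc B y ∂(μ n j))) 0 k|} := by
    ext a
    have := dr_sub n (tra γ n a) (cen B (μ n) a) k
    show η * th n ≤ |dr n (tra γ n a) 0 k - dr n (cen B (μ n) a) 0 k| ↔ _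
    rw [← this]
    rfl
  rw [hset]
  refine le_trans key (ENNReal.ofReal_le_ofReal ?_)
  have e1 : Real.exp (√(2 * n) * (4 / η * th n) * (C * lev γ n ^ (1 - γ)) +
      (4 / η * th n) ^ 2 * (η ^ 2 / 16) * (1 + 1 / 10) - 4 / η * th n * (η * th n)) ≤
      Real.exp (1 - 29 / 10 * th n ^ 2) := by
    apply Real.exp_le_exp.2
    have q1 : (4 / η * th n) ^ 2 * (η ^ 2 / 16) = th n ^ 2 := by
      field_simp
      norm_num
    have q2 : 4 / η * th n * (η * th n) = 4 * th n ^ 2 := by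
      field_simp
    rw [q1, q2]
    nlinarith
  calc _ ≤ 2 * Real.exp (1 - 29 / 10 * th n ^ 2) := mul_le_mul_of_nonneg_left e1 (by norm_num)
    _ = 2 * Real.exp 1 * (n : ℝ) ^ (-(2 * (29 / 10)) : ℝ) := by rw [GMe_exp hn1]; ring
    _ ≤ _ := g3

end TZ
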