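import Pool.Agent.TZ.GDefs
import Pool.Agent.TZ.GMd
import Pool.Agent.TZ.GMe
import Pool.Agent.TZ.GLin
import Pool.Agent.TZ.GTrc
import Pool.Agent.TZ.GLow
import Pool.Agent.TZ.GMcd
import Pool.Agent.TZ.GFs
import Pool.Agent.TZ.LowD

/-!
Project TZ (MP_b753aa_pr), module GConc: a vector with a large form exists with probability tending to one.
Proof. Let `η' = η/8`; `lowD` for `η'` gives `Mt, yy, n0`; `lowG` (with `η'`) gives `A`: the profile event `E` has probability
`≥ exp(-A(th n + 1))`. On `E` and `{|d_k| < 2 th n for all k}` (complement of probability `≤ 2n n^{-3/2}`, `md_one`) `lowD` gives `Fs n d ≥ (K0 - 4η') th n`,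
`d = dr n (tra γ n a) 0`. Choose `B ≥ 1` with `4 C B^{2-γ} ≤ η'²/16`; `d^B = dr n (cen B (μ n) a) 0`, `f a = Fs n d^B`; `|Fs n d - f| ≤ η' th n` outside of an event of
probability `≤ 2n n^{-3}` (`md_rem`, `Fs_lip`). So `P(f ≥ (K0 - 5η') th n) ≥ exp(-A(th n+1)) - 2n^{-1/2} - 2n^{-2} ≥ (1/2) exp(-A(th n + 1))` for large `n`
(`exp(-A th n)` beats every power of `n`). `f` has bounded differences `c = 2/√(2n) · 2B` (`dr_upd`, `trc_bd`; `cen` of the updated vector is the
update of `cen`), `2 n c² = 16 B²`, it is bounded and measurable (`Fs_cont`, `dr_meas`, `trc_meas`). By (mcd), if `E f < (K0 - 6η') th n` then `P(f ≥ (K0 - 5η') th n) ≤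
exp(-(η' th n)²/(16 B²))`, a contradiction for large `n`. So `E f ≥ (K0 - 6η') th n`, by (mcd_lo) `f > (K0 - 7η') th n` with probability tending to one, so
`Fs n d > (K0 - 8η') th n - ...`: use `Fs_ex`. (Count: `Fs n d ≥ f - η' th n > (K0 - 8η') th n ≥ (K0 - 4η) th n`.)
-/

noncomputable section

namespace TZ

open MeasureTheory ProbabilityTheory Filter Topology Matrix
open scoped Real

variable {γ C : ℝ} {μ : (n : ℕ) → Fin n → Measure ℝ} [∀ n i, IsProbabilityMeasure (μ n i)]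

/-- union bound over the sites -/
theorem conc_union {n : ℕ} (ν : Measure (Fin n → ℝ)) (s : Fin (2 * n) → Set (Fin n → ℝ)) {r : ℝ}
    (h : ∀ k, ν (s k) ≤ ENNReal.ofReal r) : ν {a | ∃ k, a ∈ s k} ≤ ENNReal.ofReal (2 * n * r) := by
  have hset : {a : Fin n → ℝ | ∃ k, a ∈ s k} = ⋃ k ∈ (Finset.univ : Finset (Fin (2 * n))), s k := by
    ext a
    simp
  rw [hset]
  refine (measure_biUnion_finset_le _ _).trans ?_
  refine (Finset.sum_le_sum fun k _ => h k).trans (le_of_eq ?_)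
  rw [Finset.sum_const, Finset.card_univ, Fintype.card_fin, nsmul_eq_mul,
    ENNReal.ofReal_mul (by positivity)]
  congr 1
  have : (2 : ℝ) * n = ((2 * n : ℕ) : ℝ) := by push_cast; ring
  rw [this, ENNReal.ofReal_natCast]

theorem conc_cen_meas {n : ℕ} (B : ℝ) (ν : Fin n → Measure ℝ) : Measurable fun a : Fin n → ℝ => cen B ν a :=
  measurable_pi_lambda _ fun j => ((trc_meas B).comp (measurable_pi_apply j)).sub_const _

theorem conc_cen_upd {n : ℕ} (B : ℝ) (ν : Fin n → Measure ℝ) (a : Fin n → ℝ) (i : Fin n) (y : ℝ) :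
    cen B ν (Function.update a i y) = Function.update (cen B ν a) i (trc B y - ∫ x, trc B x ∂(ν i)) := by
  funext j
  by_cases hj : j = i
  · subst hj
    simp [cen]
  · simp [cen, hj]

theorem conc_diff {n : ℕ} {B : ℝ} (hB : 0 ≤ B) (ν : Fin n → Measure ℝ) (a : Fin n → ℝ) (i : Fin n) (y : ℝ)
    (k : Fin (2 * n)) :
    |dr n (cen B ν a) 0 k - dr n (cen B ν (Function.update a i y)) 0 k| ≤ 2 / √(2 * n) * (2 * B) := by
  rw [conc_cen_upd]
  refine (dr_upd n (cen B ν a) i _ k).trans ?_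
  refine mul_le_mul_of_nonneg_left ?_ (by positivity)
  have e : cen B ν a i - (trc B y - ∫ x, trc B x ∂(ν i)) = trc B (a i) - trc B y := by
    unfold cen
    ring
  rw [e]
  have h1 := trc_bd hB (a i)
  have h2 := trc_bd hB y
  have h3 := abs_sub (trc B (a i)) (trc B y)
  linarith

theorem conc_bd {n : ℕ} {B : ℝ} (hB : 0 ≤ B) (ν : Fin n → Measure ℝ) [∀ i, IsProbabilityMeasure (ν i)]
    (a : Fin n → ℝ) (k : Fin (2 * n)) : |dr n (cen B ν a) 0 k| ≤ ∑ _j : Fin n, 2 / √(2 * n) * (2 * B) := by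
  rw [GLin_dr]
  refine (Finset.abs_sum_le_sum_abs _ _).trans (Finset.sum_le_sum fun j _ => ?_)
  rw [abs_mul]
  refine mul_le_mul (GLin_c_bd n j k) ?_ (abs_nonneg _) (by positivity)
  have h1 := trc_bd hB (a j)
  have h2 : |∫ x, trc B x ∂(ν j)| ≤ B := by
    have := norm_integral_le_of_norm_le_const (μ := ν j) (f := trc B) (C := B)
      (Eventually.of_forall fun x => by rw [Real.norm_eq_abs]; exact trc_bd hB x)
    simpa using this
  have h3 := abs_sub (trc B (a j)) (∫ x, trc B x ∂(ν j))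
  unfold cen
  linarith

theorem conc_exp {κ A c : ℝ} (hκ : 0 < κ) (hc : 0 < c) :
    ∀ᶠ x : ℝ in atTop, Real.exp (-(κ * x ^ 2)) < c * Real.exp (-(A * (x + 1))) := by
  have h : Tendsto (fun x : ℝ => κ * x ^ 2 - A * (x + 1)) atTop atTop := by
    have h1 : Tendsto (fun x : ℝ => κ * x - A) atTop atTop :=
      tendsto_atTop_add_const_right _ _ (tendsto_id.const_mul_atTop hκ)
    have h2 : Tendsto (fun x : ℝ => (κ * x - A) * x) atTop atTop := h1.atTop_mul_atTop₀ tendsto_id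
    have h3 := tendsto_atTop_add_const_right _ (-A) h2
    refine h3.congr fun x => ?_
    ring
  filter_upwards [h.eventually_gt_atTop (-Real.log c)] with x hx
  have : c = Real.exp (Real.log c) := (Real.exp_log hc).symm
  rw [this, ← Real.exp_add]
  exact Real.exp_lt_exp.2 (by linarith)

theorem conc_half (n : ℕ) (hn : 1 ≤ n) : (n : ℝ) ^ (-(1 / 2) : ℝ) = Real.exp (-(1 / 4 * th n ^ 2)) := by
  have hn0 : (0 : ℝ) < n := by exact_mod_cast hn
  have hl : 0 ≤ Real.log n := Real.log_nonneg (by exact_mod_cast hn)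
  rw [Real.rpow_def_of_pos hn0, th, Real.sq_sqrt (by positivity)]
  congr 1
  ring

theorem conc (hγ : 2 < γ) (hμ : ∀ n i, Mom γ C (μ n i)) {η : ℝ} (hη : 0 < η) (hη1 : η ≤ 1 / 100) :
    Tendsto (fun n : ℕ => Measure.pi (μ n) {a | ¬ ∃ v : Fin (2 * n) → ℂ, PP n *ᵥ v = v ∧
      ∑ k, ‖v k‖ ^ 2 = 1 ∧ (K0 - 4 * η) * th n ≤ ∑ k, dr n (tra γ n a) 0 k * ‖v k‖ ^ 2}) atTop (𝓝 0) := by
  set e : ℝ := η / 8 with he
  have he0 : 0 < e := by rw [he]; positivity
  have he1 : e ≤ 1 / 100 := by rw [he]; linarith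
  obtain ⟨Mt, yy, n0, hM, hy, hy1, hD⟩ := lowD he0 he1
  obtain ⟨A, hA⟩ := lowG (C := C) hγ he0 he1 hM hy hy1
  have hA' := hA μ hμ
  have hC : 1 ≤ C := (hμ 1 0).C_ge hγ
  -- the level `B`
  obtain ⟨B, hB1, hBC⟩ : ∃ B : ℝ, 1 ≤ B ∧ 4 * C * B ^ (2 - γ) ≤ e ^ 2 / 16 := by
    have h1 : Tendsto (fun x : ℝ => 4 * C * x ^ (-(γ - 2))) atTop (𝓝 (4 * C * 0)) :=
      (tendsto_rpow_neg_atTop (by linarith)).const_mul _
    rw [mul_zero] at h1
    have h2 := (h1.eventually_le_const (show (0 : ℝ) < e ^ 2 / 16 by positivity)).and (eventually_ge_atTop (1 : ℝ))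
    obtain ⟨B, h3, h4⟩ := h2.exists
    refine ⟨B, h4, ?_⟩
    have : (2 - γ) = -(γ - 2) := by ring
    rw [this]
    exact h3
  have hB0 : 0 < B := by linarith
  have hone := md_one (μ := μ) hγ hμ
  have hrem := md_rem (μ := μ) hγ hμ he0 (by linarith) hB0 hBC
  set κ : ℝ := e ^ 2 / (16 * B ^ 2) with hκ
  have hκ0 : 0 < κ := by rw [hκ]; positivity
  have hx1 := th_tendsto.eventually (conc_exp (A := A) hκ0 (show (0 : ℝ) < 1 / 3 by norm_num))
  have hx2 := th_tendsto.eventually (conc_exp (κ := 1 / 4) (A := A) (by norm_num) (show (0 : ℝ) < 1 / 6 by norm_num))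
  -- the limit of the bound
  have hlim : Tendsto (fun n : ℕ => ENNReal.ofReal (2 * n * (n : ℝ) ^ (-3 : ℝ)) +
      ENNReal.ofReal (Real.exp (-(κ * th n ^ 2)))) atTop (𝓝 0) := by
    have l1 : Tendsto (fun n : ℕ => 2 * (n : ℝ) * (n : ℝ) ^ (-3 : ℝ)) atTop (𝓝 0) := by
      have h1 := ((tendsto_rpow_neg_atTop (show (0 : ℝ) < 2 by norm_num)).comp
        (tendsto_natCast_atTop_atTop (R := ℝ))).const_mul 2
      rw [mul_zero] at h1
      refine h1.congr' ?_
      filter_upwards [eventually_ge_atTop 1] with n hn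
      have hn0 : (0 : ℝ) < n := by exact_mod_cast hn
      simp only [Function.comp]
      have : (n : ℝ) * (n : ℝ) ^ (-3 : ℝ) = (n : ℝ) ^ (-2 : ℝ) := by
        conv_lhs => rw [← Real.rpow_one (n : ℝ), ← Real.rpow_mul hn0.le, ← Real.rpow_add hn0]
        norm_num
      rw [mul_assoc, this]
    have l2 : Tendsto (fun n : ℕ => Real.exp (-(κ * th n ^ 2))) atTop (𝓝 0) := by
      refine Real.tendsto_exp_neg_atTop_nhds_zero.comp ?_
      exact ((tendsto_pow_atTop (by norm_num)).comp th_tendsto).const_mul_atTop hκ0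
    have l3 := (ENNReal.tendsto_ofReal l1).add (ENNReal.tendsto_ofReal l2)
    simpa using l3
  refine tendsto_of_tendsto_of_tendsto_of_le_of_le' tendsto_const_nhds hlim
    (Eventually.of_forall fun n => zero_le) ?_
  filter_upwards [hA', hone, hrem, hx1, hx2, eventually_ge_atTop 2, eventually_ge_atTop n0]
    with n nA n1 n2 x1 x2 hn2 hn0
  have hn1 : 1 ≤ n := by omega
  have hnpos : (0 : ℝ) < n := by exact_mod_cast hn1
  have hth : 0 < th n := th_pos hn2
  -- the function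
  set f : (Fin n → ℝ) → ℝ := fun a => Fs n fun k => dr n (cen B (μ n) a) 0 k with hf
  set c : ℝ := 2 / √(2 * n) * (2 * B) with hc
  have hc0 : 0 < c := by rw [hc]; positivity
  have hfm : Measurable f := (Fs_cont hn1).measurable.comp
    (measurable_pi_lambda _ fun k => (dr_meas n k).comp (conc_cen_meas B (μ n)))
  have hfM : ∀ x, |f x| ≤ ∑ _j : Fin n, 2 / √(2 * n) * (2 * B) := fun x =>
    Fs_bd hn1 fun k => conc_bd hB0.le (μ n) x k
  have hfc : ∀ x i y, |f x - f (Function.update x i y)| ≤ c := fun x i y =>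
    Fs_lip hn1 fun k => conc_diff hB0.le (μ n) x i y k
  have hcc : 2 * n * c ^ 2 = 16 * B ^ 2 := by
    rw [hc, mul_pow, div_pow, Real.sq_sqrt (by positivity)]
    field_simp
    ring
  have hsc : (e * th n) ^ 2 / (2 * n * c ^ 2) = κ * th n ^ 2 := by
    rw [hcc, hκ]
    field_simp
  have hup := mcd (ν := μ n) hfm hfM hc0 (by omega) hfc (s := e * th n) (by positivity)
  have hlo := mcd_lo (ν := μ n) hfm hfM hc0 (by omega) hfc (s := e * th n) (by positivity)
  rw [hsc] at hup hlo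
  have hbad1 := conc_union (Measure.pi (μ n)) (fun k => {a | 2 * th n ≤ |dr n (tra γ n a) 0 k|}) n1
  have hbad2 := conc_union (Measure.pi (μ n))
    (fun k => {a | e * th n ≤ |dr n (tra γ n a) 0 k - dr n (cen B (μ n) a) 0 k|}) n2
  have hclose : ∀ a : Fin n → ℝ, a ∉ {a : Fin n → ℝ | ∃ k, a ∈ (fun k => {a : Fin n → ℝ |
      e * th n ≤ |dr n (tra γ n a) 0 k - dr n (cen B (μ n) a) 0 k|}) k} →
      |Fs n (fun k => dr n (tra γ n a) 0 k) - f a| ≤ e * th n := by
    intro a ha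
    refine Fs_lip hn1 fun k => ?_
    by_contra hk
    exact ha ⟨k, (not_le.1 hk).le⟩
  -- lower bound of the mean
  have hmean : (K0 - 6 * e) * th n ≤ ∫ y, f y ∂(Measure.pi (μ n)) := by
    by_contra hlt
    have hlt := not_le.1 hlt
    have hsub : {a : Fin n → ℝ | ∃ x0 : ℕ, 1 ≤ x0 ∧ x0 + Mt ≤ n ∧
        ∀ k : Fin (2 * n), x0 ≤ (k : ℕ) → (k : ℕ) < x0 + Mt →
          (1 - e) * yy ((k : ℕ) - x0) * th n ≤ dr n (tra γ n a) 0 k} ⊆
        {a : Fin n → ℝ | ∃ k, a ∈ (fun k => {a : Fin n → ℝ | 2 * th n ≤ |dr n (tra γ n a) 0 k|}) k} ∪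
        ({a : Fin n → ℝ | ∃ k, a ∈ (fun k => {a : Fin n → ℝ |
          e * th n ≤ |dr n (tra γ n a) 0 k - dr n (cen B (μ n) a) 0 k|}) k} ∪
          {x | (∫ y, f y ∂(Measure.pi (μ n))) + e * th n ≤ f x}) := by
      intro a ha
      obtain ⟨x0, -, hx0, hwin⟩ := ha
      by_cases hb1 : a ∈ {a : Fin n → ℝ | ∃ k, a ∈ (fun k => {a : Fin n → ℝ | 2 * th n ≤ |dr n (tra γ n a) 0 k|}) k}
      · exact Or.inl hb1
      by_cases hb2 : a ∈ {a : Fin n → ℝ | ∃ k, a ∈ (fun k => {a : Fin n → ℝ |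
          e * th n ≤ |dr n (tra γ n a) 0 k - dr n (cen B (μ n) a) 0 k|}) k}
      · exact Or.inr (Or.inl hb2)
      refine Or.inr (Or.inr ?_)
      have hd : ∀ k, -(2 * th n) ≤ dr n (tra γ n a) 0 k := by
        intro k
        have h1 : |dr n (tra γ n a) 0 k| < 2 * th n := by
          by_contra hk
          exact hb1 ⟨k, not_lt.1 hk⟩
        exact (abs_lt.1 h1).1.le
      obtain ⟨v, hv, hv1, hv2⟩ := hD n hn0 (fun k => dr n (tra γ n a) 0 k) (th n) hth hd x0 hx0 hwin
      have h2 := Fs_ge (fun k => dr n (tra γ n a) 0 k) hv hv1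
      have h3 := (abs_le.1 (hclose a hb2)).2
      show (∫ y, f y ∂(Measure.pi (μ n))) + e * th n ≤ f a
      nlinarith
    have hm := nA.trans ((measure_mono hsub).trans ((measure_union_le _ _).trans
      (add_le_add hbad1 ((measure_union_le _ _).trans (add_le_add hbad2 hup)))))
    rw [← ENNReal.ofReal_add (by positivity) (by positivity), ← ENNReal.ofReal_add (by positivity) (by positivity),
      ENNReal.ofReal_le_ofReal_iff (by positivity)] at hm
    have p1 : 2 * (n : ℝ) * (n : ℝ) ^ (-(3 / 2) : ℝ) = 2 * Real.exp (-(1 / 4 * th n ^ 2)) := by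
      rw [← conc_half n hn1, mul_assoc]
      congr 1
      conv_lhs => rw [← Real.rpow_one (n : ℝ), ← Real.rpow_mul hnpos.le, ← Real.rpow_add hnpos]
      norm_num
    have p2 : 2 * (n : ℝ) * (n : ℝ) ^ (-3 : ℝ) ≤ 2 * Real.exp (-(1 / 4 * th n ^ 2)) := by
      rw [← conc_half n hn1, mul_assoc]
      refine mul_le_mul_of_nonneg_left ?_ (by norm_num)
      conv_lhs => rw [← Real.rpow_one (n : ℝ), ← Real.rpow_mul hnpos.le, ← Real.rpow_add hnpos]
      exact Real.rpow_le_rpow_of_exponent_le (by exact_mod_cast hn1) (by norm_num)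
    rw [p1] at hm
    have hpos := Real.exp_pos (-(A * (th n + 1)))
    linarith
  -- conclusion
  refine (measure_mono ?_).trans ((measure_union_le _ _).trans (add_le_add hbad2 hlo))
  intro a ha
  by_contra hnot
  simp only [Set.mem_union, not_or] at hnot
  obtain ⟨hb2, hb3⟩ := hnot
  apply ha
  have h3 := (abs_le.1 (hclose a hb2)).1
  have h4 : (∫ y, f y ∂(Measure.pi (μ n))) - e * th n < f a := not_le.1 hb3
  have h5 : (K0 - 4 * η) * th n < Fs n fun k => dr n (tra γ n a) 0 k := by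
    have h6 : η = 8 * e := by rw [he]; ring
    rw [h6]
    have h7 : 0 < e * th n := by positivity
    nlinarith
  obtain ⟨v, hv, hv1, hv2⟩ := Fs_ex hn1 h5
  exact ⟨v, hv, hv1, hv2.le⟩

end TZ
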