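import Pool.Agent.TZ.GDefs
import Pool.Agent.TZ.GMd

/-!
Project TZ (MP_b753aa_pr), module GNet: nets of directions and the tail of the sum of squares.
Proof. (net): the unit sphere of `Fin p → ℝ` (euclidean norm) is compact, take a finite `ζ`-net `𝒩`; for `x ≠ 0` with `x/|x|` within `ζ` of
`e`: `⟨e, x⟩ ≥ (1 - ζ)|x|` (`⟨e, y⟩ ≥ 1 - |e - y|` for unit vectors); `p ≥ 1` for nonemptiness (for `x = 0` any `e`).
(tail_gen): for `card S = p` transport the net to `S` (`S.equivFin`); `s ≤ |x|²` implies `⟨e, x⟩ ≥ (1-ζ')√s` for some `e` in the net,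
Markov with `t = (1-ζ')√s e` (`|t| ≤ Λ th n`) and `md_up`: probability `≤ card 𝒩 · e · exp(-(1-ζ')² s/2)`, `ζ' = ζ/2`. `S = ∅`: the event is empty
for `s > 0` and the bound is `≥ 1` for `s = 0` (`N ≥ 1`). `N` = maximum over `p ≤ q`.
-/

noncomputable section

namespace TZ

open MeasureTheory ProbabilityTheory Filter Topology Matrix
open scoped Real

theorem net (p : ℕ) (hp : 1 ≤ p) {ζ : ℝ} (hζ : 0 < ζ) : ∃ F : Finset (Fin p → ℝ), F.Nonempty ∧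
    (∀ e ∈ F, ∑ i, e i ^ 2 = 1) ∧ ∀ x : Fin p → ℝ, ∃ e ∈ F, (1 - ζ) * √(∑ i, x i ^ 2) ≤ ∑ i, e i * x i := by
  classical
  have : Nonempty (Fin p) := ⟨⟨0, hp⟩⟩
  have hnorm : ∀ z : EuclideanSpace ℝ (Fin p), ‖z‖ = √(∑ i, z i ^ 2) := fun z => by
    rw [EuclideanSpace.norm_eq]
    simp only [Real.norm_eq_abs, sq_abs]
  have hinn : ∀ z w : EuclideanSpace ℝ (Fin p), inner ℝ z w = ∑ i, z i * w i := fun z w => by
    rw [PiLp.inner_apply]
    exact Finset.sum_congr rfl fun i _ => mul_comm _ _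
  obtain ⟨T, hTs, hTf, hT⟩ :=
    (isCompact_sphere (0 : EuclideanSpace ℝ (Fin p)) 1).finite_cover_balls hζ
  have hTn : ∀ e ∈ T, ‖e‖ = 1 := fun e he => mem_sphere_zero_iff_norm.1 (hTs he)
  have hTne : T.Nonempty := by
    obtain ⟨z, hz⟩ : (Metric.sphere (0 : EuclideanSpace ℝ (Fin p)) 1).Nonempty :=
      NormedSpace.sphere_nonempty.2 zero_le_one
    obtain ⟨e, he, _⟩ := Set.mem_iUnion₂.1 (hT hz)
    exact ⟨e, he⟩
  refine ⟨hTf.toFinset.image (fun z i => z i), ?_, ?_, ?_⟩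
  · obtain ⟨e, he⟩ := hTne
    exact ⟨_, Finset.mem_image_of_mem _ (hTf.mem_toFinset.2 he)⟩
  · intro e' he'
    obtain ⟨e, he, rfl⟩ := Finset.mem_image.1 he'
    have h1 := hTn e (hTf.mem_toFinset.1 he)
    rw [hnorm, Real.sqrt_eq_one] at h1
    exact h1
  · intro x
    set z : EuclideanSpace ℝ (Fin p) := WithLp.toLp 2 x with hz
    have hzi : ∀ i, z i = x i := fun i => rfl
    rcases eq_or_ne z 0 with h0 | h0
    · obtain ⟨e, he⟩ := hTne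
      refine ⟨_, Finset.mem_image_of_mem _ (hTf.mem_toFinset.2 he), ?_⟩
      have h1 : ∀ i, x i = 0 := fun i => by
        rw [← hzi, h0]; rfl
      simp [h1]
    · have hz0 : 0 < ‖z‖ := norm_pos_iff.2 h0
      have h1 : ‖z‖⁻¹ • z ∈ Metric.sphere (0 : EuclideanSpace ℝ (Fin p)) 1 := by
        rw [mem_sphere_zero_iff_norm, norm_smul, norm_inv, norm_norm, inv_mul_cancel₀ hz0.ne']
      obtain ⟨e, he, h2⟩ := Set.mem_iUnion₂.1 (hT h1)
      refine ⟨_, Finset.mem_image_of_mem _ (hTf.mem_toFinset.2 he), ?_⟩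
      have h3 : ‖‖z‖⁻¹ • z - e‖ < ζ := by rwa [mem_ball_iff_norm] at h2
      have h4 : inner ℝ e z = ‖z‖ * (1 + inner ℝ e (‖z‖⁻¹ • z - e)) := by
        rw [inner_sub_right, inner_smul_right, real_inner_self_eq_norm_sq, hTn e he]
        field_simp
        ring
      have h5 : -ζ ≤ inner ℝ e (‖z‖⁻¹ • z - e) := by
        have h6 := abs_real_inner_le_norm e (‖z‖⁻¹ • z - e)
        rw [hTn e he, one_mul] at h6
        have h7 := (abs_le.1 h6).1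
        linarith
      have h8 : (1 - ζ) * ‖z‖ ≤ inner ℝ e z := by
        rw [h4]
        nlinarith
      rw [hnorm, hinn] at h8
      exact h8

/-- Markov's inequality for one direction -/
theorem GNet_one {n q : ℕ} {Λ s δ : ℝ} {ν : Measure (Fin n → ℝ)} [IsProbabilityMeasure ν]
    {D : (Fin n → ℝ) → Fin (2 * n) → ℝ} {S : Finset (Fin (2 * n))} (ι : S ↪ Fin q)
    (hint : ∀ t : Fin (2 * n) → ℝ, Integrable (fun a => Real.exp (∑ k ∈ S, t k * D a k)) ν)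
    (hup : ∀ t : Fin (2 * n) → ℝ, ∑ k ∈ S, t k ^ 2 ≤ Λ →
      ∫ a, Real.exp (∑ k ∈ S, t k * D a k) ∂ν ≤ Real.exp (∑ k ∈ S, t k ^ 2 / 2 + 1))
    (hs : 0 ≤ s) (hsΛ : s ≤ Λ) (hδ : 0 ≤ δ) (hδ1 : δ ≤ 1) {e : Fin q → ℝ} (he : ∑ i, e i ^ 2 = 1) :
    ν {a | δ * √s ≤ ∑ k : S, e (ι k) * D a k} ≤ ENNReal.ofReal (Real.exp (1 - δ ^ 2 * s / 2)) := by
  set t : Fin (2 * n) → ℝ := fun k => if h : k ∈ S then δ * √s * e (ι ⟨k, h⟩) else 0 with ht
  have ht1 : ∀ k : S, t k = δ * √s * e (ι k) := by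
    intro k
    rw [ht]
    simp only [k.2, dif_pos]
  have hss : √s ^ 2 = s := Real.sq_sqrt hs
  have hsum : ∑ k ∈ S, t k ^ 2 ≤ δ ^ 2 * s := by
    rw [← Finset.sum_coe_sort S (fun k => t k ^ 2)]
    have h1 : ∑ k : S, t k ^ 2 = δ ^ 2 * s * ∑ k : S, e (ι k) ^ 2 := by
      rw [Finset.mul_sum]
      refine Finset.sum_congr rfl fun k _ => ?_
      rw [ht1, mul_pow, mul_pow, hss]
    have h2 : ∑ k : S, e (ι k) ^ 2 ≤ 1 := by
      rw [← he]
      calc ∑ k : S, e (ι k) ^ 2 = ∑ i ∈ Finset.univ.map ι, e i ^ 2 := 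
            (Finset.sum_map Finset.univ ι (fun i => e i ^ 2)).symm
        _ ≤ ∑ i, e i ^ 2 := Finset.sum_le_univ_sum_of_nonneg fun i => sq_nonneg _
    rw [h1]
    calc δ ^ 2 * s * ∑ k : S, e (ι k) ^ 2 ≤ δ ^ 2 * s * 1 := by gcongr
      _ = δ ^ 2 * s := mul_one _
  have hδ2 : δ ^ 2 ≤ 1 := by nlinarith
  have hsum' : ∑ k ∈ S, t k ^ 2 ≤ Λ := hsum.trans (by nlinarith)
  have h3 := mul_meas_ge_le_integral_of_nonneg (μ := ν)
    (f := fun a => Real.exp (∑ k ∈ S, t k * D a k))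
    (Filter.Eventually.of_forall fun a => (Real.exp_pos _).le) (hint t) (Real.exp (δ ^ 2 * s))
  have h4 : ∑ k ∈ S, t k ^ 2 / 2 + 1 ≤ δ ^ 2 * s / 2 + 1 := by
    rw [← Finset.sum_div]
    linarith
  have h5 : ν.real {a | Real.exp (δ ^ 2 * s) ≤ Real.exp (∑ k ∈ S, t k * D a k)} ≤
      Real.exp (1 - δ ^ 2 * s / 2) := by
    have h6 : Real.exp (δ ^ 2 * s) *
        ν.real {a | Real.exp (δ ^ 2 * s) ≤ Real.exp (∑ k ∈ S, t k * D a k)} ≤
        Real.exp (δ ^ 2 * s) * Real.exp (1 - δ ^ 2 * s / 2) := by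
      refine h3.trans ((hup t hsum').trans ?_)
      rw [← Real.exp_add]
      exact Real.exp_le_exp.2 (by linarith)
    exact le_of_mul_le_mul_left h6 (Real.exp_pos _)
  have h7 : {a | δ * √s ≤ ∑ k : S, e (ι k) * D a k} ⊆
      {a | Real.exp (δ ^ 2 * s) ≤ Real.exp (∑ k ∈ S, t k * D a k)} := by
    intro a ha
    have ha' : δ * √s ≤ ∑ k : S, e (ι k) * D a k := ha
    have h8 : ∑ k ∈ S, t k * D a k = δ * √s * ∑ k : S, e (ι k) * D a k := by
      rw [← Finset.sum_coe_sort S (fun k => t k * D a k), Finset.mul_sum]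
      refine Finset.sum_congr rfl fun k _ => ?_
      rw [ht1]
      ring
    have h9 : δ ^ 2 * s ≤ ∑ k ∈ S, t k * D a k := by
      rw [h8]
      calc δ ^ 2 * s = δ * √s * (δ * √s) := by
            rw [show δ * √s * (δ * √s) = δ ^ 2 * √s ^ 2 by ring, hss]
        _ ≤ _ := mul_le_mul_of_nonneg_left ha' (by positivity)
    exact Real.exp_le_exp.2 h9
  calc ν {a | δ * √s ≤ ∑ k : S, e (ι k) * D a k}
      ≤ ν {a | Real.exp (δ ^ 2 * s) ≤ Real.exp (∑ k ∈ S, t k * D a k)} := measure_mono h7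
    _ = ENNReal.ofReal (ν.real {a | Real.exp (δ ^ 2 * s) ≤ Real.exp (∑ k ∈ S, t k * D a k)}) :=
        (ofReal_measureReal (measure_ne_top _ _)).symm
    _ ≤ _ := ENNReal.ofReal_le_ofReal h5

theorem tail_gen {γ C : ℝ} (hγ : 2 < γ) (q : ℕ) {ζ Λ : ℝ} (hζ : 0 < ζ) (hζ1 : ζ < 1) (hΛ : 0 ≤ Λ) :
    ∃ N : ℝ, 1 ≤ N ∧ ∀ (μ : (n : ℕ) → Fin n → Measure ℝ) [∀ n i, IsProbabilityMeasure (μ n i)],
    (∀ n i, Mom γ C (μ n i)) → ∀ᶠ n : ℕ in atTop,
    ∀ S : Finset (Fin (2 * n)), S.card ≤ q → (∀ k ∈ S, 0 < (k : ℕ) ∧ (k : ℕ) < n) → ∀ s : ℝ, 0 ≤ s →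
      s ≤ (Λ * th n) ^ 2 →
      Measure.pi (μ n) {a | s ≤ ∑ k ∈ S, dr n (tra γ n a) 0 k ^ 2} ≤
        ENNReal.ofReal (N * Real.exp (-((1 - ζ) * s / 2))) := by
  obtain ⟨F, hF0, hF1, hF⟩ := net (q + 1) (by omega) (half_pos hζ)
  have hcard : (1 : ℝ) ≤ F.card := by exact_mod_cast hF0.card_pos
  refine ⟨F.card * Real.exp 1, ?_, fun μ _ hμ => ?_⟩
  · have h1 : (1 : ℝ) ≤ Real.exp 1 := Real.one_le_exp zero_le_one
    nlinarith
  filter_upwards [md_up hγ hμ q Λ] with n hn S hSq hSn s hs0 hs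
  have hc : Fintype.card S ≤ Fintype.card (Fin (q + 1)) := by
    rw [Fintype.card_coe, Fintype.card_fin]
    omega
  obtain ⟨ι⟩ := Function.Embedding.nonempty_of_card_le hc
  set δ : ℝ := 1 - ζ / 2 with hδ
  have hδ0 : 0 ≤ δ := by rw [hδ]; linarith
  have hδ1 : δ ≤ 1 := by rw [hδ]; linarith
  have hδ2 : 1 - ζ ≤ δ ^ 2 := by rw [hδ]; nlinarith
  have hsub : {a | s ≤ ∑ k ∈ S, dr n (tra γ n a) 0 k ^ 2} ⊆
      ⋃ e ∈ F, {a | δ * √s ≤ ∑ k : S, e (ι k) * dr n (tra γ n a) 0 k} := by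
    intro a ha
    have ha' : s ≤ ∑ k ∈ S, dr n (tra γ n a) 0 k ^ 2 := ha
    set X : Fin (q + 1) → ℝ := Function.extend ι (fun k : S => dr n (tra γ n a) 0 k) 0 with hX
    have hXι : ∀ k : S, X (ι k) = dr n (tra γ n a) 0 k := fun k => ι.injective.extend_apply _ _ k
    have hX0 : ∀ i, i ∉ Set.range ι → X i = 0 := by
      intro i hi
      rw [hX, Function.extend_apply' _ _ _ fun ⟨k, hk⟩ => hi ⟨k, hk⟩]
      rfl
    have h1 : ∑ k ∈ S, dr n (tra γ n a) 0 k ^ 2 = ∑ i, X i ^ 2 := by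
      rw [← Finset.sum_coe_sort S (fun k => dr n (tra γ n a) 0 k ^ 2)]
      refine Fintype.sum_of_injective ι ι.injective _ _ (fun i hi => ?_) fun k => ?_
      · rw [hX0 i hi]; norm_num
      · rw [hXι]
    obtain ⟨e, he, h2⟩ := hF X
    have h3 : ∑ i, e i * X i = ∑ k : S, e (ι k) * dr n (tra γ n a) 0 k := by
      refine (Fintype.sum_of_injective ι ι.injective _ _ (fun i hi => ?_) fun k => ?_).symm
      · rw [hX0 i hi, mul_zero]
      · rw [hXι]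
    rw [Set.mem_iUnion₂]
    refine ⟨e, he, ?_⟩
    change δ * √s ≤ ∑ k : S, e (ι k) * dr n (tra γ n a) 0 k
    rw [← h3]
    refine le_trans ?_ h2
    exact mul_le_mul_of_nonneg_left (Real.sqrt_le_sqrt (by rw [← h1]; exact ha')) hδ0
  have hone : ∀ e ∈ F, Measure.pi (μ n) {a | δ * √s ≤ ∑ k : S, e (ι k) * dr n (tra γ n a) 0 k} ≤
      ENNReal.ofReal (Real.exp (1 - δ ^ 2 * s / 2)) := fun e he =>
    GNet_one (D := fun a => dr n (tra γ n a) 0) ι (fun t => md_int n S t)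
      (fun t ht => hn S hSq hSn t ht) hs0 hs hδ0 hδ1 (hF1 e he)
  calc Measure.pi (μ n) {a | s ≤ ∑ k ∈ S, dr n (tra γ n a) 0 k ^ 2}
      ≤ Measure.pi (μ n) (⋃ e ∈ F, {a | δ * √s ≤ ∑ k : S, e (ι k) * dr n (tra γ n a) 0 k}) :=
        measure_mono hsub
    _ ≤ ∑ e ∈ F, Measure.pi (μ n) {a | δ * √s ≤ ∑ k : S, e (ι k) * dr n (tra γ n a) 0 k} :=
        measure_biUnion_finset_le _ _
    _ ≤ ∑ _e ∈ F, ENNReal.ofReal (Real.exp (1 - δ ^ 2 * s / 2)) := Finset.sum_le_sum hone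
    _ = ENNReal.ofReal (F.card * Real.exp (1 - δ ^ 2 * s / 2)) := by
        rw [Finset.sum_const, nsmul_eq_mul, ENNReal.ofReal_mul (by positivity),
          ENNReal.ofReal_natCast]
    _ ≤ ENNReal.ofReal (F.card * Real.exp 1 * Real.exp (-((1 - ζ) * s / 2))) := by
        refine ENNReal.ofReal_le_ofReal ?_
        rw [mul_assoc, ← Real.exp_add]
        gcongr
        nlinarith

end TZ
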