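import Pool.Agent.TZ.GDefs
import Pool.Agent.TZ.GNet
import Pool.Agent.TZ.UpB

/-!
Project TZ (MP_b753aa_pr), module GUp: the upper event for general entries.
Proof. As in UpA and UpB (copy them): abstract union bounds for a random vector `X : Ω → (Fin m → ℝ)` on a measure space with
`∀ C, card C ≤ q → P {ω | s ≤ ∑_C (X ω k)²} ≤ τ` in place of `chi_tail` (number of sets in a window `≤ (L+1)^q`, number of windows `≤ m`,
Markov for the count), then the asymptotics of UpB with the constant `N` of `tail_gen` (`Λ = 2`, `ζ = η/2`). Here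
`X a i = dr n (tra γ n a) 0 (i+1)`, sets `C ⊆ Fin (n-1)` correspond to `S = C + 1 ⊆ (0, n)`.
(upG2): for `k = 0` and `k = n`: `E d_k² ≤ 4` (or `md_one`-like mgf bound), Chebyshev: `P(|d_k| ≥ η th n) → 0`. Simplest: `E exp(w d_k) ≤ exp(2w² + 1)` fixed `w`,
or the second moment: `E (∑_j u_j trc(a_j))² ≤ ∑ u_j² + (∑ |u_j| |E trc|)²`, with `lin_one` and `trc_mean`.
-/

noncomputable section

namespace TZ

open MeasureTheory ProbabilityTheory Filter Topology Matrix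
open scoped Real

section GUpAbs

variable {m L q M : ℕ} {ν : Measure (Fin m → ℝ)} {s τ : ℝ}

theorem GUp_le {y : ℕ} (hτ : ∀ C : Finset (Fin m), C.card ≤ q → ν {x | s ≤ ∑ k ∈ C, x k ^ 2} ≤ ENNReal.ofReal τ) :
    ν (UpAF_E m y L q s) ≤ ENNReal.ofReal ((L + 1) ^ q * τ) := by
  unfold UpAF_E
  calc ν (⋃ C ∈ (UpAF_W m y L q).filter (fun C => C.Nonempty), {x | s ≤ ∑ k ∈ C, x k ^ 2})
      ≤ ∑ C ∈ (UpAF_W m y L q).filter (fun C => C.Nonempty), ν {x | s ≤ ∑ k ∈ C, x k ^ 2} :=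
        measure_biUnion_finset_le _ _
    _ ≤ ∑ C ∈ (UpAF_W m y L q).filter (fun C => C.Nonempty), ENNReal.ofReal τ := by
        refine Finset.sum_le_sum fun C hC => hτ C ?_
        rw [Finset.mem_filter] at hC
        unfold UpAF_W at hC
        rw [Finset.mem_filter] at hC
        exact hC.1.2.2
    _ ≤ ∑ C ∈ UpAF_W m y L q, ENNReal.ofReal τ :=
        Finset.sum_le_sum_of_subset (Finset.filter_subset _ _)
    _ = (UpAF_W m y L q).card * ENNReal.ofReal τ := by rw [Finset.sum_const, nsmul_eq_mul]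
    _ ≤ ENNReal.ofReal (((L + 1 : ℕ) ^ q : ℕ) : ℝ) * ENNReal.ofReal τ := by
        gcongr
        rw [ENNReal.ofReal_natCast]
        exact_mod_cast UpAF_cardW m y L q
    _ = ENNReal.ofReal ((L + 1) ^ q * τ) := by
        rw [← ENNReal.ofReal_mul (by positivity)]
        congr 1
        push_cast
        ring

theorem GUp_sum (hτ : ∀ C : Finset (Fin m), C.card ≤ q → ν {x | s ≤ ∑ k ∈ C, x k ^ 2} ≤ ENNReal.ofReal τ) :
    ∑ y ∈ Finset.range m, ν (UpAF_E m y L q s) ≤ ENNReal.ofReal (m * (L + 1) ^ q * τ) := by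
  calc ∑ y ∈ Finset.range m, ν (UpAF_E m y L q s)
      ≤ ∑ y ∈ Finset.range m, ENNReal.ofReal ((L + 1) ^ q * τ) := Finset.sum_le_sum fun y _ => GUp_le hτ
    _ = ENNReal.ofReal (m * (L + 1) ^ q * τ) := by
        rw [Finset.sum_const, Finset.card_range, nsmul_eq_mul, ← ENNReal.ofReal_natCast,
          ← ENNReal.ofReal_mul (by positivity)]
        congr 1
        ring

theorem GUp_sq (hτ : ∀ C : Finset (Fin m), C.card ≤ q → ν {x | s ≤ ∑ k ∈ C, x k ^ 2} ≤ ENNReal.ofReal τ)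
    (hs : 0 < s) :
    ν {x | ¬ ∀ y : ℕ, ∀ C : Finset (Fin m), (∀ k ∈ C, y ≤ (k : ℕ) ∧ (k : ℕ) < y + L) → C.card ≤ q →
      ∑ k ∈ C, x k ^ 2 < s} ≤ ENNReal.ofReal (m * (L + 1) ^ q * τ) := by
  refine le_trans ?_ (GUp_sum (L := L) hτ)
  refine (measure_mono ?_).trans (measure_biUnion_finset_le (Finset.range m) fun y => UpAF_E m y L q s)
  intro x hx
  rw [Set.mem_ofPred_eq] at hx
  push Not at hx
  obtain ⟨y, C, hC, hcard, hsum⟩ := hx
  have hne : C.Nonempty := by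
    rw [Finset.nonempty_iff_ne_empty]
    rintro rfl
    rw [Finset.sum_empty] at hsum
    linarith
  simp only [Set.mem_iUnion]
  exact ⟨y, Finset.mem_range.mpr (UpAF_lt hC hne), UpAF_mem.mpr ⟨C, hC, hne, hcard, hsum⟩⟩

theorem GUp_few (hτ : ∀ C : Finset (Fin m), C.card ≤ q → ν {x | s ≤ ∑ k ∈ C, x k ^ 2} ≤ ENNReal.ofReal τ) :
    ν {x | ¬ ∃ F : Finset ℕ, F.card ≤ M ∧ ∀ (y : ℕ) (C : Finset (Fin m)),
      (∀ k ∈ C, y ≤ (k : ℕ) ∧ (k : ℕ) < y + L) → C.Nonempty → C.card ≤ q → s ≤ ∑ k ∈ C, x k ^ 2 → y ∈ F} ≤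
      ENNReal.ofReal (m * (L + 1) ^ q * τ / (M + 1)) := by
  classical
  let f : (Fin m → ℝ) → ENNReal := fun x => ∑ y ∈ Finset.range m, (UpAF_E m y L q s).indicator (fun _ => 1) x
  have hf : Measurable f := Finset.measurable_fun_sum _ fun y _ =>
    measurable_const.indicator (UpAF_meas m y L q s)
  have hint : ∫⁻ x, f x ∂ν = ∑ y ∈ Finset.range m, ν (UpAF_E m y L q s) := by
    show ∫⁻ x, ∑ y ∈ Finset.range m, (UpAF_E m y L q s).indicator (fun _ => 1) x ∂ν = _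
    rw [lintegral_finsetSum _ fun y _ => measurable_const.indicator (UpAF_meas m y L q s)]
    refine Finset.sum_congr rfl fun y _ => ?_
    rw [lintegral_indicator (UpAF_meas m y L q s), setLIntegral_const, one_mul]
  have hcnt : ∀ x, f x = (((Finset.range m).filter fun y => x ∈ UpAF_E m y L q s).card : ENNReal) := by
    intro x
    show ∑ y ∈ Finset.range m, (UpAF_E m y L q s).indicator (fun _ => (1 : ENNReal)) x = _
    rw [Finset.card_filter]
    push_cast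
    refine Finset.sum_congr rfl fun y _ => ?_
    rw [Set.indicator_apply]
  have hsub : {x : Fin m → ℝ | ¬ ∃ F : Finset ℕ, F.card ≤ M ∧ ∀ (y : ℕ) (C : Finset (Fin m)),
      (∀ k ∈ C, y ≤ (k : ℕ) ∧ (k : ℕ) < y + L) → C.Nonempty → C.card ≤ q → s ≤ ∑ k ∈ C, x k ^ 2 → y ∈ F} ⊆
      {x | ((M + 1 : ℕ) : ENNReal) ≤ f x} := by
    intro x hx
    rw [Set.mem_ofPred_eq] at hx ⊢
    rw [hcnt]
    by_contra hlt
    apply hx
    refine ⟨(Finset.range m).filter fun y => x ∈ UpAF_E m y L q s, ?_, ?_⟩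
    · rw [not_le] at hlt
      have h1 : ((Finset.range m).filter fun y => x ∈ UpAF_E m y L q s).card < M + 1 := by exact_mod_cast hlt
      omega
    · intro y C hC hne hcard hsum
      rw [Finset.mem_filter]
      exact ⟨Finset.mem_range.mpr (UpAF_lt hC hne), UpAF_mem.mpr ⟨C, hC, hne, hcard, hsum⟩⟩
  have hM : (0 : ℝ) < (M : ℝ) + 1 := by positivity
  calc ν _ ≤ ν {x | ((M + 1 : ℕ) : ENNReal) ≤ f x} := measure_mono hsub
    _ ≤ (∫⁻ x, f x ∂ν) / ((M + 1 : ℕ) : ENNReal) :=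
        meas_ge_le_lintegral_div hf.aemeasurable (by simp) (ENNReal.natCast_ne_top _)
    _ ≤ ENNReal.ofReal (m * (L + 1) ^ q * τ) / ((M + 1 : ℕ) : ENNReal) := by
        rw [hint]
        gcongr
        exact GUp_sum hτ
    _ = ENNReal.ofReal (m * (L + 1) ^ q * τ / (M + 1)) := by
        rw [ENNReal.ofReal_div_of_pos hM]
        congr 1
        rw [← ENNReal.ofReal_natCast]
        push_cast
        rfl

theorem GUp_edge (hτ : ∀ k : Fin m, ν {x | s ^ 2 ≤ ∑ j ∈ ({k} : Finset (Fin m)), x j ^ 2} ≤ ENNReal.ofReal τ)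
    (hs : 0 < s) :
    ν {x | ¬ ∀ k : Fin m, ((k : ℕ) < 3 * L ∨ m ≤ (k : ℕ) + 3 * L) → |x k| < s} ≤
      ENNReal.ofReal (6 * L * τ) := by
  classical
  let B : Finset (Fin m) := Finset.univ.filter fun k => (k : ℕ) < 3 * L ∨ m ≤ (k : ℕ) + 3 * L
  have hB : B.card ≤ 6 * L := by
    have h1 : B.map Fin.valEmbedding ⊆ Finset.range (3 * L) ∪ Finset.Ico (m - 3 * L) m := by
      intro j hj
      rw [Finset.mem_map] at hj
      obtain ⟨k, hk, rfl⟩ := hj
      rw [Finset.mem_filter] at hk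
      rw [Finset.mem_union, Finset.mem_range, Finset.mem_Ico]
      rcases hk.2 with h | h
      · left; exact h
      · right
        have := k.2
        exact ⟨by show m - 3 * L ≤ (k : ℕ); omega, k.2⟩
    have h2 := (Finset.card_le_card h1).trans (Finset.card_union_le _ _)
    rw [Finset.card_map, Finset.card_range, Nat.card_Ico] at h2
    omega
  have hsub : {x : Fin m → ℝ | ¬ ∀ k : Fin m, ((k : ℕ) < 3 * L ∨ m ≤ (k : ℕ) + 3 * L) → |x k| < s} ⊆
      ⋃ k ∈ B, {x | s ^ 2 ≤ ∑ j ∈ ({k} : Finset (Fin m)), x j ^ 2} := by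
    intro x hx
    rw [Set.mem_ofPred_eq] at hx
    push Not at hx
    obtain ⟨k, hk, hxk⟩ := hx
    simp only [Set.mem_iUnion]
    refine ⟨k, Finset.mem_filter.mpr ⟨Finset.mem_univ _, hk⟩, ?_⟩
    rw [Set.mem_ofPred_eq, Finset.sum_singleton, ← sq_abs (x k)]
    exact pow_le_pow_left₀ hs.le hxk 2
  calc ν _ ≤ ν (⋃ k ∈ B, {x | s ^ 2 ≤ ∑ j ∈ ({k} : Finset (Fin m)), x j ^ 2}) := measure_mono hsub
    _ ≤ ∑ k ∈ B, ν {x | s ^ 2 ≤ ∑ j ∈ ({k} : Finset (Fin m)), x j ^ 2} := measure_biUnion_finset_le _ _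
    _ ≤ ∑ k ∈ B, ENNReal.ofReal τ := Finset.sum_le_sum fun k _ => hτ k
    _ = (B.card : ENNReal) * ENNReal.ofReal τ := by rw [Finset.sum_const, nsmul_eq_mul]
    _ ≤ ENNReal.ofReal ((6 * L : ℕ) : ℝ) * ENNReal.ofReal τ := by
        gcongr
        rw [ENNReal.ofReal_natCast]
        exact_mod_cast hB
    _ = ENNReal.ofReal (6 * L * τ) := by
        rw [← ENNReal.ofReal_mul (by positivity)]
        congr 1
        push_cast
        ring

end GUpAbs

variable {γ C : ℝ} {μ : (n : ℕ) → Fin n → Measure ℝ} [∀ n i, IsProbabilityMeasure (μ n i)]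

/-- the vector -/
def GUp_X (γ : ℝ) (n : ℕ) (a : Fin n → ℝ) (i : Fin (n - 1)) : ℝ :=
  dr n (tra γ n a) 0 ⟨(i : ℕ) + 1, by omega⟩

theorem GUp_trameas (γ : ℝ) (n : ℕ) : Measurable (tra γ n) := by
  unfold tra
  exact measurable_pi_lambda _ fun j => (trc_meas _).comp (measurable_pi_apply j)

theorem GUp_meas (γ : ℝ) (n : ℕ) : Measurable (GUp_X γ n) := by
  unfold GUp_X
  exact measurable_pi_lambda _ fun i => (dr_meas n _).comp (GUp_trameas γ n)

/-- the shift by one -/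
def GUp_emb (n : ℕ) : Fin (n - 1) ↪ Fin (2 * n) :=
  ⟨fun i => ⟨(i : ℕ) + 1, by omega⟩, fun i j h => by
    have h1 : (i : ℕ) + 1 = (j : ℕ) + 1 := congrArg Fin.val h
    exact Fin.ext (by omega)⟩

omit [∀ n i, IsProbabilityMeasure (μ n i)] in
theorem GUp_tau {n q : ℕ} {N : ℝ} {ζ : ℝ}
    (h : ∀ S : Finset (Fin (2 * n)), S.card ≤ q → (∀ k ∈ S, 0 < (k : ℕ) ∧ (k : ℕ) < n) → ∀ s : ℝ, 0 ≤ s →
      s ≤ (2 * th n) ^ 2 → Measure.pi (μ n) {a | s ≤ ∑ k ∈ S, dr n (tra γ n a) 0 k ^ 2} ≤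
        ENNReal.ofReal (N * Real.exp (-((1 - ζ) * s / 2)))) {s : ℝ} (hs : 0 ≤ s) (hs2 : s ≤ (2 * th n) ^ 2)
    (C : Finset (Fin (n - 1))) (hC : C.card ≤ q) :
    ((Measure.pi (μ n)).map (GUp_X γ n)) {x | s ≤ ∑ k ∈ C, x k ^ 2} ≤
      ENNReal.ofReal (N * Real.exp (-((1 - ζ) * s / 2))) := by
  have hm : MeasurableSet {x : Fin (n - 1) → ℝ | s ≤ ∑ k ∈ C, x k ^ 2} :=
    measurableSet_le measurable_const (Finset.measurable_sum _ fun k _ => (measurable_pi_apply k).pow_const 2)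
  rw [Measure.map_apply (GUp_meas γ n) hm]
  have h1 := h (C.map (GUp_emb n)) (by rw [Finset.card_map]; exact hC) ?_ s hs hs2
  · refine le_trans (le_of_eq ?_) h1
    congr 1
    ext a
    rw [Set.mem_preimage, Set.mem_ofPred_eq, Set.mem_ofPred_eq, Finset.sum_map]
    rfl
  · intro k hk
    rw [Finset.mem_map] at hk
    obtain ⟨i, -, rfl⟩ := hk
    have := i.2
    refine ⟨?_, ?_⟩
    · show 0 < (i : ℕ) + 1
      omega
    · show (i : ℕ) + 1 < n
      omega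

theorem upG (hγ : 2 < γ) (hμ : ∀ n i, Mom γ C (μ n i)) {η : ℝ} (hη : 0 < η) (hη1 : η ≤ 1 / 10000) :
    Tendsto (fun n : ℕ => Measure.pi (μ n) {a | ¬ ∀ hn : 2 ≤ n,
      XUp (fun i : Fin (n - 1) => dr n (tra γ n a) 0 ⟨(i : ℕ) + 1, by omega⟩) η (th n) (rr η n ^ 2) (qq η)
        (MM η n)}) atTop (𝓝 0) := by
  obtain ⟨t, ht0, ht⟩ : ∃ t : ℝ, 0 < t ∧ t ^ 2 = η := ⟨√η, Real.sqrt_pos.mpr hη, Real.sq_sqrt hη.le⟩
  have hsq : √η = t := by rw [← ht]; exact Real.sqrt_sq ht0.le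
  have ht1 : t ≤ 1 / 100 := by nlinarith
  have hζ : 0 < η / 2 := by positivity
  have hζ1 : η / 2 < 1 := by linarith
  obtain ⟨N, hN1, hN⟩ := tail_gen (γ := γ) (C := C) hγ (qq η) hζ hζ1 (Λ := 2) (by norm_num)
  have hN' := hN μ hμ
  have hN0 : 0 ≤ N := by linarith
  have hq1 : 1 ≤ qq η := by
    unfold qq
    rw [Nat.one_le_ceil_iff]
    positivity
  set q := qq η with hq
  set δ₁ : ℝ := -(1 + η / 10 - (1 - η / 2) * (1 + η) ^ 2) with hδ₁
  set δ₂ : ℝ := -(1 + η / 10 - (1 - η / 2) * (1 - 4 * √η) ^ 2 - 20 * √η) with hδ₂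
  set δ₃ : ℝ := -(η ^ 3 / 50 - (1 - η / 2) * η ^ 2) with hδ₃
  have h1 : 0 < δ₁ := by
    rw [hδ₁]; nlinarith [mul_pos hη hη, mul_pos (mul_pos hη hη) hη]
  have h2 : 0 < δ₂ := by
    rw [hδ₂, hsq, ← ht]
    have e : -(1 + t ^ 2 / 10 - (1 - t ^ 2 / 2) * (1 - 4 * t) ^ 2 - 20 * t) =
      t * (12 + 15.4 * t + 4 * t ^ 2 - 8 * t ^ 3) := by ring
    rw [e]
    apply mul_pos ht0
    have e2 : t ^ 3 ≤ 1 := pow_le_one₀ ht0.le (by linarith)
    nlinarith [mul_pos ht0 ht0]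
  have h3 : 0 < δ₃ := by
    rw [hδ₃]; nlinarith [mul_pos hη hη, mul_pos (mul_pos hη hη) hη]
  have hlim : Tendsto (fun n : ℕ => ENNReal.ofReal (5 ^ q * N * (n : ℝ) ^ (-δ₁)) +
      ENNReal.ofReal (5 ^ q * N * (n : ℝ) ^ (-δ₂)) + ENNReal.ofReal (30 * N * (n : ℝ) ^ (-δ₃))) atTop (𝓝 0) := by
    have := ((UpB_lim (C := 5 ^ q * N) h1).add (UpB_lim (C := 5 ^ q * N) h2)).add (UpB_lim (C := 30 * N) h3)
    simpa using this
  refine tendsto_of_tendsto_of_tendsto_of_le_of_le' tendsto_const_nhds hlim (Eventually.of_forall fun n => bot_le) ?_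
  filter_upwards [eventually_ge_atTop 2, hN'] with n hn htail
  have hn1 : 1 ≤ n := by omega
  have hnr : (1 : ℝ) ≤ n := by exact_mod_cast hn1
  have hn0 : (0 : ℝ) < n := by linarith
  have hth : 0 < th n := by
    unfold th
    apply Real.sqrt_pos.mpr
    have : 0 < Real.log n := Real.log_pos (by exact_mod_cast hn)
    positivity
  have b1 := GUp_sq (L := rr η n ^ 2) (GUp_tau (s := ((1 + η) * th n) ^ 2) htail (by positivity)
    (pow_le_pow_left₀ (by positivity) (mul_le_mul_of_nonneg_right (by linarith) hth.le) 2)) (by positivity)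
  have b2 := GUp_few (L := rr η n ^ 2) (M := MM η n) (GUp_tau (s := ((1 - 4 * √η) * th n) ^ 2) htail (by positivity)
    (pow_le_pow_left₀ (mul_nonneg (by rw [hsq]; linarith) hth.le)
      (mul_le_mul_of_nonneg_right (by rw [hsq]; linarith) hth.le) 2))
  have b3 := GUp_edge (m := n - 1) (L := rr η n ^ 2) (s := η * th n) (fun k => GUp_tau (s := (η * th n) ^ 2) htail
    (by positivity) (pow_le_pow_left₀ (by positivity) (mul_le_mul_of_nonneg_right (by linarith) hth.le) 2) {k}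
    (by rw [Finset.card_singleton]; exact hq1)) (by positivity)
  have c1 : ENNReal.ofReal (((n - 1 : ℕ) : ℝ) * (((rr η n ^ 2 : ℕ) : ℝ) + 1) ^ q *
      (N * Real.exp (-((1 - η / 2) * ((1 + η) * th n) ^ 2 / 2)))) ≤ ENNReal.ofReal (5 ^ q * N * (n : ℝ) ^ (-δ₁)) := by
    apply ENNReal.ofReal_le_ofReal
    have := UpB_main hη hη1 (1 + η) hn1 hN0
    rw [hδ₁, neg_neg, ← mul_assoc]
    exact this
  have c2 : ENNReal.ofReal (((n - 1 : ℕ) : ℝ) * (((rr η n ^ 2 : ℕ) : ℝ) + 1) ^ q *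
      (N * Real.exp (-((1 - η / 2) * ((1 - 4 * √η) * th n) ^ 2 / 2))) / ((MM η n : ℕ) + 1)) ≤
      ENNReal.ofReal (5 ^ q * N * (n : ℝ) ^ (-δ₂)) := by
    apply ENNReal.ofReal_le_ofReal
    have h4 := UpB_main hη hη1 (1 - 4 * √η) hn1 hN0
    have h5 : (n : ℝ) ^ (20 * √η) ≤ ((MM η n : ℕ) : ℝ) + 1 := (Nat.lt_floor_add_one _).le
    have h6 : 0 < (n : ℝ) ^ (20 * √η) := Real.rpow_pos_of_pos hn0 _
    rw [div_le_iff₀ (lt_of_lt_of_le h6 h5), ← mul_assoc]
    calc ((n - 1 : ℕ) : ℝ) * (((rr η n ^ 2 : ℕ) : ℝ) + 1) ^ q * N *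
        Real.exp (-((1 - η / 2) * ((1 - 4 * √η) * th n) ^ 2 / 2))
        ≤ 5 ^ q * N * (n : ℝ) ^ (1 + η / 10 - (1 - η / 2) * (1 - 4 * √η) ^ 2) := h4
      _ = 5 ^ q * N * (n : ℝ) ^ (-δ₂) * (n : ℝ) ^ (20 * √η) := by
          rw [mul_assoc (5 ^ q * N), ← Real.rpow_add hn0, hδ₂]
          congr 2
          ring
      _ ≤ 5 ^ q * N * (n : ℝ) ^ (-δ₂) * (((MM η n : ℕ) : ℝ) + 1) := by gcongr
  have c3 : ENNReal.ofReal (6 * ((rr η n ^ 2 : ℕ) : ℝ) *
      (N * Real.exp (-((1 - η / 2) * (η * th n) ^ 2 / 2)))) ≤ ENNReal.ofReal (30 * N * (n : ℝ) ^ (-δ₃)) := by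
    apply ENNReal.ofReal_le_ofReal
    have h4 : Real.exp (-((1 - η / 2) * (η * th n) ^ 2 / 2)) = (n : ℝ) ^ (-((1 - η / 2) * η ^ 2)) := by
      rw [← UpB_exp _ hn1]
      congr 1
      ring
    have h5 : ((rr η n ^ 2 : ℕ) : ℝ) ≤ 5 * (n : ℝ) ^ (η ^ 3 / 50) := by
      have := UpB_L hη hn1
      linarith
    rw [h4, ← mul_assoc]
    calc 6 * ((rr η n ^ 2 : ℕ) : ℝ) * N * (n : ℝ) ^ (-((1 - η / 2) * η ^ 2))
        ≤ 6 * (5 * (n : ℝ) ^ (η ^ 3 / 50)) * N * (n : ℝ) ^ (-((1 - η / 2) * η ^ 2)) := by gcongr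
      _ = 30 * N * ((n : ℝ) ^ (η ^ 3 / 50) * (n : ℝ) ^ (-((1 - η / 2) * η ^ 2))) := by ring
      _ = 30 * N * (n : ℝ) ^ (-δ₃) := by
          rw [← Real.rpow_add hn0, hδ₃]
          congr 2
          ring
  have hsub : {x : Fin (n - 1) → ℝ | ¬ XUp x η (th n) (rr η n ^ 2) q (MM η n)} ⊆
      {x | ¬ ∀ y : ℕ, ∀ C : Finset (Fin (n - 1)), (∀ k ∈ C, y ≤ (k : ℕ) ∧ (k : ℕ) < y + rr η n ^ 2) → C.card ≤ q →
        ∑ k ∈ C, x k ^ 2 < ((1 + η) * th n) ^ 2} ∪
      {x | ¬ ∃ F : Finset ℕ, F.card ≤ MM η n ∧ ∀ (y : ℕ) (C : Finset (Fin (n - 1))),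
        (∀ k ∈ C, y ≤ (k : ℕ) ∧ (k : ℕ) < y + rr η n ^ 2) → C.Nonempty → C.card ≤ q →
          ((1 - 4 * √η) * th n) ^ 2 ≤ ∑ k ∈ C, x k ^ 2 → y ∈ F} ∪
      {x | ¬ ∀ k : Fin (n - 1), ((k : ℕ) < 3 * rr η n ^ 2 ∨ n - 1 ≤ (k : ℕ) + 3 * rr η n ^ 2) → |x k| < η * th n} := by
    intro x hx
    by_contra hno
    simp only [Set.mem_union, Set.mem_ofPred_eq, not_or, not_not] at hno
    exact hx ⟨hno.1.1, hno.1.2, hno.2⟩
  have hpre : {a : Fin n → ℝ | ¬ ∀ hn : 2 ≤ n,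
      XUp (fun i : Fin (n - 1) => dr n (tra γ n a) 0 ⟨(i : ℕ) + 1, by omega⟩) η (th n) (rr η n ^ 2) q (MM η n)} ⊆
      GUp_X γ n ⁻¹' {x : Fin (n - 1) → ℝ | ¬ XUp x η (th n) (rr η n ^ 2) q (MM η n)} := by
    intro a ha hx
    exact ha fun _ => hx
  calc Measure.pi (μ n) _ ≤ Measure.pi (μ n)
        (GUp_X γ n ⁻¹' {x : Fin (n - 1) → ℝ | ¬ XUp x η (th n) (rr η n ^ 2) q (MM η n)}) := measure_mono hpre
    _ ≤ (Measure.pi (μ n)).map (GUp_X γ n) {x : Fin (n - 1) → ℝ | ¬ XUp x η (th n) (rr η n ^ 2) q (MM η n)} :=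
        Measure.le_map_apply (GUp_meas γ n).aemeasurable _
    _ ≤ _ := measure_mono hsub
    _ ≤ _ := (measure_union_le _ _).trans (add_le_add (measure_union_le _ _) le_rfl)
    _ ≤ _ := add_le_add (add_le_add (b1.trans c1) (b2.trans c2)) (b3.trans c3)

theorem GUp_dr (n : ℕ) (k : Fin (2 * n)) (a : Fin n → ℝ) :
    dr n a 0 k = ∑ j, lin n {k} (fun _ => 1) j * a j := by
  have h := lin_eq n {k} (fun _ => 1) a
  rw [Finset.sum_singleton, one_mul] at h
  exact h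

theorem GUp_bet (hγ : 2 < γ) : 1 / 2 + bet γ * (1 - γ) ≤ 0 := by
  unfold bet
  have h0 : 0 < γ := by linarith
  have e : 1 / 2 + (1 / γ + 1 / 2) / 2 * (1 - γ) = -((γ - 2) * (γ + 1)) / (4 * γ) := by
    field_simp
    ring
  rw [e]
  apply div_nonpos_of_nonpos_of_nonneg
  · nlinarith
  · positivity

theorem GUp_one (hγ : 2 < γ) (hμ : ∀ n i, Mom γ C (μ n i)) {η : ℝ} (hη : 0 < η) {n : ℕ} (hn : 2 ≤ n)
    (hbig : 2 * (2 * C) ≤ η * th n) (k : Fin (2 * n)) :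
    Measure.pi (μ n) {a | η * th n ≤ |dr n (tra γ n a) 0 k|} ≤ ENNReal.ofReal (8 / (η * th n) ^ 2) := by
  have hn1 : 1 ≤ n := by omega
  have hnr : (1 : ℝ) ≤ n := by exact_mod_cast hn1
  have hn0 : (0 : ℝ) < n := by linarith
  have hth : 0 < th n := by
    unfold th
    apply Real.sqrt_pos.mpr
    have : 0 < Real.log n := Real.log_pos (by exact_mod_cast hn)
    positivity
  have hb : 0 < lev γ n := Real.rpow_pos_of_pos hn0 _
  have hC : 1 ≤ C := (hμ n ⟨0, by omega⟩).C_ge hγ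
  set u : Fin n → ℝ := fun j => lin n {k} (fun _ => 1) j with hu
  have hD : ∀ a, dr n (tra γ n a) 0 k = ∑ j, u j * trc (lev γ n) (a j) := fun a => GUp_dr n k _
  have hX : ∀ j, MemLp (fun x => u j * trc (lev γ n) x) 2 (μ n j) := by
    intro j
    refine MemLp.of_bound (((trc_meas _).const_mul (u j)).aestronglyMeasurable) (|u j| * lev γ n)
      (Eventually.of_forall fun x => ?_)
    rw [Real.norm_eq_abs, abs_mul]
    exact mul_le_mul_of_nonneg_left (trc_bd hb.le x) (abs_nonneg _)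
  have hXpi : ∀ j, MemLp (fun a : Fin n → ℝ => u j * trc (lev γ n) (a j)) 2 (Measure.pi (μ n)) := by
    intro j
    exact (hX j).comp_measurePreserving (measurePreserving_eval (μ n) j)
  have hDl : MemLp (fun a : Fin n → ℝ => ∑ j, u j * trc (lev γ n) (a j)) 2 (Measure.pi (μ n)) :=
    memLp_finsetSum _ fun j _ => hXpi j
  have hvar : Var[fun a : Fin n → ℝ => ∑ j, u j * trc (lev γ n) (a j); Measure.pi (μ n)] ≤ 2 := by
    have e1 : (fun a : Fin n → ℝ => ∑ j, u j * trc (lev γ n) (a j)) =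
        ∑ j, fun a : Fin n → ℝ => (fun x => u j * trc (lev γ n) x) (a j) := by
      ext a
      rw [Finset.sum_apply]
    rw [e1, variance_sum_pi hX]
    calc ∑ j, Var[fun x => u j * trc (lev γ n) x; μ n j] ≤ ∑ j, u j ^ 2 := by
          refine Finset.sum_le_sum fun j _ => ?_
          rw [variance_const_mul]
          have h1 : Var[trc (lev γ n); μ n j] ≤ 1 := by
            refine (variance_le_expectation_sq (trc_meas _).aestronglyMeasurable).trans ?_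
            have := trc_le (hμ n j) hγ hb
            exact this
          calc u j ^ 2 * Var[trc (lev γ n); μ n j] ≤ u j ^ 2 * 1 := by gcongr
            _ = u j ^ 2 := mul_one _
      _ ≤ 2 * (1 : ℝ) ^ 2 := lin_one n k fun _ => 1
      _ = 2 := by norm_num
  have hmean : |∫ a, ∑ j, u j * trc (lev γ n) (a j) ∂(Measure.pi (μ n))| ≤ 2 * C := by
    rw [integral_finsetSum _ fun j _ => (hXpi j).integrable (by norm_num)]
    have e2 : ∀ j, ∫ a, u j * trc (lev γ n) (a j) ∂(Measure.pi (μ n)) = u j * ∫ x, trc (lev γ n) x ∂(μ n j) := by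
      intro j
      rw [← integral_const_mul]
      have h5 := (measurePreserving_eval (μ n) j).map_eq
      conv_rhs => rw [← h5]
      rw [integral_map (measurable_pi_apply j).aemeasurable
        (((trc_meas _).const_mul (u j)).aestronglyMeasurable)]
    have e3 : ∀ j, |u j * ∫ x, trc (lev γ n) x ∂(μ n j)| ≤ 2 / √(2 * n) * (C * lev γ n ^ (1 - γ)) := by
      intro j
      rw [abs_mul]
      have h6 := lin_bd n {k} (fun _ => 1) j
      rw [Finset.sum_singleton, abs_one, mul_one] at h6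
      exact mul_le_mul h6 (trc_mean (hμ n j) hγ hb) (abs_nonneg _) (by positivity)
    calc |∑ j, ∫ a, u j * trc (lev γ n) (a j) ∂(Measure.pi (μ n))|
        ≤ ∑ j : Fin n, |∫ a, u j * trc (lev γ n) (a j) ∂(Measure.pi (μ n))| := Finset.abs_sum_le_sum_abs _ _
      _ ≤ ∑ j : Fin n, 2 / √(2 * n) * (C * lev γ n ^ (1 - γ)) := by
          refine Finset.sum_le_sum fun j _ => ?_
          rw [e2]
          exact e3 j
      _ = n * (2 / √(2 * n)) * (C * lev γ n ^ (1 - γ)) := by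
          rw [Finset.sum_const, Finset.card_univ, Fintype.card_fin, nsmul_eq_mul]
          ring
      _ ≤ (2 * √n) * (C * lev γ n ^ (1 - γ)) := by
          have h7 : (n : ℝ) * (2 / √(2 * n)) ≤ 2 * √n := by
            have h8 : √(n : ℝ) ≤ √(2 * n) := Real.sqrt_le_sqrt (by linarith)
            have h9 : 0 < √(n : ℝ) := Real.sqrt_pos.mpr hn0
            have h10 : √(n : ℝ) * √(n : ℝ) = n := Real.mul_self_sqrt hn0.le
            rw [mul_div_assoc', div_le_iff₀ (by positivity)]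
            nlinarith
          have h11 : 0 ≤ C * lev γ n ^ (1 - γ) := by positivity
          exact mul_le_mul_of_nonneg_right h7 h11
      _ = 2 * C * ((n : ℝ) ^ (1 / 2 : ℝ) * lev γ n ^ (1 - γ)) := by
          rw [Real.sqrt_eq_rpow]
          ring
      _ = 2 * C * (n : ℝ) ^ (1 / 2 + bet γ * (1 - γ)) := by
          unfold lev
          rw [← Real.rpow_mul hn0.le, ← Real.rpow_add hn0]
      _ ≤ 2 * C * 1 := by
          gcongr
          exact Real.rpow_le_one_of_one_le_of_nonpos hnr (GUp_bet hγ)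
      _ = 2 * C := mul_one _
  have hpos : 0 < η * th n / 2 := by positivity
  calc Measure.pi (μ n) {a | η * th n ≤ |dr n (tra γ n a) 0 k|}
      ≤ Measure.pi (μ n) {a | η * th n / 2 ≤ |(∑ j, u j * trc (lev γ n) (a j)) -
          ∫ a, ∑ j, u j * trc (lev γ n) (a j) ∂(Measure.pi (μ n))|} := by
        refine measure_mono fun a ha => ?_
        rw [Set.mem_ofPred_eq, hD] at ha
        rw [Set.mem_ofPred_eq]
        have h12 := abs_sub_abs_le_abs_sub (∑ j, u j * trc (lev γ n) (a j))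
          (∫ a, ∑ j, u j * trc (lev γ n) (a j) ∂(Measure.pi (μ n)))
        linarith
    _ ≤ ENNReal.ofReal (Var[fun a : Fin n → ℝ => ∑ j, u j * trc (lev γ n) (a j); Measure.pi (μ n)] /
          (η * th n / 2) ^ 2) := meas_ge_le_variance_div_sq hDl hpos
    _ ≤ ENNReal.ofReal (8 / (η * th n) ^ 2) := by
        apply ENNReal.ofReal_le_ofReal
        have e4 : 8 / (η * th n) ^ 2 = 2 / (η * th n / 2) ^ 2 := by
          field_simp
          norm_num
        rw [e4]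
        gcongr

theorem GUp_th : Tendsto (fun n : ℕ => th n) atTop atTop := by
  unfold th
  exact Real.tendsto_sqrt_atTop.comp
    ((Real.tendsto_log_atTop.comp tendsto_natCast_atTop_atTop).const_mul_atTop (by norm_num))

theorem upG2 (hγ : 2 < γ) (hμ : ∀ n i, Mom γ C (μ n i)) {η : ℝ} (hη : 0 < η) :
    Tendsto (fun n : ℕ => Measure.pi (μ n) {a | ∃ k : Fin (2 * n), ((k : ℕ) = 0 ∨ (k : ℕ) = n) ∧
      η * th n ≤ |dr n (tra γ n a) 0 k|}) atTop (𝓝 0) := by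
  have hthη : Tendsto (fun n : ℕ => η * th n) atTop atTop := GUp_th.const_mul_atTop hη
  have hlim : Tendsto (fun n : ℕ => ENNReal.ofReal (8 / (η * th n) ^ 2) + ENNReal.ofReal (8 / (η * th n) ^ 2))
      atTop (𝓝 0) := by
    have h1 : Tendsto (fun n : ℕ => 8 / (η * th n) ^ 2) atTop (𝓝 0) :=
      ((tendsto_pow_atTop (two_ne_zero)).comp hthη).const_div_atTop 8
    have h2 := ENNReal.tendsto_ofReal h1
    rw [ENNReal.ofReal_zero] at h2
    simpa using h2.add h2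
  refine tendsto_of_tendsto_of_tendsto_of_le_of_le' tendsto_const_nhds hlim (Eventually.of_forall fun n => bot_le) ?_
  filter_upwards [eventually_ge_atTop 2, hthη.eventually_ge_atTop (2 * (2 * C))] with n hn hbig
  have hsub : {a : Fin n → ℝ | ∃ k : Fin (2 * n), ((k : ℕ) = 0 ∨ (k : ℕ) = n) ∧
      η * th n ≤ |dr n (tra γ n a) 0 k|} ⊆
      {a | η * th n ≤ |dr n (tra γ n a) 0 ⟨0, by omega⟩|} ∪ {a | η * th n ≤ |dr n (tra γ n a) 0 ⟨n, by omega⟩|} := by
    rintro a ⟨k, hk | hk, h⟩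
    · left
      have : k = ⟨0, by omega⟩ := Fin.ext hk
      rw [this] at h
      exact h
    · right
      have : k = ⟨n, by omega⟩ := Fin.ext hk
      rw [this] at h
      exact h
  exact (measure_mono hsub).trans ((measure_union_le _ _).trans
    (add_le_add (GUp_one hγ hμ hη hn hbig _) (GUp_one hγ hμ hη hn hbig _)))

end TZ
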