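import Pool.Agent.TZ.Asm
import Pool.Agent.TZ.GUp
import Pool.Agent.TZ.GConc

/-!
Project TZ (MP_b753aa_pr), module AsmG: localization at the spectral edge, general independent entries.
-/

noncomputable section

namespace TZ

open MeasureTheory ProbabilityTheory Filter Topology Matrix
open scoped Real

theorem aE_zero {n : ℕ} (a : Fin n → ℝ) : aE a 0 = a := by
  funext i
  unfold aE
  simp

theorem gen_mat {n : ℕ} (a : Fin n → ℝ) (c : ℝ) :
    PP n * Matrix.diagonal (fun k => (dr n a 0 k : ℂ)) * PP n = PP n * DD n a c * PP n := by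
  have h1 : Matrix.diagonal (fun k => (dr n a 0 k : ℂ)) = DD n (aE a 0) 0 := by
    rw [aE_zero]
    unfold DD
    congr 1
    funext k
    exact (dd_real n _ _ k).symm
  rw [h1, DD_shift n a c 0 0]
  simp

/-- localization, deterministic, for the entries `dr n a 0` -/
theorem gen_det {ε η : ℝ} (hη : 0 < η) (hη1 : η ≤ 1 / 10000) (hε : 41 * √η ≤ ε) (hε2 : 200 * √η ≤ ε) :
    ∀ᶠ n : ℕ in atTop, ∀ a : Fin n → ℝ,
      (∀ hn : 2 ≤ n, XUp (fun i : Fin (n - 1) => dr n a 0 ⟨(i : ℕ) + 1, by omega⟩) η (th n) (rr η n ^ 2)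
        (qq η) (MM η n)) →
      (¬ ∃ k : Fin (2 * n), ((k : ℕ) = 0 ∨ (k : ℕ) = n) ∧ η * th n ≤ |dr n a 0 k|) →
      (∃ v : Fin (2 * n) → ℂ, PP n *ᵥ v = v ∧ ∑ k, ‖v k‖ ^ 2 = 1 ∧
        (K0 - 4 * η) * th n ≤ ∑ k, dr n a 0 k * ‖v k‖ ^ 2) →
      ∀ (c : ℝ) (v : Fin (2 * n) → ℂ) (lam : ℝ),
        Eig n a c v lam → Top n a c lam (η * √(Real.log n)) → Loc n v ε := by
  filter_upwards [eventually_ge_atTop 2, ev_r hη, ev_L hη hη1, ev_q hη (qq η),
    ev_sch hη (qq η), ev_card hη hε (qq η)] with n hn hr hL hq hsch hcard a hX h0 hv0 c v lam hv htop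
  replace hX := hX hn
  have hθ := th_pos hn
  have hrpos : 1 ≤ rr η n := by
    by_contra hcon
    have : rr η n = 0 := by omega
    rw [this] at hr
    norm_num at hr
  set L := rr η n ^ 2 with hLdef
  have hL1 : 1 ≤ L := Nat.one_le_pow _ _ hrpos
  have hrL : rr η n ≤ L := by
    rw [hLdef, sq]
    exact Nat.le_mul_of_pos_left _ hrpos
  have hsym : ∀ k k' : Fin (2 * n), (k : ℕ) + (k' : ℕ) = 2 * n → dr n a 0 k = dr n a 0 k' := fun k k' h =>
    dr_symm n _ _ k k' h
  have h0' : ∀ k : Fin (2 * n), ((k : ℕ) = 0 ∨ (k : ℕ) = n) → |dr n a 0 k| < η * th n := by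
    intro k hk
    by_contra hcon
    exact h0 ⟨k, hk, not_lt.1 hcon⟩
  have hD : DUp (dr n a 0) η (th n) L (qq η) (2 * MM η n) := by
    refine fold hX hL1 (qq_ge hη) hη (by linarith) hθ (fun k i hki => ?_) hsym h0'
    have : k = ⟨(i : ℕ) + 1, by omega⟩ := Fin.ext hki
    rw [this]
  obtain ⟨v0, hv0, hv01, hv0d⟩ := hv0
  obtain ⟨v', lam', hv', hv'1, hv'e, hv'l⟩ := ray (PP_herm n) (PP_idem n) (dr n a 0) hv0 hv01
  have h1 := htop v' lam' ⟨hv', hv'1, by rw [← gen_mat a c]; exact hv'e⟩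
  have h2 : ∑ k, dr n a 0 k * ‖v k‖ ^ 2 = lam := by
    refine ray_val (PP_herm n) _ hv.ran hv.unit ?_
    rw [gen_mat a c]
    exact hv.eig
  have hth : η * √(Real.log n) ≤ η * th n := by
    refine mul_le_mul_of_nonneg_left ?_ hη.le
    unfold th
    refine Real.sqrt_le_sqrt ?_
    have := Real.log_nonneg (show (1 : ℝ) ≤ n by exact_mod_cast (show 1 ≤ n by omega))
    linarith
  have hlam : (K0 - 5 * η) * th n ≤ ∑ k, dr n a 0 k * ‖v k‖ ^ 2 := by
    rw [h2]
    have e1 : (K0 - 5 * η) * th n = (K0 - 4 * η) * th n - η * th n := by ring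
    rw [e1]
    linarith
  have hdec : ∀ k l : Fin (2 * n), k ≠ l → ‖PP n k l‖ ≤ 1 / (2 * (cd k l : ℝ)) := PP_dec n
  have hne : ∀ (m : ℕ), 1 ≤ m → ∀ k l : Fin (2 * n), m ≤ cd k l → k ≠ l := by
    rintro m hm k l h rfl
    rw [cd_self] at h
    omega
  set R : ℕ := ⌈(2 * MM η n : ℝ) * qq η / η⌉₊ + 1 with hR
  have hR1 : 1 ≤ R := by omega
  have hceil : (2 * MM η n : ℝ) * qq η / η ≤ (⌈(2 * MM η n : ℝ) * qq η / η⌉₊ : ℝ) := Nat.le_ceil _
  have hceil2 : (⌈(2 * MM η n : ℝ) * qq η / η⌉₊ : ℝ) ≤ (2 * MM η n : ℝ) * qq η / η + 1 :=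
    (Nat.ceil_lt_add_one (by positivity)).le
  have hR2 : (((2 * MM η n : ℕ) : ℝ) * qq η : ℝ) ≤ η * R := by
    have e1 : (((2 * MM η n : ℕ) : ℝ) * qq η : ℝ) = η * ((2 * MM η n : ℝ) * qq η / η) := by
      push_cast
      field_simp
    rw [e1]
    refine mul_le_mul_of_nonneg_left ?_ hη.le
    have e2 : (R : ℝ) = (⌈(2 * MM η n : ℝ) * qq η / η⌉₊ : ℝ) + 1 := by
      rw [hR]
      push_cast
      rfl
    rw [e2]
    linarith
  obtain ⟨S, hS, hSm⟩ := det (P := PP n) (d := dr n a 0) (K := K0) (η := η) (θ := th n) (r := rr η n)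
    (q := qq η) (M := 2 * MM η n) (R := R) (PP_herm n) (PP_idem n) hD
    (fun C ⟨y, hy⟩ hC x g hx => by
      refine (transfer C hy hL hC x g hx).trans ?_
      refine mul_le_mul_of_nonneg_right (mul_le_mul_of_nonneg_right ?_ (Real.sqrt_nonneg _))
        (Finset.sum_nonneg fun _ _ => by positivity)
      linarith)
    (fun k => by
      have h3 := sch (Finset.univ.filter fun l : Fin (2 * n) => η * th n ≤ dr n a 0 l) (L := L) (q := qq η)
        hrpos hrL (fun y => by
          have h4 := hD.cnt y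
          unfold Hw at h4
          rw [Finset.filter_filter]
          refine le_trans (le_of_eq ?_) h4
          congr 1
          ext l
          simp only [Finset.mem_filter, Finset.mem_univ, true_and]
          tauto) k
      rw [Finset.filter_filter] at h3
      refine le_trans (Finset.sum_le_sum fun l hl => ?_) (h3.trans hsch)
      rw [Finset.mem_filter] at hl
      exact hdec k l (hne _ hrpos k l hl.2.2))
    (fun W => by
      refine le_trans (Finset.sum_le_sum fun k hk => Finset.sum_le_sum fun l hl => ?_) (tail W hR1)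
      rw [Finset.mem_filter] at hk
      exact pow_le_pow_left₀ (norm_nonneg _) (hdec k l (hne _ hR1 k l (hk.2 l hl))) 2)
    hη hη1 K0_half K0_le hθ hr hR1 hR2 hv.ran hv.unit hlam
  refine ⟨S, ?_, by linarith⟩
  refine le_trans ?_ (hcard R ?_)
  · exact_mod_cast hS
  · rw [hR]
    push_cast
    linarith

/-- with probability tending to one no entry is truncated -/
theorem tra_prob {γ C : ℝ} (hγ : 2 < γ) {μ : (n : ℕ) → Fin n → Measure ℝ} [∀ n i, IsProbabilityMeasure (μ n i)]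
    (hμ : ∀ n i, Mom γ C (μ n i)) :
    Tendsto (fun n : ℕ => Measure.pi (μ n) {a | tra γ n a ≠ a}) atTop (𝓝 0) := by
  have hbet : 1 < bet γ * γ := by
    unfold bet
    have : (1 / γ + 1 / 2) / 2 * γ = 1 / 2 + γ / 4 := by
      field_simp
      ring
    rw [this]
    linarith
  have h1 : Tendsto (fun n : ℕ => (C : ℝ) * (1 / (n : ℝ) ^ (bet γ * γ - 1))) atTop (𝓝 0) := by
    have := ((pow_tendsto (α := bet γ * γ - 1) (by linarith)).const_div_atTop 1).const_mul C
    rwa [mul_zero] at this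
  have h2 := ENNReal.tendsto_ofReal h1
  rw [ENNReal.ofReal_zero] at h2
  refine tendsto_of_tendsto_of_tendsto_of_le_of_le' tendsto_const_nhds h2
    (Eventually.of_forall fun n => zero_le) ?_
  filter_upwards [eventually_ge_atTop 1] with n hn
  have hn0 : (0 : ℝ) < n := by exact_mod_cast hn
  have hlev : 0 < lev γ n := Real.rpow_pos_of_pos hn0 _
  have hsub : {a : Fin n → ℝ | tra γ n a ≠ a} ⊆ ⋃ i : Fin n, (fun a : Fin n → ℝ => a i) ⁻¹' {x | lev γ n < |x|} := by
    intro a ha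
    by_contra hcon
    simp only [Set.mem_iUnion, not_exists, Set.mem_preimage, Set.mem_ofPred_eq, not_lt] at hcon
    refine ha (funext fun i => ?_)
    unfold tra trc
    rw [if_pos (hcon i)]
  refine (measure_mono hsub).trans ((measure_iUnion_le _).trans ?_)
  rw [tsum_fintype]
  have h3 : ∀ i : Fin n, Measure.pi (μ n) ((fun a : Fin n → ℝ => a i) ⁻¹' {x | lev γ n < |x|}) ≤
      ENNReal.ofReal (C * lev γ n ^ (-γ)) := by
    intro i
    have hm : MeasurableSet {x : ℝ | lev γ n < |x|} := measurableSet_lt measurable_const (by fun_prop)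
    have h4 := (measurePreserving_eval (μ n) i).measure_preimage hm.nullMeasurableSet
    have h5 : (fun a : Fin n → ℝ => a i) = Function.eval i := rfl
    rw [h5, h4]
    exact trc_prob (hμ n i) hγ hlev
  refine (Finset.sum_le_sum fun i _ => h3 i).trans ?_
  rw [Finset.sum_const, Finset.card_univ, Fintype.card_fin, nsmul_eq_mul]
  have hC : 0 ≤ C := le_trans zero_le_one ((hμ n ⟨0, hn⟩).C_ge hγ)
  rw [show (n : ENNReal) = ENNReal.ofReal (n : ℝ) from (ENNReal.ofReal_natCast n).symm,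
    ← ENNReal.ofReal_mul hn0.le]
  refine ENNReal.ofReal_le_ofReal (le_of_eq ?_)
  unfold lev
  rw [← Real.rpow_mul hn0.le, one_div, ← Real.rpow_neg hn0.le]
  have : (n : ℝ) ^ (-(bet γ * γ - 1)) = n * (n : ℝ) ^ (bet γ * -γ) := by
    rw [show -(bet γ * γ - 1) = 1 + bet γ * -γ by ring, Real.rpow_add hn0, Real.rpow_one]
  rw [this]
  ring

theorem gen_top {ε : ℝ} (hε : 0 < ε) : ∃ δ : ℝ, 0 < δ ∧ ∀ (γ C : ℝ), 2 < γ →
    ∀ (μ : (n : ℕ) → Fin n → Measure ℝ) [∀ n i, IsProbabilityMeasure (μ n i)], (∀ n i, Mom γ C (μ n i)) →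
    Tendsto (fun n : ℕ => Measure.pi (μ n) {a |
      ¬ ∀ (c : ℝ) (v : Fin (2 * n) → ℂ) (lam : ℝ), Eig n a c v lam → Top n a c lam (δ * √(Real.log n)) →
        Loc n v ε}) atTop (𝓝 0) := by
  obtain ⟨η, hη, hη1, hη2⟩ : ∃ η : ℝ, 0 < η ∧ η ≤ 1 / 10000 ∧ 400 * √η ≤ ε := by
    refine ⟨min (1 / 10000) ((ε / 400) ^ 2), lt_min (by norm_num) (by positivity), min_le_left _ _, ?_⟩
    have h1 : √(min (1 / 10000) ((ε / 400) ^ 2)) ≤ √((ε / 400) ^ 2) := Real.sqrt_le_sqrt (min_le_right _ _)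
    rw [Real.sqrt_sq (by positivity)] at h1
    linarith
  have hs := Real.sqrt_nonneg η
  have H := gen_det hη hη1 (ε := ε) (by linarith) (by linarith)
  refine ⟨η, hη, fun γ C hγ μ _ hμ => ?_⟩
  have h := (((tra_prob hγ hμ).add (upG hγ hμ hη hη1)).add (upG2 hγ hμ hη)).add (conc hγ hμ hη (by linarith))
  simp only [add_zero] at h
  refine tendsto_of_tendsto_of_tendsto_of_le_of_le' tendsto_const_nhds h
    (Eventually.of_forall fun n => zero_le) ?_
  filter_upwards [H] with n hn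
  refine (measure_mono ?_).trans ((measure_union_le _ _).trans (add_le_add ((measure_union_le _ _).trans
    (add_le_add (measure_union_le _ _) le_rfl)) le_rfl))
  intro a ha
  by_contra hcon
  simp only [Set.mem_union, not_or, Set.mem_ofPred_eq, not_not] at hcon
  obtain ⟨⟨⟨h1, h2⟩, h3⟩, h4⟩ := hcon
  rw [h1] at h2 h3 h4
  exact ha fun c v lam hv htop => hn a h2 h3 h4 c v lam hv htop

/-! ### the lower edge -/

theorem Mom.neg {γ C : ℝ} {ν : Measure ℝ} (h : Mom γ C ν) : Mom γ C (ν.map (fun x => -x)) := by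
  have e : ∀ f : ℝ → ℝ, ∫ x, f x ∂(ν.map (fun x => -x)) = ∫ x, f (-x) ∂ν := fun f =>
    integral_map_equiv (MeasurableEquiv.neg ℝ) f
  refine ⟨?_, ?_, ?_, ?_⟩
  · rw [e fun x => x, integral_neg, h.mean, neg_zero]
  · rw [e fun x => x ^ 2]
    simpa using h.var
  · have h1 : Integrable ((fun x : ℝ => |x| ^ γ) ∘ fun x => -x) ν := by
      have : ((fun x : ℝ => |x| ^ γ) ∘ fun x => -x) = fun x : ℝ => |x| ^ γ := by
        funext x
        simp
      rw [this]
      exact h.int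
    exact (integrable_map_equiv (MeasurableEquiv.neg ℝ) _).2 h1
  · rw [e fun x => |x| ^ γ]
    simpa using h.mom

theorem pi_neg {n : ℕ} (ν : Fin n → Measure ℝ) [∀ i, IsProbabilityMeasure (ν i)] :
    (Measure.pi ν).map (fun a => -a) = Measure.pi fun i => (ν i).map (fun x => -x) := by
  haveI : ∀ i, IsProbabilityMeasure ((ν i).map (fun x => -x)) := fun i =>
    Measure.isProbabilityMeasure_map measurable_neg.aemeasurable
  have h : MeasurePreserving (fun (a : Fin n → ℝ) i => -(a i)) (Measure.pi ν)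
      (Measure.pi fun i => (ν i).map (fun x => -x)) :=
    measurePreserving_pi _ _ fun i => ⟨measurable_neg, rfl⟩
  exact h.map_eq

/-- localization at both edges of the spectrum, general entries -/
theorem gen_edge {ε : ℝ} (hε : 0 < ε) : ∃ δ : ℝ, 0 < δ ∧ ∀ (γ C : ℝ), 2 < γ →
    ∀ (μ : (n : ℕ) → Fin n → Measure ℝ) [∀ n i, IsProbabilityMeasure (μ n i)], (∀ n i, Mom γ C (μ n i)) →
    Tendsto (fun n : ℕ => Measure.pi (μ n) {a |
      ¬ ∀ (c : ℝ) (v : Fin (2 * n) → ℂ) (lam : ℝ), Eig n a c v lam →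
        (Top n a c lam (δ * √(Real.log n)) ∨ Bot n a c lam (δ * √(Real.log n))) → Loc n v ε}) atTop (𝓝 0) := by
  obtain ⟨δ, hδ, H⟩ := gen_top hε
  refine ⟨δ, hδ, fun γ C hγ μ _ hμ => ?_⟩
  haveI : ∀ n i, IsProbabilityMeasure ((μ n i).map (fun x => -x)) := fun n i =>
    Measure.isProbabilityMeasure_map measurable_neg.aemeasurable
  have H1 := H γ C hγ μ hμ
  have H3 := H γ C hγ (fun n i => (μ n i).map (fun x => -x)) (fun n i => (hμ n i).neg)
  have H2 := H1.add H3
  rw [add_zero] at H2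
  refine tendsto_of_tendsto_of_tendsto_of_le_of_le tendsto_const_nhds H2 (fun n => zero_le) fun n => ?_
  set A : Set (Fin n → ℝ) := {a | ¬ ∀ (c : ℝ) (v : Fin (2 * n) → ℂ) (lam : ℝ), Eig n a c v lam →
    Top n a c lam (δ * √(Real.log n)) → Loc n v ε} with hA
  have hsub : {a | ¬ ∀ (c : ℝ) (v : Fin (2 * n) → ℂ) (lam : ℝ), Eig n a c v lam →
      (Top n a c lam (δ * √(Real.log n)) ∨ Bot n a c lam (δ * √(Real.log n))) → Loc n v ε} ⊆
      A ∪ (fun a => -a) ⁻¹' A := by
    intro a ha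
    by_contra hcon
    rw [Set.mem_union, not_or] at hcon
    obtain ⟨h1, h2⟩ := hcon
    refine ha fun c v lam hv h => ?_
    rcases h with h | h
    · by_contra h3
      exact h1 fun h4 => h3 (h4 c v lam hv h)
    · by_contra h3
      exact h2 fun h4 => h3 (h4 (-c) v (-lam) (Eig_neg hv) (Bot_neg h))
  refine (measure_mono hsub).trans ((measure_union_le _ _).trans (add_le_add le_rfl ?_))
  have h1 : Measure.pi (μ n) ((fun a => -a) ⁻¹' A) ≤ (Measure.pi (μ n)).map (fun a => -a) A :=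
    Measure.le_map_apply measurable_neg.aemeasurable A
  rwa [pi_neg] at h1

end TZ
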