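import Mathlib

/-!
Project TZ (MP_b753aa_pr): eigenvectors of random symmetric Toeplitz matrices in the Fourier model.
Definitions.
-/

noncomputable section

namespace TZ

open MeasureTheory ProbabilityTheory Filter Topology Matrix
open scoped Real

/-- `b_0, …, b_{2n-1}`: `b_j = a_j` for `j < n`, `b_n = c`, `b_j = a_{2n-j}` for `n < j < 2n` -/
def bv (n : ℕ) (a : Fin n → ℝ) (c : ℝ) (j : ℕ) : ℝ :=
  if h : j < n then a ⟨j, h⟩ else if j = n then c else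
    if h : 2 * n - j < n then a ⟨2 * n - j, h⟩ else 0

/-- `exp (2πi m / (2n))` -/
def ex (n m : ℕ) : ℂ := Complex.exp (2 * π * Complex.I * m / (2 * n))

/-- `d_j`, the Fourier transform of `b` -/
def dd (n : ℕ) (a : Fin n → ℝ) (c : ℝ) (j : Fin (2 * n)) : ℂ :=
  (1 / √(2 * n) : ℝ) * ∑ k : Fin (2 * n), (bv n a c k : ℂ) * ex n (j * k)

/-- the unitary matrix `U(j,k) = (2n)^{-1/2} e^{2πi jk/(2n)}` -/
def UU (n : ℕ) : Matrix (Fin (2 * n)) (Fin (2 * n)) ℂ :=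
  Matrix.of fun j k => (1 / √(2 * n) : ℝ) * ex n (j * k)

/-- `n` ones, `n` zeros -/
def QQ (n : ℕ) : Matrix (Fin (2 * n)) (Fin (2 * n)) ℂ :=
  Matrix.diagonal fun j => if (j : ℕ) < n then 1 else 0

/-- the projection `P = U^* Q U` -/
def PP (n : ℕ) : Matrix (Fin (2 * n)) (Fin (2 * n)) ℂ := (UU n)ᴴ * QQ n * UU n

/-- the diagonal matrix `D` -/
def DD (n : ℕ) (a : Fin n → ℝ) (c : ℝ) : Matrix (Fin (2 * n)) (Fin (2 * n)) ℂ :=
  Matrix.diagonal (dd n a c)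

/-- `v` is a unit vector in the range of `P` and an eigenvector of `PDP` with eigenvalue `lam` -/
structure Eig (n : ℕ) (a : Fin n → ℝ) (c : ℝ) (v : Fin (2 * n) → ℂ) (lam : ℝ) : Prop where
  ran : PP n *ᵥ v = v
  unit : ∑ j, ‖v j‖ ^ 2 = 1
  eig : (PP n * DD n a c * PP n) *ᵥ v = (lam : ℂ) • v

/-- `lam` is within `w` of the largest eigenvalue of `PDP` on the range of `P` -/
def Top (n : ℕ) (a : Fin n → ℝ) (c lam w : ℝ) : Prop := ∀ v' lam', Eig n a c v' lam' → lam' ≤ lam + w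

/-- `lam` is within `w` of the smallest eigenvalue of `PDP` on the range of `P` -/
def Bot (n : ℕ) (a : Fin n → ℝ) (c lam w : ℝ) : Prop := ∀ v' lam', Eig n a c v' lam' → lam - w ≤ lam'

/-- mass at least `1 - ε` on a set of at most `n^ε` sites -/
def Loc (n : ℕ) (v : Fin (2 * n) → ℂ) (ε : ℝ) : Prop :=
  ∃ S : Finset (Fin (2 * n)), (S.card : ℝ) ≤ (n : ℝ) ^ ε ∧ 1 - ε ≤ ∑ j ∈ S, ‖v j‖ ^ 2

/-- the law of `n` independent standard gaussians -/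
def gam (n : ℕ) : Measure (Fin n → ℝ) := Measure.pi fun _ => gaussianReal 0 1

instance (n : ℕ) : IsProbabilityMeasure (gam n) := by unfold gam; infer_instance

/-! ### auxiliary notions (not in the statement of the result) -/

/-- `√(2 log n)` -/
def th (n : ℕ) : ℝ := √(2 * Real.log n)

/-- circular distance -/
def cd {n : ℕ} (k l : Fin (2 * n)) : ℕ :=
  min ((k : ℤ) - (l : ℤ)).natAbs (2 * n - ((k : ℤ) - (l : ℤ)).natAbs)

/-- quadratic form of the kernel `P` over a finite set -/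
def frm {α : Type*} (P : α → α → ℂ) (C : Finset α) (u : α → ℂ) : ℝ :=
  (∑ k ∈ C, ∑ l ∈ C, starRingEnd ℂ (u k) * P k l * u l).re

/-- the real part of `d_j` (they are real) -/
def dr (n : ℕ) (a : Fin n → ℝ) (c : ℝ) (j : Fin (2 * n)) : ℝ := (dd n a c j).re

/-- the limit kernel -/
def pinf (m : ℤ) : ℂ := if m = 0 then 1 / 2 else if Even m then 0 else 1 / (Complex.I * π * m)

/-- `K` is a bound for the limit kernel with weights -/
def KB (K : ℝ) : Prop := ∀ (C : Finset ℤ) (y : ℤ → ℝ) (g : ℤ → ℂ), (∀ k, 0 ≤ y k) →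
  frm (fun k l => pinf (k - l)) C (fun k => (√(y k) : ℂ) * g k) ≤
    K * √(∑ k ∈ C, y k ^ 2) * ∑ k ∈ C, ‖g k‖ ^ 2

/-- the best constant (the square of the norm of the sine kernel from `ℓ²` to `ℓ⁴`) -/
def K0 : ℝ := sInf {K | KB K}

/-- `a` with `a_0` replaced by `a_0 + s` -/
def aE {n : ℕ} (a : Fin n → ℝ) (s : ℝ) : Fin n → ℝ := fun i => if (i : ℕ) = 0 then a i + s else a i

/-- two more independent gaussians -/
def ext (n : ℕ) : Measure ((Fin n → ℝ) × (ℝ × ℝ)) :=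
  (gam n).prod ((gaussianReal 0 1).prod (gaussianReal 0 1))

instance (n : ℕ) : IsProbabilityMeasure (ext n) := by unfold ext; infer_instance

/-- the entries of `D` for `b_0 = a_0 + g_0`, `b_n = √2 g_1` -/
def dE (n : ℕ) (ω : (Fin n → ℝ) × (ℝ × ℝ)) (k : Fin (2 * n)) : ℝ := dr n (aE ω.1 ω.2.1) (√2 * ω.2.2) k

/-- parameters -/
def rr (η : ℝ) (n : ℕ) : ℕ := ⌈(n : ℝ) ^ (η ^ 3 / 100)⌉₊
def qq (η : ℝ) : ℕ := ⌈4 / η ^ 2⌉₊
def MM (η : ℝ) (n : ℕ) : ℕ := ⌊(n : ℝ) ^ (20 * √η)⌋₊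

/-- the upper event for the independent gaussians -/
structure XUp {m : ℕ} (x : Fin m → ℝ) (η θ : ℝ) (L q M : ℕ) : Prop where
  sq : ∀ y : ℕ, ∀ C : Finset (Fin m), (∀ k ∈ C, y ≤ (k : ℕ) ∧ (k : ℕ) < y + L) → C.card ≤ q →
    ∑ k ∈ C, x k ^ 2 < ((1 + η) * θ) ^ 2
  few : ∃ F : Finset ℕ, F.card ≤ M ∧ ∀ (y : ℕ) (C : Finset (Fin m)),
    (∀ k ∈ C, y ≤ (k : ℕ) ∧ (k : ℕ) < y + L) → C.Nonempty → C.card ≤ q →
      ((1 - 4 * √η) * θ) ^ 2 ≤ ∑ k ∈ C, x k ^ 2 → y ∈ F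
  edge : ∀ k : Fin m, ((k : ℕ) < 3 * L ∨ m ≤ (k : ℕ) + 3 * L) → |x k| < η * θ

/-- the high sites in a window -/
def Hw {n : ℕ} (d : Fin (2 * n) → ℝ) (h : ℝ) (y L : ℕ) : Finset (Fin (2 * n)) :=
  Finset.univ.filter fun k => y ≤ (k : ℕ) ∧ (k : ℕ) < y + L ∧ h ≤ d k

/-- the upper event for the entries of `D` -/
structure DUp {n : ℕ} (d : Fin (2 * n) → ℝ) (η θ : ℝ) (L q M : ℕ) : Prop where
  cnt : ∀ y : ℕ, (Hw d (η * θ) y L).card ≤ q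
  sq : ∀ y : ℕ, ∑ k ∈ Hw d (η * θ) y L, d k ^ 2 ≤ ((1 + η) * θ) ^ 2
  edge : ∀ k : Fin (2 * n), η * θ ≤ d k → L ≤ (k : ℕ) ∧ (k : ℕ) + L ≤ 2 * n
  few : ∃ F : Finset ℕ, F.card ≤ M ∧ ∀ y : ℕ, (Hw d (η * θ) y L).Nonempty →
    ((1 - 4 * √η) * θ) ^ 2 ≤ ∑ k ∈ Hw d (η * θ) y L, d k ^ 2 → y ∈ F
  bd : ∀ k, |d k| ≤ 2 * θ

/-- high sites outside of the boundary layers of the blocks with shift `s` -/
def Hs {n : ℕ} (d : Fin (2 * n) → ℝ) (h : ℝ) (r s : ℕ) : Finset (Fin (2 * n)) :=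
  Finset.univ.filter fun k => h ≤ d k ∧ r ≤ ((k : ℕ) + s) % r ^ 2

/-- the part of `Hs` in the block `t` -/
def Hb {n : ℕ} (d : Fin (2 * n) → ℝ) (h : ℝ) (r s t : ℕ) : Finset (Fin (2 * n)) :=
  (Hs d h r s).filter fun k => ((k : ℕ) + s) / r ^ 2 = t

/-- the part of `Hs` in the blocks `t ∈ T` -/
def HT {n : ℕ} (d : Fin (2 * n) → ℝ) (h : ℝ) (r s : ℕ) (T : Finset ℕ) : Finset (Fin (2 * n)) :=
  (Hs d h r s).filter fun k => ((k : ℕ) + s) / r ^ 2 ∈ T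

end TZ
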