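import Pool.Agent.TZ.Defs

/-!
Project TZ (MP_b753aa_pr), part two: general independent entries. Definitions.
-/

noncomputable section

namespace TZ

open MeasureTheory ProbabilityTheory Filter Topology Matrix
open scoped Real

/-- mean zero, variance one, absolute moment of order `γ` at most `C` -/
structure Mom (γ C : ℝ) (ν : Measure ℝ) : Prop where
  mean : ∫ x, x ∂ν = 0
  var : ∫ x, x ^ 2 ∂ν = 1
  int : Integrable (fun x => |x| ^ γ) ν
  mom : ∫ x, |x| ^ γ ∂ν ≤ C

/-! ### auxiliary notions (not in the statement of the result) -/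

/-- truncation -/
def trc (b x : ℝ) : ℝ := if |x| ≤ b then x else 0

/-- exponent of the truncation, between `1/γ` and `1/2` -/
def bet (γ : ℝ) : ℝ := (1 / γ + 1 / 2) / 2

/-- the level of truncation -/
def lev (γ : ℝ) (n : ℕ) : ℝ := (n : ℝ) ^ bet γ

/-- truncated entries -/
def tra (γ : ℝ) (n : ℕ) (a : Fin n → ℝ) : Fin n → ℝ := fun j => trc (lev γ n) (a j)

/-- entries truncated at the constant level `B`, centred -/
def cen (B : ℝ) {n : ℕ} (ν : Fin n → Measure ℝ) (a : Fin n → ℝ) : Fin n → ℝ :=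
  fun j => trc B (a j) - ∫ x, trc B x ∂(ν j)

/-- coefficients of the linear form `∑_k t_k d_k` (for `c = 0`) in the entries `a_j` -/
def lin (n : ℕ) (S : Finset (Fin (2 * n))) (t : Fin (2 * n) → ℝ) (j : Fin n) : ℝ :=
  if (j : ℕ) = 0 then 1 / √(2 * n) * ∑ k ∈ S, t k
  else 2 / √(2 * n) * ∑ k ∈ S, t k * Real.cos (π * j * k / n)

/-- largest value of the quadratic form of `d` on the unit sphere of the range of `P` -/
def Fs (n : ℕ) (d : Fin (2 * n) → ℝ) : ℝ :=
  sSup {x | ∃ v : Fin (2 * n) → ℂ, PP n *ᵥ v = v ∧ ∑ k, ‖v k‖ ^ 2 = 1 ∧ x = ∑ k, d k * ‖v k‖ ^ 2}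

end TZ
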