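import Pool.Agent.TZ.Defs
import Pool.Agent.TZ.KerA
import Pool.Agent.TZ.KerB
import Pool.Agent.TZ.Ray
import Pool.Agent.TZ.Law
import Pool.Agent.TZ.Tail
import Pool.Agent.TZ.Num
import Pool.Agent.TZ.Ext

/-!
Project TZ (MP_b753aa_pr), module Weak: eigenvectors whose eigenvalue is of the order of `√(log n)` are not delocalized.
Proof. `prod_le`, `law_le`, `ext_val` of module Ext (by helper68) can be used. On the extended space, `D' k = dE n ω k`, `s = g_0/√(2n)`. By `DD_shift`, `dd_real`, `ray_val`: `∑ D' k ‖v k‖² = lam + s`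
for every `Eig n a c v lam`. With probability tending to one: `|s| ≤ 1`, `|D' k| ≤ 2 th n` for all `k` (for `0 < k < n` by `law`
and `chi_tail` with one coordinate, `ζ = 1/2`, `(2 th n)² = 8 log n`; for `k = 0, n` by `law0`; `dr_symm` for `k > n`), and, with
`τ = (t/2) √(log n)`, `S = {k | τ/2 ≤ |D' k|}` has at most `n^{1-κ}` elements: Markov, `E card ≤ 2 n √2 exp(-(1/2)(τ/2)²/2) + 2 =
2√2 n^{1 - t²/64} + 2` (take `κ = min (t²/256) (t/16) ∧ 1/2`, say). Then `τ ≤ |∑ D' ‖v‖²| ≤ τ/2 + 2 th n · mass(S)`, so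
`mass(S) ≥ τ/(4 th n) = t/(8√2) ≥ κ`.
-/

noncomputable section

namespace TZ

open MeasureTheory ProbabilityTheory Filter Topology Matrix
open scoped Real ENNReal

/-- one coordinate -/
theorem weak_one {m : ℕ} (i : Fin m) {s : ℝ} (hs : 0 ≤ s) :
    gam m {x | s ≤ |x i|} ≤ ENNReal.ofReal (√2 * Real.exp (-(s ^ 2 / 4))) := by
  have h := chi_tail (m := m) {i} (ζ := 1 / 2) (s := s ^ 2) (by norm_num) (by norm_num)
  have hset : {x : Fin m → ℝ | s ≤ |x i|} ⊆ {x | s ^ 2 ≤ ∑ k ∈ ({i} : Finset (Fin m)), x k ^ 2} := by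
    intro x hx
    simp only [Set.mem_ofPred_eq, Finset.sum_singleton] at hx ⊢
    rw [← sq_abs (x i)]
    exact pow_le_pow_left₀ hs hx 2
  refine (measure_mono hset).trans (h.trans (le_of_eq ?_))
  congr 1
  have h1 : 1 / √(1 / 2 : ℝ) = √2 := by
    rw [Real.sqrt_div (by norm_num), Real.sqrt_one]
    simp
  rw [Finset.card_singleton, pow_one, h1]
  congr 2
  ring

theorem weak_union {m : ℕ} {s : ℝ} (hs : 0 ≤ s) :
    gam m {x | ∃ i, s ≤ |x i|} ≤ ENNReal.ofReal (m * (√2 * Real.exp (-(s ^ 2 / 4)))) := by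
  have hset : {x : Fin m → ℝ | ∃ i, s ≤ |x i|} = ⋃ i ∈ (Finset.univ : Finset (Fin m)), {x | s ≤ |x i|} := by
    ext x
    simp
  rw [hset]
  refine (measure_biUnion_finset_le _ _).trans ?_
  refine (Finset.sum_le_sum fun i _ => weak_one i hs).trans (le_of_eq ?_)
  rw [Finset.sum_const, Finset.card_univ, Fintype.card_fin, nsmul_eq_mul,
    ENNReal.ofReal_mul (Nat.cast_nonneg m), ENNReal.ofReal_natCast]

theorem weak_count {m : ℕ} {s N : ℝ} (hs : 0 ≤ s) (hN : 0 < N) :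
    gam m {x | N < ((Finset.univ.filter fun i => s ≤ |x i|).card : ℝ)} ≤
      ENNReal.ofReal (m * (√2 * Real.exp (-(s ^ 2 / 4))) / N) := by
  classical
  have hm : ∀ i : Fin m, MeasurableSet {x : Fin m → ℝ | s ≤ |x i|} := fun i =>
    measurableSet_le measurable_const (measurable_pi_apply i).abs
  have hf : Measurable fun x : Fin m → ℝ => ∑ i, Set.indicator {x : Fin m → ℝ | s ≤ |x i|} (fun _ => (1 : ℝ≥0∞)) x :=
    Finset.measurable_sum _ fun i _ => measurable_const.indicator (hm i)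
  have h1 : ∀ x : Fin m → ℝ, ∑ i, Set.indicator {x : Fin m → ℝ | s ≤ |x i|} (fun _ => (1 : ℝ≥0∞)) x =
      ((Finset.univ.filter fun i => s ≤ |x i|).card : ℝ≥0∞) := by
    intro x
    simp only [Set.indicator_apply, Set.mem_ofPred_eq, Finset.sum_boole]
  have h2 := meas_ge_le_lintegral_div (μ := gam m) hf.aemeasurable (ε := ENNReal.ofReal N)
    (by simpa using hN) ENNReal.ofReal_ne_top
  have hset : {x : Fin m → ℝ | N < ((Finset.univ.filter fun i => s ≤ |x i|).card : ℝ)} ⊆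
      {x | ENNReal.ofReal N ≤ ∑ i, Set.indicator {x : Fin m → ℝ | s ≤ |x i|} (fun _ => (1 : ℝ≥0∞)) x} := by
    intro x hx
    simp only [Set.mem_ofPred_eq] at hx ⊢
    rw [h1, ← ENNReal.ofReal_natCast]
    exact ENNReal.ofReal_le_ofReal hx.le
  refine (measure_mono hset).trans (h2.trans ?_)
  rw [lintegral_finsetSum _ fun i _ => measurable_const.indicator (hm i)]
  rw [ENNReal.ofReal_div_of_pos hN]
  refine ENNReal.div_le_div_right ?_ _
  have h3 : ∀ i : Fin m, ∫⁻ x, Set.indicator {x : Fin m → ℝ | s ≤ |x i|} (fun _ => (1 : ℝ≥0∞)) x ∂(gam m) ≤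
      ENNReal.ofReal (√2 * Real.exp (-(s ^ 2 / 4))) := by
    intro i
    rw [lintegral_indicator (hm i)]
    simpa using weak_one i hs
  refine (Finset.sum_le_sum fun i _ => h3 i).trans (le_of_eq ?_)
  rw [Finset.sum_const, Finset.card_univ, Fintype.card_fin, nsmul_eq_mul,
    ENNReal.ofReal_mul (Nat.cast_nonneg m), ENNReal.ofReal_natCast]

theorem weak_g (n : ℕ) {t : ℝ} (ht : 0 < t) :
    ext n {ω | t ≤ |ω.2.1|} ≤ ENNReal.ofReal (1 / t ^ 2) := by
  have h := meas_ge_le_variance_div_sq (μ := gaussianReal 0 1) (X := id) (memLp_id_gaussianReal 2) ht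
  have h0 : ∫ x, id x ∂(gaussianReal 0 1) = 0 := by simp
  have hv : Var[id; gaussianReal 0 1] = 1 := by simp
  rw [hv, h0] at h
  simp only [id, sub_zero] at h
  have hset : {ω : (Fin n → ℝ) × (ℝ × ℝ) | t ≤ |ω.2.1|} = Set.univ ×ˢ ({x : ℝ | t ≤ |x|} ×ˢ Set.univ) := by
    ext ω
    simp
  rw [hset, ext, Measure.prod_prod, Measure.prod_prod, measure_univ, measure_univ, one_mul, mul_one]
  exact h

/-- deterministic part: all entries are small -/
theorem weak_all {n : ℕ} (hn : 2 ≤ n) {d : Fin (2 * n) → ℝ} {B : ℝ}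
    (hs : ∀ k k' : Fin (2 * n), (k : ℕ) + (k' : ℕ) = 2 * n → d k = d k')
    (h0 : |d ⟨0, by omega⟩| < B) (h1 : |d ⟨n, by omega⟩| < B)
    (h : ∀ i : Fin (n - 1), |d ⟨(i : ℕ) + 1, by omega⟩| < B) (k : Fin (2 * n)) : |d k| < B := by
  rcases Nat.lt_trichotomy (k : ℕ) n with hk | hk | hk
  · rcases Nat.eq_zero_or_pos (k : ℕ) with hk0 | hk0
    · have : k = ⟨0, by omega⟩ := Fin.ext hk0
      rw [this]; exact h0
    · have := h ⟨(k : ℕ) - 1, by omega⟩
      have e : (⟨(k : ℕ) - 1 + 1, by omega⟩ : Fin (2 * n)) = k := Fin.ext (by simp; omega)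
      simpa only [e] using this
  · have : k = ⟨n, by omega⟩ := Fin.ext hk
    rw [this]; exact h1
  · have hk2 := k.isLt
    have e := hs k ⟨2 * n - (k : ℕ), by omega⟩ (by simp only; omega)
    rw [e]
    have := h ⟨2 * n - (k : ℕ) - 1, by omega⟩
    have e : (⟨2 * n - (k : ℕ) - 1 + 1, by omega⟩ : Fin (2 * n)) = ⟨2 * n - (k : ℕ), by omega⟩ :=
      Fin.ext (by simp; omega)
    simpa only [e] using this

/-- deterministic part: number of large entries -/
theorem weak_card {n : ℕ} (hn : 2 ≤ n) {d : Fin (2 * n) → ℝ} {B : ℝ}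
    (hs : ∀ k k' : Fin (2 * n), (k : ℕ) + (k' : ℕ) = 2 * n → d k = d k') :
    (Finset.univ.filter fun k : Fin (2 * n) => B ≤ |d k|).card ≤
      2 * (Finset.univ.filter fun i : Fin (n - 1) => B ≤ |d ⟨(i : ℕ) + 1, by omega⟩|).card + 2 := by
  classical
  set F := Finset.univ.filter fun i : Fin (n - 1) => B ≤ |d ⟨(i : ℕ) + 1, by omega⟩| with hF
  have hsub : (Finset.univ.filter fun k : Fin (2 * n) => B ≤ |d k|) ⊆
      (F.image (fun i : Fin (n - 1) => (⟨(i : ℕ) + 1, by omega⟩ : Fin (2 * n))) ∪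
        F.image (fun i : Fin (n - 1) => (⟨2 * n - ((i : ℕ) + 1), by omega⟩ : Fin (2 * n)))) ∪
        {⟨0, by omega⟩, ⟨n, by omega⟩} := by
    intro k hk
    have hk1 : B ≤ |d k| := (Finset.mem_filter.1 hk).2
    have hk2 := k.isLt
    simp only [Finset.mem_union, Finset.mem_image, Finset.mem_insert, Finset.mem_singleton]
    rcases Nat.lt_trichotomy (k : ℕ) n with hkn | hkn | hkn
    · rcases Nat.eq_zero_or_pos (k : ℕ) with hk0 | hk0
      · right; left; exact Fin.ext hk0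
      · left; left
        have e : (⟨(k : ℕ) - 1 + 1, by omega⟩ : Fin (2 * n)) = k := Fin.ext (by simp; omega)
        refine ⟨⟨(k : ℕ) - 1, by omega⟩, Finset.mem_filter.2 ⟨Finset.mem_univ _, ?_⟩, e⟩
        simpa only [e] using hk1
    · right; right; exact Fin.ext hkn
    · left; right
      have e := hs k ⟨2 * n - (k : ℕ), by omega⟩ (by simp only; omega)
      have e1 : (⟨2 * n - (k : ℕ) - 1 + 1, by omega⟩ : Fin (2 * n)) = ⟨2 * n - (k : ℕ), by omega⟩ :=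
        Fin.ext (by simp; omega)
      refine ⟨⟨2 * n - (k : ℕ) - 1, by omega⟩, Finset.mem_filter.2 ⟨Finset.mem_univ _, ?_⟩,
        Fin.ext (by simp; omega)⟩
      simp only [e1]
      rw [← e]; exact hk1
  refine (Finset.card_le_card hsub).trans ((Finset.card_union_le _ _).trans ?_)
  have a1 := Finset.card_union_le (F.image (fun i : Fin (n - 1) => (⟨(i : ℕ) + 1, by omega⟩ : Fin (2 * n))))
    (F.image (fun i : Fin (n - 1) => (⟨2 * n - ((i : ℕ) + 1), by omega⟩ : Fin (2 * n))))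
  have a2 := Finset.card_image_le (s := F) (f := fun i : Fin (n - 1) => (⟨(i : ℕ) + 1, by omega⟩ : Fin (2 * n)))
  have a3 := Finset.card_image_le (s := F)
    (f := fun i : Fin (n - 1) => (⟨2 * n - ((i : ℕ) + 1), by omega⟩ : Fin (2 * n)))
  have a4 := Finset.card_le_two (a := (⟨0, by omega⟩ : Fin (2 * n))) (b := ⟨n, by omega⟩)
  omega

/-- deterministic part: mass of the large entries -/
theorem weak_mass {N : ℕ} {d : Fin N → ℝ} {v : Fin N → ℂ} {τ T : ℝ} (hT : ∀ k, |d k| ≤ T) (hτ : 0 ≤ τ)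
    (hv : ∑ k, ‖v k‖ ^ 2 = 1) (h : τ ≤ |∑ k, d k * ‖v k‖ ^ 2|) :
    τ / 2 ≤ T * ∑ k ∈ Finset.univ.filter (fun k => τ / 2 ≤ |d k|), ‖v k‖ ^ 2 := by
  classical
  have h1 : |∑ k, d k * ‖v k‖ ^ 2| ≤ ∑ k, |d k| * ‖v k‖ ^ 2 := by
    refine (Finset.abs_sum_le_sum_abs _ _).trans (le_of_eq (Finset.sum_congr rfl fun k _ => ?_))
    rw [abs_mul, abs_of_nonneg (sq_nonneg ‖v k‖)]
  have h2 : ∑ k, |d k| * ‖v k‖ ^ 2 ≤
      T * ∑ k ∈ Finset.univ.filter (fun k => τ / 2 ≤ |d k|), ‖v k‖ ^ 2 + τ / 2 := by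
    rw [← Finset.sum_filter_add_sum_filter_not Finset.univ (fun k => τ / 2 ≤ |d k|)]
    refine add_le_add ?_ ?_
    · rw [Finset.mul_sum]
      exact Finset.sum_le_sum fun k _ => mul_le_mul_of_nonneg_right (hT k) (sq_nonneg _)
    · calc ∑ k ∈ Finset.univ.filter (fun k => ¬ τ / 2 ≤ |d k|), |d k| * ‖v k‖ ^ 2
          ≤ ∑ k ∈ Finset.univ.filter (fun k => ¬ τ / 2 ≤ |d k|), τ / 2 * ‖v k‖ ^ 2 :=
            Finset.sum_le_sum fun k hk => mul_le_mul_of_nonneg_right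
              (not_le.1 (Finset.mem_filter.1 hk).2).le (sq_nonneg _)
        _ ≤ ∑ k, τ / 2 * ‖v k‖ ^ 2 :=
            Finset.sum_le_sum_of_subset_of_nonneg (Finset.filter_subset _ _)
              fun k _ _ => mul_nonneg (by linarith) (sq_nonneg _)
        _ = τ / 2 := by rw [← Finset.mul_sum, hv, mul_one]
  linarith

theorem weak_bound {t κ : ℝ} (ht : 0 < t) {n : ℕ} (hn : 2 ≤ n) (h1 : 1 ≤ t / 2 * √(Real.log n))
    (hκ : κ ≤ t / 16) (h4 : 4 ≤ (n : ℝ) ^ (1 - κ)) :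
    gam n {a | ¬ ∀ (c : ℝ) (v : Fin (2 * n) → ℂ) (lam : ℝ), Eig n a c v lam → t * √(Real.log n) ≤ |lam| →
      ∃ S : Finset (Fin (2 * n)), (S.card : ℝ) ≤ (n : ℝ) ^ (1 - κ) ∧ κ ≤ ∑ j ∈ S, ‖v j‖ ^ 2} ≤
      ENNReal.ofReal (1 / √(2 * n) ^ 2) +
      (ENNReal.ofReal ((n - 1 : ℕ) * (√2 * Real.exp (-((2 * th n) ^ 2 / 4)))) +
      (ENNReal.ofReal (2 / (2 * th n) ^ 2) + (ENNReal.ofReal (2 / (2 * th n) ^ 2) +
      ENNReal.ofReal ((n - 1 : ℕ) * (√2 * Real.exp (-((t / 2 * √(Real.log n) / 2) ^ 2 / 4))) /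
        ((n : ℝ) ^ (1 - κ) / 4))))) := by
  classical
  have hn' : (0 : ℝ) < n := by
    have : 0 < n := by omega
    exact_mod_cast this
  have hth : 0 < th n := th_pos hn
  set τ := t / 2 * √(Real.log n) with hτ
  set X : (Fin n → ℝ) × (ℝ × ℝ) → Fin (n - 1) → ℝ :=
    fun ω i => dE n ω ⟨(i : ℕ) + 1, by omega⟩ with hX
  let B1 : Set ((Fin n → ℝ) × (ℝ × ℝ)) := {ω | √(2 * n) ≤ |ω.2.1|}
  let B2 : Set ((Fin n → ℝ) × (ℝ × ℝ)) := {ω | X ω ∈ {x : Fin (n - 1) → ℝ | ∃ i, 2 * th n ≤ |x i|}}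
  let B3 : Set ((Fin n → ℝ) × (ℝ × ℝ)) := {ω | 2 * th n ≤ |dE n ω ⟨0, by omega⟩|}
  let B4 : Set ((Fin n → ℝ) × (ℝ × ℝ)) := {ω | 2 * th n ≤ |dE n ω ⟨n, by omega⟩|}
  let B5 : Set ((Fin n → ℝ) × (ℝ × ℝ)) := {ω | X ω ∈ {x : Fin (n - 1) → ℝ |
    (n : ℝ) ^ (1 - κ) / 4 < ((Finset.univ.filter fun i => τ / 2 ≤ |x i|).card : ℝ)}}
  have hτ0 : 0 ≤ τ := by linarith
  refine (prod_le n _ (B1 ∪ (B2 ∪ (B3 ∪ (B4 ∪ B5)))) ?_).trans ?_
  · intro a ha g
    by_contra hnot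
    simp only [Set.mem_union, not_or] at hnot
    obtain ⟨n1, n2, n3, n4, n5⟩ := hnot
    apply ha
    intro c v lam hE hlam
    have n1' : |g.1| < √(2 * n) := not_le.1 n1
    have n3' : |dE n (a, g) ⟨0, by omega⟩| < 2 * th n := not_le.1 n3
    have n4' : |dE n (a, g) ⟨n, by omega⟩| < 2 * th n := not_le.1 n4
    have n2' : ∀ i : Fin (n - 1), |dE n (a, g) ⟨(i : ℕ) + 1, by omega⟩| < 2 * th n := by
      intro i
      by_contra hc
      exact n2 ⟨i, not_lt.1 hc⟩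
    have n5' : ((Finset.univ.filter fun i : Fin (n - 1) =>
        τ / 2 ≤ |dE n (a, g) ⟨(i : ℕ) + 1, by omega⟩|).card : ℝ) ≤ (n : ℝ) ^ (1 - κ) / 4 := not_lt.1 n5
    have hsy : ∀ k k' : Fin (2 * n), (k : ℕ) + (k' : ℕ) = 2 * n → dE n (a, g) k = dE n (a, g) k' :=
      fun k k' h => dr_symm n _ _ k k' h
    have hall := weak_all hn hsy n3' n4' n2'
    have hcard := weak_card (B := τ / 2) hn hsy
    have hval := ext_val (ω := (a, g)) hE
    have hs1 : |g.1 / √(2 * n)| ≤ 1 := by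
      rw [abs_div, abs_of_nonneg (Real.sqrt_nonneg _)]
      have : 0 < √(2 * (n : ℝ)) := Real.sqrt_pos.2 (by positivity)
      rw [div_le_one this]
      exact n1'.le
    have hlow : τ ≤ |∑ k, dE n (a, g) k * ‖v k‖ ^ 2| := by
      rw [hval]
      have h2 : |lam| ≤ |lam + g.1 / √(2 * n)| + |g.1 / √(2 * n)| := by
        have := abs_sub (lam + g.1 / √(2 * n)) (g.1 / √(2 * n))
        simpa using this
      have h3 : t * √(Real.log n) = 2 * τ := by rw [hτ]; ring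
      have : τ ≤ |lam + g.1 / √(2 * n)| := by linarith
      exact this
    have hmass := weak_mass (T := 2 * th n) (fun k => (hall k).le) hτ0 hE.unit hlow
    refine ⟨Finset.univ.filter fun k => τ / 2 ≤ |dE n (a, g) k|, ?_, ?_⟩
    · have h5 : ((Finset.univ.filter fun k => τ / 2 ≤ |dE n (a, g) k|).card : ℝ) ≤
          2 * ((Finset.univ.filter fun i : Fin (n - 1) =>
            τ / 2 ≤ |dE n (a, g) ⟨(i : ℕ) + 1, by omega⟩|).card : ℝ) + 2 := by exact_mod_cast hcard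
      linarith
    · refine hκ.trans ?_
      set m := ∑ k ∈ Finset.univ.filter (fun k => τ / 2 ≤ |dE n (a, g) k|), ‖v k‖ ^ 2
      have hth2 : th n = √2 * √(Real.log n) := by
        rw [th, Real.sqrt_mul (by norm_num)]
      have hl : 0 < √(Real.log n) := Real.sqrt_pos.2 (Real.log_pos (by exact_mod_cast hn))
      have h2 : √2 ≤ 2 := by
        rw [Real.sqrt_le_left (by norm_num)]; norm_num
      have hm0 : 0 ≤ m := Finset.sum_nonneg fun k _ => sq_nonneg _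
      rw [hth2, hτ] at hmass
      have h6 : √(Real.log n) * (t / 4) ≤ √(Real.log n) * (2 * √2 * m) := by
        calc √(Real.log n) * (t / 4) = t / 2 * √(Real.log n) / 2 := by ring
          _ ≤ 2 * (√2 * √(Real.log n)) * m := hmass
          _ = √(Real.log n) * (2 * √2 * m) := by ring
      have h7 : t / 4 ≤ 2 * √2 * m := le_of_mul_le_mul_left h6 hl
      have h8 : 2 * √2 * m ≤ 4 * m := by nlinarith
      linarith
  · refine (measure_union_le _ _).trans (add_le_add (weak_g n (Real.sqrt_pos.2 (by positivity))) ?_)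
    refine (measure_union_le _ _).trans (add_le_add ?_ ?_)
    · exact (law_le n hn _).trans (weak_union (by positivity))
    refine (measure_union_le _ _).trans (add_le_add (law0 n (by omega) _ (by positivity)) ?_)
    refine (measure_union_le _ _).trans (add_le_add (law0 n (by omega) _ (by positivity)) ?_)
    exact (law_le n hn _).trans (weak_count (by positivity) (by positivity))

theorem weak {t : ℝ} (ht : 0 < t) : ∃ κ : ℝ, 0 < κ ∧ Tendsto (fun n : ℕ => gam n {a |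
    ¬ ∀ (c : ℝ) (v : Fin (2 * n) → ℂ) (lam : ℝ), Eig n a c v lam → t * √(Real.log n) ≤ |lam| →
      ∃ S : Finset (Fin (2 * n)), (S.card : ℝ) ≤ (n : ℝ) ^ (1 - κ) ∧ κ ≤ ∑ j ∈ S, ‖v j‖ ^ 2}) atTop (𝓝 0) := by
  set κ : ℝ := min (t ^ 2 / 128) (min (t / 16) (1 / 2)) with hκd
  have hκ0 : 0 < κ := by
    rw [hκd]
    positivity
  have hκ1 : κ ≤ t ^ 2 / 128 := min_le_left _ _
  have hκ2 : κ ≤ t / 16 := (min_le_right _ _).trans (min_le_left _ _)
  have hκ3 : κ ≤ 1 / 2 := (min_le_right _ _).trans (min_le_right _ _)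
  refine ⟨κ, hκ0, ?_⟩
  have hlog : Tendsto (fun n : ℕ => √(Real.log n)) atTop atTop :=
    Real.tendsto_sqrt_atTop.comp (Real.tendsto_log_atTop.comp tendsto_natCast_atTop_atTop)
  -- the five terms
  have t1 : Tendsto (fun n : ℕ => ENNReal.ofReal (1 / √(2 * n) ^ 2)) atTop (𝓝 0) := by
    have : Tendsto (fun n : ℕ => (1 : ℝ) / √(2 * n) ^ 2) atTop (𝓝 0) := by
      have h := ((tendsto_natCast_atTop_atTop (R := ℝ)).const_mul_atTop (show (0 : ℝ) < 2 by norm_num))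
      refine (h.const_div_atTop 1).congr fun n => ?_
      rw [Real.sq_sqrt (by positivity)]
    simpa using ENNReal.tendsto_ofReal this
  have t3 : Tendsto (fun n : ℕ => ENNReal.ofReal (2 / (2 * th n) ^ 2)) atTop (𝓝 0) := by
    have : Tendsto (fun n : ℕ => (2 : ℝ) / (2 * th n) ^ 2) atTop (𝓝 0) := by
      have h := (th_tendsto.const_mul_atTop (show (0 : ℝ) < 2 by norm_num))
      have h2 := (tendsto_pow_atTop (α := ℝ) (n := 2) (by norm_num)).comp h
      exact h2.const_div_atTop 2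
    simpa using ENNReal.tendsto_ofReal this
  have t2 : Tendsto (fun n : ℕ => ENNReal.ofReal ((n : ℝ) ^ (-1 : ℝ) * √2)) atTop (𝓝 0) := by
    have h := (tendsto_rpow_neg_atTop (show (0 : ℝ) < 1 by norm_num)).comp (tendsto_natCast_atTop_atTop (R := ℝ))
    have h2 := h.mul_const √2
    simp only [zero_mul] at h2
    simpa using ENNReal.tendsto_ofReal h2
  have t5 : Tendsto (fun n : ℕ => ENNReal.ofReal ((n : ℝ) ^ (-(t ^ 2 / 128)) * (4 * √2))) atTop (𝓝 0) := by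
    have h := (tendsto_rpow_neg_atTop (show (0 : ℝ) < t ^ 2 / 128 by positivity)).comp
      (tendsto_natCast_atTop_atTop (R := ℝ))
    have h2 := h.mul_const (4 * √2)
    simp only [zero_mul] at h2
    simpa using ENNReal.tendsto_ofReal h2
  have tt := t1.add (t2.add (t3.add (t3.add t5)))
  simp only [add_zero] at tt
  refine tendsto_of_tendsto_of_tendsto_of_le_of_le' tendsto_const_nhds tt
    (Eventually.of_forall fun n => zero_le) ?_
  have e1 : ∀ᶠ n : ℕ in atTop, 1 ≤ t / 2 * √(Real.log n) :=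
    (hlog.const_mul_atTop (by positivity)).eventually_ge_atTop 1
  have e2 : ∀ᶠ n : ℕ in atTop, 4 ≤ (n : ℝ) ^ (1 - κ) :=
    (pow_tendsto (by linarith)).eventually_ge_atTop 4
  filter_upwards [e1, e2, eventually_ge_atTop 2] with n h1 h4 hn
  refine (weak_bound ht hn h1 hκ2 h4).trans ?_
  have hn' : (0 : ℝ) < n := by
    have : 0 < n := by omega
    exact_mod_cast this
  have hn1 : (1 : ℝ) ≤ n := by
    have : 1 ≤ n := by omega
    exact_mod_cast this
  have hl0 : 0 ≤ Real.log n := Real.log_nonneg hn1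
  have hm : (((n - 1 : ℕ) : ℝ)) ≤ n := by exact_mod_cast Nat.sub_le n 1
  have x2 : Real.exp (-((2 * th n) ^ 2 / 4)) = (n : ℝ) ^ (-2 : ℝ) := by
    rw [Real.rpow_def_of_pos hn', th, mul_pow, Real.sq_sqrt (by positivity)]
    congr 1
    ring
  have x5 : Real.exp (-((t / 2 * √(Real.log n) / 2) ^ 2 / 4)) = (n : ℝ) ^ (-(t ^ 2 / 64)) := by
    rw [Real.rpow_def_of_pos hn']
    congr 1
    have : (t / 2 * √(Real.log n) / 2) ^ 2 = t ^ 2 / 16 * √(Real.log n) ^ 2 := by ring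
    rw [this, Real.sq_sqrt hl0]
    ring
  refine add_le_add le_rfl (add_le_add ?_ (add_le_add le_rfl (add_le_add le_rfl ?_)))
  · refine ENNReal.ofReal_le_ofReal ?_
    rw [x2]
    calc ((n - 1 : ℕ) : ℝ) * (√2 * (n : ℝ) ^ (-2 : ℝ)) ≤ n * (√2 * (n : ℝ) ^ (-2 : ℝ)) :=
          mul_le_mul_of_nonneg_right hm (by positivity)
      _ = ((n : ℝ) ^ (1 : ℝ) * (n : ℝ) ^ (-2 : ℝ)) * √2 := by rw [Real.rpow_one]; ring
      _ = (n : ℝ) ^ (-1 : ℝ) * √2 := by rw [← Real.rpow_add hn']; norm_num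
  · refine ENNReal.ofReal_le_ofReal ?_
    rw [x5]
    have hp : 0 < (n : ℝ) ^ (1 - κ) := Real.rpow_pos_of_pos hn' _
    rw [div_le_iff₀ (by positivity)]
    calc ((n - 1 : ℕ) : ℝ) * (√2 * (n : ℝ) ^ (-(t ^ 2 / 64))) ≤ n * (√2 * (n : ℝ) ^ (-(t ^ 2 / 64))) :=
          mul_le_mul_of_nonneg_right hm (by positivity)
      _ = √2 * ((n : ℝ) ^ (1 : ℝ) * (n : ℝ) ^ (-(t ^ 2 / 64))) := by rw [Real.rpow_one]; ring
      _ = √2 * (n : ℝ) ^ (1 + -(t ^ 2 / 64)) := by rw [← Real.rpow_add hn']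
      _ ≤ √2 * (n : ℝ) ^ (-(t ^ 2 / 128) + (1 - κ)) := by
          refine mul_le_mul_of_nonneg_left (Real.rpow_le_rpow_of_exponent_le hn1 ?_) (Real.sqrt_nonneg _)
          linarith
      _ = √2 * ((n : ℝ) ^ (-(t ^ 2 / 128)) * (n : ℝ) ^ (1 - κ)) := by rw [Real.rpow_add hn']
      _ = (n : ℝ) ^ (-(t ^ 2 / 128)) * (4 * √2) * ((n : ℝ) ^ (1 - κ) / 4) := by ring

end TZ
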