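import Pool.Agent.TZ.GDefs
import Pool.Agent.TZ.Weak
import Pool.Agent.TZ.GNet
import Pool.Agent.TZ.GMe
import Pool.Agent.TZ.AsmG

/-!
Project TZ (MP_b753aa_pr), module GWeak: eigenvectors with eigenvalue of the order `√(log n)` are not delocalized, general entries.
Proof. Adapt Weak. `gen_mat`, `ray_val`: `∑ dr n a 0 k ‖v k‖² = lam`. Outside of `{tra γ n a ≠ a}` (`tra_prob`) work with `d k = dr n (tra γ n a) 0 k`:
all `|d k| ≤ 2 th n` (`md_one`, union over `2n` sites), and `S = {k | (t/2) √(log n) ≤ |d k|}` has at most `n^{1-κ}` elements with probability tending to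
one: Markov with `tail_gen` for one site `0 < k < n` (`q = 1`, `ζ = 1/2`, `s = (t/2)² log n = (t²/8) (th n)²`, `Λ = t`), `dr_symm` for `k > n`, and two more sites.
Then `t √(log n) ≤ |lam| ≤ (t/2) √(log n) + 2 th n · mass(S)`, so `mass(S) ≥ t/(4√2)`.
-/

noncomputable section

namespace TZ

open MeasureTheory ProbabilityTheory Filter Topology Matrix
open scoped Real

open scoped ENNReal in
/-- Markov's inequality for the number of events -/
theorem gweak_count {Ω : Type*} [MeasurableSpace Ω] (P : Measure Ω) {m : ℕ} (A : Fin m → Set Ω) {p N : ℝ}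
    (hp : ∀ i, P (A i) ≤ ENNReal.ofReal p) (hN : 0 < N) [∀ ω, DecidablePred fun i => ω ∈ A i] :
    P {ω | N < ((Finset.univ.filter fun i => ω ∈ A i).card : ℝ)} ≤ ENNReal.ofReal (m * p / N) := by
  classical
  obtain ⟨M, hM⟩ : ∃ M : Fin m → Set Ω, M = fun i => toMeasurable P (A i) := ⟨_, rfl⟩
  have hm : ∀ i, MeasurableSet (M i) := fun i => by rw [hM]; exact measurableSet_toMeasurable _ _
  have hAM : ∀ i, A i ⊆ M i := fun i => by rw [hM]; exact subset_toMeasurable _ _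
  have hPM : ∀ i, P (M i) ≤ ENNReal.ofReal p := fun i => by
    rw [hM]
    exact (measure_toMeasurable _).le.trans (hp i)
  have hf : Measurable fun x : Ω => ∑ i, Set.indicator (M i) (fun _ => (1 : ℝ≥0∞)) x :=
    Finset.measurable_sum _ fun i _ => measurable_const.indicator (hm i)
  have h1 : ∀ x : Ω, ∑ i, Set.indicator (M i) (fun _ => (1 : ℝ≥0∞)) x =
      ((Finset.univ.filter fun i => x ∈ M i).card : ℝ≥0∞) := by
    intro x
    simp only [Set.indicator_apply, Finset.sum_boole]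
  have h2 := meas_ge_le_lintegral_div (μ := P) hf.aemeasurable (ε := ENNReal.ofReal N)
    (by simpa using hN) ENNReal.ofReal_ne_top
  have hset : {x : Ω | N < ((Finset.univ.filter fun i => x ∈ A i).card : ℝ)} ⊆
      {x | ENNReal.ofReal N ≤ ∑ i, Set.indicator (M i) (fun _ => (1 : ℝ≥0∞)) x} := by
    intro x hx
    simp only [Set.mem_ofPred_eq] at hx ⊢
    rw [h1, ← ENNReal.ofReal_natCast]
    have h3 : ((Finset.univ.filter fun i => x ∈ A i).card : ℝ) ≤
        ((Finset.univ.filter fun i => x ∈ M i).card : ℝ) := by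
      exact_mod_cast Finset.card_le_card fun i hi => by
        rw [Finset.mem_filter] at hi ⊢
        exact ⟨hi.1, hAM i hi.2⟩
    exact ENNReal.ofReal_le_ofReal (hx.le.trans h3)
  refine (measure_mono hset).trans (h2.trans ?_)
  rw [lintegral_finsetSum _ fun i _ => measurable_const.indicator (hm i)]
  rw [ENNReal.ofReal_div_of_pos hN]
  refine ENNReal.div_le_div_right ?_ _
  have h3 : ∀ i : Fin m, ∫⁻ x, Set.indicator (M i) (fun _ => (1 : ℝ≥0∞)) x ∂P ≤
      ENNReal.ofReal p := by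
    intro i
    rw [lintegral_indicator (hm i)]
    simpa using hPM i
  refine (Finset.sum_le_sum fun i _ => h3 i).trans (le_of_eq ?_)
  rw [Finset.sum_const, Finset.card_univ, Fintype.card_fin, nsmul_eq_mul,
    ENNReal.ofReal_mul (Nat.cast_nonneg m), ENNReal.ofReal_natCast]

/-- deterministic part -/
theorem gweak_det {t κ : ℝ} (ht : 0 < t) {n : ℕ} (hn : 2 ≤ n) (hκ : κ ≤ t / 16) (h4 : 4 ≤ (n : ℝ) ^ (1 - κ))
    (a : Fin n → ℝ) (h1 : ∀ k : Fin (2 * n), |dr n a 0 k| ≤ 2 * th n)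
    (h2 : ((Finset.univ.filter fun i : Fin (n - 1) =>
      t / 2 * √(Real.log n) ≤ |dr n a 0 ⟨(i : ℕ) + 1, by omega⟩|).card : ℝ) ≤ (n : ℝ) ^ (1 - κ) / 4)
    (c : ℝ) (v : Fin (2 * n) → ℂ) (lam : ℝ) (hE : Eig n a c v lam) (hlam : t * √(Real.log n) ≤ |lam|) :
    ∃ S : Finset (Fin (2 * n)), (S.card : ℝ) ≤ (n : ℝ) ^ (1 - κ) ∧ κ ≤ ∑ j ∈ S, ‖v j‖ ^ 2 := by
  classical
  have hval : ∑ k, dr n a 0 k * ‖v k‖ ^ 2 = lam := by
    refine ray_val (PP_herm n) _ hE.ran hE.unit ?_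
    rw [gen_mat a c]
    exact hE.eig
  have hsy : ∀ k k' : Fin (2 * n), (k : ℕ) + (k' : ℕ) = 2 * n → dr n a 0 k = dr n a 0 k' :=
    fun k k' h => dr_symm n _ _ k k' h
  have hcard := weak_card (B := t / 2 * √(Real.log n)) hn hsy
  have hmass := weak_mass (τ := t * √(Real.log n)) (T := 2 * th n) h1 (by positivity) hE.unit
    (by rw [hval]; exact hlam)
  have e : t * √(Real.log n) / 2 = t / 2 * √(Real.log n) := by ring
  rw [e] at hmass
  refine ⟨Finset.univ.filter fun k => t / 2 * √(Real.log n) ≤ |dr n a 0 k|, ?_, ?_⟩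
  · have h5 : ((Finset.univ.filter fun k => t / 2 * √(Real.log n) ≤ |dr n a 0 k|).card : ℝ) ≤
        2 * ((Finset.univ.filter fun i : Fin (n - 1) =>
          t / 2 * √(Real.log n) ≤ |dr n a 0 ⟨(i : ℕ) + 1, by omega⟩|).card : ℝ) + 2 := by exact_mod_cast hcard
    linarith
  · refine hκ.trans ?_
    set m := ∑ k ∈ Finset.univ.filter (fun k => t / 2 * √(Real.log n) ≤ |dr n a 0 k|), ‖v k‖ ^ 2
    have hth2 : th n = √2 * √(Real.log n) := by
      rw [th, Real.sqrt_mul (by norm_num)]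
    have hl : 0 < √(Real.log n) := Real.sqrt_pos.2 (Real.log_pos (by exact_mod_cast hn))
    have h2 : √2 ≤ 2 := by
      rw [Real.sqrt_le_left (by norm_num)]; norm_num
    have hm0 : 0 ≤ m := Finset.sum_nonneg fun k _ => sq_nonneg _
    rw [hth2] at hmass
    have h6 : √(Real.log n) * (t / 2) ≤ √(Real.log n) * (2 * √2 * m) := by
      calc √(Real.log n) * (t / 2) = t / 2 * √(Real.log n) := by ring
        _ ≤ 2 * (√2 * √(Real.log n)) * m := hmass
        _ = √(Real.log n) * (2 * √2 * m) := by ring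
    have h7 : t / 2 ≤ 2 * √2 * m := le_of_mul_le_mul_left h6 hl
    have h8 : 2 * √2 * m ≤ 4 * m := by nlinarith
    linarith

theorem gen_weak {t : ℝ} (ht : 0 < t) : ∃ κ : ℝ, 0 < κ ∧ ∀ (γ C : ℝ), 2 < γ →
    ∀ (μ : (n : ℕ) → Fin n → Measure ℝ) [∀ n i, IsProbabilityMeasure (μ n i)], (∀ n i, Mom γ C (μ n i)) →
    Tendsto (fun n : ℕ => Measure.pi (μ n) {a |
      ¬ ∀ (c : ℝ) (v : Fin (2 * n) → ℂ) (lam : ℝ), Eig n a c v lam → t * √(Real.log n) ≤ |lam| →
        ∃ S : Finset (Fin (2 * n)), (S.card : ℝ) ≤ (n : ℝ) ^ (1 - κ) ∧ κ ≤ ∑ j ∈ S, ‖v j‖ ^ 2}) atTop (𝓝 0) := by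
  classical
  obtain ⟨κ, hκ0, hκ1, hκ2, hκ3⟩ : ∃ κ : ℝ, 0 < κ ∧ κ ≤ t ^ 2 / 32 ∧ κ ≤ t / 16 ∧ κ ≤ 1 / 2 :=
    ⟨min (t ^ 2 / 32) (min (t / 16) (1 / 2)), by positivity, min_le_left _ _,
      (min_le_right _ _).trans (min_le_left _ _), (min_le_right _ _).trans (min_le_right _ _)⟩
  refine ⟨κ, hκ0, fun γ C hγ μ _ hμ => ?_⟩
  obtain ⟨N, hN1, hN⟩ := tail_gen (C := C) hγ 1 (ζ := 1 / 2) (Λ := t) (by norm_num) (by norm_num) ht.le
  have t1 : Tendsto (fun n : ℕ => ENNReal.ofReal (2 * (n : ℝ) ^ (-(1 / 2) : ℝ))) atTop (𝓝 0) := by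
    have h := (tendsto_rpow_neg_atTop (show (0 : ℝ) < 1 / 2 by norm_num)).comp
      (tendsto_natCast_atTop_atTop (R := ℝ))
    have h2 := h.const_mul 2
    simp only [mul_zero] at h2
    simpa using ENNReal.tendsto_ofReal h2
  have t2 : Tendsto (fun n : ℕ => ENNReal.ofReal ((n : ℝ) ^ (-(t ^ 2 / 32)) * (4 * N))) atTop (𝓝 0) := by
    have h := (tendsto_rpow_neg_atTop (show (0 : ℝ) < t ^ 2 / 32 by positivity)).comp
      (tendsto_natCast_atTop_atTop (R := ℝ))
    have h2 := h.mul_const (4 * N)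
    simp only [zero_mul] at h2
    simpa using ENNReal.tendsto_ofReal h2
  have tt := (tra_prob hγ hμ).add (t1.add t2)
  simp only [add_zero] at tt
  refine tendsto_of_tendsto_of_tendsto_of_le_of_le' tendsto_const_nhds tt
    (Eventually.of_forall fun n => zero_le) ?_
  have e2 : ∀ᶠ n : ℕ in atTop, 4 ≤ (n : ℝ) ^ (1 - κ) :=
    (pow_tendsto (by linarith)).eventually_ge_atTop 4
  filter_upwards [e2, eventually_ge_atTop 2, md_one hγ hμ, hN μ hμ] with n h4 hn hmd htail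
  have hn' : (0 : ℝ) < n := by
    have : 0 < n := by omega
    exact_mod_cast this
  have hn1 : (1 : ℝ) ≤ n := by
    have : 1 ≤ n := by omega
    exact_mod_cast this
  have hl0 : 0 ≤ Real.log n := Real.log_nonneg hn1
  have hp : 0 < (n : ℝ) ^ (1 - κ) := Real.rpow_pos_of_pos hn' _
  -- the events
  obtain ⟨B1, hB1⟩ : ∃ B : Fin (2 * n) → Set (Fin n → ℝ), B = fun k =>
    {a | 2 * th n ≤ |dr n (tra γ n a) 0 k|} := ⟨_, rfl⟩
  obtain ⟨B2, hB2⟩ : ∃ B : Fin (n - 1) → Set (Fin n → ℝ), B = fun (i : Fin (n - 1)) =>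
    {a | t / 2 * √(Real.log n) ≤ |dr n (tra γ n a) 0 ⟨(i : ℕ) + 1, by omega⟩|} := ⟨_, rfl⟩
  have hsub : {a : Fin n → ℝ | ¬ ∀ (c : ℝ) (v : Fin (2 * n) → ℂ) (lam : ℝ), Eig n a c v lam →
      t * √(Real.log n) ≤ |lam| →
        ∃ S : Finset (Fin (2 * n)), (S.card : ℝ) ≤ (n : ℝ) ^ (1 - κ) ∧ κ ≤ ∑ j ∈ S, ‖v j‖ ^ 2} ⊆
      {a | tra γ n a ≠ a} ∪ ((⋃ k ∈ (Finset.univ : Finset (Fin (2 * n))), B1 k) ∪
        {a | (n : ℝ) ^ (1 - κ) / 4 < ((Finset.univ.filter fun i => a ∈ B2 i).card : ℝ)}) := by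
    intro a ha
    by_contra hnot
    simp only [Set.mem_union, not_or] at hnot
    obtain ⟨n1, n2, n3⟩ := hnot
    apply ha
    have ha0 : tra γ n a = a := not_not.1 n1
    intro c v lam hE hlam
    refine gweak_det ht hn hκ2 h4 a ?_ ?_ c v lam hE hlam
    · intro k
      by_contra hc
      apply n2
      simp only [Set.mem_iUnion, Finset.mem_univ, exists_true_left]
      refine ⟨k, ?_⟩
      rw [hB1]
      show 2 * th n ≤ |dr n (tra γ n a) 0 k|
      rw [ha0]
      exact (not_le.1 hc).le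
    · have h5 := not_lt.1 (show ¬ ((n : ℝ) ^ (1 - κ) / 4 <
        ((Finset.univ.filter fun i => a ∈ B2 i).card : ℝ)) from n3)
      refine le_trans (le_of_eq ?_) h5
      congr 1
      congr 1
      refine Finset.filter_congr fun i _ => ?_
      rw [hB2]
      show _ ↔ t / 2 * √(Real.log n) ≤ |dr n (tra γ n a) 0 ⟨(i : ℕ) + 1, by omega⟩|
      rw [ha0]
  refine (measure_mono hsub).trans ((measure_union_le _ _).trans (add_le_add le_rfl
    ((measure_union_le _ _).trans (add_le_add ?_ ?_))))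
  · have hk : ∀ k ∈ (Finset.univ : Finset (Fin (2 * n))), Measure.pi (μ n) (B1 k) ≤
        ENNReal.ofReal ((n : ℝ) ^ (-(3 / 2) : ℝ)) := by
      intro k _
      rw [hB1]
      exact hmd k
    refine (measure_biUnion_finset_le _ _).trans ((Finset.sum_le_sum hk).trans ?_)
    · rw [Finset.sum_const, Finset.card_univ, Fintype.card_fin, nsmul_eq_mul, ← ENNReal.ofReal_natCast,
        ← ENNReal.ofReal_mul (Nat.cast_nonneg _)]
      refine ENNReal.ofReal_le_ofReal (le_of_eq ?_)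
      push_cast
      rw [mul_assoc]
      congr 1
      nth_rewrite 1 [← Real.rpow_one (n : ℝ)]
      rw [← Real.rpow_add hn']
      norm_num
  · have hpi : ∀ i : Fin (n - 1), Measure.pi (μ n) (B2 i) ≤ ENNReal.ofReal (N * (n : ℝ) ^ (-(t ^ 2 / 16))) := by
      intro i
      have h5 := htail {(⟨(i : ℕ) + 1, by omega⟩ : Fin (2 * n))} (by simp) (by
        intro k hk
        rw [Finset.mem_singleton] at hk
        rw [hk]
        have := i.2
        exact ⟨Nat.succ_pos _, by simp only; omega⟩) ((t / 2 * √(Real.log n)) ^ 2) (by positivity) (by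
        refine pow_le_pow_left₀ (by positivity) ?_ 2
        have hth2 : th n = √2 * √(Real.log n) := by
          rw [th, Real.sqrt_mul (by norm_num)]
        rw [hth2]
        have h6 : 1 ≤ √2 := by
          rw [Real.one_le_sqrt]; norm_num
        have h7 : 0 ≤ √(Real.log n) := Real.sqrt_nonneg _
        have h8 : √(Real.log n) ≤ √2 * √(Real.log n) := le_mul_of_one_le_left h7 h6
        nlinarith)
      refine (measure_mono ?_).trans (h5.trans (ENNReal.ofReal_le_ofReal (le_of_eq ?_)))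
      · intro a ha
        rw [hB2] at ha
        have ha' : t / 2 * √(Real.log n) ≤ |dr n (tra γ n a) 0 ⟨(i : ℕ) + 1, by omega⟩| := ha
        rw [Set.mem_ofPred_eq, Finset.sum_singleton, ← sq_abs (dr n (tra γ n a) 0 _)]
        exact pow_le_pow_left₀ (by positivity) ha' 2
      · congr 1
        rw [Real.rpow_def_of_pos hn']
        congr 1
        rw [mul_pow, Real.sq_sqrt hl0]
        ring
    refine (gweak_count (Measure.pi (μ n)) B2 hpi (by positivity)).trans (ENNReal.ofReal_le_ofReal ?_)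
    rw [div_le_iff₀ (by positivity)]
    have hm : (((n - 1 : ℕ) : ℝ)) ≤ n := by exact_mod_cast Nat.sub_le n 1
    calc ((n - 1 : ℕ) : ℝ) * (N * (n : ℝ) ^ (-(t ^ 2 / 16))) ≤ n * (N * (n : ℝ) ^ (-(t ^ 2 / 16))) :=
          mul_le_mul_of_nonneg_right hm (by positivity)
      _ = N * ((n : ℝ) ^ (1 : ℝ) * (n : ℝ) ^ (-(t ^ 2 / 16))) := by rw [Real.rpow_one]; ring
      _ = N * (n : ℝ) ^ (1 + -(t ^ 2 / 16)) := by rw [← Real.rpow_add hn']
      _ ≤ N * (n : ℝ) ^ (-(t ^ 2 / 32) + (1 - κ)) := by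
          refine mul_le_mul_of_nonneg_left (Real.rpow_le_rpow_of_exponent_le hn1 ?_) (by linarith)
          linarith
      _ = N * ((n : ℝ) ^ (-(t ^ 2 / 32)) * (n : ℝ) ^ (1 - κ)) := by rw [Real.rpow_add hn']
      _ = (n : ℝ) ^ (-(t ^ 2 / 32)) * (4 * N) * ((n : ℝ) ^ (1 - κ) / 4) := by ring

end TZ
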