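import Pool.Agent.TZ.GDefs
import Pool.Agent.TZ.GUp
import Pool.Agent.TZ.GNet
import Pool.Agent.TZ.Num

/-!
Project TZ (MP_b753aa_pr), part three, module HFew: the number of windows of level `τ`.
Proof. As (few) in `upG` (module GUp), with the level `τ` instead of `1 - 4√η`: `tail_gen` with `q = qq η`, `ζ = η/8`, `Λ = 2`, `GUp_tau` with `s = (τ th n)² ≤ (2 th n)²`,
`GUp_few` with `M = ⌊n^{1-τ²+η}⌋`, `L = rr η n ^ 2`: the probability is at most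
`(n-1) (L+1)^q N exp(-(1-ζ)(τ th n)²/2) / (M+1) ≤ C n^{1 + η/10 - (1-ζ)τ²} / n^{1-τ²+η} = C n^{η/10 + ζτ² - η} ≤ C n^{-2η/5}` (`UpB_main`-like, `UpB_exp`, `UpB_Lq`; `ζτ² ≤ η/2`).
-/

noncomputable section

namespace TZ

open MeasureTheory ProbabilityTheory Filter Topology Matrix
open scoped Real

theorem hfew_main {η : ℝ} (hη : 0 < η) (hη1 : η ≤ 1 / 10000) (ζ c : ℝ) {n : ℕ} (hn : 1 ≤ n) {K : ℝ} (hK : 0 ≤ K) :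
    ((n - 1 : ℕ) : ℝ) * (((rr η n ^ 2 : ℕ) : ℝ) + 1) ^ (qq η) * K *
      Real.exp (-((1 - ζ) * (c * th n) ^ 2 / 2)) ≤
      5 ^ (qq η) * K * (n : ℝ) ^ (1 + η / 10 - (1 - ζ) * c ^ 2) := by
  have h1 : (1 : ℝ) ≤ n := by exact_mod_cast hn
  have h0 : (0 : ℝ) < n := by linarith
  have h2 : Real.exp (-((1 - ζ) * (c * th n) ^ 2 / 2)) = (n : ℝ) ^ (-((1 - ζ) * c ^ 2)) := by
    rw [← UpB_exp _ hn]
    congr 1
    ring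
  have h3 : ((n - 1 : ℕ) : ℝ) ≤ n := by exact_mod_cast Nat.sub_le n 1
  rw [h2]
  calc ((n - 1 : ℕ) : ℝ) * (((rr η n ^ 2 : ℕ) : ℝ) + 1) ^ (qq η) * K * (n : ℝ) ^ (-((1 - ζ) * c ^ 2))
      ≤ n * (5 ^ (qq η) * (n : ℝ) ^ (η / 10)) * K * (n : ℝ) ^ (-((1 - ζ) * c ^ 2)) := by
        gcongr
        exact UpB_Lq hη hη1 hn
    _ = 5 ^ (qq η) * K * ((n : ℝ) ^ (1 : ℝ) * (n : ℝ) ^ (η / 10) * (n : ℝ) ^ (-((1 - ζ) * c ^ 2))) := by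
        rw [Real.rpow_one]; ring
    _ = 5 ^ (qq η) * K * (n : ℝ) ^ (1 + η / 10 - (1 - ζ) * c ^ 2) := by
        rw [← Real.rpow_add h0, ← Real.rpow_add h0]
        congr 2

theorem few_gen {γ C : ℝ} {μ : (n : ℕ) → Fin n → Measure ℝ} [∀ n i, IsProbabilityMeasure (μ n i)]
    (hγ : 2 < γ) (hμ : ∀ n i, Mom γ C (μ n i)) {η : ℝ} (hη : 0 < η) (hη1 : η ≤ 1 / 10000) {τ : ℝ}
    (hτ : 0 ≤ τ) (hτ1 : τ ≤ 2) :
    Tendsto (fun n : ℕ => Measure.pi (μ n) {a | ¬ ∃ F : Finset ℕ, (F.card : ℝ) ≤ (n : ℝ) ^ (1 - τ ^ 2 + η) ∧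
      ∀ (y : ℕ) (C : Finset (Fin (n - 1))), (∀ k ∈ C, y ≤ (k : ℕ) ∧ (k : ℕ) < y + rr η n ^ 2) → C.Nonempty →
        C.card ≤ qq η → (τ * th n) ^ 2 ≤ ∑ k ∈ C, GUp_X γ n a k ^ 2 → y ∈ F}) atTop (𝓝 0) := by
  have hζ : 0 < η / 8 := by positivity
  have hζ1 : η / 8 < 1 := by linarith
  obtain ⟨N, hN1, hN⟩ := tail_gen (γ := γ) (C := C) hγ (qq η) hζ hζ1 (Λ := 2) (by norm_num)
  have hN' := hN μ hμ
  have hN0 : 0 ≤ N := by linarith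
  have h1 : 0 < 2 * η / 5 := by positivity
  refine tendsto_of_tendsto_of_tendsto_of_le_of_le' tendsto_const_nhds
    (UpB_lim (C := 5 ^ (qq η) * N) h1) (Eventually.of_forall fun n => bot_le) ?_
  filter_upwards [eventually_ge_atTop 2, hN'] with n hn htail
  have hn1 : 1 ≤ n := by omega
  have hnr : (1 : ℝ) ≤ n := by exact_mod_cast hn1
  have hn0 : (0 : ℝ) < n := by linarith
  have hth : 0 < th n := by
    unfold th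
    apply Real.sqrt_pos.mpr
    have : 0 < Real.log n := Real.log_pos (by exact_mod_cast hn)
    positivity
  have b2 := GUp_few (L := rr η n ^ 2) (M := ⌊(n : ℝ) ^ (1 - τ ^ 2 + η)⌋₊)
    (GUp_tau (s := (τ * th n) ^ 2) htail (by positivity)
    (pow_le_pow_left₀ (mul_nonneg hτ hth.le) (mul_le_mul_of_nonneg_right hτ1 hth.le) 2))
  have hp : 0 < (n : ℝ) ^ (1 - τ ^ 2 + η) := Real.rpow_pos_of_pos hn0 _
  have c2 : ENNReal.ofReal (((n - 1 : ℕ) : ℝ) * (((rr η n ^ 2 : ℕ) : ℝ) + 1) ^ (qq η) *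
      (N * Real.exp (-((1 - η / 8) * (τ * th n) ^ 2 / 2))) / ((⌊(n : ℝ) ^ (1 - τ ^ 2 + η)⌋₊ : ℕ) + 1)) ≤
      ENNReal.ofReal (5 ^ (qq η) * N * (n : ℝ) ^ (-(2 * η / 5))) := by
    apply ENNReal.ofReal_le_ofReal
    have h4 := hfew_main hη hη1 (η / 8) τ hn1 hN0
    have h5 : (n : ℝ) ^ (1 - τ ^ 2 + η) ≤ ((⌊(n : ℝ) ^ (1 - τ ^ 2 + η)⌋₊ : ℕ) : ℝ) + 1 := (Nat.lt_floor_add_one _).le
    rw [div_le_iff₀ (lt_of_lt_of_le hp h5), ← mul_assoc]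
    have hτ2 : τ ^ 2 ≤ 4 := by nlinarith
    calc ((n - 1 : ℕ) : ℝ) * (((rr η n ^ 2 : ℕ) : ℝ) + 1) ^ (qq η) * N *
        Real.exp (-((1 - η / 8) * (τ * th n) ^ 2 / 2))
        ≤ 5 ^ (qq η) * N * (n : ℝ) ^ (1 + η / 10 - (1 - η / 8) * τ ^ 2) := h4
      _ ≤ 5 ^ (qq η) * N * (n : ℝ) ^ (-(2 * η / 5) + (1 - τ ^ 2 + η)) := by
          refine mul_le_mul_of_nonneg_left (Real.rpow_le_rpow_of_exponent_le hnr ?_) (by positivity)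
          nlinarith
      _ = 5 ^ (qq η) * N * (n : ℝ) ^ (-(2 * η / 5)) * (n : ℝ) ^ (1 - τ ^ 2 + η) := by
          rw [mul_assoc (5 ^ (qq η) * N), ← Real.rpow_add hn0]
      _ ≤ 5 ^ (qq η) * N * (n : ℝ) ^ (-(2 * η / 5)) * (((⌊(n : ℝ) ^ (1 - τ ^ 2 + η)⌋₊ : ℕ) : ℝ) + 1) := by gcongr
  have hsub : {a : Fin n → ℝ | ¬ ∃ F : Finset ℕ, (F.card : ℝ) ≤ (n : ℝ) ^ (1 - τ ^ 2 + η) ∧
      ∀ (y : ℕ) (C : Finset (Fin (n - 1))), (∀ k ∈ C, y ≤ (k : ℕ) ∧ (k : ℕ) < y + rr η n ^ 2) → C.Nonempty →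
        C.card ≤ qq η → (τ * th n) ^ 2 ≤ ∑ k ∈ C, GUp_X γ n a k ^ 2 → y ∈ F} ⊆
      GUp_X γ n ⁻¹' {x : Fin (n - 1) → ℝ | ¬ ∃ F : Finset ℕ, F.card ≤ ⌊(n : ℝ) ^ (1 - τ ^ 2 + η)⌋₊ ∧
        ∀ (y : ℕ) (C : Finset (Fin (n - 1))),
        (∀ k ∈ C, y ≤ (k : ℕ) ∧ (k : ℕ) < y + rr η n ^ 2) → C.Nonempty → C.card ≤ qq η →
          (τ * th n) ^ 2 ≤ ∑ k ∈ C, x k ^ 2 → y ∈ F} := by
    intro a ha hx
    apply ha
    obtain ⟨F, hF, hF2⟩ := hx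
    exact ⟨F, (Nat.cast_le.mpr hF).trans (Nat.floor_le hp.le), hF2⟩
  exact (measure_mono hsub).trans ((Measure.le_map_apply (GUp_meas γ n).aemeasurable _).trans (b2.trans c2))

end TZ
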