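import Pool.Agent.TZ.HOne
import Pool.Agent.TZ.HFew
import Pool.Agent.TZ.GConc

/-!
Project TZ (MP_b753aa_pr), part three, module HAsm: assembly.
-/

noncomputable section

namespace TZ

open MeasureTheory ProbabilityTheory Filter Topology Matrix
open scoped Real

theorem Ev_prob {γ C : ℝ} {μ : (n : ℕ) → Fin n → Measure ℝ} [∀ n i, IsProbabilityMeasure (μ n i)]
    (hγ : 2 < γ) (hμ : ∀ n i, Mom γ C (μ n i)) {η : ℝ} (hη : 0 < η) (hη1 : η ≤ 1 / 10000) :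
    Tendsto (fun n : ℕ => Measure.pi (μ n) {a | ¬ Ev η n a}) atTop (𝓝 0) := by
  have hfew : Tendsto (fun n : ℕ => ∑ i ∈ Finset.range (⌊2 / η⌋₊ + 1),
      Measure.pi (μ n) {a | ¬ ((i : ℝ) * η ≤ 2 → ∃ F : Finset ℕ, (F.card : ℝ) ≤ (n : ℝ) ^ (1 - (i * η) ^ 2 + η) ∧
        ∀ (y : ℕ) (C : Finset (Fin (n - 1))), (∀ k ∈ C, y ≤ (k : ℕ) ∧ (k : ℕ) < y + rr η n ^ 2) → C.Nonempty →
        C.card ≤ qq η → (i * η * th n) ^ 2 ≤ ∑ k ∈ C, GUp_X γ n a k ^ 2 → y ∈ F)}) atTop (𝓝 0) := by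
    have h1 : (0 : ENNReal) = ∑ i ∈ Finset.range (⌊2 / η⌋₊ + 1), 0 := by simp
    rw [h1]
    refine tendsto_finsetSum _ fun i _ => ?_
    by_cases hi : (i : ℝ) * η ≤ 2
    · refine tendsto_of_tendsto_of_tendsto_of_le_of_le tendsto_const_nhds
        (few_gen hγ hμ hη hη1 (τ := (i : ℝ) * η) (by positivity) hi) (fun n => zero_le) fun n => ?_
      refine measure_mono fun a ha => ?_
      intro hcon
      exact ha fun _ => hcon
    · refine tendsto_const_nhds.congr fun n => ?_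
      have : {a : Fin n → ℝ | ¬ ((i : ℝ) * η ≤ 2 → ∃ F : Finset ℕ, (F.card : ℝ) ≤ (n : ℝ) ^ (1 - (i * η) ^ 2 + η) ∧
          ∀ (y : ℕ) (C : Finset (Fin (n - 1))), (∀ k ∈ C, y ≤ (k : ℕ) ∧ (k : ℕ) < y + rr η n ^ 2) → C.Nonempty →
          C.card ≤ qq η → (i * η * th n) ^ 2 ≤ ∑ k ∈ C, GUp_X γ n a k ^ 2 → y ∈ F)} = ∅ := by
        ext a
        simp only [Set.mem_ofPred_eq, Set.mem_empty_iff_false, iff_false, not_not]
        exact fun h => absurd h hi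
      rw [this, measure_empty]
  have h := ((((tra_prob hγ hμ).add (upG hγ hμ hη hη1)).add (upG2 hγ hμ hη)).add
    (conc hγ hμ hη (by linarith))).add hfew
  simp only [add_zero] at h
  refine tendsto_of_tendsto_of_tendsto_of_le_of_le tendsto_const_nhds h (fun n => zero_le) fun n => ?_
  refine (measure_mono ?_).trans ((measure_union_le _ _).trans (add_le_add ((measure_union_le _ _).trans
    (add_le_add ((measure_union_le _ _).trans (add_le_add (measure_union_le _ _) le_rfl)) le_rfl))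
      (measure_biUnion_finset_le _ _)))
  intro a ha
  by_contra hcon
  simp only [Set.mem_union, not_or, Set.mem_ofPred_eq, not_not, Set.mem_iUnion, not_exists] at hcon
  obtain ⟨⟨⟨⟨h1, h2⟩, h3⟩, h4⟩, h5⟩ := hcon
  refine ha ⟨?_, ?_, ?_, ?_⟩
  · rwa [h1] at h2
  · rw [h1] at h3
    exact fun ⟨k, hk⟩ => h3 k hk
  · rw [h1] at h4
    exact not_forall_not.1 h4
  · intro i hi
    have h6 := h5 i (Finset.mem_range.2 (Nat.lt_succ_of_le (Nat.le_floor (by rwa [le_div_iff₀ hη])))) hi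
    unfold GUp_X at h6
    rwa [h1] at h6

theorem th_eq (n : ℕ) : th n = √2 * √(Real.log n) := by
  unfold th
  exact Real.sqrt_mul (by norm_num) _

theorem supp : ∃ κ : ℝ, 0 < κ ∧ ∀ ε : ℝ, 0 < ε → ∀ (γ C : ℝ), 2 < γ →
    ∀ (μ : (n : ℕ) → Fin n → Measure ℝ) [∀ n i, IsProbabilityMeasure (μ n i)], (∀ n i, Mom γ C (μ n i)) →
    Tendsto (fun n : ℕ => Measure.pi (μ n) {a | ¬ ∀ c : ℝ,
      (∀ (v : Fin (2 * n) → ℂ) (lam : ℝ), Eig n a c v lam → |lam| ≤ (κ + ε) * √(Real.log n)) ∧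
      (∃ (v : Fin (2 * n) → ℂ) (lam : ℝ), Eig n a c v lam ∧ (κ - ε) * √(Real.log n) ≤ lam) ∧
      (∃ (v : Fin (2 * n) → ℂ) (lam : ℝ), Eig n a c v lam ∧ lam ≤ -((κ - ε) * √(Real.log n))) ∧
      ∀ (v : Fin (2 * n) → ℂ) (lam : ℝ), Eig n a c v lam →
        ∃ S : Finset (Fin (2 * n)), (S.card : ℝ) ≤ (n : ℝ) ^ (1 - (lam / (κ * √(Real.log n))) ^ 2 + ε) ∧
          1 - ε ≤ ∑ j ∈ S, ‖v j‖ ^ 2}) atTop (𝓝 0) := by
  have hK := K0_half
  refine ⟨√2 * K0, by positivity, fun ε hε γ C hγ μ _ hμ => ?_⟩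
  obtain ⟨ε0, hε0, hε01, hε0ε⟩ : ∃ ε0 : ℝ, 0 < ε0 ∧ ε0 ≤ 1 ∧ ε0 ≤ ε :=
    ⟨min ε 1, lt_min hε one_pos, min_le_right _ _, min_le_left _ _⟩
  obtain ⟨g, hg⟩ : ∃ g : ℝ, g = ε0 / 20 := ⟨_, rfl⟩
  have hg0 : 0 < g := by rw [hg]; positivity
  obtain ⟨b, hb⟩ : ∃ b : ℝ, b = g ^ 2 * √ε0 := ⟨_, rfl⟩
  have hb0 : 0 < b := by rw [hb]; positivity
  obtain ⟨J, hJ1, hJ⟩ : ∃ J : ℕ, 1 ≤ J ∧ 6 / √J ≤ b / 2 := by
    obtain ⟨J, hJ⟩ := exists_nat_ge ((12 / b) ^ 2 + 1)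
    have hJ1 : (1 : ℝ) ≤ J := by nlinarith [sq_nonneg (12 / b)]
    refine ⟨J, by exact_mod_cast hJ1, ?_⟩
    have h1 : 12 / b ≤ √J := Real.le_sqrt_of_sq_le (by linarith)
    have h2 : 0 < √(J : ℝ) := Real.sqrt_pos.2 (by linarith)
    rw [div_le_iff₀ h2]
    rw [div_le_iff₀ hb0] at h1
    linarith
  obtain ⟨η, hη, hη1, hη2, hη3⟩ : ∃ η : ℝ, 0 < η ∧ η ≤ 1 / 10000 ∧ 200 * η ≤ ε0 ∧ 4 * η ≤ b / 2 := by
    refine ⟨min (1 / 10000) (min (ε0 / 200) (b / 8)), by positivity, min_le_left _ _, ?_, ?_⟩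
    · have := (min_le_right (1 / 10000) (min (ε0 / 200) (b / 8))).trans (min_le_left _ _)
      linarith
    · have := (min_le_right (1 / 10000) (min (ε0 / 200) (b / 8))).trans (min_le_right _ _)
      linarith
  have h3 : ((6 / √J + 4 * η) / g ^ 2) ^ 2 ≤ ε0 := by
    have h4 : (6 / √J + 4 * η) / g ^ 2 ≤ √ε0 := by
      rw [div_le_iff₀ (by positivity)]
      have : √ε0 * g ^ 2 = b := by rw [hb]; ring
      linarith
    calc ((6 / √J + 4 * η) / g ^ 2) ^ 2 ≤ √ε0 ^ 2 := pow_le_pow_left₀ (by positivity) h4 2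
      _ = ε0 := Real.sq_sqrt hε0.le
  have H := hone (ε := ε0) (g := g) (J := J) hη hη1 hg0 (by linarith) hJ1 hε0 hε01 (by linarith) (by linarith) h3
  haveI : ∀ n i, IsProbabilityMeasure ((μ n i).map (fun x => -x)) := fun n i =>
    Measure.isProbabilityMeasure_map measurable_neg.aemeasurable
  have H1 := Ev_prob hγ hμ hη hη1
  have H2 := Ev_prob (μ := fun n i => (μ n i).map (fun x => -x)) hγ (fun n i => (hμ n i).neg) hη hη1
  have H3 := H1.add H2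
  rw [add_zero] at H3
  refine tendsto_of_tendsto_of_tendsto_of_le_of_le' tendsto_const_nhds H3
    (Eventually.of_forall fun n => zero_le) ?_
  filter_upwards [H, eventually_ge_atTop 2] with n hn hn2
  set A : Set (Fin n → ℝ) := {a | ¬ Ev η n a} with hA
  refine (measure_mono (t := A ∪ (fun a => -a) ⁻¹' A) ?_).trans ((measure_union_le _ _).trans
    (add_le_add le_rfl ?_))
  · intro a ha
    by_contra hcon
    rw [Set.mem_union, not_or] at hcon
    obtain ⟨h1, h2⟩ := hcon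
    have h1' : Ev η n a := by
      by_contra h
      exact h1 h
    have h2' : Ev η n (-a) := by
      by_contra h
      exact h2 h
    refine ha fun c => ?_
    obtain ⟨u1, u2, u3⟩ := hn a h1' c
    obtain ⟨w1, w2, w3⟩ := hn (-a) h2' (-c)
    have hs2 : √2 ≤ (3 / 2 : ℝ) := by
      rw [show (3 / 2 : ℝ) = √((3 / 2) ^ 2) from (Real.sqrt_sq (by norm_num)).symm]
      exact Real.sqrt_le_sqrt (by norm_num)
    have hl0 : 0 ≤ √(Real.log n) := Real.sqrt_nonneg _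
    have hup : (K0 + 9 * η) * th n ≤ (√2 * K0 + ε) * √(Real.log n) := by
      rw [th_eq]
      have : (K0 + 9 * η) * √2 ≤ √2 * K0 + ε := by nlinarith
      calc (K0 + 9 * η) * (√2 * √(Real.log n)) = ((K0 + 9 * η) * √2) * √(Real.log n) := by ring
        _ ≤ _ := mul_le_mul_of_nonneg_right this hl0
    have hlo : (√2 * K0 - ε) * √(Real.log n) ≤ (K0 - 4 * η) * th n := by
      rw [th_eq]
      have : √2 * K0 - ε ≤ (K0 - 4 * η) * √2 := by nlinarith
      calc (√2 * K0 - ε) * √(Real.log n) ≤ ((K0 - 4 * η) * √2) * √(Real.log n) :=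
            mul_le_mul_of_nonneg_right this hl0
        _ = _ := by ring
    have hn1 : (1 : ℝ) ≤ n := by exact_mod_cast (show 1 ≤ n by omega)
    refine ⟨?_, ?_, ?_, ?_⟩
    · intro v lam hv
      rw [abs_le]
      have e1 := u1 v lam hv
      have e2 := w1 v (-lam) (Eig_neg hv)
      exact ⟨by linarith, by linarith⟩
    · obtain ⟨v, lam, hv, hl⟩ := u2
      exact ⟨v, lam, hv, hlo.trans hl⟩
    · obtain ⟨v, lam, hv, hl⟩ := w2
      have hv' := Eig_neg hv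
      rw [neg_neg, neg_neg] at hv'
      exact ⟨v, -lam, hv', by linarith⟩
    · intro v lam hv
      have hfin : ∀ z : ℝ, 0 ≤ z → ∀ S : Finset (Fin (2 * n)),
          (S.card : ℝ) ≤ (n : ℝ) ^ (1 - (z / (K0 * th n)) ^ 2 + ε0) → 1 - ε0 ≤ ∑ j ∈ S, ‖v j‖ ^ 2 → z ^ 2 = lam ^ 2 →
          ∃ S : Finset (Fin (2 * n)), (S.card : ℝ) ≤
            (n : ℝ) ^ (1 - (lam / (√2 * K0 * √(Real.log n))) ^ 2 + ε) ∧ 1 - ε ≤ ∑ j ∈ S, ‖v j‖ ^ 2 := by
        intro z hz S hS hSm hzl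
        refine ⟨S, hS.trans (Real.rpow_le_rpow_of_exponent_le hn1 ?_), by linarith⟩
        have e1 : √2 * K0 * √(Real.log n) = K0 * th n := by
          rw [th_eq]
          ring
        rw [e1, div_pow, div_pow, hzl]
        linarith
      rcases le_total 0 lam with h | h
      · obtain ⟨S, hS, hSm⟩ := u3 v lam hv h
        exact hfin lam h S hS hSm rfl
      · obtain ⟨S, hS, hSm⟩ := w3 v (-lam) (Eig_neg hv) (by linarith)
        exact hfin (-lam) (by linarith) S hS hSm (by ring)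
  · have h1 : Measure.pi (μ n) ((fun a => -a) ⁻¹' A) ≤ (Measure.pi (μ n)).map (fun a => -a) A :=
      Measure.le_map_apply measurable_neg.aemeasurable A
    rwa [pi_neg] at h1

end TZ
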