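import Pool.Agent.TZ.Defs
import Pool.Agent.TZ.Sch

/-!
Project TZ (MP_b753aa_pr), part three, module HCd: neighbourhoods for the circular distance.
Proof. `cd k l = min |k-l| (2n - |k-l|)`: unfold `cd` and use `omega` (cases). Count: `Sch_two` says that at most two sites have a given
circular distance to `l`; sum over `t < m` (or copy `detB_count` of DetB).
-/

noncomputable section

namespace TZ

open MeasureTheory ProbabilityTheory Filter Topology Matrix
open scoped Real

/-- sites at circular distance less than `m` from `W` -/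
def nb {n : ℕ} (W : Finset (Fin (2 * n))) (m : ℕ) : Finset (Fin (2 * n)) :=
  Finset.univ.filter fun k => ∃ l ∈ W, cd k l < m

theorem cd_symm {n : ℕ} (k l : Fin (2 * n)) : cd k l = cd l k := by
  unfold cd
  have h : ((k : ℤ) - (l : ℤ)).natAbs = ((l : ℤ) - (k : ℤ)).natAbs := by omega
  rw [h]

theorem cd_tri {n : ℕ} (k l m : Fin (2 * n)) : cd k m ≤ cd k l + cd l m := by
  have h1 := k.2
  have h2 := l.2
  have h3 := m.2
  unfold cd
  omega

private theorem hcd_count {n : ℕ} (l : Fin (2 * n)) (R : ℕ) :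
    (Finset.univ.filter fun k : Fin (2 * n) => cd k l < R).card ≤ 2 * R := by
  have h : (Finset.univ.filter fun k : Fin (2 * n) => cd k l < R).card ≤ (Finset.range (2 * R)).card := by
    refine Finset.card_le_card_of_injOn (fun k : Fin (2 * n) =>
      if (l : ℕ) ≤ k then (if (k : ℕ) - l < R then (k : ℕ) - l else R + (2 * n - ((k : ℕ) - l)))
      else (if (l : ℕ) - k < R then R + ((l : ℕ) - k) else 2 * n - ((l : ℕ) - k))) ?_ ?_
    · intro k hk
      have hk' := (Finset.mem_filter.1 (Finset.mem_coe.1 hk)).2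
      have h1 := k.2
      have h2 := l.2
      unfold cd at hk'
      rw [Finset.mem_coe, Finset.mem_range]
      show (if (l : ℕ) ≤ k then (if (k : ℕ) - l < R then (k : ℕ) - l else R + (2 * n - ((k : ℕ) - l)))
        else (if (l : ℕ) - k < R then R + ((l : ℕ) - k) else 2 * n - ((l : ℕ) - k))) < 2 * R
      split_ifs <;> omega
    · intro k hk k' hk' he
      have hk1 := (Finset.mem_filter.1 (Finset.mem_coe.1 hk)).2
      have hk2 := (Finset.mem_filter.1 (Finset.mem_coe.1 hk')).2
      have h1 := k.2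
      have h2 := l.2
      have h3 := k'.2
      unfold cd at hk1 hk2
      apply Fin.ext
      simp only at he
      split_ifs at he <;> omega
  rwa [Finset.card_range] at h

theorem nb_card {n : ℕ} (W : Finset (Fin (2 * n))) (m : ℕ) : (nb W m).card ≤ 2 * m * W.card := by
  classical
  have h1 : nb W m = W.biUnion fun l => Finset.univ.filter fun k : Fin (2 * n) => cd k l < m := by
    unfold nb
    ext k
    simp
  rw [h1, mul_comm (2 * m)]
  exact Finset.card_biUnion_le_card_mul _ _ _ fun l _ => hcd_count l m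

theorem nb_mono {n : ℕ} (W : Finset (Fin (2 * n))) {m m' : ℕ} (h : m ≤ m') : nb W m ⊆ nb W m' := by
  intro k hk
  obtain ⟨l, hl, hlt⟩ := (Finset.mem_filter.1 hk).2
  exact Finset.mem_filter.2 ⟨Finset.mem_univ _, l, hl, by omega⟩

theorem sub_nb {n : ℕ} (W : Finset (Fin (2 * n))) {m : ℕ} (hm : 1 ≤ m) : W ⊆ nb W m := by
  intro k hk
  refine Finset.mem_filter.2 ⟨Finset.mem_univ _, k, hk, ?_⟩
  have h1 := k.2
  unfold cd
  omega

theorem nb_far {n : ℕ} {W : Finset (Fin (2 * n))} {a b : ℕ} {k l : Fin (2 * n)} (hk : k ∉ nb W (a + b))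
    (hl : l ∈ nb W a) : b ≤ cd k l := by
  obtain ⟨w, hw, hlw⟩ := (Finset.mem_filter.1 hl).2
  by_contra hcon
  apply hk
  refine Finset.mem_filter.2 ⟨Finset.mem_univ _, w, hw, ?_⟩
  have h1 := cd_tri k l w
  omega

end TZ
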