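import Pool.Agent.TZ.Defs
import Pool.Agent.TZ.HCd

/-!
Project TZ (MP_b753aa_pr), part three, module HDet: the deterministic statement.
Proof. `N_j = nb W ((j+1) r)`, `X = {k : ηθ ≤ |d k|}`. The sets `N_{j+1} \ N_j`, `j < J`, are disjoint, so for some `j < J` the mass of `v` there is `≤ 1/J`.
`C1 = X ∩ N_j`, `C2 = X \ N_{j+1}`, `CE` the rest; `u = d v`, `p1 = P (1_{C1} u)`, `pE = P (1_{CE} u)`, `p2 = P (1_{C2} u)`.
From `he`, `hv`: `lam v = P u = p1 + pE + p2`. Note `lam ≥ gθ > 0` and `‖P w‖ ≤ ‖w‖`.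
`‖pE‖ ≤ 2θ/√J + ηθ`; `hfar` with `Z = C1`, `F` = complement of `N_{j+1}` (`nb_far`): `∑_{k ∉ N_{j+1}} ‖p1 k‖² ≤ β (2θ)²`.
`lam ‖p2‖² = lam ⟨p2, d2 v⟩ = ⟨p2, d2 (p1 + pE + p2)⟩` with `d2 = d 1_{C2}`, and `⟨p2, d2 p2⟩ ≤ (Kτ+8η)θ ‖p2‖²` by `hub` with `d' = d2`:
a window `y` with `(τθ)² < ∑_{Hw d2 y} d2² ≤ ∑_{Hw d y} d²` would have `Hw d2 y ⊆ Hw d y ⊆ W ⊆ N_{j+1}`, where `d2 = 0 < ηθ`, so `Hw d2 y = ∅`.
So `gθ ‖p2‖ ≤ 2θ (2θ√β + 2θ/√J + ηθ)`. Off `nb W ((J+1) r) ⊇ N_{j+1}`: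
`gθ ‖v‖ ≤ lam ‖v‖ ≤ (1 + 2/g) (2θ√β + 2θ/√J + ηθ) ≤ (3/g) (2θ√β + 2θ/√J + ηθ)` (`g ≤ 1`; triangle inequality in `ℓ²`).
-/

noncomputable section

namespace TZ

open MeasureTheory ProbabilityTheory Filter Topology Matrix
open scoped Real

/-- the `ℓ²` norm over a finite set -/
private def hdet_nrm {α : Type*} (S : Finset α) (u : α → ℂ) : ℝ := √(∑ k ∈ S, ‖u k‖ ^ 2)

private theorem hdet_nrm_nonneg {α : Type*} (S : Finset α) (u : α → ℂ) : 0 ≤ hdet_nrm S u :=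
  Real.sqrt_nonneg _

private theorem hdet_nrm_sq {α : Type*} (S : Finset α) (u : α → ℂ) :
    hdet_nrm S u ^ 2 = ∑ k ∈ S, ‖u k‖ ^ 2 :=
  Real.sq_sqrt (Finset.sum_nonneg fun _ _ => by positivity)

private theorem hdet_inner_le {α : Type*} (S : Finset α) (u w : α → ℂ) :
    ∑ k ∈ S, ‖u k‖ * ‖w k‖ ≤ hdet_nrm S u * hdet_nrm S w :=
  Real.sum_mul_le_sqrt_mul_sqrt S (fun k => ‖u k‖) (fun k => ‖w k‖)

private theorem hdet_add {α : Type*} (S : Finset α) (u w : α → ℂ) :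
    hdet_nrm S (fun k => u k + w k) ≤ hdet_nrm S u + hdet_nrm S w := by
  have h1 := hdet_inner_le S u w
  have h2 : ∑ k ∈ S, ‖u k + w k‖ ^ 2 ≤ ∑ k ∈ S, (‖u k‖ ^ 2 + ‖w k‖ ^ 2 + 2 * (‖u k‖ * ‖w k‖)) := by
    refine Finset.sum_le_sum fun k _ => ?_
    have h3 := pow_le_pow_left₀ (norm_nonneg _) (norm_add_le (u k) (w k)) 2
    calc ‖u k + w k‖ ^ 2 ≤ (‖u k‖ + ‖w k‖) ^ 2 := h3
      _ = _ := by ring
  rw [Finset.sum_add_distrib, Finset.sum_add_distrib, ← Finset.mul_sum] at h2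
  have h3 := hdet_nrm_sq S u
  have h4 := hdet_nrm_sq S w
  have h5 := hdet_nrm_nonneg S u
  have h6 := hdet_nrm_nonneg S w
  apply Real.sqrt_le_iff.2
  refine ⟨by linarith, ?_⟩
  nlinarith

private theorem hdet_mono {α : Type*} {S T : Finset α} (h : S ⊆ T) (u : α → ℂ) :
    hdet_nrm S u ≤ hdet_nrm T u :=
  Real.sqrt_le_sqrt (Finset.sum_le_sum_of_subset_of_nonneg h fun _ _ _ => by positivity)

variable {n : ℕ} {P : Matrix (Fin (2 * n)) (Fin (2 * n)) ℂ}

/-- restriction to a finite set -/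
private def hdet_ind (C : Finset (Fin (2 * n))) (u : Fin (2 * n) → ℂ) : Fin (2 * n) → ℂ :=
  fun k => if k ∈ C then u k else 0

private theorem hdet_mul (C : Finset (Fin (2 * n))) (u : Fin (2 * n) → ℂ) (k : Fin (2 * n)) :
    (P *ᵥ hdet_ind C u) k = ∑ l ∈ C, P k l * u l := by
  unfold Matrix.mulVec dotProduct hdet_ind
  rw [← Finset.sum_subset (Finset.subset_univ C)]
  · exact Finset.sum_congr rfl fun l hl => by rw [if_pos hl]
  · intro l _ hl
    rw [if_neg hl, mul_zero]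

private theorem hdet_ind_nrm (C : Finset (Fin (2 * n))) (u : Fin (2 * n) → ℂ) :
    hdet_nrm Finset.univ (hdet_ind C u) = hdet_nrm C u := by
  unfold hdet_nrm hdet_ind
  congr 1
  rw [← Finset.sum_subset (Finset.subset_univ C)]
  · exact Finset.sum_congr rfl fun l hl => by rw [if_pos hl]
  · intro l _ hl
    rw [if_neg hl, norm_zero]
    norm_num

private theorem hdet_sq (hP : P.IsHermitian) (hP2 : P * P = P) (U : Fin (2 * n) → ℂ) :
    ((∑ k, ‖(P *ᵥ U) k‖ ^ 2 : ℝ) : ℂ) = ∑ k, starRingEnd ℂ ((P *ᵥ U) k) * U k := by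
  have hz : star (P *ᵥ U) ⬝ᵥ (P *ᵥ U) = star (P *ᵥ U) ⬝ᵥ U := by
    rw [Matrix.dotProduct_mulVec]
    congr 1
    rw [Matrix.star_mulVec, Matrix.vecMul_vecMul, hP.eq, hP2]
  have h1 : star (P *ᵥ U) ⬝ᵥ (P *ᵥ U) = ((∑ k, ‖(P *ᵥ U) k‖ ^ 2 : ℝ) : ℂ) := by
    unfold dotProduct
    rw [Complex.ofReal_sum]
    refine Finset.sum_congr rfl fun k _ => ?_
    rw [Pi.star_apply, Complex.star_def, Complex.conj_mul']
    push_cast
    rfl
  rw [← h1, hz]
  rfl

private theorem hdet_contr (hP : P.IsHermitian) (hP2 : P * P = P) (U : Fin (2 * n) → ℂ) :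
    hdet_nrm Finset.univ (P *ᵥ U) ≤ hdet_nrm Finset.univ U := by
  have h1 := hdet_sq hP hP2 U
  have h2 : ∑ k, ‖(P *ᵥ U) k‖ ^ 2 ≤ hdet_nrm Finset.univ (P *ᵥ U) * hdet_nrm Finset.univ U := by
    refine le_trans ?_ (hdet_inner_le _ _ _)
    have h3 : ∑ k, ‖(P *ᵥ U) k‖ ^ 2 = ‖((∑ k, ‖(P *ᵥ U) k‖ ^ 2 : ℝ) : ℂ)‖ := by
      rw [Complex.norm_real, Real.norm_of_nonneg (Finset.sum_nonneg fun _ _ => by positivity)]
    rw [h3, h1]
    refine norm_sum_le_of_le _ fun k _ => ?_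
    rw [norm_mul, RCLike.norm_conj]
  rw [← hdet_nrm_sq] at h2
  rcases (hdet_nrm_nonneg Finset.univ (P *ᵥ U)).eq_or_lt with h | h
  · rw [← h]
    exact hdet_nrm_nonneg _ _
  · rw [pow_two] at h2
    exact le_of_mul_le_mul_left h2 h

theorem hdet {n r J : ℕ} {P : Matrix (Fin (2 * n)) (Fin (2 * n)) ℂ} {d : Fin (2 * n) → ℝ}
    {K η θ τ g β lam : ℝ} {W : Finset (Fin (2 * n))} (hP : P.IsHermitian) (hP2 : P * P = P)
    (hub : ∀ d' : Fin (2 * n) → ℝ, (∀ k, d' k = d k ∨ d' k = 0) →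
      (∀ y : ℕ, ∑ k ∈ Hw d' (η * θ) y (r ^ 2), d' k ^ 2 ≤ (τ * θ) ^ 2) →
      ∀ w : Fin (2 * n) → ℂ, P *ᵥ w = w → ∑ k, d' k * ‖w k‖ ^ 2 ≤ (K * τ + 8 * η) * θ * ∑ k, ‖w k‖ ^ 2)
    (hfar : ∀ F Z : Finset (Fin (2 * n)), (∀ k ∈ Z, η * θ ≤ |d k|) → (∀ k ∈ F, ∀ l ∈ Z, r ≤ cd k l) →
      ∀ s : Fin (2 * n) → ℂ, ∑ k ∈ F, ‖∑ l ∈ Z, P k l * s l‖ ^ 2 ≤ β * ∑ l ∈ Z, ‖s l‖ ^ 2)
    (hbd : ∀ k, |d k| ≤ 2 * θ)
    (hW : ∀ y : ℕ, (τ * θ) ^ 2 < ∑ k ∈ Hw d (η * θ) y (r ^ 2), d k ^ 2 → Hw d (η * θ) y (r ^ 2) ⊆ W)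
    (hη : 0 < η) (hθ : 0 < θ) (hr : 1 ≤ r) (hβ : 0 ≤ β) (hg : 0 < g) (hg1 : g ≤ 1) (hτ : 0 ≤ τ) (hK : 0 ≤ K)
    (hJ : 1 ≤ J) (hlam : (K * τ + 8 * η + g) * θ ≤ lam) {v : Fin (2 * n) → ℂ} (hv : P *ᵥ v = v)
    (hv1 : ∑ k, ‖v k‖ ^ 2 = 1)
    (he : (P * Matrix.diagonal (fun k => (d k : ℂ)) * P) *ᵥ v = (lam : ℂ) • v) :
    1 - ((6 / √J + 3 * η + 6 * √β) / g ^ 2) ^ 2 ≤ ∑ k ∈ nb W ((J + 1) * r), ‖v k‖ ^ 2 := by
  classical
  set u : Fin (2 * n) → ℂ := fun k => (d k : ℂ) * v k with hu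
  have hun : ∀ k, ‖u k‖ = |d k| * ‖v k‖ := by
    intro k
    rw [hu]
    simp only
    rw [norm_mul, Complex.norm_real, Real.norm_eq_abs]
  have hlamg : (K * τ + 8 * η) * θ + g * θ ≤ lam := by
    calc _ = (K * τ + 8 * η + g) * θ := by ring
      _ ≤ lam := hlam
  have hKη : 0 ≤ (K * τ + 8 * η) * θ := by positivity
  have hgθ : 0 < g * θ := mul_pos hg hθ
  have hlam0 : 0 < lam := by linarith
  -- `P u = lam v`
  have hPu : ∀ k, (P *ᵥ u) k = (lam : ℂ) * v k := by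
    intro k
    have h1 : (P * Matrix.diagonal (fun k => (d k : ℂ)) * P) *ᵥ v = P *ᵥ u := by
      rw [← Matrix.mulVec_mulVec, hv, ← Matrix.mulVec_mulVec]
      congr 1
      ext k
      rw [Matrix.mulVec_diagonal]
    rw [← h1, he]
    rfl
  -- the annulus
  set N : ℕ → Finset (Fin (2 * n)) := fun i => nb W ((i + 1) * r) with hN
  have hNmono : ∀ i, N i ⊆ N (i + 1) := fun i => nb_mono W (Nat.mul_le_mul_right r (by omega))
  obtain ⟨j, hj, hjm⟩ : ∃ j < J, ∑ k ∈ N (j + 1) \ N j, ‖v k‖ ^ 2 ≤ 1 / J := by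
    by_contra hcon
    push Not at hcon
    have hJ0 : (0 : ℝ) < J := by exact_mod_cast hJ
    have h1 : ∑ j ∈ Finset.range J, (1 / J : ℝ) <
        ∑ j ∈ Finset.range J, ∑ k ∈ N (j + 1) \ N j, ‖v k‖ ^ 2 := by
      apply Finset.sum_lt_sum_of_nonempty
      · exact ⟨0, Finset.mem_range.2 (by omega)⟩
      · intro j hj
        exact hcon j (Finset.mem_range.1 hj)
    have h2 : ∑ j ∈ Finset.range J, ∑ k ∈ N (j + 1) \ N j, ‖v k‖ ^ 2 =
        ∑ k ∈ N J, ‖v k‖ ^ 2 - ∑ k ∈ N 0, ‖v k‖ ^ 2 := by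
      rw [← Finset.sum_range_sub (fun i => ∑ k ∈ N i, ‖v k‖ ^ 2)]
      refine Finset.sum_congr rfl fun i _ => ?_
      rw [eq_sub_iff_add_eq]
      exact Finset.sum_sdiff (hNmono i)
    have h3 : ∑ k ∈ N J, ‖v k‖ ^ 2 ≤ 1 := by
      rw [← hv1]
      exact Finset.sum_le_sum_of_subset_of_nonneg (Finset.subset_univ _) fun _ _ _ => by positivity
    have h4 : 0 ≤ ∑ k ∈ N 0, ‖v k‖ ^ 2 := Finset.sum_nonneg fun _ _ => by positivity
    have h5 : ∑ j ∈ Finset.range J, (1 / J : ℝ) = 1 := by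
      rw [Finset.sum_const, Finset.card_range, nsmul_eq_mul]
      field_simp
    linarith
  have hJ0 : (0 : ℝ) < J := by exact_mod_cast hJ
  have hsJ : 0 < √(J : ℝ) := Real.sqrt_pos.2 hJ0
  set X : Finset (Fin (2 * n)) := Finset.univ.filter (fun k => η * θ ≤ |d k|) with hX
  set C1 : Finset (Fin (2 * n)) := X ∩ N j with hC1
  set C2 : Finset (Fin (2 * n)) := X \ N (j + 1) with hC2
  set CE : Finset (Fin (2 * n)) := Finset.univ \ (C1 ∪ C2) with hCE
  have hdisj : Disjoint C1 C2 := by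
    rw [Finset.disjoint_left]
    intro k hk hk'
    exact (Finset.mem_sdiff.1 hk').2 (hNmono j (Finset.mem_inter.1 hk).2)
  set p1 : Fin (2 * n) → ℂ := P *ᵥ hdet_ind C1 u with hp1
  set p2 : Fin (2 * n) → ℂ := P *ᵥ hdet_ind C2 u with hp2
  set pE : Fin (2 * n) → ℂ := P *ᵥ hdet_ind CE u with hpE
  have hsum : ∀ k, (lam : ℂ) * v k = (p1 k + pE k) + p2 k := by
    intro k
    rw [← hPu, hp1, hp2, hpE, hdet_mul, hdet_mul, hdet_mul]
    have h1 : (P *ᵥ u) k = ∑ l, P k l * u l := rfl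
    rw [h1, ← Finset.sum_sdiff (Finset.subset_univ (C1 ∪ C2)), Finset.sum_union hdisj]
    ring
  set F : Finset (Fin (2 * n)) := Finset.univ \ N (j + 1) with hF
  -- `p1` off `N_{j+1}`
  have ha1 : hdet_nrm F p1 ≤ √β * (2 * θ) := by
    have h1 := hfar F C1 (fun k hk => (Finset.mem_filter.1 (Finset.mem_inter.1 hk).1).2) (by
      intro k hk l hl
      have h2 : k ∉ nb W ((j + 1) * r + r) := by
        have h3 := (Finset.mem_sdiff.1 hk).2
        rw [hN] at h3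
        simp only at h3
        rwa [show (j + 1 + 1) * r = (j + 1) * r + r by ring] at h3
      exact nb_far h2 (Finset.mem_inter.1 hl).2) u
    have h2 : ∑ k ∈ F, ‖p1 k‖ ^ 2 ≤ β * ∑ l ∈ C1, ‖u l‖ ^ 2 := by
      refine le_trans (le_of_eq ?_) h1
      refine Finset.sum_congr rfl fun k _ => ?_
      rw [hp1, hdet_mul]
    have h3 : ∑ l ∈ C1, ‖u l‖ ^ 2 ≤ (2 * θ) ^ 2 := by
      calc ∑ l ∈ C1, ‖u l‖ ^ 2 ≤ ∑ l, ‖u l‖ ^ 2 :=
            Finset.sum_le_sum_of_subset_of_nonneg (Finset.subset_univ _) fun _ _ _ => by positivity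
        _ ≤ ∑ l, (2 * θ) ^ 2 * ‖v l‖ ^ 2 := by
            refine Finset.sum_le_sum fun l _ => ?_
            rw [hun, mul_pow]
            exact mul_le_mul_of_nonneg_right (pow_le_pow_left₀ (abs_nonneg _) (hbd l) 2) (by positivity)
        _ = (2 * θ) ^ 2 := by rw [← Finset.mul_sum, hv1, mul_one]
    apply Real.sqrt_le_iff.2
    refine ⟨by positivity, ?_⟩
    rw [mul_pow, Real.sq_sqrt hβ]
    exact h2.trans (mul_le_mul_of_nonneg_left h3 hβ)
  -- `pE`
  have haE : hdet_nrm Finset.univ pE ≤ 2 * θ / √J + η * θ := by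
    have h1 : hdet_nrm Finset.univ pE ≤ hdet_nrm CE u := by
      rw [← hdet_ind_nrm CE u]
      exact hdet_contr hP hP2 _
    refine h1.trans ?_
    apply Real.sqrt_le_iff.2
    refine ⟨by positivity, ?_⟩
    have h2 : ∑ k ∈ CE, ‖u k‖ ^ 2 ≤ ∑ k, ((if k ∈ N (j + 1) \ N j then (2 * θ) ^ 2 * ‖v k‖ ^ 2 else 0) +
        (η * θ) ^ 2 * ‖v k‖ ^ 2) := by
      have h3 : ∀ k, 0 ≤ (if k ∈ N (j + 1) \ N j then (2 * θ) ^ 2 * ‖v k‖ ^ 2 else 0) +
          (η * θ) ^ 2 * ‖v k‖ ^ 2 := by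
        intro k
        split_ifs <;> positivity
      refine le_trans ?_ (Finset.sum_le_sum_of_subset_of_nonneg (Finset.subset_univ CE) fun k _ _ => h3 k)
      refine Finset.sum_le_sum fun k hk => ?_
      have hk2 := (Finset.mem_sdiff.1 hk).2
      rw [hun, mul_pow]
      by_cases hkA : k ∈ N (j + 1) \ N j
      · rw [if_pos hkA]
        have h4 : |d k| ^ 2 * ‖v k‖ ^ 2 ≤ (2 * θ) ^ 2 * ‖v k‖ ^ 2 :=
          mul_le_mul_of_nonneg_right (pow_le_pow_left₀ (abs_nonneg _) (hbd k) 2) (by positivity)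
        have h5 : 0 ≤ (η * θ) ^ 2 * ‖v k‖ ^ 2 := by positivity
        linarith
      · rw [if_neg hkA, zero_add]
        have h4 : |d k| ≤ η * θ := by
          by_contra h5
          have h6 : k ∈ X := Finset.mem_filter.2 ⟨Finset.mem_univ _, (not_le.1 h5).le⟩
          apply hk2
          rw [Finset.mem_union]
          by_cases h7 : k ∈ N (j + 1)
          · left
            refine Finset.mem_inter.2 ⟨h6, ?_⟩
            by_contra h8
            exact hkA (Finset.mem_sdiff.2 ⟨h7, h8⟩)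
          · right
            exact Finset.mem_sdiff.2 ⟨h6, h7⟩
        exact mul_le_mul_of_nonneg_right (pow_le_pow_left₀ (abs_nonneg _) h4 2) (by positivity)
    rw [Finset.sum_add_distrib, ← Finset.mul_sum, hv1, mul_one, ← Finset.sum_filter,
      Finset.filter_mem_eq_inter, Finset.univ_inter, ← Finset.mul_sum] at h2
    have h3 : (2 * θ) ^ 2 * ∑ k ∈ N (j + 1) \ N j, ‖v k‖ ^ 2 ≤ (2 * θ / √J) ^ 2 := by
      rw [div_pow, Real.sq_sqrt hJ0.le, div_eq_mul_one_div ((2 * θ) ^ 2)]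
      exact mul_le_mul_of_nonneg_left hjm (by positivity)
    have h4 : 0 ≤ 2 * θ / √J * (η * θ) := by positivity
    nlinarith
  set a : ℝ := √β * (2 * θ) + (2 * θ / √J + η * θ) with ha
  have ha0 : 0 ≤ a := by positivity
  -- `p2`
  have hC2F : C2 ⊆ F := fun k hk => Finset.mem_sdiff.2 ⟨Finset.mem_univ _, (Finset.mem_sdiff.1 hk).2⟩
  have hp2n : g * hdet_nrm Finset.univ p2 ≤ 2 * a := by
    set d2 : Fin (2 * n) → ℝ := fun k => if k ∈ C2 then d k else 0 with hd2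
    have hP2' : P *ᵥ p2 = p2 := by
      rw [hp2, Matrix.mulVec_mulVec, hP2]
    have hub2 : ∑ k, d2 k * ‖p2 k‖ ^ 2 ≤ (K * τ + 8 * η) * θ * ∑ k, ‖p2 k‖ ^ 2 := by
      refine hub d2 ?_ ?_ p2 hP2'
      · intro k
        by_cases hk : k ∈ C2
        · left
          rw [hd2]
          simp only
          rw [if_pos hk]
        · right
          rw [hd2]
          simp only
          rw [if_neg hk]
      · intro y
        have hmem : ∀ k ∈ Hw d2 (η * θ) y (r ^ 2), k ∈ C2 ∧ k ∈ Hw d (η * θ) y (r ^ 2) := by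
          intro k hk
          have h1 := (Finset.mem_filter.1 hk).2
          have h2 : k ∈ C2 := by
            by_contra h3
            have h4 : d2 k = 0 := by
              rw [hd2]
              simp only
              rw [if_neg h3]
            have h5 := h1.2.2
            rw [h4] at h5
            have h6 : 0 < η * θ := mul_pos hη hθ
            linarith
          have h4 : d2 k = d k := by
            rw [hd2]
            simp only
            rw [if_pos h2]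
          refine ⟨h2, Finset.mem_filter.2 ⟨Finset.mem_univ _, h1.1, h1.2.1, ?_⟩⟩
          rw [← h4]
          exact h1.2.2
        by_contra hcon
        rw [not_le] at hcon
        have h1 : ∑ k ∈ Hw d2 (η * θ) y (r ^ 2), d2 k ^ 2 ≤ ∑ k ∈ Hw d (η * θ) y (r ^ 2), d k ^ 2 := by
          calc _ = ∑ k ∈ Hw d2 (η * θ) y (r ^ 2), d k ^ 2 := by
                refine Finset.sum_congr rfl fun k hk => ?_
                rw [hd2]
                simp only
                rw [if_pos (hmem k hk).1]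
            _ ≤ _ := Finset.sum_le_sum_of_subset_of_nonneg (fun k hk => (hmem k hk).2)
                fun _ _ _ => by positivity
        have h2 := hW y (lt_of_lt_of_le hcon h1)
        have h3 : Hw d2 (η * θ) y (r ^ 2) = ∅ := by
          rw [Finset.eq_empty_iff_forall_notMem]
          intro k hk
          have h4 := hmem k hk
          refine (Finset.mem_sdiff.1 h4.1).2 (sub_nb W ?_ (h2 h4.2))
          exact Nat.mul_pos (by omega) hr
        rw [h3, Finset.sum_empty] at hcon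
        have h4 : 0 ≤ (τ * θ) ^ 2 := by positivity
        linarith
    have hq : hdet_nrm C2 (fun k => p1 k + pE k) ≤ a := by
      refine (hdet_add C2 p1 pE).trans ?_
      have h1 : hdet_nrm C2 p1 ≤ hdet_nrm F p1 := hdet_mono hC2F p1
      have h2 : hdet_nrm C2 pE ≤ hdet_nrm Finset.univ pE := hdet_mono (Finset.subset_univ _) pE
      linarith
    have hkey : lam * ∑ k, ‖p2 k‖ ^ 2 ≤
        ∑ k, d2 k * ‖p2 k‖ ^ 2 + 2 * θ * ∑ k ∈ C2, ‖p2 k‖ * ‖p1 k + pE k‖ := by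
      have h1 : ((lam * ∑ k, ‖p2 k‖ ^ 2 : ℝ) : ℂ) =
          ((∑ k, d2 k * ‖p2 k‖ ^ 2 : ℝ) : ℂ) + ∑ k ∈ C2, starRingEnd ℂ (p2 k) * ((d k : ℂ) * (p1 k + pE k)) := by
        rw [Complex.ofReal_mul, hp2, hdet_sq hP hP2, ← hp2, Finset.mul_sum, Complex.ofReal_sum]
        have h2 : ∑ k ∈ C2, starRingEnd ℂ (p2 k) * ((d k : ℂ) * (p1 k + pE k)) =
            ∑ k, (if k ∈ C2 then starRingEnd ℂ (p2 k) * ((d k : ℂ) * (p1 k + pE k)) else 0) := by
          rw [← Finset.sum_filter, Finset.filter_mem_eq_inter, Finset.univ_inter]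
        rw [h2, ← Finset.sum_add_distrib]
        refine Finset.sum_congr rfl fun k _ => ?_
        unfold hdet_ind
        rw [hd2]
        simp only
        by_cases hk : k ∈ C2
        · rw [if_pos hk, if_pos hk, if_pos hk]
          have h3 := hsum k
          have h4 := Complex.conj_mul' (p2 k)
          rw [hu]
          simp only
          calc (lam : ℂ) * (starRingEnd ℂ (p2 k) * ((d k : ℂ) * v k)) =
                starRingEnd ℂ (p2 k) * ((d k : ℂ) * ((lam : ℂ) * v k)) := by ring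
            _ = (d k : ℂ) * (starRingEnd ℂ (p2 k) * p2 k) +
                starRingEnd ℂ (p2 k) * ((d k : ℂ) * (p1 k + pE k)) := by
                rw [h3]
                ring
            _ = _ := by
                rw [h4]
                push_cast
                rfl
        · rw [if_neg hk, if_neg hk, if_neg hk]
          simp
      have h2 : lam * ∑ k, ‖p2 k‖ ^ 2 = ∑ k, d2 k * ‖p2 k‖ ^ 2 +
          (∑ k ∈ C2, starRingEnd ℂ (p2 k) * ((d k : ℂ) * (p1 k + pE k))).re := by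
        have h3 := congrArg Complex.re h1
        rw [Complex.add_re, Complex.ofReal_re, Complex.ofReal_re] at h3
        exact h3
      rw [h2]
      have h3 : (∑ k ∈ C2, starRingEnd ℂ (p2 k) * ((d k : ℂ) * (p1 k + pE k))).re ≤
          2 * θ * ∑ k ∈ C2, ‖p2 k‖ * ‖p1 k + pE k‖ := by
        refine (Complex.re_le_norm _).trans ?_
        rw [Finset.mul_sum]
        refine norm_sum_le_of_le _ fun k _ => ?_
        rw [norm_mul, norm_mul, RCLike.norm_conj, Complex.norm_real, Real.norm_eq_abs]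
        calc ‖p2 k‖ * (|d k| * ‖p1 k + pE k‖) = |d k| * (‖p2 k‖ * ‖p1 k + pE k‖) := by ring
          _ ≤ 2 * θ * (‖p2 k‖ * ‖p1 k + pE k‖) := mul_le_mul_of_nonneg_right (hbd k) (by positivity)
      linarith
    have hcs : ∑ k ∈ C2, ‖p2 k‖ * ‖p1 k + pE k‖ ≤ hdet_nrm Finset.univ p2 * a := by
      refine (hdet_inner_le C2 p2 (fun k => p1 k + pE k)).trans ?_
      exact mul_le_mul (hdet_mono (Finset.subset_univ _) p2) hq (hdet_nrm_nonneg _ _) (hdet_nrm_nonneg _ _)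
    set B : ℝ := hdet_nrm Finset.univ p2 with hB
    have hB0 : 0 ≤ B := hdet_nrm_nonneg _ _
    have hB2 : ∑ k, ‖p2 k‖ ^ 2 = B ^ 2 := (hdet_nrm_sq _ _).symm
    rw [hB2] at hub2 hkey
    have h1 : g * θ * B ^ 2 ≤ 2 * θ * (B * a) := by
      have h2 : 2 * θ * ∑ k ∈ C2, ‖p2 k‖ * ‖p1 k + pE k‖ ≤ 2 * θ * (B * a) :=
        mul_le_mul_of_nonneg_left hcs (by positivity)
      have h3 : ((K * τ + 8 * η) * θ + g * θ) * B ^ 2 ≤ lam * B ^ 2 :=
        mul_le_mul_of_nonneg_right hlamg (by positivity)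
      nlinarith
    rcases hB0.eq_or_lt with h | h
    · rw [← h, mul_zero]
      positivity
    · have h2 : (B * θ) * (g * B) ≤ (B * θ) * (2 * a) := by
        calc (B * θ) * (g * B) = g * θ * B ^ 2 := by ring
          _ ≤ 2 * θ * (B * a) := h1
          _ = (B * θ) * (2 * a) := by ring
      exact le_of_mul_le_mul_left h2 (mul_pos h hθ)
  -- the mass off `nb W ((J+1) r)`
  set S : Finset (Fin (2 * n)) := nb W ((J + 1) * r) with hS
  have hNS : N (j + 1) ⊆ S := nb_mono W (Nat.mul_le_mul_right r (by omega))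
  have hSF : Finset.univ \ S ⊆ F := fun k hk =>
    Finset.mem_sdiff.2 ⟨Finset.mem_univ _, fun h => (Finset.mem_sdiff.1 hk).2 (hNS h)⟩
  set m : ℝ := hdet_nrm (Finset.univ \ S) v with hm
  have hm0 : 0 ≤ m := hdet_nrm_nonneg _ _
  have hout : lam * m ≤ a + hdet_nrm Finset.univ p2 := by
    have h1 : lam * m = hdet_nrm (Finset.univ \ S) (fun k => (p1 k + pE k) + p2 k) := by
      have h2 : hdet_nrm (Finset.univ \ S) (fun k => (p1 k + pE k) + p2 k) =
          hdet_nrm (Finset.univ \ S) (fun k => (lam : ℂ) * v k) := by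
        congr 1
        funext k
        rw [hsum k]
      rw [h2, hm]
      unfold hdet_nrm
      have h3 : ∀ k, ‖(lam : ℂ) * v k‖ ^ 2 = lam ^ 2 * ‖v k‖ ^ 2 := by
        intro k
        rw [norm_mul, mul_pow, Complex.norm_real, Real.norm_of_nonneg hlam0.le]
      simp_rw [h3]
      rw [← Finset.mul_sum, Real.sqrt_mul (by positivity), Real.sqrt_sq hlam0.le]
    rw [h1]
    refine (hdet_add _ (fun k => p1 k + pE k) p2).trans ?_
    have h2 := hdet_add (Finset.univ \ S) p1 pE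
    have h3 : hdet_nrm (Finset.univ \ S) p1 ≤ hdet_nrm F p1 := hdet_mono hSF p1
    have h4 : hdet_nrm (Finset.univ \ S) pE ≤ hdet_nrm Finset.univ pE := hdet_mono (Finset.subset_univ _) pE
    have h5 : hdet_nrm (Finset.univ \ S) p2 ≤ hdet_nrm Finset.univ p2 := hdet_mono (Finset.subset_univ _) p2
    linarith
  have hmle : m ≤ (6 / √J + 3 * η + 6 * √β) / g ^ 2 := by
    rw [le_div_iff₀ (by positivity)]
    have h1 : g * θ * m ≤ lam * m := mul_le_mul_of_nonneg_right (by linarith) hm0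
    have h2 : g * (g * θ * m) ≤ g * a + 2 * a := by
      have h3 : g * (g * θ * m) ≤ g * (a + hdet_nrm Finset.univ p2) :=
        mul_le_mul_of_nonneg_left (h1.trans hout) hg.le
      linarith
    have h3 : g * a ≤ 1 * a := mul_le_mul_of_nonneg_right hg1 ha0
    have h4 : θ * (m * g ^ 2) ≤ θ * (6 / √J + 3 * η + 6 * √β) := by
      calc θ * (m * g ^ 2) = g * (g * θ * m) := by ring
        _ ≤ 3 * a := by linarith
        _ = _ := by
          rw [ha]
          ring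
    exact le_of_mul_le_mul_left h4 hθ
  have hfin : ∑ k ∈ S, ‖v k‖ ^ 2 = 1 - m ^ 2 := by
    rw [hm, hdet_nrm_sq, ← hv1, ← Finset.sum_sdiff (Finset.subset_univ S)]
    ring
  rw [hfin]
  have h1 := pow_le_pow_left₀ hm0 hmle 2
  linarith

end TZ
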