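import Pool.Agent.TZ.Defs
import Pool.Agent.TZ.Fold

/-!
Project TZ (MP_b753aa_pr), part three, module HFold: folding of the windows of level `τ`.
Proof. As (few) in `fold` (module Fold): `F' = {y' + 1} ∪ {2n - y' - L}` over `y' ∈ F`, `W = ⋃_{y ∈ F'} {k : y ≤ k < y + L}`, `card W ≤ 2 M' L`. For a window `y` with
`(τθ)² < ∑_{Hw} d²` the set `Hw` is nonempty (`0 ≤ (τθ)²`), `fold_win` gives `y'`, `f`; `C = image f Hw` has `card ≤ q` (`DUp.cnt` of `fold hx …`), `∑_C x² = ∑_{Hw} d²`, so `y' ∈ F`, `y ∈ F'`.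
-/

noncomputable section

namespace TZ

open MeasureTheory ProbabilityTheory Filter Topology Matrix
open scoped Real

theorem hFold_card {n : ℕ} (F : Finset ℕ) (L : ℕ) :
    (F.biUnion fun y => Finset.univ.filter fun k : Fin (2 * n) => y ≤ (k : ℕ) ∧ (k : ℕ) < y + L).card ≤
      F.card * L := by
  refine Finset.card_biUnion_le_card_mul _ _ _ ?_
  intro y _
  have h1 : (Finset.univ.filter fun k : Fin (2 * n) => y ≤ (k : ℕ) ∧ (k : ℕ) < y + L).card ≤
      (Finset.Ico y (y + L)).card := by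
    refine Finset.card_le_card_of_injOn (fun k : Fin (2 * n) => (k : ℕ)) ?_ ?_
    · intro k hk
      have hk2 := (Finset.mem_filter.1 hk).2
      exact Finset.mem_coe.2 (Finset.mem_Ico.2 hk2)
    · intro k _ l _ h
      exact Fin.ext h
  rw [Nat.card_Ico] at h1
  omega

theorem hfold {n : ℕ} {d : Fin (2 * n) → ℝ} {x : Fin (n - 1) → ℝ} {η θ τ : ℝ} {L q M M' : ℕ}
    (hx : XUp x η θ L q M) (hL : 1 ≤ L) (hq : 4 ≤ q * η ^ 2) (hη : 0 < η) (hη1 : η ≤ 1) (hθ : 0 < θ)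
    (hd : ∀ (k : Fin (2 * n)) (i : Fin (n - 1)), (k : ℕ) = (i : ℕ) + 1 → d k = x i)
    (hs : ∀ k k' : Fin (2 * n), (k : ℕ) + (k' : ℕ) = 2 * n → d k = d k')
    (h0 : ∀ k : Fin (2 * n), (k : ℕ) = 0 ∨ (k : ℕ) = n → |d k| < η * θ)
    (hF : ∃ F : Finset ℕ, F.card ≤ M' ∧ ∀ (y : ℕ) (C : Finset (Fin (n - 1))),
      (∀ k ∈ C, y ≤ (k : ℕ) ∧ (k : ℕ) < y + L) → C.Nonempty → C.card ≤ q →
      (τ * θ) ^ 2 ≤ ∑ k ∈ C, x k ^ 2 → y ∈ F) :
    ∃ W : Finset (Fin (2 * n)), W.card ≤ 2 * M' * L ∧ ∀ y : ℕ,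
      (τ * θ) ^ 2 < ∑ k ∈ Hw d (η * θ) y L, d k ^ 2 → Hw d (η * θ) y L ⊆ W := by
  obtain ⟨F, hFc, hF2⟩ := hF
  have hD := fold hx hL hq hη hη1 hθ hd hs h0
  have hFF : (F.image (fun t => t + 1) ∪ F.image (fun t => 2 * n - t - L)).card ≤ 2 * M' := by
    refine (Finset.card_union_le _ _).trans ?_
    have h8 := Finset.card_image_le (s := F) (f := fun t => t + 1)
    have h9 := Finset.card_image_le (s := F) (f := fun t => 2 * n - t - L)
    omega
  refine ⟨(F.image (fun t => t + 1) ∪ F.image (fun t => 2 * n - t - L)).biUnion fun y =>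
    Finset.univ.filter fun k : Fin (2 * n) => y ≤ (k : ℕ) ∧ (k : ℕ) < y + L,
    (hFold_card _ L).trans (Nat.mul_le_mul_right L hFF), ?_⟩
  intro y hsum
  have hne : (Hw d (η * θ) y L).Nonempty := by
    rw [Finset.nonempty_iff_ne_empty]
    intro he
    rw [he, Finset.sum_empty] at hsum
    exact absurd hsum (not_lt.2 (sq_nonneg _))
  obtain ⟨y', f, hy', hf1, hf2, hf3⟩ := fold_win hx hL hη hθ hd hs h0 y hne
  have e1 : ((Hw d (η * θ) y L).image f).card = (Hw d (η * θ) y L).card :=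
    Finset.card_image_of_injOn fun k hk l hl h => hf2 k hk l hl h
  have e2 : ∑ i ∈ (Hw d (η * θ) y L).image f, x i ^ 2 = ∑ k ∈ Hw d (η * θ) y L, d k ^ 2 := by
    rw [Finset.sum_image hf2]
    exact Finset.sum_congr rfl fun k hk => by rw [hf3 k hk]
  have hmem : y' ∈ F := by
    refine hF2 y' ((Hw d (η * θ) y L).image f) ?_ (hne.image f) (by rw [e1]; exact hD.cnt y)
      (by rw [e2]; exact hsum.le)
    intro i hi
    obtain ⟨k, hk, rfl⟩ := Finset.mem_image.1 hi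
    exact hf1 k hk
  have hyF : y ∈ F.image (fun t => t + 1) ∪ F.image (fun t => 2 * n - t - L) := by
    rw [Finset.mem_union, Finset.mem_image, Finset.mem_image]
    rcases hy' with h | h
    · exact Or.inl ⟨y', hmem, h.symm⟩
    · exact Or.inr ⟨y', hmem, h.symm⟩
  intro k hk
  have hk2 := (Finset.mem_filter.1 hk).2
  exact Finset.mem_biUnion.2 ⟨y, hyF, Finset.mem_filter.2 ⟨Finset.mem_univ _, hk2.1, hk2.2.1⟩⟩

end TZ
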