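import Pool.Agent.TZ.Defs
import Pool.Agent.TZ.Num

/-!
Project TZ (MP_b753aa_pr), part three, module HNum: numerical facts.
-/

noncomputable section

namespace TZ

open MeasureTheory ProbabilityTheory Filter Topology Matrix
open scoped Real

theorem ev_ell {α : ℝ} (hα : 0 < α) : Tendsto (fun n : ℕ => (4 + 2 * Real.log n) / (n : ℝ) ^ α) atTop (𝓝 0) := by
  have a1 : Tendsto (fun x : ℝ => Real.log x / x ^ α) atTop (𝓝 0) :=
    (isLittleO_log_rpow_atTop hα).tendsto_div_nhds_zero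
  have a2 := (a1.comp (tendsto_natCast_atTop_atTop (R := ℝ))).const_mul 2
  have a3 : Tendsto (fun n : ℕ => (4 : ℝ) / (n : ℝ) ^ α) atTop (𝓝 0) := (pow_tendsto hα).const_div_atTop 4
  have := a3.add a2
  rw [mul_zero, add_zero] at this
  refine this.congr fun n => ?_
  simp only [Function.comp]
  ring

theorem ev_beta {η b : ℝ} (hη : 0 < η) (hb : 0 < b) (q : ℕ) : ∀ᶠ n : ℕ in atTop,
    (2 * (q : ℝ) / rr η n + 2 * q / ((rr η n ^ 2 : ℕ) : ℝ) * (1 + Real.log n)) * (4 + 2 * Real.log n) ≤ b := by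
  have hα : 0 < η ^ 3 / 100 := by positivity
  have h1 := ev_ell hα
  have h2 : Tendsto (fun n : ℕ => 2 * (q : ℝ) * ((4 + 2 * Real.log n) / (n : ℝ) ^ (η ^ 3 / 100)) +
      2 * q * ((4 + 2 * Real.log n) / (n : ℝ) ^ (η ^ 3 / 100)) ^ 2) atTop (𝓝 0) := by
    have := (h1.const_mul (2 * (q : ℝ))).add ((h1.pow 2).const_mul (2 * (q : ℝ)))
    simpa using this
  filter_upwards [h2.eventually_le_const hb, eventually_ge_atTop 1] with n hn hn1
  refine le_trans ?_ hn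
  have hn0 : (0 : ℝ) < n := by exact_mod_cast hn1
  have hl : 0 ≤ Real.log n := Real.log_nonneg (by exact_mod_cast hn1)
  have hp : 0 < (n : ℝ) ^ (η ^ 3 / 100) := Real.rpow_pos_of_pos hn0 _
  have hr := rr_ge η n
  have hr0 : (0 : ℝ) < rr η n := lt_of_lt_of_le hp hr
  have e1 : 2 * (q : ℝ) / rr η n ≤ 2 * q / (n : ℝ) ^ (η ^ 3 / 100) := by gcongr
  have e2 : 2 * (q : ℝ) / ((rr η n ^ 2 : ℕ) : ℝ) ≤ 2 * q / ((n : ℝ) ^ (η ^ 3 / 100)) ^ 2 := by
    push_cast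
    gcongr
  have e3 : (2 * (q : ℝ) / rr η n + 2 * q / ((rr η n ^ 2 : ℕ) : ℝ) * (1 + Real.log n)) * (4 + 2 * Real.log n) ≤
      (2 * (q : ℝ) / (n : ℝ) ^ (η ^ 3 / 100) + 2 * q / ((n : ℝ) ^ (η ^ 3 / 100)) ^ 2 * (4 + 2 * Real.log n)) *
        (4 + 2 * Real.log n) := by
    refine mul_le_mul_of_nonneg_right (add_le_add e1 (mul_le_mul e2 (by linarith) (by linarith) (by positivity)))
      (by linarith)
  refine e3.trans (le_of_eq ?_)
  field_simp

end TZ
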