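import Pool.Agent.TZ.Defs
import Pool.Agent.TZ.Sch
import Pool.Agent.TZ.KerA

/-!
Project TZ (MP_b753aa_pr), part three, module HSch: Schur test for the kernel `P` between a sparse set and a far set.
-/

noncomputable section

namespace TZ

open MeasureTheory ProbabilityTheory Filter Topology Matrix
open scoped Real

theorem schur2 {n : ℕ} {P : Matrix (Fin (2 * n)) (Fin (2 * n)) ℂ} (F Z : Finset (Fin (2 * n)))
    (s : Fin (2 * n) → ℂ) {A B : ℝ} (hA : 0 ≤ A) (hB : 0 ≤ B) (rows : ∀ k ∈ F, ∑ l ∈ Z, ‖P k l‖ ≤ A)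
    (cols : ∀ l ∈ Z, ∑ k ∈ F, ‖P k l‖ ≤ B) :
    ∑ k ∈ F, ‖∑ l ∈ Z, P k l * s l‖ ^ 2 ≤ A * B * ∑ l ∈ Z, ‖s l‖ ^ 2 := by
  classical
  have h1 : ∀ k ∈ F, ‖∑ l ∈ Z, P k l * s l‖ ^ 2 ≤ A * ∑ l ∈ Z, ‖P k l‖ * ‖s l‖ ^ 2 := by
    intro k hk
    have ha : ‖∑ l ∈ Z, P k l * s l‖ ≤ ∑ l ∈ Z, ‖P k l‖ * ‖s l‖ := by
      refine (norm_sum_le _ _).trans (le_of_eq ?_)
      exact Finset.sum_congr rfl fun l _ => norm_mul _ _
    have hb : (∑ l ∈ Z, ‖P k l‖ * ‖s l‖) ^ 2 ≤ (∑ l ∈ Z, ‖P k l‖) * ∑ l ∈ Z, ‖P k l‖ * ‖s l‖ ^ 2 := by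
      refine Finset.sum_sq_le_sum_mul_sum_of_sq_le_mul Z (fun l _ => norm_nonneg _)
        (fun l _ => by positivity) (fun l _ => le_of_eq ?_)
      ring
    calc ‖∑ l ∈ Z, P k l * s l‖ ^ 2 ≤ (∑ l ∈ Z, ‖P k l‖ * ‖s l‖) ^ 2 := by gcongr
      _ ≤ (∑ l ∈ Z, ‖P k l‖) * ∑ l ∈ Z, ‖P k l‖ * ‖s l‖ ^ 2 := hb
      _ ≤ A * ∑ l ∈ Z, ‖P k l‖ * ‖s l‖ ^ 2 :=
        mul_le_mul_of_nonneg_right (rows k hk) (Finset.sum_nonneg fun l _ => by positivity)
  refine (Finset.sum_le_sum h1).trans ?_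
  rw [← Finset.mul_sum, mul_assoc]
  refine mul_le_mul_of_nonneg_left ?_ hA
  rw [Finset.sum_comm, Finset.mul_sum]
  refine Finset.sum_le_sum fun l hl => ?_
  rw [← Finset.sum_mul]
  exact mul_le_mul_of_nonneg_right (cols l hl) (by positivity)

theorem HSch_cd_symm {n : ℕ} (k l : Fin (2 * n)) : cd k l = cd l k := by
  unfold cd
  have h : ((k : ℤ) - (l : ℤ)).natAbs = ((l : ℤ) - (k : ℤ)).natAbs := by omega
  rw [h]

theorem HSch_ne {n r : ℕ} (hr : 1 ≤ r) {k l : Fin (2 * n)} (h : r ≤ cd k l) : k ≠ l := by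
  rintro rfl
  unfold cd at h
  simp at h
  omega

theorem far {n : ℕ} {X : Finset (Fin (2 * n))} {L q r : ℕ} (hr : 1 ≤ r) (hrL : r ≤ L)
    (cnt : ∀ y : ℕ, (X.filter fun k : Fin (2 * n) => y ≤ (k : ℕ) ∧ (k : ℕ) < y + L).card ≤ q)
    (F Z : Finset (Fin (2 * n))) (hZ : Z ⊆ X) (hF : ∀ k ∈ F, ∀ l ∈ Z, r ≤ cd k l) (s : Fin (2 * n) → ℂ) :
    ∑ k ∈ F, ‖∑ l ∈ Z, PP n k l * s l‖ ^ 2 ≤
      (2 * q / r + 2 * q / L * (1 + Real.log n)) * (4 + 2 * Real.log n) * ∑ l ∈ Z, ‖s l‖ ^ 2 := by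
  classical
  have hlog : 0 ≤ Real.log n := Real.log_natCast_nonneg n
  refine schur2 F Z s (by positivity) (by positivity) ?_ ?_
  · intro k hk
    refine le_trans ?_ (sch X hr hrL cnt k)
    refine (Finset.sum_le_sum fun l hl => PP_dec n k l (HSch_ne hr (hF k hk l hl))).trans ?_
    refine Finset.sum_le_sum_of_subset_of_nonneg ?_ (fun l _ _ => by positivity)
    intro l hl
    rw [Finset.mem_filter]
    exact ⟨hZ hl, hF k hk l hl⟩
  · intro l hl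
    have h1 := sch (n := n) Finset.univ (L := 1) (q := 1) (r := 1) le_rfl le_rfl ?_ l
    · refine le_trans ?_ (h1.trans (le_of_eq (by push_cast; ring)))
      refine (Finset.sum_le_sum fun k hk => PP_dec n k l (HSch_ne hr (hF k hk l hl))).trans ?_
      calc ∑ k ∈ F, 1 / (2 * (cd k l : ℝ)) = ∑ k ∈ F, 1 / (2 * (cd l k : ℝ)) :=
            Finset.sum_congr rfl fun k _ => by rw [HSch_cd_symm]
        _ ≤ _ := by
          refine Finset.sum_le_sum_of_subset_of_nonneg ?_ (fun l _ _ => by positivity)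
          intro k hk
          rw [Finset.mem_filter]
          refine ⟨Finset.mem_univ _, ?_⟩
          rw [← HSch_cd_symm]
          exact hr.trans (hF k hk l hl)
    · intro y
      refine Finset.card_le_one.2 ?_
      intro a ha b hb
      simp only [Finset.mem_filter] at ha hb
      apply Fin.ext
      omega

end TZ
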