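import Pool.Agent.TZ.Defs
import Pool.Agent.TZ.DetA
import Pool.Agent.TZ.DetB

/-!
Project TZ (MP_b753aa_pr), part three, module HUb: upper bound for the energy when every window has `∑ d² ≤ (τθ)²`.
Proof. `s` from `shift` with weights `d k ‖w k‖²` (nonnegative on the high sites), `A = ∑_{Hs} d ‖w‖²`; `Hs = HT T` for `T` = all blocks
(`T = range (2n + r²)` or the image of `Hs`). With `u = 1_{Hs} d w`: `A = ⟨w, u⟩ = ⟨w, P u⟩`, `‖P u‖² = frm P Hs (d w)` (as in DetB), so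
`A² ≤ ‖w‖² frm ≤ ‖w‖² ((K+η) τθ + 2θη) A` (`frm_le`; `Hb ⊆ Hw` by `Hb_sub`, so `√(∑_{Hb} d²) ≤ τθ`), so `A ≤ ((K+η)τ + 2η) θ ‖w‖²`, and
`∑ d ‖w‖² ≤ ηθ ‖w‖² + A/(1-η) ≤ (Kτ + 8η) θ ‖w‖²` (`K ≤ 1`, `τ ≤ 2`, `η ≤ 1/10000`; low sites have `d ≤ ηθ`).
-/

noncomputable section

namespace TZ

open MeasureTheory ProbabilityTheory Filter Topology Matrix
open scoped Real

variable {n : ℕ} {P : Matrix (Fin (2 * n)) (Fin (2 * n)) ℂ} {d : Fin (2 * n) → ℝ}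

/-- restriction to a finite set -/
private def hub_ind (C : Finset (Fin (2 * n))) (u : Fin (2 * n) → ℂ) : Fin (2 * n) → ℂ :=
  fun k => if k ∈ C then u k else 0

private theorem hub_mul (C : Finset (Fin (2 * n))) (u : Fin (2 * n) → ℂ) (k : Fin (2 * n)) :
    (P *ᵥ hub_ind C u) k = ∑ l ∈ C, P k l * u l := by
  unfold Matrix.mulVec dotProduct hub_ind
  rw [← Finset.sum_subset (Finset.subset_univ C)]
  · exact Finset.sum_congr rfl fun l hl => by rw [if_pos hl]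
  · intro l _ hl
    rw [if_neg hl, mul_zero]

private theorem hub_norm (hP : P.IsHermitian) (hP2 : P * P = P) (C : Finset (Fin (2 * n)))
    (u : Fin (2 * n) → ℂ) : ∑ k, ‖(P *ᵥ hub_ind C u) k‖ ^ 2 = frm P C u := by
  set U := hub_ind C u with hU
  have hz : star (P *ᵥ U) ⬝ᵥ (P *ᵥ U) = star U ⬝ᵥ (P *ᵥ U) := by
    rw [Matrix.star_mulVec, ← Matrix.dotProduct_mulVec, Matrix.mulVec_mulVec, hP.eq, hP2]
  have h1 : star (P *ᵥ U) ⬝ᵥ (P *ᵥ U) = ((∑ k, ‖(P *ᵥ U) k‖ ^ 2 : ℝ) : ℂ) := by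
    unfold dotProduct
    rw [Complex.ofReal_sum]
    refine Finset.sum_congr rfl fun k _ => ?_
    rw [Pi.star_apply, Complex.star_def, Complex.conj_mul']
    push_cast
    rfl
  have h2 : star U ⬝ᵥ (P *ᵥ U) = ∑ k ∈ C, ∑ l ∈ C, starRingEnd ℂ (u k) * P k l * u l := by
    have h3 : star U ⬝ᵥ (P *ᵥ U) = ∑ k, starRingEnd ℂ (U k) * (P *ᵥ U) k := rfl
    rw [h3, ← Finset.sum_subset (Finset.subset_univ C)]
    · refine Finset.sum_congr rfl fun k hk => ?_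
      rw [hU, hub_mul, Finset.mul_sum]
      refine Finset.sum_congr rfl fun l _ => ?_
      have h4 : hub_ind C u k = u k := by
        unfold hub_ind
        rw [if_pos hk]
      rw [h4]
      ring
    · intro k _ hk
      have h4 : U k = 0 := by
        rw [hU]
        unfold hub_ind
        rw [if_neg hk]
      rw [h4, map_zero, zero_mul]
  unfold frm
  rw [← h2, ← hz, h1, Complex.ofReal_re]

private theorem hub_inner (hP : P.IsHermitian) {v : Fin (2 * n) → ℂ} (hv : P *ᵥ v = v)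
    (C : Finset (Fin (2 * n))) (d : Fin (2 * n) → ℝ) :
    ∑ k, starRingEnd ℂ (v k) * (P *ᵥ hub_ind C (fun k => (d k : ℂ) * v k)) k =
      ((∑ k ∈ C, d k * ‖v k‖ ^ 2 : ℝ) : ℂ) := by
  set U := hub_ind C (fun k => (d k : ℂ) * v k) with hU
  have h3 : ∑ k, starRingEnd ℂ (v k) * (P *ᵥ U) k = star v ⬝ᵥ (P *ᵥ U) := rfl
  have h4 : star v ⬝ᵥ (P *ᵥ U) = star v ⬝ᵥ U := by
    have h5 : star v = star (P *ᵥ v) := by rw [hv]
    have h6 : star (P *ᵥ v) = star v ᵥ* P := by rw [Matrix.star_mulVec, hP.eq]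
    rw [Matrix.dotProduct_mulVec, ← h6, hv]
  have h7 : star v ⬝ᵥ U = ∑ k, starRingEnd ℂ (v k) * U k := rfl
  rw [h3, h4, h7, ← Finset.sum_subset (Finset.subset_univ C), Complex.ofReal_sum]
  · refine Finset.sum_congr rfl fun k hk => ?_
    have h8 : U k = (d k : ℂ) * v k := by
      rw [hU]
      unfold hub_ind
      rw [if_pos hk]
    rw [h8]
    have h9 := Complex.conj_mul' (v k)
    calc starRingEnd ℂ (v k) * ((d k : ℂ) * v k) = (d k : ℂ) * (starRingEnd ℂ (v k) * v k) := by ring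
      _ = _ := by
        rw [h9]
        push_cast
        ring
  · intro k _ hk
    have h8 : U k = 0 := by
      rw [hU]
      unfold hub_ind
      rw [if_neg hk]
    rw [h8, mul_zero]

/-- sums over blocks -/
private theorem hub_blocks (h : ℝ) (r s : ℕ) (T : Finset ℕ) (f : Fin (2 * n) → ℝ) :
    ∑ t ∈ T, ∑ k ∈ Hb d h r s t, f k = ∑ k ∈ HT d h r s T, f k := by
  have h1 := Finset.sum_fiberwise_of_maps_to (s := HT d h r s T) (t := T)
    (g := fun k : Fin (2 * n) => ((k : ℕ) + s) / r ^ 2) (fun k hk => (Finset.mem_filter.1 hk).2) f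
  rw [← h1]
  refine Finset.sum_congr rfl fun t ht => ?_
  apply Finset.sum_congr _ fun _ _ => rfl
  unfold Hb HT
  ext k
  simp only [Finset.mem_filter]
  constructor
  · rintro ⟨h2, h3⟩
    exact ⟨⟨h2, h3 ▸ ht⟩, h3⟩
  · rintro ⟨⟨h2, _⟩, h3⟩
    exact ⟨h2, h3⟩

theorem ubE {n r q M : ℕ} {P : Matrix (Fin (2 * n)) (Fin (2 * n)) ℂ} {d : Fin (2 * n) → ℝ} {K η θ τ : ℝ}
    (hP : P.IsHermitian) (hP2 : P * P = P) (hd : DUp d η θ (r ^ 2) q M)
    (hbest : ∀ C : Finset (Fin (2 * n)), (∃ y : ℕ, ∀ k ∈ C, y ≤ (k : ℕ) ∧ (k : ℕ) < y + r ^ 2) → C.card ≤ q →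
      ∀ (x : Fin (2 * n) → ℝ) (g : Fin (2 * n) → ℂ), (∀ k, 0 ≤ x k) →
      frm P C (fun k => (√(x k) : ℂ) * g k) ≤ (K + η) * √(∑ k ∈ C, x k ^ 2) * ∑ k ∈ C, ‖g k‖ ^ 2)
    (hsch : ∀ k, ∑ l ∈ Finset.univ.filter (fun l => η * θ ≤ d l ∧ r ≤ cd k l), ‖P k l‖ ≤ η)
    (hη : 0 < η) (hη1 : η ≤ 1 / 10000) (hK : 0 ≤ K) (hK1 : K ≤ 1) (hθ : 0 < θ) (hr : 1 ≤ η * r)
    (hτ : 0 ≤ τ) (hτ2 : τ ≤ 2)
    (hsq : ∀ y : ℕ, ∑ k ∈ Hw d (η * θ) y (r ^ 2), d k ^ 2 ≤ (τ * θ) ^ 2)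
    {w : Fin (2 * n) → ℂ} (hw : P *ᵥ w = w) :
    ∑ k, d k * ‖w k‖ ^ 2 ≤ (K * τ + 8 * η) * θ * ∑ k, ‖w k‖ ^ 2 := by
  classical
  set h : ℝ := η * θ with hh
  have hh0 : 0 < h := mul_pos hη hθ
  have hr1 : 1 ≤ r := by
    by_contra hcon
    have h0 : r = 0 := by omega
    rw [h0] at hr
    norm_num at hr
  set w0 : Fin (2 * n) → ℝ := fun k => d k * ‖w k‖ ^ 2 with hw0
  have hwpos : ∀ k, h ≤ d k → 0 ≤ w0 k := fun k hk => mul_nonneg (by linarith) (by positivity)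
  obtain ⟨s, hs, hshift⟩ := shift (d := d) (r := r) w0 h hwpos hη hr
  set A := Hs d h r s with hA
  set G : ℝ := ∑ k ∈ A, w0 k with hG
  have hAhigh : ∀ k ∈ A, h ≤ d k := fun k hk => (Finset.mem_filter.1 hk).2.1
  have hG0 : 0 ≤ G := Finset.sum_nonneg fun k hk => hwpos k (hAhigh k hk)
  set N : ℝ := ∑ k, ‖w k‖ ^ 2 with hN
  have hN0 : 0 ≤ N := Finset.sum_nonneg fun _ _ => by positivity
  -- blocks
  set T₀ : Finset ℕ := A.image (fun k : Fin (2 * n) => ((k : ℕ) + s) / r ^ 2) with hT₀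
  have hHTall : HT d h r s T₀ = A := by
    unfold HT
    rw [← hA, Finset.filter_true_of_mem]
    intro k hk
    exact Finset.mem_image_of_mem _ hk
  set κ : ℕ → ℝ := fun t => (K + η) * √(∑ k ∈ Hb d h r s t, d k ^ 2) with hκ
  set wt : ℕ → ℝ := fun t => ∑ k ∈ Hb d h r s t, w0 k with hwt
  have hwt0 : ∀ t, 0 ≤ wt t := fun t => Finset.sum_nonneg fun k hk =>
    hwpos k (hAhigh k (Finset.mem_filter.1 hk).1)
  have hGsum : ∑ t ∈ T₀, wt t = G := by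
    rw [hwt]
    rw [hub_blocks h r s T₀ w0, hHTall]
  have hκle : ∀ t, κ t ≤ (K + η) * (τ * θ) := by
    intro t
    have h1 : ∑ k ∈ Hb d h r s t, d k ^ 2 ≤ (τ * θ) ^ 2 :=
      (Finset.sum_le_sum_of_subset_of_nonneg (Hb_sub hd hs t) fun _ _ _ => by positivity).trans (hsq _)
    have h2 : √(∑ k ∈ Hb d h r s t, d k ^ 2) ≤ τ * θ := by
      rw [← Real.sqrt_sq (show 0 ≤ τ * θ by positivity)]
      exact Real.sqrt_le_sqrt h1
    exact mul_le_mul_of_nonneg_left h2 (by linarith)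
  set u : Fin (2 * n) → ℂ := fun k => (d k : ℂ) * w k with hu
  set z : Fin (2 * n) → ℂ := P *ᵥ hub_ind A u with hz
  have hzn : ∑ k, ‖z k‖ ^ 2 ≤ ((K + η) * (τ * θ) + 2 * θ * η) * G := by
    have h1 : ∑ k, ‖z k‖ ^ 2 ≤ ∑ t ∈ T₀, κ t * wt t + 2 * θ * η * G := by
      have h2 := frm_le hP hd hbest hsch hη hθ hr1 hs w T₀
      rw [← hh, hHTall] at h2
      rw [hz, hub_norm hP hP2]
      exact h2
    have h3 : ∑ t ∈ T₀, κ t * wt t ≤ (K + η) * (τ * θ) * G := by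
      rw [← hGsum, Finset.mul_sum]
      exact Finset.sum_le_sum fun t _ => mul_le_mul_of_nonneg_right (hκle t) (hwt0 t)
    linarith
  have hcs : G ^ 2 ≤ N * ∑ k, ‖z k‖ ^ 2 := by
    have h1 : ‖∑ k, starRingEnd ℂ (w k) * z k‖ = G := by
      rw [hz, hu, hub_inner hP hw A d, Complex.norm_real, Real.norm_of_nonneg hG0]
    have h2 : G ≤ ∑ k, ‖w k‖ * ‖z k‖ := by
      rw [← h1]
      refine norm_sum_le_of_le _ fun k _ => ?_
      rw [norm_mul, RCLike.norm_conj]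
    calc G ^ 2 ≤ (∑ k, ‖w k‖ * ‖z k‖) ^ 2 := pow_le_pow_left₀ hG0 h2 2
      _ ≤ _ := Finset.sum_mul_sq_le_sq_mul_sq _ _ _
  have hGle : G ≤ N * ((K + η) * (τ * θ) + 2 * θ * η) := by
    rcases hG0.eq_or_lt with h0 | h0
    · rw [← h0]
      have : 0 ≤ (K + η) * (τ * θ) + 2 * θ * η := by positivity
      positivity
    · have h1 : G * G ≤ (N * ((K + η) * (τ * θ) + 2 * θ * η)) * G := by
        have h2 := mul_le_mul_of_nonneg_left hzn hN0
        nlinarith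
      exact le_of_mul_le_mul_right h1 h0
  have hsplit : ∑ k, w0 k = ∑ k ∈ Finset.univ.filter (fun k => h ≤ d k), w0 k +
      ∑ k ∈ Finset.univ.filter (fun k => ¬ h ≤ d k), w0 k := (Finset.sum_filter_add_sum_filter_not _ _ _).symm
  have hlow : ∑ k ∈ Finset.univ.filter (fun k => ¬ h ≤ d k), w0 k ≤ h * N := by
    calc _ ≤ ∑ k ∈ Finset.univ.filter (fun k => ¬ h ≤ d k), h * ‖w k‖ ^ 2 := by
          refine Finset.sum_le_sum fun k hk => ?_
          have h3 := (Finset.mem_filter.1 hk).2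
          exact mul_le_mul_of_nonneg_right (not_le.1 h3).le (by positivity)
      _ ≤ ∑ k, h * ‖w k‖ ^ 2 := Finset.sum_le_sum_of_subset_of_nonneg (Finset.subset_univ _)
          fun _ _ _ => by positivity
      _ = h * N := by rw [← Finset.mul_sum]
  obtain ⟨S, hS⟩ : ∃ S, S = ∑ k ∈ Finset.univ.filter (fun k => h ≤ d k), w0 k := ⟨_, rfl⟩
  rw [← hS] at hshift hsplit
  have hS1 : (1 - η) * S ≤ (1 - η) * ((K * τ + 7 * η) * θ * N) := by
    refine hshift.trans (hGle.trans ?_)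
    have h1 : (K + η) * τ + 2 * η ≤ (1 - η) * (K * τ + 7 * η) := by
      have h2 : K * τ ≤ 2 := by nlinarith
      nlinarith
    have h3 : 0 ≤ θ * N := mul_nonneg hθ.le hN0
    have h4 := mul_le_mul_of_nonneg_right h1 h3
    calc N * ((K + η) * (τ * θ) + 2 * θ * η) = ((K + η) * τ + 2 * η) * (θ * N) := by ring
      _ ≤ ((1 - η) * (K * τ + 7 * η)) * (θ * N) := h4
      _ = _ := by ring
  have hS2 : S ≤ (K * τ + 7 * η) * θ * N := le_of_mul_le_mul_left hS1 (by linarith)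
  show ∑ k, w0 k ≤ _
  rw [hsplit]
  calc S + ∑ k ∈ Finset.univ.filter (fun k => ¬ h ≤ d k), w0 k ≤ (K * τ + 7 * η) * θ * N + h * N := by linarith
    _ = (K * τ + 8 * η) * θ * N := by rw [hh]; ring

end TZ
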