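import Pool.Agent.TZ.AsmG
import Pool.Agent.TZ.HCd
import Pool.Agent.TZ.HSch
import Pool.Agent.TZ.HUb
import Pool.Agent.TZ.HDet
import Pool.Agent.TZ.HFold
import Pool.Agent.TZ.HNum

/-!
Project TZ (MP_b753aa_pr), part three, module HOne: the deterministic statement for one sign.
-/

noncomputable section

namespace TZ

open MeasureTheory ProbabilityTheory Filter Topology Matrix
open scoped Real

theorem XUp_neg {m : ℕ} {x : Fin m → ℝ} {η θ : ℝ} {L q M : ℕ} (h : XUp x η θ L q M) :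
    XUp (fun i => -x i) η θ L q M := by
  refine ⟨?_, ?_, ?_⟩
  · intro y C hC hq
    simpa using h.sq y C hC hq
  · obtain ⟨F, hF, h1⟩ := h.few
    refine ⟨F, hF, fun y C hC hne hq hs => h1 y C hC hne hq ?_⟩
    simpa using hs
  · intro k hk
    simpa using h.edge k hk

theorem Hw_sub {n : ℕ} {d d' : Fin (2 * n) → ℝ} {h : ℝ} (h0 : 0 < h) (hd : ∀ k, d' k = d k ∨ d' k = 0)
    (y L : ℕ) : Hw d' h y L ⊆ Hw d h y L := by
  intro k hk
  unfold Hw at hk ⊢
  rw [Finset.mem_filter] at hk ⊢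
  refine ⟨hk.1, hk.2.1, hk.2.2.1, ?_⟩
  rcases hd k with h1 | h1
  · rw [← h1]
    exact hk.2.2.2
  · have := hk.2.2.2
    rw [h1] at this
    linarith

theorem Hw_eq {n : ℕ} {d d' : Fin (2 * n) → ℝ} {h : ℝ} (h0 : 0 < h) (hd : ∀ k, d' k = d k ∨ d' k = 0)
    {y L : ℕ} {k : Fin (2 * n)} (hk : k ∈ Hw d' h y L) : d' k = d k := by
  rcases hd k with h1 | h1
  · exact h1
  · unfold Hw at hk
    rw [Finset.mem_filter] at hk
    have := hk.2.2.2
    rw [h1] at this
    linarith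

theorem Hw_sum {n : ℕ} {d d' : Fin (2 * n) → ℝ} {h : ℝ} (h0 : 0 < h) (hd : ∀ k, d' k = d k ∨ d' k = 0)
    (y L : ℕ) : ∑ k ∈ Hw d' h y L, d' k ^ 2 ≤ ∑ k ∈ Hw d h y L, d k ^ 2 := by
  rw [Finset.sum_congr rfl fun k hk => by rw [Hw_eq h0 hd hk]]
  exact Finset.sum_le_sum_of_subset_of_nonneg (Hw_sub h0 hd y L) fun k _ _ => sq_nonneg _

theorem DUp_sub {n : ℕ} {d d' : Fin (2 * n) → ℝ} {η θ : ℝ} {L q M : ℕ} (h : DUp d η θ L q M)
    (hη : 0 < η) (hθ : 0 < θ) (hd : ∀ k, d' k = d k ∨ d' k = 0) : DUp d' η θ L q M := by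
  have h0 : 0 < η * θ := mul_pos hη hθ
  refine ⟨fun y => (Finset.card_le_card (Hw_sub h0 hd y L)).trans (h.cnt y),
    fun y => (Hw_sum h0 hd y L).trans (h.sq y), ?_, ?_, ?_⟩
  · intro k hk
    rcases hd k with h1 | h1
    · exact h.edge k (by rw [← h1]; exact hk)
    · rw [h1] at hk
      linarith
  · obtain ⟨F, hF, h1⟩ := h.few
    exact ⟨F, hF, fun y hne hs => h1 y (hne.mono (Hw_sub h0 hd y L)) (hs.trans (Hw_sum h0 hd y L))⟩
  · intro k
    rcases hd k with h1 | h1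
    · rw [h1]
      exact h.bd k
    · rw [h1, abs_zero]
      linarith

/-- high sites of both signs -/
theorem cnt_abs {n : ℕ} {d : Fin (2 * n) → ℝ} {η θ : ℝ} {L q M : ℕ} (h : DUp d η θ L q M)
    (h' : DUp (fun k => -d k) η θ L q M) (y : ℕ) :
    ((Finset.univ.filter fun k : Fin (2 * n) => η * θ ≤ |d k|).filter
      fun k : Fin (2 * n) => y ≤ (k : ℕ) ∧ (k : ℕ) < y + L).card ≤ 2 * q := by
  refine le_trans (Finset.card_le_card (t := Hw d (η * θ) y L ∪ Hw (fun k => -d k) (η * θ) y L) ?_)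
    ((Finset.card_union_le _ _).trans (by have := h.cnt y; have := h'.cnt y; omega))
  intro k hk
  simp only [Finset.mem_filter, Finset.mem_univ, true_and] at hk
  unfold Hw
  simp only [Finset.mem_union, Finset.mem_filter, Finset.mem_univ, true_and]
  rcases le_abs.1 hk.1 with h1 | h1
  · exact Or.inl ⟨hk.2.1, hk.2.2, h1⟩
  · exact Or.inr ⟨hk.2.1, hk.2.2, h1⟩

/-- the event for one sign -/
structure Ev (η : ℝ) (n : ℕ) (a : Fin n → ℝ) : Prop where
  up : ∀ hn : 2 ≤ n, XUp (fun i : Fin (n - 1) => dr n a 0 ⟨(i : ℕ) + 1, by omega⟩) η (th n) (rr η n ^ 2)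
    (qq η) (MM η n)
  z : ¬ ∃ k : Fin (2 * n), ((k : ℕ) = 0 ∨ (k : ℕ) = n) ∧ η * th n ≤ |dr n a 0 k|
  v : ∃ v : Fin (2 * n) → ℂ, PP n *ᵥ v = v ∧ ∑ k, ‖v k‖ ^ 2 = 1 ∧
    (K0 - 4 * η) * th n ≤ ∑ k, dr n a 0 k * ‖v k‖ ^ 2
  few : ∀ i : ℕ, i * η ≤ 2 → ∃ F : Finset ℕ, (F.card : ℝ) ≤ (n : ℝ) ^ (1 - (i * η) ^ 2 + η) ∧
    ∀ (y : ℕ) (C : Finset (Fin (n - 1))), (∀ k ∈ C, y ≤ (k : ℕ) ∧ (k : ℕ) < y + rr η n ^ 2) → C.Nonempty →
      C.card ≤ qq η → (i * η * th n) ^ 2 ≤ ∑ k ∈ C, dr n a 0 ⟨(k : ℕ) + 1, by omega⟩ ^ 2 → y ∈ F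

theorem hone {ε η g : ℝ} {J : ℕ} (hη : 0 < η) (hη1 : η ≤ 1 / 10000) (hg : 0 < g) (hg1 : g ≤ 1) (hJ : 1 ≤ J)
    (hε : 0 < ε) (hε1 : ε ≤ 1) (h1 : 20 * g ≤ ε) (h2 : 200 * η ≤ ε) (h3 : ((6 / √J + 4 * η) / g ^ 2) ^ 2 ≤ ε) :
    ∀ᶠ n : ℕ in atTop, ∀ a : Fin n → ℝ, Ev η n a → ∀ c : ℝ,
      (∀ (v : Fin (2 * n) → ℂ) (lam : ℝ), Eig n a c v lam → lam ≤ (K0 + 9 * η) * th n) ∧
      (∃ (v : Fin (2 * n) → ℂ) (lam : ℝ), Eig n a c v lam ∧ (K0 - 4 * η) * th n ≤ lam) ∧
      ∀ (v : Fin (2 * n) → ℂ) (lam : ℝ), Eig n a c v lam → 0 ≤ lam →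
        ∃ S : Finset (Fin (2 * n)), (S.card : ℝ) ≤ (n : ℝ) ^ (1 - (lam / (K0 * th n)) ^ 2 + ε) ∧
          1 - ε ≤ ∑ j ∈ S, ‖v j‖ ^ 2 := by
  filter_upwards [eventually_ge_atTop 2, ev_r hη, ev_L hη hη1, ev_q hη (qq η),
    ev_sch hη (qq η), ev_beta (b := (η / 6) ^ 2) hη (by positivity) (2 * qq η),
    ev_pow (a := 0) (b := η) (C := 32 * (J + 1)) hη,
    ev_pow (a := 1) (b := 1 + ε / 2) (C := 2) (by linarith)] with n hn hr hL hq hsch hbeta hpow hpow2 a hE c
  obtain ⟨hX, h0, hv0, hfew⟩ := hE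
  replace hX := hX hn
  have hθ := th_pos hn
  have hn0 : (0 : ℝ) < n := by exact_mod_cast (show 0 < n by omega)
  have hn1 : (1 : ℝ) ≤ n := by exact_mod_cast (show 1 ≤ n by omega)
  have hrpos : 1 ≤ rr η n := by
    by_contra hcon
    have : rr η n = 0 := by omega
    rw [this] at hr
    norm_num at hr
  have hL1 : 1 ≤ rr η n ^ 2 := Nat.one_le_pow _ _ hrpos
  have hrL : rr η n ≤ rr η n ^ 2 := by
    rw [sq]
    exact Nat.le_mul_of_pos_left _ hrpos
  have hsym : ∀ k k' : Fin (2 * n), (k : ℕ) + (k' : ℕ) = 2 * n → dr n a 0 k = dr n a 0 k' := fun k k' h =>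
    dr_symm n _ _ k k' h
  have h0' : ∀ k : Fin (2 * n), ((k : ℕ) = 0 ∨ (k : ℕ) = n) → |dr n a 0 k| < η * th n := by
    intro k hk
    by_contra hcon
    exact h0 ⟨k, hk, not_lt.1 hcon⟩
  have hdx : ∀ (k : Fin (2 * n)) (i : Fin (n - 1)), (k : ℕ) = (i : ℕ) + 1 →
      dr n a 0 k = dr n a 0 ⟨(i : ℕ) + 1, by omega⟩ := by
    intro k i hki
    have : k = ⟨(i : ℕ) + 1, by omega⟩ := Fin.ext hki
    rw [← this]
  have hD : DUp (dr n a 0) η (th n) (rr η n ^ 2) (qq η) (2 * MM η n) :=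
    fold hX hL1 (qq_ge hη) hη (by linarith) hθ hdx hsym h0'
  have hD' : DUp (fun k => -dr n a 0 k) η (th n) (rr η n ^ 2) (qq η) (2 * MM η n) :=
    fold (XUp_neg hX) hL1 (qq_ge hη) hη (by linarith) hθ (fun k i hki => by rw [hdx k i hki])
      (fun k k' h => by rw [hsym k k' h]) (fun k hk => by rw [abs_neg]; exact h0' k hk)
  have hdec : ∀ k l : Fin (2 * n), k ≠ l → ‖PP n k l‖ ≤ 1 / (2 * (cd k l : ℝ)) := PP_dec n
  have hne : ∀ k l : Fin (2 * n), rr η n ≤ cd k l → k ≠ l := by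
    rintro k l h rfl
    rw [cd_self] at h
    omega
  have hub0 : ∀ (d' : Fin (2 * n) → ℝ) (τ : ℝ), (∀ k, d' k = dr n a 0 k ∨ d' k = 0) → 0 ≤ τ → τ ≤ 2 →
      (∀ y : ℕ, ∑ k ∈ Hw d' (η * th n) y (rr η n ^ 2), d' k ^ 2 ≤ (τ * th n) ^ 2) →
      ∀ w : Fin (2 * n) → ℂ, PP n *ᵥ w = w →
        ∑ k, d' k * ‖w k‖ ^ 2 ≤ (K0 * τ + 8 * η) * th n * ∑ k, ‖w k‖ ^ 2 := by
    intro d' τ hd' hτ0 hτ2 hsq w hw
    have hDs := DUp_sub hD hη hθ hd'
    refine ubE (PP_herm n) (PP_idem n) hDs ?_ ?_ hη hη1 (by linarith [K0_half]) K0_le hθ hr hτ0 hτ2 hsq hw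
    · intro C ⟨y, hy⟩ hC x g' hx
      refine (transfer C hy hL hC x g' hx).trans ?_
      refine mul_le_mul_of_nonneg_right (mul_le_mul_of_nonneg_right ?_ (Real.sqrt_nonneg _))
        (Finset.sum_nonneg fun _ _ => by positivity)
      linarith
    · intro k
      have h3 := sch (Finset.univ.filter fun l : Fin (2 * n) => η * th n ≤ d' l) (L := rr η n ^ 2)
        (q := qq η) hrpos hrL (fun y => by
          have h4 := hDs.cnt y
          unfold Hw at h4
          rw [Finset.filter_filter]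
          refine le_trans (le_of_eq ?_) h4
          congr 1
          ext l
          simp only [Finset.mem_filter, Finset.mem_univ, true_and]
          tauto) k
      rw [Finset.filter_filter] at h3
      refine le_trans (Finset.sum_le_sum fun l hl => ?_) (h3.trans hsch)
      rw [Finset.mem_filter] at hl
      exact hdec k l (hne k l hl.2.2)
  have hval : ∀ (v : Fin (2 * n) → ℂ) (lam : ℝ), Eig n a c v lam → ∑ k, dr n a 0 k * ‖v k‖ ^ 2 = lam := by
    intro v lam hv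
    refine ray_val (PP_herm n) _ hv.ran hv.unit ?_
    rw [gen_mat a c]
    exact hv.eig
  have hupper : ∀ (v : Fin (2 * n) → ℂ) (lam : ℝ), Eig n a c v lam → lam ≤ (K0 + 9 * η) * th n := by
    intro v lam hv
    have h4 := hub0 (dr n a 0) (1 + η) (fun k => Or.inl rfl) (by linarith) (by linarith)
      (fun y => hD.sq y) v hv.ran
    rw [hval v lam hv, hv.unit, mul_one] at h4
    refine h4.trans (mul_le_mul_of_nonneg_right ?_ hθ.le)
    have := mul_le_mul_of_nonneg_right K0_le hη.le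
    linarith
  refine ⟨hupper, ?_, ?_⟩
  · obtain ⟨v0, hv0, hv01, hv0d⟩ := hv0
    obtain ⟨v', lam', hv', hv'1, hv'e, hv'l⟩ := ray (PP_herm n) (PP_idem n) (dr n a 0) hv0 hv01
    exact ⟨v', lam', ⟨hv', hv'1, by rw [← gen_mat a c]; exact hv'e⟩, hv0d.trans hv'l⟩
  · intro v lam hv hlam0
    have hK := K0_half
    have hK1 := K0_le
    have hKp : 0 < K0 := by linarith
    have hKθ : 0 < K0 * th n := mul_pos hKp hθ
    set z : ℝ := lam / (K0 * th n) with hz
    have hz0 : 0 ≤ z := by positivity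
    by_cases hcase : lam < (8 * η + g) * th n
    · have hz1 : z ≤ 16 * η + 2 * g := by
        rw [hz, div_le_iff₀ hKθ]
        have : (8 * η + g) * th n ≤ (16 * η + 2 * g) * (K0 * th n) := by
          have h5 : (8 * η + g) ≤ (16 * η + 2 * g) * K0 := by nlinarith
          calc (8 * η + g) * th n ≤ ((16 * η + 2 * g) * K0) * th n :=
                mul_le_mul_of_nonneg_right h5 hθ.le
            _ = _ := by ring
        linarith
      have hz2 : z ^ 2 ≤ ε / 2 := by nlinarith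
      refine ⟨Finset.univ, ?_, ?_⟩
      · rw [Finset.card_univ, Fintype.card_fin]
        push_cast
        rw [Real.rpow_one] at hpow2
        refine hpow2.trans (Real.rpow_le_rpow_of_exponent_le hn1 ?_)
        linarith
      · rw [hv.unit]
        linarith
    · rw [not_lt] at hcase
      obtain ⟨t0, ht0⟩ : ∃ t0 : ℝ, t0 = (lam / th n - (8 * η + g)) / K0 := ⟨_, rfl⟩
      have hlt : 8 * η + g ≤ lam / th n := by
        rw [le_div_iff₀ hθ]
        exact hcase
      have ht00 : 0 ≤ t0 := by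
        rw [ht0]
        exact div_nonneg (by linarith) hKp.le
      have hlu : lam / th n ≤ K0 + 9 * η := by
        rw [div_le_iff₀ hθ]
        exact hupper v lam hv
      have ht01 : t0 ≤ 1 + 2 * η := by
        rw [ht0, div_le_iff₀ hKp]
        nlinarith
      have hKt0 : K0 * t0 + 8 * η + g = lam / th n := by
        rw [ht0]
        field_simp
        ring
      obtain ⟨i, hi⟩ : ∃ i : ℕ, i = ⌊t0 / η⌋₊ := ⟨_, rfl⟩
      have hi1 : (i : ℝ) * η ≤ t0 := by
        have := Nat.floor_le (show 0 ≤ t0 / η by positivity)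
        rw [← hi, le_div_iff₀ hη] at this
        exact this
      have hi2 : t0 ≤ (i : ℝ) * η + η := by
        have := (Nat.lt_floor_add_one (t0 / η)).le
        rw [← hi, div_le_iff₀ hη] at this
        linarith
      have hiτ : (0 : ℝ) ≤ (i : ℝ) * η := by positivity
      obtain ⟨F, hF, hFw⟩ := hfew i (by linarith)
      obtain ⟨W, hW, hWw⟩ := hfold (τ := (i : ℝ) * η) (M' := F.card) hX hL1 (qq_ge hη) hη (by linarith) hθ
        hdx hsym h0' ⟨F, le_rfl, hFw⟩
      have hlam : (K0 * ((i : ℝ) * η) + 8 * η + g) * th n ≤ lam := by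
        have h5 : K0 * ((i : ℝ) * η) + 8 * η + g ≤ lam / th n := by
          rw [← hKt0]
          have := mul_le_mul_of_nonneg_left hi1 hKp.le
          linarith
        rwa [le_div_iff₀ hθ] at h5
      have hmain := hdet (J := J) (β := (η / 6) ^ 2) (PP_herm n) (PP_idem n)
        (fun d' hd' hsq w hw => hub0 d' ((i : ℝ) * η) hd' hiτ (by linarith) hsq w hw)
        (fun F' Z hZ hFZ s => by
          refine (far (X := Finset.univ.filter fun k : Fin (2 * n) => η * th n ≤ |dr n a 0 k|)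
            (L := rr η n ^ 2) (q := 2 * qq η) (r := rr η n) hrpos hrL (cnt_abs hD hD') F' Z
            (fun k hk => Finset.mem_filter.2 ⟨Finset.mem_univ _, hZ k hk⟩) hFZ s).trans ?_
          refine mul_le_mul_of_nonneg_right ?_ (Finset.sum_nonneg fun _ _ => by positivity)
          exact hbeta)
        hD.bd hWw hη hθ hrpos (by positivity) hg hg1 hiτ hKp.le hJ hlam hv.ran hv.unit
        (by rw [gen_mat a c]; exact hv.eig)
      refine ⟨nb W ((J + 1) * rr η n), ?_, ?_⟩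
      · have hc1 : ((nb W ((J + 1) * rr η n)).card : ℝ) ≤
            2 * ((J + 1) * rr η n) * (2 * F.card * (rr η n) ^ 2) := by
          have h6 := nb_card W ((J + 1) * rr η n)
          have h7 : (nb W ((J + 1) * rr η n)).card ≤ 2 * ((J + 1) * rr η n) * (2 * F.card * rr η n ^ 2) :=
            h6.trans (Nat.mul_le_mul_left _ hW)
          exact_mod_cast h7
        have hr2 : (rr η n : ℝ) ≤ 2 * (n : ℝ) ^ (η ^ 3 / 100) := by
          have h8 := rr_le η n
          have h9 := one_le_pow (n := n) (by omega) (a := η ^ 3 / 100) (by positivity)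
          linarith
        have hr0 : (0 : ℝ) ≤ rr η n := Nat.cast_nonneg _
        have hc2 : ((nb W ((J + 1) * rr η n)).card : ℝ) ≤
            32 * (J + 1) * ((n : ℝ) ^ (η ^ 3 / 100)) ^ 3 * (n : ℝ) ^ (1 - (i * η) ^ 2 + η) := by
          have h10 : (rr η n : ℝ) ^ 3 ≤ (2 * (n : ℝ) ^ (η ^ 3 / 100)) ^ 3 := pow_le_pow_left₀ hr0 hr2 3
          calc ((nb W ((J + 1) * rr η n)).card : ℝ) ≤
                2 * ((J + 1) * rr η n) * (2 * F.card * (rr η n) ^ 2) := hc1
            _ = 4 * (J + 1) * ((rr η n : ℝ) ^ 3 * F.card) := by ring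
            _ ≤ 4 * (J + 1) * ((2 * (n : ℝ) ^ (η ^ 3 / 100)) ^ 3 * (n : ℝ) ^ (1 - (i * η) ^ 2 + η)) := by
                refine mul_le_mul_of_nonneg_left (mul_le_mul h10 hF (Nat.cast_nonneg _) (by positivity))
                  (by positivity)
            _ = _ := by ring
        have e1 : ((n : ℝ) ^ (η ^ 3 / 100)) ^ 3 = (n : ℝ) ^ (3 * (η ^ 3 / 100)) := by
          rw [← Real.rpow_natCast, ← Real.rpow_mul hn0.le]
          congr 1
          push_cast
          ring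
        rw [Real.rpow_zero, mul_one] at hpow
        have hc3 : ((nb W ((J + 1) * rr η n)).card : ℝ) ≤
            (n : ℝ) ^ (η + 3 * (η ^ 3 / 100) + (1 - (i * η) ^ 2 + η)) := by
          refine hc2.trans ?_
          have e2 : (n : ℝ) ^ (η + 3 * (η ^ 3 / 100) + (1 - (i * η) ^ 2 + η)) =
              (n : ℝ) ^ η * (n : ℝ) ^ (3 * (η ^ 3 / 100)) * (n : ℝ) ^ (1 - (i * η) ^ 2 + η) := by
            rw [Real.rpow_add hn0 (η + 3 * (η ^ 3 / 100)), Real.rpow_add hn0 η]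
          rw [e1, e2]
          refine mul_le_mul_of_nonneg_right (mul_le_mul_of_nonneg_right hpow ?_) ?_ <;> positivity
        refine hc3.trans (Real.rpow_le_rpow_of_exponent_le hn1 ?_)
        have hzt : z = t0 + (8 * η + g) / K0 := by
          rw [hz, ht0]
          field_simp
          ring
        have h11 : (8 * η + g) / K0 ≤ 16 * η + 2 * g := by
          rw [div_le_iff₀ hKp]
          nlinarith
        have h12 : z ≤ (i : ℝ) * η + (17 * η + 2 * g) := by linarith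
        have h13 : z ^ 2 ≤ ((i : ℝ) * η + (17 * η + 2 * g)) ^ 2 := pow_le_pow_left₀ hz0 h12 2
        have h14 : 17 * η + 2 * g ≤ 37 / 200 * ε := by linarith
        have h15 : (i : ℝ) * η ≤ 1 + 2 * η := hi1.trans ht01
        have h16 : η ^ 3 ≤ η := by nlinarith [sq_nonneg η]
        have h17 : 0 ≤ 17 * η + 2 * g := by linarith
        have h18 : ((i : ℝ) * η) * (17 * η + 2 * g) ≤ 2 * (37 / 200 * ε) :=
          mul_le_mul (by linarith) h14 h17 (by norm_num)
        have h19 : (17 * η + 2 * g) * (17 * η + 2 * g) ≤ 1 * (37 / 200 * ε) :=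
          mul_le_mul (by linarith) h14 h17 (by norm_num)
        nlinarith
      · refine le_trans ?_ hmain
        have h5 : √((η / 6) ^ 2) = η / 6 := Real.sqrt_sq (by positivity)
        rw [h5]
        have h6 : (6 / √J + 3 * η + 6 * (η / 6)) / g ^ 2 = (6 / √J + 4 * η) / g ^ 2 := by ring
        rw [h6]
        linarith

end TZ
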